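import Pool.Agent.LibBE36C.AL2

/-! BE36 part C, row AL3: holomorphy, bounds and real values of the symbols. -/

open MeasureTheory Set Filter Topology
open scoped ContDiff

namespace BE36C

open BE

theorem hE_le {F : ℂ → ℂ} {Q q ρ M τ : ℝ} (h : EA F Q q ρ M) (hQ : 0 < Q) (hq : |q| ≤ Q)
    (hτ : 0 ≤ τ) (z : ℂ) : ‖hE F τ z‖ ≤ (τ + 21 * Q) * M * gE Q q ρ z := by
  have h1 : ‖-(Complex.I * τ) * F z‖ = τ * ‖F z‖ := by
    rw [norm_mul, norm_neg, norm_mul, Complex.norm_I, one_mul, Complex.norm_real,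
      Real.norm_of_nonneg hτ]
  calc ‖hE F τ z‖ ≤ ‖-(Complex.I * τ) * F z‖ + ‖deriv F z‖ := norm_add_le _ _
    _ ≤ τ * (M * gE Q q ρ z) + 21 * Q * M * gE Q q ρ z := by
        rw [h1]
        gcongr
        · exact h.le z
        · exact h.deriv_le hQ hq z
    _ = (τ + 21 * Q) * M * gE Q q ρ z := by ring

theorem hE_diff {F : ℂ → ℂ} (hF : Differentiable ℂ F) (τ : ℝ) : Differentiable ℂ (hE F τ) := by
  have h1 : Differentiable ℂ (deriv F) := by
    intro z
    have := hF.contDiff (n := 2)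
    have h2 : ContDiff ℂ (1 + 1) F := by
      rw [one_add_one_eq_two]
      exact this
    exact (contDiff_succ_iff_deriv.1 h2).2.2.differentiable (by norm_num) z
  unfold hE
  fun_prop

/-- The bound on the line `r + u`. -/
theorem hE_line {F : ℂ → ℂ} {Q q ρ M τ : ℝ} (h : EA F Q q ρ M) (hQ : 0 < Q) (hq : |q| ≤ Q)
    (hτ : 0 ≤ τ) {r : ℂ} (hr : 0 < r.re) {u : ℝ} (hu : 0 < u) :
    ‖hE F τ (r + u) * Complex.exp (-(Complex.I * τ * u))‖ ≤
      (τ + 21 * Q) * M * Real.exp (2 * Q ^ 2 * r.im ^ 2) *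
        Real.exp (-(q ^ 2 / 2 * (max 0 (r.re + u - ρ)) ^ 2)) := by
  have h1 : ‖Complex.exp (-(Complex.I * τ * u))‖ = 1 := by
    rw [Complex.norm_exp]
    simp [Complex.mul_re, Complex.mul_im]
  rw [norm_mul, h1, mul_one]
  refine (hE_le h hQ hq hτ _).trans (le_of_eq ?_)
  rw [gE]
  have h2 : (r + (u : ℂ)).im = r.im := by simp
  have h3 : |(r + (u : ℂ)).re| = r.re + u := by
    rw [Complex.add_re, Complex.ofReal_re, abs_of_pos (by linarith)]
  rw [h2, h3, sub_eq_add_neg, Real.exp_add]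
  ring

theorem al_arr (F : ℂ → ℂ) (τ : ℝ) (j : ℕ) (r : ℂ) :
    (fun u : ℝ => hE F τ (r + u) * kE j r u * Complex.exp (-(Complex.I * τ * u))) =
      fun u : ℝ => (hE F τ (r + u) * Complex.exp (-(Complex.I * τ * u))) * kE j r u := by
  funext u
  ring

theorem alE_bound {F : ℂ → ℂ} {Q q ρ M τ : ℝ} (h : EA F Q q ρ M) (hρ : 0 ≤ ρ) (hq1 : 1 ≤ q)
    (hq : q ≤ Q) (hτ : 0 ≤ τ) (j : ℕ) {r : ℂ} (hr : 0 < r.re) :
    ‖alE j F τ r‖ ≤ (τ + 21 * Q) * M * Real.exp (2 * Q ^ 2 * r.im ^ 2) *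
      Real.exp (-(q ^ 2 / 2 * (max 0 (r.re - ρ)) ^ 2)) * wE j ρ r := by
  have hQ : 0 < Q := by linarith
  have hqa : |q| ≤ Q := by rwa [abs_of_nonneg (by linarith)]
  have hM := h.M_nonneg
  have hd := hE_diff h.diff τ
  have h1 := (al_gen hr hρ hq1 j
    (H := fun u : ℝ => hE F τ (r + u) * Complex.exp (-(Complex.I * τ * u)))
    (by
      have hc : Continuous fun u : ℝ => hE F τ (r + u) := hd.continuous.comp (by fun_prop)
      exact (hc.mul (by fun_prop)).continuousOn)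
    (B := (τ + 21 * Q) * M * Real.exp (2 * Q ^ 2 * r.im ^ 2)) (by positivity)
    (fun u hu => hE_line h hQ hqa hτ hr hu)).2
  obtain ⟨g0, g1⟩ := gam_pre j
  rw [alE, norm_mul, norm_neg, Complex.norm_real, Real.norm_of_nonneg g0, al_arr]
  calc _ ≤ 1 * _ := mul_le_mul_of_nonneg_right g1 (norm_nonneg _)
    _ ≤ _ := by rw [one_mul]; exact h1

theorem kE_diff {u : ℝ} (hu : 0 < u) (j : ℕ) :
    DifferentiableOn ℂ (fun r => kE j r u) {r : ℂ | 0 < r.re} := by
  intro r hr
  apply DifferentiableAt.differentiableWithinAt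
  unfold kE
  exact DifferentiableAt.cpow (by fun_prop) (differentiableAt_const _) (Or.inl (kE_mem hr hu))

theorem alE_diff {F : ℂ → ℂ} {Q q ρ M τ : ℝ} (h : EA F Q q ρ M) (hρ : 0 ≤ ρ) (hq1 : 1 ≤ q)
    (hq : q ≤ Q) (hτ : 0 ≤ τ) (j : ℕ) :
    DifferentiableOn ℂ (alE j F τ) {r : ℂ | 0 < r.re} := by
  have hQ : 0 < Q := by linarith
  have hqa : |q| ≤ Q := by rwa [abs_of_nonneg (by linarith)]
  have hM := h.M_nonneg
  have hd := hE_diff h.diff τ
  have hU : IsOpen {r : ℂ | 0 < r.re} := isOpen_lt continuous_const Complex.continuous_re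
  have key : DifferentiableOn ℂ (fun r : ℂ => ∫ u in Ioi (0 : ℝ),
      hE F τ (r + u) * kE j r u * Complex.exp (-(Complex.I * τ * u))) {r : ℂ | 0 < r.re} := by
    refine hol_int hU measurableSet_Ioi (g := fun r u =>
      hE F τ (r + u) * kE j r u * Complex.exp (-(Complex.I * τ * u))) ?_ ?_ ?_
    · intro u hu
      have h1 : Differentiable ℂ fun r : ℂ => hE F τ (r + u) := hd.comp (by fun_prop)
      exact (h1.differentiableOn.mul (kE_diff hu j)).mul (differentiableOn_const _)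
    · intro r hr
      have hc : Continuous fun u : ℝ => hE F τ (r + u) := hd.continuous.comp (by fun_prop)
      exact ((hc.continuousOn.mul (kE_cont hr j)).mul
        (Continuous.continuousOn (by fun_prop))).aestronglyMeasurable measurableSet_Ioi
    · intro s hs
      have hs' : 0 < s.re := hs
      set x0 : ℝ := s.re / 2 with hx0
      have hx0p : 0 < x0 := by positivity
      set Rr : ℝ := ‖s‖ + x0 with hRr
      have hRr0 : 0 < Rr := by have := norm_nonneg s; positivity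
      obtain ⟨hi, -⟩ := maj_int hρ
      set K : ℝ := (2 * Rr + ρ + 1) ^ (2 * j) * (2 * (16 * (j + 1)) ^ j) / √x0 with hK
      set B : ℝ := (τ + 21 * Q) * M * Real.exp (2 * Q ^ 2 * Rr ^ 2) with hB
      have hB0 : 0 ≤ B := by positivity
      have hK0 : 0 ≤ K := by positivity
      refine ⟨x0, fun u => B * (K *
        (Real.exp (-((3 / 8) * (max 0 (u - ρ)) ^ 2)) * u ^ (-(1 / 2) : ℝ))), hx0p, ?_,
        (hi.const_mul _).const_mul _, ?_⟩
      · intro w hw
        rw [mem_closedBall_iff_norm] at hw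
        have h1 : |w.re - s.re| ≤ x0 := by
          rw [← Complex.sub_re]; exact (Complex.abs_re_le_norm _).trans hw
        have h2 := (abs_le.1 h1).1
        show 0 < w.re
        linarith
      · intro w hw u hu
        rw [mem_Ioi] at hu
        rw [mem_closedBall_iff_norm] at hw
        have h1 : |w.re - s.re| ≤ x0 := by
          rw [← Complex.sub_re]; exact (Complex.abs_re_le_norm _).trans hw
        have h2 : x0 ≤ w.re := by
          have := (abs_le.1 h1).1
          linarith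
        have hw0 : 0 < w.re := by linarith
        have h3 : ‖w‖ ≤ Rr := by
          have : ‖w‖ ≤ ‖s‖ + ‖w - s‖ := by
            have := norm_add_le s (w - s)
            simpa using this
          linarith
        have h4 : w.im ^ 2 ≤ Rr ^ 2 := by
          rw [← sq_abs]
          exact pow_le_pow_left₀ (abs_nonneg _) ((Complex.abs_im_le_norm w).trans h3) 2
        have e : hE F τ (w + u) * kE j w u * Complex.exp (-(Complex.I * τ * u)) =
          (hE F τ (w + u) * Complex.exp (-(Complex.I * τ * u))) * kE j w u := by ring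
        rw [e, norm_mul]
        have h5 := hE_line h hQ hqa hτ hw0 hu
        have h6 := al_core hw0 hρ hq1 j hu
        have hup : 0 ≤ u ^ (-(1 / 2) : ℝ) := Real.rpow_nonneg hu.le _
        calc _ ≤ ((τ + 21 * Q) * M * Real.exp (2 * Q ^ 2 * w.im ^ 2) *
              Real.exp (-(q ^ 2 / 2 * (max 0 (w.re + u - ρ)) ^ 2))) * ‖kE j w u‖ := by gcongr
          _ = ((τ + 21 * Q) * M * Real.exp (2 * Q ^ 2 * w.im ^ 2)) *
              (Real.exp (-(q ^ 2 / 2 * (max 0 (w.re + u - ρ)) ^ 2)) * ‖kE j w u‖) := by ring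
          _ ≤ B * (Real.exp (-(q ^ 2 / 2 * (max 0 (w.re - ρ)) ^ 2)) *
                ((2 * ‖w‖ + ρ + 1) ^ (2 * j) * (2 * (16 * (j + 1)) ^ j) / √w.re) *
                (Real.exp (-((3 / 8) * (max 0 (u - ρ)) ^ 2)) * u ^ (-(1 / 2) : ℝ))) := by
              refine mul_le_mul ?_ h6 (by positivity) hB0
              rw [hB]
              gcongr
          _ ≤ B * (1 * K *
                (Real.exp (-((3 / 8) * (max 0 (u - ρ)) ^ 2)) * u ^ (-(1 / 2) : ℝ))) := by
              have h7 : Real.exp (-(q ^ 2 / 2 * (max 0 (w.re - ρ)) ^ 2)) ≤ 1 := by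
                rw [Real.exp_le_one_iff]
                have : 0 ≤ q ^ 2 / 2 * (max 0 (w.re - ρ)) ^ 2 := by positivity
                linarith
              have h8 : (2 * ‖w‖ + ρ + 1) ^ (2 * j) * (2 * (16 * ((j : ℝ) + 1)) ^ j) / √w.re ≤
                  K := by
                rw [hK]
                have hsq : 0 < √x0 := Real.sqrt_pos.2 hx0p
                have := norm_nonneg w
                gcongr
              have h9 : 0 ≤ (2 * ‖w‖ + ρ + 1) ^ (2 * j) * (2 * (16 * ((j : ℝ) + 1)) ^ j) /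
                  √w.re := by
                have := norm_nonneg w
                positivity
              gcongr
          _ = _ := by ring
  unfold alE
  exact key.const_mul _

theorem kE_real {r u : ℝ} (hr : 0 < r) (hu : 0 < u) (j : ℕ) :
    kE j (r : ℂ) u = (((u * (2 * r + u)) ^ ((j : ℝ) - 1 / 2) : ℝ) : ℂ) := by
  rw [kE, Complex.ofReal_cpow (by positivity)]
  push_cast
  rfl

theorem alE_real {F : ℂ → ℂ} (hF : Differentiable ℂ F) (j : ℕ) (τ : ℝ) {r : ℝ} (hr : 0 < r) :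
    alE j F τ (r : ℂ) = al j (fun t : ℝ => F t) τ r := by
  rw [alE, al]
  congr 1
  refine setIntegral_congr_fun measurableSet_Ioi fun u hu => ?_
  rw [mem_Ioi] at hu
  have h1 : deriv (fun t : ℝ => F t) (r + u) = deriv F ((r : ℂ) + u) := by
    have h2 : HasDerivAt F (deriv F ((r : ℂ) + u)) (((r + u : ℝ)) : ℂ) := by
      push_cast
      exact (hF _).hasDerivAt
    exact h2.comp_ofReal.deriv
  simp only [hE, h1, kE_real hr hu, Complex.ofReal_add]

/-- Exchange of the cut amplitude and the entire amplitude. -/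
theorem al_exch {F : ℂ → ℂ} {f : ℝ → ℂ} {Q q ρ ρ' M M' κ τ : ℝ} (h : EA F Q q ρ M)
    (hρ : 0 ≤ ρ) (hq1 : 1 ≤ q) (hq : q ≤ Q) (hτ : 0 ≤ τ) (hf : BR.Amp f ρ' M') (hκ : 0 ≤ κ)
    (h0 : ∀ t : ℝ, 0 ≤ t → ‖f t - F t‖ ≤ κ * Real.exp (-(q ^ 2 / 2 * (max 0 (t - ρ)) ^ 2)))
    (h1 : ∀ t : ℝ, 0 ≤ t → ‖deriv f t - deriv F t‖ ≤
      κ * Real.exp (-(q ^ 2 / 2 * (max 0 (t - ρ)) ^ 2))) (j : ℕ) {r : ℝ} (hr : 0 < r) :
    ‖al j f τ r - alE j F τ (r : ℂ)‖ ≤ (τ + 1) * κ *
      Real.exp (-(q ^ 2 / 2 * (max 0 (r - ρ)) ^ 2)) * wE j ρ r := by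
  have hQ : 0 < Q := by linarith
  have hqa : |q| ≤ Q := by rwa [abs_of_nonneg (by linarith)]
  have hM := h.M_nonneg
  have hd := hE_diff h.diff τ
  have hrr : 0 < ((r : ℂ)).re := by simpa using hr
  have hfd : Continuous (deriv f) := hf.smooth.continuous_deriv (by simp)
  -- the two integrands
  set H0 : ℝ → ℂ := fun u => (-(Complex.I * τ) * f (r + u) + deriv f (r + u)) *
    Complex.exp (-(Complex.I * τ * u)) with hH0
  set H1 : ℝ → ℂ := fun u => hE F τ ((r : ℂ) + u) * Complex.exp (-(Complex.I * τ * u)) with hH1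
  have hc0 : Continuous H0 := by
    rw [hH0]
    have a1 : Continuous fun u : ℝ => f (r + u) := hf.smooth.continuous.comp (by fun_prop)
    have a2 : Continuous fun u : ℝ => deriv f (r + u) := hfd.comp (by fun_prop)
    exact ((continuous_const.mul a1).add a2).mul (by fun_prop)
  have hc1 : Continuous H1 := by
    have hc : Continuous fun u : ℝ => hE F τ ((r : ℂ) + u) := hd.continuous.comp (by fun_prop)
    exact hc.mul (by fun_prop)
  have hn : ∀ u : ℝ, ‖Complex.exp (-(Complex.I * τ * u))‖ = 1 := by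
    intro u
    rw [Complex.norm_exp]
    simp [Complex.mul_re, Complex.mul_im]
  have hdb : ∀ u, 0 < u → ‖H0 u - H1 u‖ ≤ (τ + 1) * κ *
      Real.exp (-(q ^ 2 / 2 * (max 0 (((r : ℂ)).re + u - ρ)) ^ 2)) := by
    intro u hu
    have e : H0 u - H1 u = (-(Complex.I * τ) * (f (r + u) - F ((r + u : ℝ) : ℂ)) +
        (deriv f (r + u) - deriv F ((r + u : ℝ) : ℂ))) *
          Complex.exp (-(Complex.I * τ * u)) := by
      rw [hH0, hH1]
      simp only [hE]
      push_cast
      ring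
    rw [e, norm_mul, hn, mul_one]
    have b1 := h0 (r + u) (by linarith)
    have b2 := h1 (r + u) (by linarith)
    have b3 : ‖-(Complex.I * τ) * (f (r + u) - F ((r + u : ℝ) : ℂ))‖ =
        τ * ‖f (r + u) - F ((r + u : ℝ) : ℂ)‖ := by
      rw [norm_mul, norm_neg, norm_mul, Complex.norm_I, one_mul, Complex.norm_real,
        Real.norm_of_nonneg hτ]
    rw [Complex.ofReal_re]
    refine (norm_add_le _ _).trans ?_
    rw [b3]
    calc _ ≤ τ * (κ * Real.exp (-(q ^ 2 / 2 * (max 0 (r + u - ρ)) ^ 2))) +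
          κ * Real.exp (-(q ^ 2 / 2 * (max 0 (r + u - ρ)) ^ 2)) := by gcongr
      _ = _ := by ring
  have k1 := al_gen hrr hρ hq1 j (H := fun u => H0 u - H1 u) (hc0.sub hc1).continuousOn
    (B := (τ + 1) * κ) (by positivity) hdb
  have k2 := al_gen hrr hρ hq1 j (H := H1) hc1.continuousOn
    (B := (τ + 21 * Q) * M * Real.exp (2 * Q ^ 2 * ((r : ℂ)).im ^ 2)) (by positivity)
    (fun u hu => hE_line h hQ hqa hτ hrr hu)
  have k3 : IntegrableOn (fun u => H0 u * kE j (r : ℂ) u) (Ioi 0) := by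
    refine (k1.1.add k2.1).congr (Eventually.of_forall fun u => ?_)
    simp only [Pi.add_apply]
    ring
  obtain ⟨g0, g1⟩ := gam_pre j
  have e1 : al j f τ r = -((1 / (√Real.pi * Real.Gamma ((j : ℝ) + 1 / 2)) : ℝ) : ℂ) *
      ∫ u in Ioi (0 : ℝ), H0 u * kE j (r : ℂ) u := by
    rw [al]
    congr 1
    refine setIntegral_congr_fun measurableSet_Ioi fun u hu => ?_
    rw [mem_Ioi] at hu
    simp only [hH0, kE_real hr hu]
    ring
  have e2 : alE j F τ (r : ℂ) = -((1 / (√Real.pi * Real.Gamma ((j : ℝ) + 1 / 2)) : ℝ) : ℂ) *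
      ∫ u in Ioi (0 : ℝ), H1 u * kE j (r : ℂ) u := by
    rw [alE, al_arr]
  have e3 : (∫ u in Ioi (0 : ℝ), H0 u * kE j (r : ℂ) u) -
      ∫ u in Ioi (0 : ℝ), H1 u * kE j (r : ℂ) u =
      ∫ u in Ioi (0 : ℝ), (H0 u - H1 u) * kE j (r : ℂ) u := by
    rw [← integral_sub k3 k2.1]
    congr 1
    funext u
    ring
  rw [e1, e2, ← mul_sub, e3, norm_mul, norm_neg, Complex.norm_real, Real.norm_of_nonneg g0]
  have k4 := k1.2
  rw [Complex.ofReal_re] at k4
  calc _ ≤ 1 * _ := mul_le_mul_of_nonneg_right g1 (norm_nonneg _)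
    _ ≤ _ := by rw [one_mul]; exact k4

end BE36C
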