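import Mathlib

/-! BE36 part C, row CT: the rectangle lemma. -/

open MeasureTheory Set Filter Topology

namespace BE36C

/-- Shift of the interval `[a, b]` to the height `-η`. -/
theorem rect_bound {F : ℂ → ℂ} {a b η B1 B2 B3 : ℝ} (hab : a ≤ b) (hη : 0 ≤ η)
    (hF : DifferentiableOn ℂ F (uIcc a b ×ℂ uIcc (-η) 0))
    (h1 : ∀ x ∈ Icc a b, ‖F ((x : ℂ) - η * Complex.I)‖ ≤ B1)
    (h2 : ∀ v ∈ Icc (0 : ℝ) η, ‖F ((a : ℂ) - v * Complex.I)‖ ≤ B2)
    (h3 : ∀ v ∈ Icc (0 : ℝ) η, ‖F ((b : ℂ) - v * Complex.I)‖ ≤ B3) :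
    ‖∫ x in a..b, F x‖ ≤ (b - a) * B1 + η * (B2 + B3) := by
  have hre : ∀ x y : ℝ, ((x : ℂ) + y * Complex.I).re = x := fun x y => by simp
  have him : ∀ x y : ℝ, ((x : ℂ) + y * Complex.I).im = y := fun x y => by simp
  have key := Complex.integral_boundary_rect_eq_zero_of_differentiableOn F
    ((a : ℂ) + (-η : ℝ) * Complex.I) ((b : ℂ) + (0 : ℝ) * Complex.I)
    (by rw [hre, hre, him, him]; exact hF)
  rw [hre, hre, him, him] at key
  have e0 : (∫ x : ℝ in a..b, F ((x : ℂ) + (0 : ℝ) * Complex.I)) = ∫ x in a..b, F x := by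
    refine intervalIntegral.integral_congr fun x _ => ?_
    simp
  rw [e0] at key
  have e1 : ‖∫ x : ℝ in a..b, F ((x : ℂ) + (-η : ℝ) * Complex.I)‖ ≤ B1 * |b - a| := by
    refine intervalIntegral.norm_integral_le_of_norm_le_const fun x hx => ?_
    rw [uIoc_of_le hab] at hx
    have := h1 x ⟨hx.1.le, hx.2⟩
    have e : (x : ℂ) + (-η : ℝ) * Complex.I = (x : ℂ) - η * Complex.I := by
      push_cast
      ring
    rw [e]
    exact this
  have e2 : ‖∫ y : ℝ in (-η)..0, F ((b : ℂ) + y * Complex.I)‖ ≤ B3 * |0 - -η| := by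
    refine intervalIntegral.norm_integral_le_of_norm_le_const fun y hy => ?_
    rw [uIoc_of_le (by linarith)] at hy
    have := h3 (-y) ⟨by linarith [hy.2], by linarith [hy.1]⟩
    have e : (b : ℂ) - (-y : ℝ) * Complex.I = (b : ℂ) + y * Complex.I := by
      push_cast
      ring
    rw [e] at this
    exact this
  have e3 : ‖∫ y : ℝ in (-η)..0, F ((a : ℂ) + y * Complex.I)‖ ≤ B2 * |0 - -η| := by
    refine intervalIntegral.norm_integral_le_of_norm_le_const fun y hy => ?_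
    rw [uIoc_of_le (by linarith)] at hy
    have := h2 (-y) ⟨by linarith [hy.2], by linarith [hy.1]⟩
    have e : (a : ℂ) - (-y : ℝ) * Complex.I = (a : ℂ) + y * Complex.I := by
      push_cast
      ring
    rw [e] at this
    exact this
  have e4 : (∫ x in a..b, F x) = (∫ x : ℝ in a..b, F ((x : ℂ) + (-η : ℝ) * Complex.I)) +
      Complex.I • (∫ y : ℝ in (-η)..0, F ((b : ℂ) + y * Complex.I)) -
      Complex.I • (∫ y : ℝ in (-η)..0, F ((a : ℂ) + y * Complex.I)) := by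
    linear_combination -key
  rw [e4]
  have n1 : |b - a| = b - a := abs_of_nonneg (by linarith)
  have n2 : |0 - -η| = η := by
    rw [zero_sub, neg_neg, abs_of_nonneg hη]
  rw [n1] at e1
  rw [n2] at e2 e3
  refine (norm_sub_le _ _).trans ?_
  refine (add_le_add (norm_add_le _ _) le_rfl).trans ?_
  rw [norm_smul, norm_smul, Complex.norm_I, one_mul, one_mul]
  linarith

/-- The same for an oscillating integral: the phase decreases downwards with the speed `c`. -/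
theorem rect_phase {G φ : ℂ → ℂ} {a b η c τ M1 M2 M3 : ℝ} (hab : a ≤ b) (hη : 0 ≤ η)
    (hc : 0 ≤ c) (hτ : 0 ≤ τ) (hM1 : 0 ≤ M1) (hM2 : 0 ≤ M2) (hM3 : 0 ≤ M3)
    (hG : DifferentiableOn ℂ G (uIcc a b ×ℂ uIcc (-η) 0))
    (hφ : DifferentiableOn ℂ φ (uIcc a b ×ℂ uIcc (-η) 0))
    (hi : ∀ x ∈ Icc a b, ∀ v ∈ Icc (0 : ℝ) η, (φ ((x : ℂ) - v * Complex.I)).im ≤ -(c * v))
    (h1 : ∀ x ∈ Icc a b, ‖G ((x : ℂ) - η * Complex.I)‖ ≤ M1)
    (h2 : ∀ v ∈ Icc (0 : ℝ) η, ‖G ((a : ℂ) - v * Complex.I)‖ ≤ M2)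
    (h3 : ∀ v ∈ Icc (0 : ℝ) η, ‖G ((b : ℂ) - v * Complex.I)‖ ≤ M3) :
    ‖∫ x in a..b, G x * Complex.exp (-(Complex.I * τ * φ x))‖ ≤
      (b - a) * (M1 * Real.exp (-(c * τ * η))) + η * (M2 + M3) := by
  have hn : ∀ z : ℂ, ‖Complex.exp (-(Complex.I * τ * φ z))‖ = Real.exp (τ * (φ z).im) := by
    intro z
    rw [Complex.norm_exp]
    congr 1
    simp [Complex.mul_re, Complex.mul_im]
  have hle : ∀ x ∈ Icc a b, ∀ v ∈ Icc (0 : ℝ) η,
      ‖Complex.exp (-(Complex.I * τ * φ ((x : ℂ) - v * Complex.I)))‖ ≤ Real.exp (-(c * τ * v)) := by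
    intro x hx v hv
    rw [hn]
    apply Real.exp_le_exp.2
    have := mul_le_mul_of_nonneg_left (hi x hx v hv) hτ
    linarith
  have h1' : ∀ x ∈ Icc a b, ∀ v ∈ Icc (0 : ℝ) η,
      ‖Complex.exp (-(Complex.I * τ * φ ((x : ℂ) - v * Complex.I)))‖ ≤ 1 := by
    intro x hx v hv
    refine (hle x hx v hv).trans ?_
    rw [Real.exp_le_one_iff]
    have : 0 ≤ c * τ * v := mul_nonneg (mul_nonneg hc hτ) hv.1
    linarith
  have hF : DifferentiableOn ℂ (fun z => G z * Complex.exp (-(Complex.I * τ * φ z)))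
      (uIcc a b ×ℂ uIcc (-η) 0) := hG.mul ((hφ.const_mul _).neg.cexp)
  refine rect_bound (F := fun z => G z * Complex.exp (-(Complex.I * τ * φ z))) hab hη hF
    ?_ ?_ ?_
  · intro x hx
    rw [norm_mul]
    exact mul_le_mul (h1 x hx) (hle x hx η ⟨hη, le_rfl⟩) (norm_nonneg _) hM1
  · intro v hv
    rw [norm_mul]
    have := mul_le_mul (h2 v hv) (h1' a ⟨le_rfl, hab⟩ v hv) (norm_nonneg _) hM2
    rwa [mul_one] at this
  · intro v hv
    rw [norm_mul]
    have := mul_le_mul (h3 v hv) (h1' b ⟨hab, le_rfl⟩ v hv) (norm_nonneg _) hM3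
    rwa [mul_one] at this

end BE36C
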