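import Mathlib

/-! BE36, row FC: the flow of a holomorphic vector field in complex time. -/

open Metric Set Filter Topology

namespace BE36C

variable {E : Type*} [NormedAddCommGroup E] [NormedSpace ℂ E]
variable {G : Type*} [NormedAddCommGroup G] [NormedSpace ℂ G]

/-- Cauchy's estimate for the derivative. -/
theorem cau_fderiv {V : E → G} {x : E} {r M : ℝ} (hr : 0 < r)
    (hV : DifferentiableOn ℂ V (ball x r)) (hM : ∀ e ∈ ball x r, ‖V e‖ ≤ M) :
    ‖fderiv ℂ V x‖ ≤ 2 * M / r := by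
  have hM0 : 0 ≤ M := (norm_nonneg _).trans (hM x (mem_ball_self hr))
  refine ContinuousLinearMap.opNorm_le_bound _ (by positivity) fun w => ?_
  rcases eq_or_ne w 0 with rfl | hw
  · simp
  have hw0 : 0 < ‖w‖ := norm_pos_iff.2 hw
  set ρ : ℝ := r / (2 * ‖w‖) with hρ
  have hρ0 : 0 < ρ := by positivity
  have hρw : ρ * ‖w‖ = r / 2 := by rw [hρ]; field_simp
  have hmem : ∀ ζ : ℂ, ζ ∈ closedBall (0 : ℂ) ρ → x + ζ • w ∈ ball x r := by
    intro ζ hζ
    rw [mem_closedBall_zero_iff] at hζ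
    rw [mem_ball_iff_norm, add_sub_cancel_left, norm_smul]
    calc ‖ζ‖ * ‖w‖ ≤ ρ * ‖w‖ := by gcongr
      _ < r := by rw [hρw]; linarith
  have hVx : DifferentiableAt ℂ V x := (hV x (mem_ball_self hr)).differentiableAt
    (isOpen_ball.mem_nhds (mem_ball_self hr))
  have hd : HasDerivAt (fun ζ : ℂ => V (x + ζ • w)) (fderiv ℂ V x w) 0 := by
    have h1 : HasDerivAt (fun ζ : ℂ => x + ζ • w) w 0 := by
      simpa using ((hasDerivAt_id (0 : ℂ)).smul_const w).const_add x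
    have h2 : HasFDerivAt V (fderiv ℂ V x) (x + (0 : ℂ) • w) := by
      simpa using hVx.hasFDerivAt
    exact h2.comp_hasDerivAt 0 h1
  have hdc : DiffContOnCl ℂ (fun ζ : ℂ => V (x + ζ • w)) (ball 0 ρ) := by
    apply DifferentiableOn.diffContOnCl
    rw [closure_ball _ hρ0.ne']
    intro ζ hζ
    have h1 : DifferentiableAt ℂ V (x + ζ • w) := (hV _ (hmem ζ hζ)).differentiableAt
      (isOpen_ball.mem_nhds (hmem ζ hζ))
    have h2 : DifferentiableAt ℂ (fun ζ : ℂ => x + ζ • w) ζ := by fun_prop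
    exact (h1.comp ζ h2).differentiableWithinAt
  have h3 := Complex.norm_deriv_le_of_forall_mem_sphere_norm_le hρ0 hdc
    (fun ζ hζ => hM _ (hmem ζ (sphere_subset_closedBall hζ)))
  rw [hd.deriv] at h3
  calc ‖fderiv ℂ V x w‖ ≤ M / ρ := h3
    _ = 2 * M / r * ‖w‖ := by rw [hρ]; field_simp

theorem cau_lip {V : E → G} {x : E} {R M : ℝ} (hR : 0 < R)
    (hV : DifferentiableOn ℂ V (ball x R)) (hM : ∀ e ∈ ball x R, ‖V e‖ ≤ M) {e e' : E}
    (he : e ∈ ball x (R / 2)) (he' : e' ∈ ball x (R / 2)) :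
    ‖V e - V e'‖ ≤ 4 * M / R * ‖e - e'‖ := by
  have hsub : ∀ y ∈ ball x (R / 2), ball y (R / 2) ⊆ ball x R := by
    intro y hy
    apply ball_subset_ball'
    rw [mem_ball] at hy
    linarith
  refine Convex.norm_image_sub_le_of_norm_fderiv_le (𝕜 := ℂ) (s := ball x (R / 2))
    (fun y hy => ?_) (fun y hy => ?_) (convex_ball _ _) he' he
  · have hy' : y ∈ ball x R := hsub y hy (mem_ball_self (by linarith))
    exact (hV y hy').differentiableAt (isOpen_ball.mem_nhds hy')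
  · have h1 := cau_fderiv (V := V) (x := y) (r := R / 2) (M := M) (by linarith)
      (hV.mono (hsub y hy)) (fun e he => hM e (hsub y hy he))
    calc ‖fderiv ℂ V y‖ ≤ 2 * M / (R / 2) := h1
      _ = 4 * M / R := by field_simp; ring

/-- Two solutions coincide; `𝕜` is the real line or the complex plane. -/
theorem sol_unique {𝕜 : Type*} [RCLike 𝕜] {F : Type*} [NormedAddCommGroup F] [NormedSpace 𝕜 F]
    {V : F → F} {L r : ℝ} (hLr : L * r ≤ 1 / 2) {S : Set F} {B : ℝ}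
    (hL : ∀ e ∈ S, ∀ e' ∈ S, ‖V e - V e'‖ ≤ L * ‖e - e'‖) (hB : ∀ e ∈ S, ∀ e' ∈ S, ‖e - e'‖ ≤ B)
    (hL0 : 0 ≤ L) {u w : 𝕜 → F} (h0 : u 0 = w 0)
    (hu : ∀ z ∈ ball (0 : 𝕜) r, HasDerivAt u (V (u z)) z ∧ u z ∈ S)
    (hw : ∀ z ∈ ball (0 : 𝕜) r, HasDerivAt w (V (w z)) z ∧ w z ∈ S) :
    ∀ z ∈ ball (0 : 𝕜) r, u z = w z := by
  have key : ∀ n : ℕ, ∀ z ∈ ball (0 : 𝕜) r, ‖u z - w z‖ ≤ B / 2 ^ n := by
    intro n
    induction n with
    | zero =>
      intro z hz
      simpa using hB _ (hu z hz).2 _ (hw z hz).2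
    | succ n ih =>
      intro z hz
      have hr : 0 < r := by
        by_contra hr
        rw [ball_eq_empty.2 (not_lt.1 hr)] at hz
        exact hz
      have hB0 : 0 ≤ B / 2 ^ n := (norm_nonneg _).trans (ih z hz)
      have h1 : ‖(u z - w z) - (u 0 - w 0)‖ ≤ L * (B / 2 ^ n) * ‖z - 0‖ := by
        refine Convex.norm_image_sub_le_of_norm_hasDerivWithin_le (𝕜 := 𝕜)
          (f := fun z => u z - w z) (f' := fun z => V (u z) - V (w z))
          (s := ball (0 : 𝕜) r) (fun y hy => ?_) (fun y hy => ?_) (convex_ball _ _)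
          (mem_ball_self hr) hz
        · exact ((hu y hy).1.sub (hw y hy).1).hasDerivWithinAt
        · calc ‖V (u y) - V (w y)‖ ≤ L * ‖u y - w y‖ := hL _ (hu y hy).2 _ (hw y hy).2
            _ ≤ L * (B / 2 ^ n) := by gcongr; exact ih y hy
      rw [h0, sub_self, sub_zero, sub_zero] at h1
      have h2 : ‖z‖ ≤ r := (mem_ball_zero_iff.1 hz).le
      calc ‖u z - w z‖ ≤ L * (B / 2 ^ n) * ‖z‖ := h1
        _ ≤ L * (B / 2 ^ n) * r := by gcongr
        _ = (L * r) * (B / 2 ^ n) := by ring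
        _ ≤ 1 / 2 * (B / 2 ^ n) := by gcongr
        _ = B / 2 ^ (n + 1) := by rw [pow_succ]; ring
  intro z hz
  have h1 : Tendsto (fun n : ℕ => B / 2 ^ n) atTop (𝓝 0) := by
    have h2 : Tendsto (fun n : ℕ => B * (1 / 2 : ℝ) ^ n) atTop (𝓝 (B * 0)) :=
      (tendsto_pow_atTop_nhds_zero_of_lt_one (by norm_num) (by norm_num)).const_mul B
    simpa [div_eq_mul_inv] using h2
  have h3 : ‖u z - w z‖ ≤ 0 := ge_of_tendsto' h1 fun n => key n z hz
  exact sub_eq_zero.1 (norm_le_zero_iff.1 h3)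

variable [CompleteSpace E]

theorem prim {g : ℂ → E} {r M : ℝ} (hg : DifferentiableOn ℂ g (ball 0 r))
    (hM : ∀ z ∈ ball (0 : ℂ) r, ‖g z‖ ≤ M) (x : E) : ∃ c : ℂ → E, c 0 = x ∧
      (∀ z ∈ ball (0 : ℂ) r, HasDerivAt c (g z) z) ∧ ∀ z ∈ ball (0 : ℂ) r, ‖c z - x‖ ≤ M * ‖z‖ := by
  obtain ⟨c, hc0, hc⟩ := hg.isExactOn_ball.with_val_at 0 x
  refine ⟨c, hc0, hc, fun z hz => ?_⟩
  have hr : 0 < r := by
    by_contra hr
    rw [ball_eq_empty.2 (not_lt.1 hr)] at hz
    exact hz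
  have h1 := Convex.norm_image_sub_le_of_norm_hasDerivWithin_le (𝕜 := ℂ) (f := c) (f' := g)
    (s := ball (0 : ℂ) r) (fun y hy => (hc y hy).hasDerivWithinAt) hM (convex_ball _ _)
    (mem_ball_self hr) hz
  rwa [hc0, sub_zero] at h1

/-- The flow of a holomorphic vector field for small complex times. -/
theorem flow_ex {V : E → E} {x : E} {R M : ℝ} (hR : 0 < R) (hM0 : 0 < M)
    (hV : DifferentiableOn ℂ V (ball x R)) (hM : ∀ e ∈ ball x R, ‖V e‖ ≤ M) :
    ∃ c : ℂ → E, c 0 = x ∧ ∀ z ∈ ball (0 : ℂ) (R / (8 * M)),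
      HasDerivAt c (V (c z)) z ∧ ‖c z - x‖ ≤ M * ‖z‖ := by
  set r : ℝ := R / (8 * M) with hr
  have hr0 : 0 < r := by positivity
  have hMr : M * r = R / 8 := by rw [hr]; field_simp
  have hin : ∀ z ∈ ball (0 : ℂ) r, ∀ e : E, ‖e - x‖ ≤ M * ‖z‖ → e ∈ ball x (R / 2) := by
    intro z hz e he
    rw [mem_ball_iff_norm]
    have h1 : M * ‖z‖ ≤ M * r := by
      have := (mem_ball_zero_iff.1 hz).le
      gcongr
    linarith
  let P : (ℂ → E) → Prop := fun c => DifferentiableOn ℂ c (ball 0 r) ∧ c 0 = x ∧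
    ∀ z ∈ ball (0 : ℂ) r, ‖c z - x‖ ≤ M * ‖z‖
  have hcomp : ∀ c : ℂ → E, P c → DifferentiableOn ℂ (fun z => V (c z)) (ball 0 r) ∧
      ∀ z ∈ ball (0 : ℂ) r, ‖V (c z)‖ ≤ M := by
    intro c hc
    have hm : ∀ z ∈ ball (0 : ℂ) r, c z ∈ ball x R := fun z hz =>
      ball_subset_ball (by linarith) (hin z hz _ (hc.2.2 z hz))
    exact ⟨hV.comp hc.1 hm, fun z hz => hM _ (hm z hz)⟩
  have hnext : ∀ c : {c : ℂ → E // P c}, ∃ c' : {c : ℂ → E // P c},
      ∀ z ∈ ball (0 : ℂ) r, HasDerivAt c'.1 (V (c.1 z)) z := by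
    intro c
    obtain ⟨h1, h2⟩ := hcomp c.1 c.2
    obtain ⟨c', h3, h4, h5⟩ := prim h1 h2 x
    exact ⟨⟨c', fun z hz => (h4 z hz).differentiableAt.differentiableWithinAt, h3, h5⟩, h4⟩
  choose nx hnx using hnext
  let c0 : {c : ℂ → E // P c} := ⟨fun _ => x, differentiableOn_const _, rfl, fun z _ => by
    rw [sub_self, norm_zero]; positivity⟩
  let s : ℕ → {c : ℂ → E // P c} := fun n => nx^[n] c0
  have hs : ∀ n, s (n + 1) = nx (s n) := fun n => Function.iterate_succ_apply' nx n c0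
  have hsd : ∀ n, ∀ z ∈ ball (0 : ℂ) r, HasDerivAt (s (n + 1)).1 (V ((s n).1 z)) z := by
    intro n z hz
    rw [hs]
    exact hnx (s n) z hz
  have hdist : ∀ n, ∀ z ∈ ball (0 : ℂ) r, ‖(s (n + 1)).1 z - (s n).1 z‖ ≤ R / 8 / 2 ^ n := by
    intro n
    induction n with
    | zero =>
      intro z hz
      have h1 := (s 1).2.2.2 z hz
      have h2 : (s 0).1 z = x := rfl
      rw [h2]
      have h3 := (mem_ball_zero_iff.1 hz).le
      calc ‖(s 1).1 z - x‖ ≤ M * ‖z‖ := h1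
        _ ≤ M * r := by gcongr
        _ = R / 8 / 2 ^ 0 := by rw [hMr]; simp
    | succ n ih =>
      intro z hz
      have h1 : ‖((s (n + 2)).1 z - (s (n + 1)).1 z) - ((s (n + 2)).1 0 - (s (n + 1)).1 0)‖ ≤
          4 * M / R * (R / 8 / 2 ^ n) * ‖z - 0‖ := by
        refine Convex.norm_image_sub_le_of_norm_hasDerivWithin_le (𝕜 := ℂ)
          (f := fun z => (s (n + 2)).1 z - (s (n + 1)).1 z)
          (f' := fun z => V ((s (n + 1)).1 z) - V ((s n).1 z))
          (s := ball (0 : ℂ) r) (fun y hy => ?_) (fun y hy => ?_) (convex_ball _ _)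
          (mem_ball_self hr0) hz
        · exact ((hsd (n + 1) y hy).sub (hsd n y hy)).hasDerivWithinAt
        · calc ‖V ((s (n + 1)).1 y) - V ((s n).1 y)‖
              ≤ 4 * M / R * ‖(s (n + 1)).1 y - (s n).1 y‖ :=
                cau_lip hR hV hM (hin y hy _ ((s (n + 1)).2.2.2 y hy))
                  (hin y hy _ ((s n).2.2.2 y hy))
            _ ≤ 4 * M / R * (R / 8 / 2 ^ n) := by gcongr; exact ih y hy
      rw [(s (n + 2)).2.2.1, (s (n + 1)).2.2.1, sub_self, sub_zero, sub_zero] at h1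
      have h3 := (mem_ball_zero_iff.1 hz).le
      calc ‖(s (n + 1 + 1)).1 z - (s (n + 1)).1 z‖
          ≤ 4 * M / R * (R / 8 / 2 ^ n) * ‖z‖ := h1
        _ ≤ 4 * M / R * (R / 8 / 2 ^ n) * r := by gcongr
        _ = R / 8 / 2 ^ (n + 1) := by rw [hr, pow_succ]; field_simp; ring
  have hgeo : ∀ z ∈ ball (0 : ℂ) r, ∀ n, dist ((s n).1 z) ((s (n + 1)).1 z) ≤
      (R / 8) * 2 / 2 / 2 ^ n := by
    intro z hz n
    rw [dist_comm, dist_eq_norm]
    have := hdist n z hz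
    have e : R / 8 * 2 / 2 = R / 8 := by ring
    rw [e]
    exact this
  have hlim : ∀ z ∈ ball (0 : ℂ) r, ∃ e, Tendsto (fun n => (s n).1 z) atTop (𝓝 e) := fun z hz =>
    cauchySeq_tendsto_of_complete (cauchySeq_of_le_geometric_two (hgeo z hz))
  choose! c hc using hlim
  have hunif : TendstoUniformlyOn (fun n => (s n).1) c atTop (ball 0 r) := by
    rw [Metric.tendstoUniformlyOn_iff]
    intro ε hε
    have h1 : Tendsto (fun n : ℕ => (R / 8) * 2 / 2 ^ n) atTop (𝓝 0) := by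
      have h2 : Tendsto (fun n : ℕ => (R / 8) * 2 * (1 / 2 : ℝ) ^ n) atTop
          (𝓝 ((R / 8) * 2 * 0)) :=
        (tendsto_pow_atTop_nhds_zero_of_lt_one (by norm_num) (by norm_num)).const_mul _
      simpa [div_eq_mul_inv] using h2
    filter_upwards [h1.eventually (gt_mem_nhds hε)] with n hn z hz
    rw [dist_comm]
    exact (dist_le_of_le_geometric_two_of_tendsto (hgeo z hz) (hc z hz) n).trans_lt hn
  have hdiff : ∀ n, DifferentiableOn ℂ (s n).1 (ball 0 r) := fun n => (s n).2.1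
  have hcd : DifferentiableOn ℂ c (ball 0 r) :=
    hunif.tendstoLocallyUniformlyOn.differentiableOn (Eventually.of_forall hdiff) isOpen_ball
  have hle : ∀ z ∈ ball (0 : ℂ) r, ‖c z - x‖ ≤ M * ‖z‖ := by
    intro z hz
    have h1 : Tendsto (fun n => ‖(s n).1 z - x‖) atTop (𝓝 ‖c z - x‖) :=
      ((hc z hz).sub_const x).norm
    exact le_of_tendsto' h1 fun n => (s n).2.2.2 z hz
  have hc0 : c 0 = x := by
    have h1 := hle 0 (mem_ball_self hr0)
    rw [norm_zero, mul_zero] at h1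
    exact sub_eq_zero.1 (norm_le_zero_iff.1 h1)
  refine ⟨c, hc0, fun z hz => ⟨?_, hle z hz⟩⟩
  have hz1 : DifferentiableAt ℂ c z := (hcd z hz).differentiableAt (isOpen_ball.mem_nhds hz)
  have h1 : Tendsto (fun n => deriv (s n).1 z) atTop (𝓝 (deriv c z)) :=
    (hunif.tendstoLocallyUniformlyOn.deriv (Eventually.of_forall hdiff)
      isOpen_ball).tendsto_at hz
  have h2 : Tendsto (fun n => deriv (s (n + 1)).1 z) atTop (𝓝 (deriv c z)) :=
    h1.comp (tendsto_add_atTop_nat 1)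
  have h3 : Tendsto (fun n => V ((s n).1 z)) atTop (𝓝 (V (c z))) := by
    have hm : c z ∈ ball x R :=
      ball_subset_ball (by linarith) (hin z hz _ (hle z hz))
    exact ((hV.continuousOn.continuousAt (isOpen_ball.mem_nhds hm)).tendsto).comp (hc z hz)
  have h4 : deriv c z = V (c z) := by
    refine tendsto_nhds_unique h2 (h3.congr fun n => ?_)
    exact ((hsd n z hz).deriv).symm
  rw [← h4]
  exact hz1.hasDerivAt

/-- It extends the real flow. -/
theorem flow_real {V : E → E} {x : E} {R M : ℝ} (hR : 0 < R) (hM0 : 0 < M)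
    (hV : DifferentiableOn ℂ V (ball x R)) (hM : ∀ e ∈ ball x R, ‖V e‖ ≤ M) {c : ℂ → E}
    (hc0 : c 0 = x) (hc : ∀ z ∈ ball (0 : ℂ) (R / (8 * M)),
      HasDerivAt c (V (c z)) z ∧ ‖c z - x‖ ≤ M * ‖z‖) {u : ℝ → E} (hu0 : u 0 = x)
    (hu : ∀ t : ℝ, |t| < R / (8 * M) → HasDerivAt u (V (u t)) t ∧ u t ∈ ball x (R / 2)) {t : ℝ}
    (ht : |t| < R / (8 * M)) : c t = u t := by
  set r : ℝ := R / (8 * M) with hr
  have hr0 : 0 < r := by positivity
  have hMr : M * r = R / 8 := by rw [hr]; field_simp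
  have h1 := sol_unique (𝕜 := ℝ) (V := V) (L := 4 * M / R) (r := r) (S := ball x (R / 2))
    (B := R) (by rw [hr]; field_simp; norm_num)
    (fun e he e' he' => cau_lip hR hV hM he he')
    (fun e he e' he' => by
      rw [mem_ball_iff_norm] at he he'
      have : e - e' = (e - x) - (e' - x) := by abel
      rw [this]
      exact (norm_sub_le _ _).trans (by linarith)) (by positivity)
    (u := fun t : ℝ => c t) (w := u) (by simp [hc0, hu0])
    (fun z hz => by
      have hz' : (z : ℂ) ∈ ball (0 : ℂ) r := by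
        rw [mem_ball_zero_iff] at hz ⊢
        simpa using hz
      obtain ⟨a1, a2⟩ := hc z hz'
      refine ⟨?_, ?_⟩
      · have a3 := a1.scomp z (Complex.ofRealCLM.hasDerivAt (x := z))
        simp only [Complex.ofRealCLM_apply, Complex.ofReal_one, one_smul] at a3
        exact a3
      rw [mem_ball_iff_norm]
      have h3 : M * ‖(z : ℂ)‖ ≤ M * r := by
        have := (mem_ball_zero_iff.1 hz').le
        gcongr
      linarith)
    (fun z hz => hu z (by simpa using hz))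
  exact h1 t (by simpa using ht)

end BE36C
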