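import Mathlib

/-! BE36 part C, row GL: local holomorphic extensions of a function on an interval glue. -/

open MeasureTheory Set Filter Topology Metric

namespace BE36C

variable {E : Type*} [NormedAddCommGroup E] [NormedSpace ℂ E] [CompleteSpace E]

/-- The neighbourhood of the interval. -/
def Nb (a b r : ℝ) : Set ℂ := {z | ∃ y ∈ Icc a b, z ∈ ball (y : ℂ) r}

theorem Nb_open (a b r : ℝ) : IsOpen (Nb a b r) := by
  have : Nb a b r = ⋃ y ∈ Icc a b, ball (y : ℂ) r := by
    ext z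
    simp [Nb]
  rw [this]
  exact isOpen_biUnion fun y _ => isOpen_ball

theorem mem_Nb {a b r x v : ℝ} (hx : x ∈ Icc a b) (hv : |v| < r) :
    (x : ℂ) - v * Complex.I ∈ Nb a b r := by
  refine ⟨x, hx, ?_⟩
  rw [mem_ball_iff_norm]
  simpa using hv

theorem rect_sub {a b r η : ℝ} (hab : a ≤ b) (hη : 0 ≤ η) (h : η < r) :
    uIcc a b ×ℂ uIcc (-η) 0 ⊆ Nb a b r := by
  intro z hz
  obtain ⟨h1, h2⟩ := hz
  rw [mem_preimage, uIcc_of_le hab] at h1
  rw [mem_preimage, uIcc_of_le (by linarith)] at h2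
  have h3 := mem_Nb (a := a) (b := b) (r := r) (x := z.re) (v := -z.im) h1
    (by rw [abs_lt]; constructor <;> linarith [h2.1, h2.2])
  have h4 : ((z.re : ℝ) : ℂ) - ((-z.im : ℝ) : ℂ) * Complex.I = z := by
    conv_rhs => rw [← Complex.re_add_im z]
    push_cast
    ring
  rw [h4] at h3
  exact h3

theorem glue_eq {f : ℝ → E} {y y' r : ℝ} (hr : 0 < r) {g g' : ℂ → E}
    (hg : DifferentiableOn ℂ g (ball (y : ℂ) r)) (hg' : DifferentiableOn ℂ g' (ball (y' : ℂ) r))
    (hf : ∀ x : ℝ, |x - y| < r → g x = f x) (hf' : ∀ x : ℝ, |x - y'| < r → g' x = f x)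
    {z : ℂ} (hz : z ∈ ball (y : ℂ) (r / 2)) (hz' : z ∈ ball (y' : ℂ) (r / 2)) : g z = g' z := by
  set U : Set ℂ := ball (y : ℂ) r ∩ ball (y' : ℂ) r with hU
  have hUo : IsOpen U := isOpen_ball.inter isOpen_ball
  have hUc : IsPreconnected U := ((convex_ball _ _).inter (convex_ball _ _)).isPreconnected
  have h1 : AnalyticOnNhd ℂ g U :=
    ((hg.mono inter_subset_left).analyticOnNhd hUo)
  have h2 : AnalyticOnNhd ℂ g' U :=
    ((hg'.mono inter_subset_right).analyticOnNhd hUo)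
  have hyy : |y - y'| < r := by
    have h3 : ‖(y : ℂ) - y'‖ < r := by
      calc ‖(y : ℂ) - y'‖ ≤ ‖(y : ℂ) - z‖ + ‖z - y'‖ := norm_sub_le_norm_sub_add_norm_sub _ _ _
        _ < r := by
          have e1 := mem_ball_iff_norm'.1 hz
          have e2 := mem_ball_iff_norm.1 hz'
          linarith
    have e3 : (y : ℂ) - y' = ((y - y' : ℝ) : ℂ) := by push_cast; ring
    rw [e3, Complex.norm_real] at h3
    exact h3
  set x0 : ℝ := (y + y') / 2 with hx0
  have a1 : |x0 - y| < r / 2 := by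
    have : x0 - y = (y' - y) / 2 := by rw [hx0]; ring
    rw [this, abs_div, abs_two, abs_sub_comm]
    linarith
  have a2 : |x0 - y'| < r / 2 := by
    have : x0 - y' = (y - y') / 2 := by rw [hx0]; ring
    rw [this, abs_div, abs_two]
    linarith
  have hx0U : (x0 : ℂ) ∈ U := by
    constructor
    · rw [mem_ball_iff_norm]
      have e3 : (x0 : ℂ) - y = ((x0 - y : ℝ) : ℂ) := by push_cast; ring
      rw [e3, Complex.norm_real, Real.norm_eq_abs]
      linarith
    · rw [mem_ball_iff_norm]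
      have e3 : (x0 : ℂ) - y' = ((x0 - y' : ℝ) : ℂ) := by push_cast; ring
      rw [e3, Complex.norm_real, Real.norm_eq_abs]
      linarith
  have hfr : ∃ᶠ w in 𝓝[≠] (x0 : ℂ), g w = g' w := by
    have ht : Tendsto (fun n : ℕ => (((x0 + (r / 2) / (n + 2) : ℝ)) : ℂ)) atTop
        (𝓝[≠] (x0 : ℂ)) := by
      rw [tendsto_nhdsWithin_iff]
      constructor
      · have h5 : Tendsto (fun n : ℕ => x0 + (r / 2) / ((n : ℝ) + 2)) atTop (𝓝 (x0 + 0)) := by
          apply tendsto_const_nhds.add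
          apply Tendsto.div_atTop tendsto_const_nhds
          exact tendsto_atTop_add_const_right _ _ tendsto_natCast_atTop_atTop
        rw [add_zero] at h5
        exact (Complex.continuous_ofReal.tendsto x0).comp h5
      · refine Filter.Eventually.of_forall fun n => ?_
        rw [mem_compl_iff, mem_singleton_iff]
        intro hh
        have h6 : x0 + (r / 2) / ((n : ℝ) + 2) = x0 := by exact_mod_cast hh
        have h7 : 0 < (r / 2) / ((n : ℝ) + 2) := by positivity
        linarith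
    refine ht.frequently (Filter.Eventually.frequently (Filter.Eventually.of_forall fun n => ?_))
    have h7 : 0 < (r / 2) / ((n : ℝ) + 2) := by positivity
    have h8 : (r / 2) / ((n : ℝ) + 2) ≤ r / 4 := by
      rw [div_le_iff₀ (by positivity)]
      have : (0 : ℝ) ≤ n := Nat.cast_nonneg n
      nlinarith
    have b1 : |x0 + (r / 2) / ((n : ℝ) + 2) - y| < r := by
      have : x0 + (r / 2) / ((n : ℝ) + 2) - y = (x0 - y) + (r / 2) / ((n : ℝ) + 2) := by ring
      rw [this]
      refine (abs_add_le _ _).trans_lt ?_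
      rw [abs_of_pos h7]
      linarith
    have b2 : |x0 + (r / 2) / ((n : ℝ) + 2) - y'| < r := by
      have : x0 + (r / 2) / ((n : ℝ) + 2) - y' = (x0 - y') + (r / 2) / ((n : ℝ) + 2) := by ring
      rw [this]
      refine (abs_add_le _ _).trans_lt ?_
      rw [abs_of_pos h7]
      linarith
    rw [hf _ b1, hf' _ b2]
  have hzU : z ∈ U := ⟨ball_subset_ball (by linarith) hz, ball_subset_ball (by linarith) hz'⟩
  exact h1.eqOn_of_preconnected_of_frequently_eq h2 hUc hx0U hfr hzU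

/-- Local holomorphic extensions on balls of radius `r` give one on the neighbourhood of radius
`r / 2` of the interval. -/
theorem glue {f : ℝ → E} {a b r B : ℝ} (hr : 0 < r)
    (h : ∀ y ∈ Icc a b, ∃ g : ℂ → E, DifferentiableOn ℂ g (ball (y : ℂ) r) ∧
      (∀ x : ℝ, |x - y| < r → g x = f x) ∧ ∀ z ∈ ball (y : ℂ) r, ‖g z‖ ≤ B) :
    ∃ G : ℂ → E, DifferentiableOn ℂ G (Nb a b (r / 2)) ∧ (∀ x ∈ Icc a b, G x = f x) ∧
      ∀ z ∈ Nb a b (r / 2), ‖G z‖ ≤ B := by
  classical
  choose! g hg1 hg2 hg3 using h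
  have hex : ∀ z ∈ Nb a b (r / 2), ∃ y : ℝ, y ∈ Icc a b ∧ z ∈ ball (y : ℂ) (r / 2) := by
    rintro z ⟨y, hy, hz⟩
    exact ⟨y, hy, hz⟩
  choose! Y hY1 hY2 using hex
  refine ⟨fun z => g (Y z) z, ?_, ?_, ?_⟩
  · intro z0 hz0
    have hy0 := hY1 z0 hz0
    have hb0 := hY2 z0 hz0
    have h1 : DifferentiableAt ℂ (g (Y z0)) z0 :=
      (hg1 _ hy0).differentiableAt (isOpen_ball.mem_nhds (ball_subset_ball (by linarith) hb0))
    refine DifferentiableAt.differentiableWithinAt ?_
    refine h1.congr_of_eventuallyEq ?_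
    have h2 : ball ((Y z0 : ℝ) : ℂ) (r / 2) ∩ Nb a b (r / 2) ∈ 𝓝 z0 :=
      Filter.inter_mem (isOpen_ball.mem_nhds hb0) ((Nb_open _ _ _).mem_nhds hz0)
    filter_upwards [h2] with z hz
    exact glue_eq hr (hg1 _ (hY1 z hz.2)) (hg1 _ hy0) (hg2 _ (hY1 z hz.2)) (hg2 _ hy0)
      (hY2 z hz.2) hz.1
  · intro x hx
    have hxN : (x : ℂ) ∈ Nb a b (r / 2) := by
      have := mem_Nb (a := a) (b := b) (r := r / 2) (x := x) (v := 0) hx
        (by rw [abs_zero]; linarith)
      simpa using this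
    have h1 := hY2 _ hxN
    rw [mem_ball_iff_norm] at h1
    have h2 : (x : ℂ) - ((Y x : ℝ) : ℂ) = ((x - Y x : ℝ) : ℂ) := by push_cast; ring
    rw [h2, Complex.norm_real, Real.norm_eq_abs] at h1
    exact hg2 _ (hY1 _ hxN) x (by linarith)
  · intro z hz
    exact hg3 _ (hY1 z hz) z (ball_subset_ball (by linarith) (hY2 z hz))

end BE36C
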