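import Mathlib

/-! BE36 part C, row TH: the entire cut-off. -/

open MeasureTheory Set Filter Topology

namespace BE36C

/-- The entire cut-off: close to one for `|re z| < h`, close to zero for `h < |re z|`. -/
noncomputable def thE (h e : ℝ) (z : ℂ) : ℂ :=
  ((1 / (e * √Real.pi) : ℝ) : ℂ) * ∫ u in (-h)..h, Complex.exp (-((z - u) / e) ^ 2)

/-- The same on the real line. -/
noncomputable def thR (h e x : ℝ) : ℝ :=
  (1 / (e * √Real.pi)) * ∫ u in (-h)..h, Real.exp (-((x - u) / e) ^ 2)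

theorem thE_ofReal (h e x : ℝ) : thE h e x = thR h e x := by
  rw [thE, thR]
  push_cast
  congr 1
  rw [← intervalIntegral.integral_ofReal]
  refine intervalIntegral.integral_congr fun u _ => ?_
  push_cast
  rfl

theorem thE_diff {h e : ℝ} (he : 0 < e) : Differentiable ℂ (thE h e) := by
  have h0 : Differentiable ℂ fun w : ℂ => Complex.exp (-w ^ 2) :=
    ((differentiable_id.pow 2).neg).cexp
  obtain ⟨Φ, hΦ⟩ := h0.isExactOn_univ
  have hec : (e : ℂ) ≠ 0 := by exact_mod_cast he.ne'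
  have key : ∀ z : ℂ, thE h e z = ((1 / (e * √Real.pi) : ℝ) : ℂ) *
      (e * Φ ((z + h) / e) - e * Φ ((z - h) / e)) := by
    intro z
    rw [thE]
    congr 1
    have h1 : ∀ u ∈ uIcc (-h) h, HasDerivAt (fun u : ℝ => -(e : ℂ) * Φ ((z - u) / e))
        (Complex.exp (-((z - u) / e) ^ 2)) u := by
      intro u _
      have h2 : HasDerivAt (fun u : ℝ => (z - (u : ℂ)) / e) (-1 / e) u := by
        have := ((Complex.ofRealCLM.hasDerivAt (x := u)).const_sub z).div_const (e : ℂ)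
        simpa using this
      have h3 := (hΦ ((z - u) / e) (mem_univ _)).comp_of_eq u h2 rfl
      have h4 := h3.const_mul (-(e : ℂ))
      refine h4.congr_deriv ?_
      field_simp
    rw [intervalIntegral.integral_eq_sub_of_hasDerivAt h1]
    · push_cast
      rw [sub_neg_eq_add]
      ring
    · apply Continuous.intervalIntegrable
      fun_prop
  have hd : Differentiable ℂ Φ := fun z => (hΦ z (mem_univ _)).differentiableAt
  have : thE h e = fun z => ((1 / (e * √Real.pi) : ℝ) : ℂ) *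
      (e * Φ ((z + h) / e) - e * Φ ((z - h) / e)) := funext key
  rw [this]
  fun_prop

theorem norm_gauss (e : ℝ) (z : ℂ) (u : ℝ) :
    ‖Complex.exp (-((z - u) / e) ^ 2)‖ =
      Real.exp ((z.im / e) ^ 2) * Real.exp (-((z.re - u) / e) ^ 2) := by
  rw [Complex.norm_exp, ← Real.exp_add]
  congr 1
  have h1 : (z - u) / (e : ℂ) = (((z.re - u) / e : ℝ) : ℂ) + ((z.im / e : ℝ) : ℂ) * Complex.I := by
    apply Complex.ext <;> simp [Complex.div_ofReal_re, Complex.div_ofReal_im]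
  rw [h1]
  simp [pow_two, Complex.mul_re, Complex.mul_im]
  ring

theorem gauss_tot {e : ℝ} (he : 0 < e) (x : ℝ) :
    ∫ u : ℝ, Real.exp (-((x - u) / e) ^ 2) = e * √Real.pi := by
  have h1 := integral_gaussian (1 / e ^ 2)
  have h2 : ∫ u : ℝ, Real.exp (-((x - u) / e) ^ 2) = ∫ u : ℝ, Real.exp (-(1 / e ^ 2) * u ^ 2) := by
    rw [← integral_sub_left_eq_self (fun u : ℝ => Real.exp (-(1 / e ^ 2) * u ^ 2)) volume x]
    refine integral_congr_ae (Filter.Eventually.of_forall fun u => ?_)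
    simp only
    congr 1
    field_simp
  rw [h2, h1, Real.sqrt_div' _ (by positivity), ]
  rw [Real.sqrt_div (by norm_num), Real.sqrt_one, Real.sqrt_sq he.le]
  field_simp

theorem gauss_int {e : ℝ} (he : 0 < e) (x : ℝ) :
    Integrable fun u : ℝ => Real.exp (-((x - u) / e) ^ 2) := by
  have h1 := integrable_exp_neg_mul_sq (b := 1 / e ^ 2) (by positivity)
  have h2 := h1.comp_sub_left x
  refine h2.congr (Filter.Eventually.of_forall fun u => ?_)
  simp only
  congr 1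
  field_simp

theorem norm_thE_le {h e : ℝ} (hh : 0 ≤ h) (he : 0 < e) (z : ℂ) :
    ‖thE h e z‖ ≤ Real.exp ((z.im / e) ^ 2) := by
  have hc : 0 < 1 / (e * √Real.pi) := by positivity
  rw [thE, norm_mul, Complex.norm_real, Real.norm_of_nonneg hc.le]
  have h1 : ‖∫ u in (-h)..h, Complex.exp (-((z - u) / e) ^ 2)‖ ≤
      Real.exp ((z.im / e) ^ 2) * (e * √Real.pi) := by
    refine (intervalIntegral.norm_integral_le_integral_norm (by linarith)).trans ?_
    have h2 : (∫ u in (-h)..h, ‖Complex.exp (-((z - u) / e) ^ 2)‖) =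
        Real.exp ((z.im / e) ^ 2) * ∫ u in (-h)..h, Real.exp (-((z.re - u) / e) ^ 2) := by
      rw [← intervalIntegral.integral_const_mul]
      exact intervalIntegral.integral_congr fun u _ => norm_gauss e z u
    rw [h2]
    apply mul_le_mul_of_nonneg_left _ (Real.exp_pos _).le
    rw [← gauss_tot he z.re, intervalIntegral.integral_of_le (by linarith)]
    exact setIntegral_le_integral (gauss_int he _)
      (Filter.Eventually.of_forall fun u => (Real.exp_pos _).le)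
  calc 1 / (e * √Real.pi) * ‖∫ u in (-h)..h, Complex.exp (-((z - u) / e) ^ 2)‖ ≤
      1 / (e * √Real.pi) * (Real.exp ((z.im / e) ^ 2) * (e * √Real.pi)) :=
        mul_le_mul_of_nonneg_left h1 hc.le
    _ = Real.exp ((z.im / e) ^ 2) := by field_simp

/-- Gaussian tails. -/
theorem gauss_tail {e d : ℝ} (he : 0 < e) (x : ℝ) {S : Set ℝ} (hS : MeasurableSet S)
    (hd : ∀ u ∈ S, d ^ 2 ≤ (x - u) ^ 2) :
    ∫ u in S, Real.exp (-((x - u) / e) ^ 2) ≤
      √2 * Real.exp (-(d ^ 2 / (2 * e ^ 2))) * (e * √Real.pi) := by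
  have he2 : 0 < e * √2 := by positivity
  have hs : √2 ^ 2 = (2 : ℝ) := Real.sq_sqrt (by norm_num)
  have h1 : ∀ u ∈ S, Real.exp (-((x - u) / e) ^ 2) ≤
      Real.exp (-(d ^ 2 / (2 * e ^ 2))) * Real.exp (-((x - u) / (e * √2)) ^ 2) := by
    intro u hu
    rw [← Real.exp_add]
    apply Real.exp_le_exp.2
    have e1 : ((x - u) / (e * √2)) ^ 2 = (x - u) ^ 2 / (2 * e ^ 2) := by
      rw [div_pow, mul_pow, hs]
      ring
    have e2 : ((x - u) / e) ^ 2 = 2 * ((x - u) ^ 2 / (2 * e ^ 2)) := by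
      rw [div_pow]
      field_simp
    rw [e1, e2]
    have e3 : d ^ 2 / (2 * e ^ 2) ≤ (x - u) ^ 2 / (2 * e ^ 2) :=
      div_le_div_of_nonneg_right (hd u hu) (by positivity)
    linarith
  have h2 := (gauss_int he2 x).const_mul (Real.exp (-(d ^ 2 / (2 * e ^ 2))))
  calc ∫ u in S, Real.exp (-((x - u) / e) ^ 2) ≤
      ∫ u in S, Real.exp (-(d ^ 2 / (2 * e ^ 2))) * Real.exp (-((x - u) / (e * √2)) ^ 2) :=
        setIntegral_mono_on (gauss_int he x).integrableOn h2.integrableOn hS h1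
    _ ≤ ∫ u, Real.exp (-(d ^ 2 / (2 * e ^ 2))) * Real.exp (-((x - u) / (e * √2)) ^ 2) :=
        setIntegral_le_integral h2 (Filter.Eventually.of_forall fun u => by positivity)
    _ = √2 * Real.exp (-(d ^ 2 / (2 * e ^ 2))) * (e * √Real.pi) := by
        rw [integral_const_mul, gauss_tot he2 x]
        ring

/-- The cut-off is small outside. -/
theorem norm_thE_out {h e d : ℝ} (hh : 0 ≤ h) (he : 0 < e) (hd : 0 ≤ d) {z : ℂ}
    (hz : h + d ≤ |z.re|) :
    ‖thE h e z‖ ≤ √2 * Real.exp (-(d ^ 2 / (2 * e ^ 2))) * Real.exp ((z.im / e) ^ 2) := by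
  have hc : 0 < 1 / (e * √Real.pi) := by positivity
  rw [thE, norm_mul, Complex.norm_real, Real.norm_of_nonneg hc.le]
  have h1 : ‖∫ u in (-h)..h, Complex.exp (-((z - u) / e) ^ 2)‖ ≤
      Real.exp ((z.im / e) ^ 2) * (√2 * Real.exp (-(d ^ 2 / (2 * e ^ 2))) * (e * √Real.pi)) := by
    refine (intervalIntegral.norm_integral_le_integral_norm (by linarith)).trans ?_
    have h2 : (∫ u in (-h)..h, ‖Complex.exp (-((z - u) / e) ^ 2)‖) =
        Real.exp ((z.im / e) ^ 2) * ∫ u in (-h)..h, Real.exp (-((z.re - u) / e) ^ 2) := by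
      rw [← intervalIntegral.integral_const_mul]
      exact intervalIntegral.integral_congr fun u _ => norm_gauss e z u
    rw [h2]
    apply mul_le_mul_of_nonneg_left _ (Real.exp_pos _).le
    rw [intervalIntegral.integral_of_le (by linarith)]
    refine gauss_tail he _ measurableSet_Ioc fun u hu => ?_
    have h3 : |u| ≤ h := abs_le.2 ⟨hu.1.le, hu.2⟩
    have h4 : d ≤ |z.re - u| := by
      have := abs_sub_abs_le_abs_sub z.re u
      linarith
    rw [← sq_abs (z.re - u)]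
    exact pow_le_pow_left₀ hd h4 2
  calc 1 / (e * √Real.pi) * ‖∫ u in (-h)..h, Complex.exp (-((z - u) / e) ^ 2)‖ ≤
      1 / (e * √Real.pi) * (Real.exp ((z.im / e) ^ 2) *
        (√2 * Real.exp (-(d ^ 2 / (2 * e ^ 2))) * (e * √Real.pi))) :=
        mul_le_mul_of_nonneg_left h1 hc.le
    _ = √2 * Real.exp (-(d ^ 2 / (2 * e ^ 2))) * Real.exp ((z.im / e) ^ 2) := by field_simp

theorem gaussC_int {e : ℝ} (he : 0 < e) (z : ℂ) :
    Integrable fun u : ℝ => Complex.exp (-((z - u) / e) ^ 2) := by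
  have h1 := (gauss_int he z.re).const_mul (Real.exp ((z.im / e) ^ 2))
  refine h1.mono' (by fun_prop) (Filter.Eventually.of_forall fun u => ?_)
  rw [norm_gauss]

theorem gaussC_tot {e : ℝ} (he : 0 < e) (z : ℂ) :
    ∫ u : ℝ, Complex.exp (-((z - u) / e) ^ 2) = ((e * √Real.pi : ℝ) : ℂ) := by
  have hec : (e : ℂ) ≠ 0 := by exact_mod_cast he.ne'
  have hb : 0 < ((1 / e ^ 2 : ℝ) : ℂ).re := by
    rw [Complex.ofReal_re]
    positivity
  have h1 := GaussianFourier.integral_cexp_neg_mul_sq_add_real_mul_I hb z.im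
  have h2 : ∫ u : ℝ, Complex.exp (-((z - u) / e) ^ 2) =
      ∫ u : ℝ, Complex.exp (-((1 / e ^ 2 : ℝ) : ℂ) * (u + z.im * Complex.I) ^ 2) := by
    rw [← integral_sub_left_eq_self
      (fun u : ℝ => Complex.exp (-((1 / e ^ 2 : ℝ) : ℂ) * (u + z.im * Complex.I) ^ 2)) volume z.re]
    refine integral_congr_ae (Filter.Eventually.of_forall fun u => ?_)
    simp only
    congr 1
    push_cast
    have h3 : (z.re : ℂ) - u + z.im * Complex.I = z - u := by
      conv_rhs => rw [← Complex.re_add_im z]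
      ring
    rw [h3]
    field_simp
  rw [h2, h1]
  have h4 : ((Real.pi : ℂ) / ((1 / e ^ 2 : ℝ) : ℂ)) = ((Real.pi * e ^ 2 : ℝ) : ℂ) := by
    push_cast
    field_simp
  rw [h4]
  have h5 : ((Real.pi * e ^ 2 : ℝ) : ℂ) ^ (1 / 2 : ℂ) =
      (((Real.pi * e ^ 2) ^ (1 / 2 : ℝ) : ℝ) : ℂ) := by
    rw [Complex.ofReal_cpow (by positivity)]
    push_cast
    rfl
  rw [h5]
  congr 1
  rw [← Real.sqrt_eq_rpow, Real.sqrt_mul Real.pi_pos.le, Real.sqrt_sq he.le]
  ring

/-- The cut-off is close to one inside. -/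
theorem norm_thE_in {h e d : ℝ} (hh : 0 ≤ h) (he : 0 < e) (hd : 0 ≤ d) {z : ℂ}
    (hz : |z.re| + d ≤ h) :
    ‖1 - thE h e z‖ ≤ √2 * Real.exp (-(d ^ 2 / (2 * e ^ 2))) * Real.exp ((z.im / e) ^ 2) := by
  have hc : 0 < 1 / (e * √Real.pi) := by positivity
  have hec : (e : ℂ) ≠ 0 := by exact_mod_cast he.ne'
  have hpi : ((√Real.pi : ℝ) : ℂ) ≠ 0 := by exact_mod_cast (Real.sqrt_pos.2 Real.pi_pos).ne'
  have h0 : (1 : ℂ) - thE h e z = ((1 / (e * √Real.pi) : ℝ) : ℂ) *
      ∫ u in (Ioc (-h) h)ᶜ, Complex.exp (-((z - u) / e) ^ 2) := by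
    have h1 := integral_add_compl (measurableSet_Ioc (a := -h) (b := h)) (gaussC_int he z)
    rw [gaussC_tot he z] at h1
    rw [thE, intervalIntegral.integral_of_le (by linarith)]
    have h2 : (1 : ℂ) = ((1 / (e * √Real.pi) : ℝ) : ℂ) * ((e * √Real.pi : ℝ) : ℂ) := by
      push_cast
      field_simp
    rw [← h1] at h2
    linear_combination h2
  rw [h0, norm_mul, Complex.norm_real, Real.norm_of_nonneg hc.le]
  have h1 : ‖∫ u in (Ioc (-h) h)ᶜ, Complex.exp (-((z - u) / e) ^ 2)‖ ≤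
      Real.exp ((z.im / e) ^ 2) * (√2 * Real.exp (-(d ^ 2 / (2 * e ^ 2))) * (e * √Real.pi)) := by
    refine (norm_integral_le_integral_norm _).trans ?_
    have h2 : (∫ u in (Ioc (-h) h)ᶜ, ‖Complex.exp (-((z - u) / e) ^ 2)‖) =
        Real.exp ((z.im / e) ^ 2) * ∫ u in (Ioc (-h) h)ᶜ, Real.exp (-((z.re - u) / e) ^ 2) := by
      rw [← integral_const_mul]
      exact integral_congr_ae (Filter.Eventually.of_forall fun u => norm_gauss e z u)
    rw [h2]
    apply mul_le_mul_of_nonneg_left _ (Real.exp_pos _).le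
    refine gauss_tail he _ measurableSet_Ioc.compl fun u hu => ?_
    have h3 : h ≤ |u| := by
      by_contra hcon
      push Not at hcon
      exact hu ⟨(abs_lt.1 hcon).1, (abs_lt.1 hcon).2.le⟩
    have h4 : d ≤ |z.re - u| := by
      have := abs_sub_abs_le_abs_sub u z.re
      rw [abs_sub_comm u z.re] at this
      linarith
    rw [← sq_abs (z.re - u)]
    exact pow_le_pow_left₀ hd h4 2
  calc 1 / (e * √Real.pi) * ‖∫ u in (Ioc (-h) h)ᶜ, Complex.exp (-((z - u) / e) ^ 2)‖ ≤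
      1 / (e * √Real.pi) * (Real.exp ((z.im / e) ^ 2) *
        (√2 * Real.exp (-(d ^ 2 / (2 * e ^ 2))) * (e * √Real.pi))) :=
        mul_le_mul_of_nonneg_left h1 hc.le
    _ = √2 * Real.exp (-(d ^ 2 / (2 * e ^ 2))) * Real.exp ((z.im / e) ^ 2) := by field_simp

/-- The derivatives on the real line. -/
theorem thE_deriv {h e : ℝ} (hh : 0 ≤ h) (he : 0 < e) (n : ℕ) (z : ℂ) (hz : z.im = 0) :
    ‖iteratedDeriv n (thE h e) z‖ ≤ n.factorial * Real.exp 1 / e ^ n := by
  refine Complex.norm_iteratedDeriv_le_of_forall_mem_sphere_norm_le n he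
    (thE_diff he).diffContOnCl fun w hw => ?_
  refine (norm_thE_le hh he w).trans (Real.exp_le_exp.2 ?_)
  have h1 : |w.im| ≤ e := by
    have h2 : |(w - z).im| ≤ ‖w - z‖ := Complex.abs_im_le_norm _
    rw [mem_sphere_iff_norm.1 hw, Complex.sub_im, hz, sub_zero] at h2
    exact h2
  rw [div_pow, div_le_one (by positivity), ← sq_abs w.im]
  exact pow_le_pow_left₀ (abs_nonneg _) h1 2

theorem thR_nonneg {h e : ℝ} (hh : 0 ≤ h) (he : 0 < e) (x : ℝ) : 0 ≤ thR h e x := by
  rw [thR]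
  apply mul_nonneg (by positivity)
  exact intervalIntegral.integral_nonneg (by linarith) fun u _ => (Real.exp_pos _).le

theorem thR_le_one {h e : ℝ} (hh : 0 ≤ h) (he : 0 < e) (x : ℝ) : thR h e x ≤ 1 := by
  have h1 := norm_thE_le hh he (x : ℂ)
  rw [thE_ofReal, Complex.norm_real, Complex.ofReal_im, zero_div] at h1
  have h2 : Real.exp ((0 : ℝ) ^ 2) = 1 := by norm_num
  rw [h2] at h1
  exact (le_abs_self _).trans h1

theorem thR_out {h e d x : ℝ} (hh : 0 ≤ h) (he : 0 < e) (hd : 0 ≤ d) (hx : h + d ≤ |x|) :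
    |thR h e x| ≤ √2 * Real.exp (-(d ^ 2 / (2 * e ^ 2))) := by
  have h1 := norm_thE_out hh he hd (z := (x : ℂ)) (by simpa using hx)
  rw [thE_ofReal, Complex.norm_real, Complex.ofReal_im, zero_div] at h1
  have h2 : Real.exp ((0 : ℝ) ^ 2) = 1 := by norm_num
  rw [h2, mul_one] at h1
  exact h1

theorem thR_in {h e d x : ℝ} (hh : 0 ≤ h) (he : 0 < e) (hd : 0 ≤ d) (hx : |x| + d ≤ h) :
    |1 - thR h e x| ≤ √2 * Real.exp (-(d ^ 2 / (2 * e ^ 2))) := by
  have h1 := norm_thE_in hh he hd (z := (x : ℂ)) (by simpa using hx)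
  rw [thE_ofReal] at h1
  have h3 : (1 : ℂ) - (thR h e x : ℂ) = ((1 - thR h e x : ℝ) : ℂ) := by push_cast; ring
  rw [h3, Complex.norm_real, Complex.ofReal_im, zero_div] at h1
  have h2 : Real.exp ((0 : ℝ) ^ 2) = 1 := by norm_num
  rw [h2, mul_one] at h1
  exact h1

end BE36C
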