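import Pool.Agent.LibBE99.Q7
import Pool.Agent.LibBE99.W5
import Pool.Agent.LibBE99.U4
import Pool.Agent.LibBE36C.AL3
import Pool.Agent.LibBE36C.FC
import Pool.Agent.LibBE36C.CT
import Pool.Agent.LibBE36C.TH
import Pool.Agent.LibBE36C.GL

/-! BE36, part C' (localisation by a contour, leading term with `N` terms): definitions
(architect helper99). -/

open MeasureTheory Set Filter Topology Metric
open scoped ContDiff

namespace BE36C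

open BGS BR BE

/-- The complex point. -/
def cx (x : Pl) : ℂ × ℂ := ((x.1 : ℂ), (x.2 : ℂ))

/-- `f` has a holomorphic extension to the ball of radius `r` around `x`, bounded by `B`. -/
def EX (f : Pl → ℝ) (x : Pl) (r B : ℝ) : Prop :=
  ∃ g : ℂ × ℂ → ℂ, DifferentiableOn ℂ g (ball (cx x) r) ∧ (∀ z ∈ ball (cx x) r, ‖g z‖ ≤ B) ∧
    ∀ y : Pl, cx y ∈ ball (cx x) r → g (cx y) = f y

/-- The same for vector fields on `Pl × Pl`. -/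
def EV (V : Pl × Pl → Pl × Pl) (z : Pl × Pl) (r B : ℝ) : Prop :=
  ∃ g : (ℂ × ℂ) × (ℂ × ℂ) → (ℂ × ℂ) × (ℂ × ℂ),
    DifferentiableOn ℂ g (ball (cx z.1, cx z.2) r) ∧
    (∀ w ∈ ball (cx z.1, cx z.2) r, ‖g w‖ ≤ B) ∧
    ∀ y : Pl × Pl, (cx y.1, cx y.2) ∈ ball (cx z.1, cx z.2) r →
      g (cx y.1, cx y.2) = (cx (V y).1, cx (V y).2)

/-- The same for functions of one variable. -/
def E1 (f : ℝ → ℝ) (y r B : ℝ) : Prop :=
  ∃ g : ℂ → ℂ, DifferentiableOn ℂ g (ball (y : ℂ) r) ∧ (∀ z ∈ ball (y : ℂ) r, ‖g z‖ ≤ B) ∧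
    ∀ x : ℝ, |x - y| < r → g x = f x

/-- What is used of the holomorphic geometry of the family: `Qs i` is the size of the inverse radius of
holomorphy of the metric `i`. -/
structure GI (Γ : Type) [Group Γ] [MulAction Γ Pl] (D : Set Pl) {ι P : Type}
    [NormedAddCommGroup P] (m : Pl → Co) (s : ι → P × Pl → ℝ) (Qs : ι → ℝ) : Prop where
  one : ∀ i, 1 ≤ Qs i
  vec : ∃ A : ℕ, ∀ (i : ι) (p : P), ‖p‖ ≤ 1 → ∀ x ∈ closure D, ∀ u : Pl, eu u = 1 →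
    EV (gf (mm m (s i) p)) (x, u) ((2 * Qs i) ^ A)⁻¹ ((2 * Qs i) ^ A)
  cur : ∃ A : ℕ, ∀ (i : ι) (p : P), ‖p‖ ≤ 1 → ∀ x ∈ closure D,
    EX (curv (mm m (s i) p)) x ((2 * Qs i) ^ A)⁻¹ ((2 * Qs i) ^ A)
  ex : ∃ A : ℕ, ∀ (i : ι) (p : P), ‖p‖ ≤ 1 → ∀ x ∈ closure D,
    EX (fun z => s i (p, z)) x ((2 * Qs i) ^ A)⁻¹ ((2 * Qs i) ^ A)
  d : ∃ A : ℕ, ∀ q : Jx ι P Γ (closure D),
    EX (fun z => ds (mm m (s q.i) q.p) z (q.g • z)) q.x ((Qs q.i * (2 + q.d m s)) ^ A)⁻¹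
      ((Qs q.i * (2 + q.d m s)) ^ A)
  f : ∃ A : ℕ, ∀ q : Jx ι P Γ (closure D),
    EX (fun z => ff m (s q.i) (q.p, z, q.g • z)) q.x ((Qs q.i * (2 + q.d m s)) ^ A)⁻¹
      ((Qs q.i * (2 + q.d m s)) ^ A)
  u : ∃ A : ℕ, ∀ (N : ℕ) (q : Jx ι P Γ (closure D)), ∀ j ≤ N,
    EX (fun z => uu m (s q.i) j (q.p, z, q.g • z)) q.x
      (((N + 2) * Qs q.i * (2 + q.d m s)) ^ A)⁻¹ (((N + 2) * Qs q.i * (2 + q.d m s)) ^ (A * (j + 1)))

/-- The cut amplitude `f` and the entire amplitude `F` differ by `κ`, with Gaussian decay. -/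
structure CutD (F : ℂ → ℂ) (f : ℝ → ℂ) (q ρ κ : ℝ) : Prop where
  nonneg : 0 ≤ κ
  h0 : ∀ t : ℝ, 0 ≤ t → ‖f t - F t‖ ≤ κ * Real.exp (-(q ^ 2 / 2 * (max 0 (t - ρ)) ^ 2))
  h1 : ∀ t : ℝ, 0 ≤ t → ‖deriv f t - deriv F t‖ ≤
    κ * Real.exp (-(q ^ 2 / 2 * (max 0 (t - ρ)) ^ 2))

/-- The restriction of an entire amplitude to the line. -/
noncomputable def rs (F : ℂ → ℂ) (t : ℝ) : ℂ := F t

/-- The contribution of the class of `g` for the metric `m1`, localised to the distance `2 δ` of the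
axis `(x0, v0)` of the metric `m0` by the entire cut-off function (the same as `F36.ZT` with
`θ = thR δ e`). -/
noncomputable def ZT {Γ : Type} [Group Γ] [MulAction Γ Pl] (m0 m1 : Pl → Co) (δ e : ℝ) (N : ℕ)
    (a : ℝ → ℂ) (τ : ℝ) (g : Γ) (x0 v0 : Pl) (l0 : ℝ) : ℂ :=
  ∫ t in (0 : ℝ)..l0, ∫ y in (-(2 * δ))..(2 * δ), ((thR δ e y : ℝ) : ℂ) *
    KE m1 N a τ g (Fm m0 x0 v0 (t, y)) *
    ((√(dt (m1 (Fm m0 x0 v0 (t, y)))) * |(fderiv ℝ (Fm m0 x0 v0) (t, y)).det| : ℝ) : ℂ)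

/-- The scale of a geodesic. -/
noncomputable def XN (N : ℕ) (Q R : ℝ) : ℝ := (N + 2) * Q * (2 + R)

/-- The tiny error: `A` is a constant, `Q` the inverse radius of holomorphy, `R` the bound of the
lengths, `q` the decay of the entire amplitude. -/
noncomputable def TN (A N : ℕ) (Q R M κ τ δ e q : ℝ) : ℝ :=
  XN N Q R ^ (A * (N + 1)) * Real.exp (A * R) * τ * (κ + M * (Real.exp (-(τ * δ * e / A)) +
    Real.exp (-(τ * δ ^ 2 / XN N Q R ^ A)) + Real.exp (-(δ ^ 2 / (A * e ^ 2))) +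
    Real.exp (-(q ^ 2 / A))))

/-- The hypotheses on the amplitudes: `F` entire, `f` its cut; `R` bounds all lengths. -/
structure AH (F : ℂ → ℂ) (f : ℝ → ℂ) (Q q ρ R M M' κ : ℝ) : Prop where
  ea : EA F Q q ρ M
  amp : Amp f (ρ + 3) M'
  cut : CutD F f q ρ κ
  rho : 0 ≤ ρ
  q1 : 1 ≤ q
  qQ : q ≤ Q
  rR : ρ + 4 ≤ R

/-- The hypotheses on the widths. -/
structure DH (δ e : ℝ) : Prop where
  dpos : 0 < δ
  dle : δ ≤ 1 / 8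
  epos : 0 < e
  ele : e ≤ δ

variable {Γ : Type} [Group Γ] [MulAction Γ Pl] {D : Set Pl}
variable {ι P : Type} [NormedAddCommGroup P] [NormedSpace ℝ P] {m : Pl → Co} {s : ι → P × Pl → ℝ}

/-- The coefficient of `al j` on the line, with the density. -/
noncomputable def Wj (m : Pl → Co) (s : ι → P × Pl → ℝ) (q : Ln ι P Γ) (j : ℕ) (y : ℝ) : ℝ :=
  UU (Gx (mm m (s q.i) q.p1) (q.X m s y)) j (Vx (mm m (s q.i) q.p1) (q.X m s y)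
    (q.g • q.X m s y)) * q.w m s y

/-- The holomorphic functions on the strip around `[-Y, Y]`. -/
structure Strip (m : Pl → Co) (s : ι → P × Pl → ℝ) (q : Ln ι P Γ) (N A : ℕ) (X Y : ℝ)
    (Dc : ℂ → ℂ) (W : ℕ → ℂ → ℂ) : Prop where
  dd : DifferentiableOn ℂ Dc (Nb (-Y) Y (X ^ A)⁻¹)
  db : ∀ z ∈ Nb (-Y) Y (X ^ A)⁻¹, ‖Dc z‖ ≤ X ^ A
  dr : ∀ y ∈ Icc (-Y) Y, Dc y = q.d m s y
  wd : ∀ j ≤ N, DifferentiableOn ℂ (W j) (Nb (-Y) Y (X ^ A)⁻¹)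
  wb : ∀ j ≤ N, ∀ z ∈ Nb (-Y) Y (X ^ A)⁻¹, ‖W j z‖ ≤ X ^ (A * (j + 1)) * Real.exp (A * Y)
  wr : ∀ j ≤ N, ∀ y ∈ Icc (-Y) Y, W j y = Wj m s q j y

end BE36C
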