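import Mathlib

/-! BE36 part C, row AL1: entire amplitudes with Gaussian decay. -/

open MeasureTheory Set Filter Topology

namespace BE36C

/-- Entire amplitudes that are bounded near the real line, with Gaussian decay beyond `ρ`. -/
structure EA (F : ℂ → ℂ) (Q q ρ M : ℝ) : Prop where
  diff : Differentiable ℂ F
  bd : ∀ z : ℂ, ‖F z‖ ≤ M * Real.exp (Q ^ 2 * z.im ^ 2 - q ^ 2 * (max 0 (|z.re| - ρ)) ^ 2)

/-- The bound. -/
noncomputable def gE (Q q ρ : ℝ) (z : ℂ) : ℝ :=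
  Real.exp (2 * Q ^ 2 * z.im ^ 2 - q ^ 2 / 2 * (max 0 (|z.re| - ρ)) ^ 2)

theorem EA.M_nonneg {F : ℂ → ℂ} {Q q ρ M : ℝ} (h : EA F Q q ρ M) : 0 ≤ M := by
  have h1 := (norm_nonneg _).trans (h.bd 0)
  exact nonneg_of_mul_nonneg_left h1 (Real.exp_pos _)

theorem EA.le {F : ℂ → ℂ} {Q q ρ M : ℝ} (h : EA F Q q ρ M) (z : ℂ) : ‖F z‖ ≤ M * gE Q q ρ z := by
  refine (h.bd z).trans (mul_le_mul_of_nonneg_left (Real.exp_le_exp.2 ?_) h.M_nonneg)
  have h1 : 0 ≤ Q ^ 2 * z.im ^ 2 := by positivity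
  have h2 : 0 ≤ q ^ 2 * (max 0 (|z.re| - ρ)) ^ 2 := by positivity
  linarith

theorem EA.deriv_le {F : ℂ → ℂ} {Q q ρ M : ℝ} (h : EA F Q q ρ M) (hQ : 0 < Q) (hq : |q| ≤ Q)
    (z : ℂ) : ‖deriv F z‖ ≤ 21 * Q * M * gE Q q ρ z := by
  have hM := h.M_nonneg
  have hQi : 0 < 1 / Q := by positivity
  have hqQ : q ^ 2 ≤ Q ^ 2 := by
    rw [← sq_abs q]
    exact pow_le_pow_left₀ (abs_nonneg _) hq 2
  have h1 : ∀ w ∈ Metric.sphere z (1 / Q), ‖F w‖ ≤ M * (Real.exp 3 * gE Q q ρ z) := by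
    intro w hw
    rw [mem_sphere_iff_norm] at hw
    refine (h.bd w).trans ?_
    rw [gE, ← Real.exp_add]
    refine mul_le_mul_of_nonneg_left (Real.exp_le_exp.2 ?_) hM
    have a1 : |w.im - z.im| ≤ 1 / Q := by
      rw [← Complex.sub_im, ← hw]; exact Complex.abs_im_le_norm _
    have a2 : |w.re - z.re| ≤ 1 / Q := by
      rw [← Complex.sub_re, ← hw]; exact Complex.abs_re_le_norm _
    have b1 : Q ^ 2 * w.im ^ 2 ≤ 2 * Q ^ 2 * z.im ^ 2 + 2 := by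
      have c1 : (w.im - z.im) ^ 2 ≤ (1 / Q) ^ 2 := by
        rw [← sq_abs]; exact pow_le_pow_left₀ (abs_nonneg _) a1 2
      have c2 : w.im ^ 2 ≤ 2 * z.im ^ 2 + 2 * (w.im - z.im) ^ 2 := by
        nlinarith [sq_nonneg (2 * z.im - w.im)]
      have c3 : Q ^ 2 * (1 / Q) ^ 2 = 1 := by field_simp
      calc Q ^ 2 * w.im ^ 2 ≤ Q ^ 2 * (2 * z.im ^ 2 + 2 * (1 / Q) ^ 2) := by
            gcongr
            linarith
        _ = 2 * Q ^ 2 * z.im ^ 2 + 2 * (Q ^ 2 * (1 / Q) ^ 2) := by ring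
        _ = 2 * Q ^ 2 * z.im ^ 2 + 2 := by rw [c3]; ring
    have b2 : q ^ 2 / 2 * (max 0 (|z.re| - ρ)) ^ 2 ≤ q ^ 2 * (max 0 (|w.re| - ρ)) ^ 2 + 1 := by
      set X := max 0 (|z.re| - ρ) with hX
      set Y := max 0 (|w.re| - ρ) with hY
      have d1 : X ≤ Y + 1 / Q := by
        rw [hX]
        apply max_le
        · have : 0 ≤ Y := le_max_left _ _
          linarith
        · have e1 : |z.re| ≤ |w.re| + |w.re - z.re| := by
            have := abs_sub_abs_le_abs_sub z.re w.re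
            rw [abs_sub_comm] at this
            linarith
          have e2 : |w.re| - ρ ≤ Y := le_max_right _ _
          linarith
      have d2 : 0 ≤ X := le_max_left _ _
      have d3 : 0 ≤ Y := le_max_left _ _
      have d4 : X ^ 2 ≤ 2 * Y ^ 2 + 2 * (1 / Q) ^ 2 := by
        have : X ^ 2 ≤ (Y + 1 / Q) ^ 2 := pow_le_pow_left₀ d2 d1 2
        nlinarith [sq_nonneg (Y - 1 / Q)]
      have c3 : q ^ 2 * (1 / Q) ^ 2 ≤ 1 := by
        calc q ^ 2 * (1 / Q) ^ 2 ≤ Q ^ 2 * (1 / Q) ^ 2 := by gcongr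
          _ = 1 := by field_simp
      calc q ^ 2 / 2 * X ^ 2 ≤ q ^ 2 / 2 * (2 * Y ^ 2 + 2 * (1 / Q) ^ 2) := by gcongr
        _ = q ^ 2 * Y ^ 2 + q ^ 2 * (1 / Q) ^ 2 := by ring
        _ ≤ q ^ 2 * Y ^ 2 + 1 := by linarith
    linarith
  have h2 := Complex.norm_deriv_le_of_forall_mem_sphere_norm_le hQi h.diff.diffContOnCl h1
  have h3 : Real.exp 3 ≤ 21 := by
    have h4 : Real.exp 3 = Real.exp 1 ^ 3 := by rw [← Real.exp_nat_mul]; norm_num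
    rw [h4]
    have h5 := Real.exp_one_lt_d9
    have h6 := Real.exp_pos 1
    calc Real.exp 1 ^ 3 ≤ 2.7182818286 ^ 3 := by gcongr
      _ ≤ 21 := by norm_num
  have hg : 0 < gE Q q ρ z := Real.exp_pos _
  calc ‖deriv F z‖ ≤ M * (Real.exp 3 * gE Q q ρ z) / (1 / Q) := h2
    _ = Real.exp 3 * Q * M * gE Q q ρ z := by field_simp
    _ ≤ 21 * Q * M * gE Q q ρ z := by gcongr

end BE36C
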