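import Mathlib

/-! BE36 part C, row HI: integrals of holomorphic families are holomorphic. -/

open MeasureTheory Set Filter Topology

namespace BE36C

theorem hol_int {U : Set ℂ} (hU : IsOpen U) {S : Set ℝ} (hS : MeasurableSet S) {g : ℂ → ℝ → ℂ}
    (hg : ∀ t ∈ S, DifferentiableOn ℂ (fun s => g s t) U)
    (hm : ∀ s ∈ U, AEStronglyMeasurable (g s) (volume.restrict S))
    (hb : ∀ s ∈ U, ∃ (ρ : ℝ) (b : ℝ → ℝ), 0 < ρ ∧ Metric.closedBall s ρ ⊆ U ∧ IntegrableOn b S ∧
      ∀ s' ∈ Metric.closedBall s ρ, ∀ t ∈ S, ‖g s' t‖ ≤ b t) :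
    DifferentiableOn ℂ (fun s => ∫ t in S, g s t) U := by
  intro s hs
  obtain ⟨ρ, b, hρ, hball, hbint, hbb⟩ := hb s hs
  apply DifferentiableAt.differentiableWithinAt
  have hFda : ∀ t ∈ S, ∀ x ∈ U, HasDerivAt (fun s => g s t) (deriv (fun s => g s t) x) x :=
    fun t ht x hx => ((hg t ht).differentiableAt (hU.mem_nhds hx)).hasDerivAt
  have hsub : Metric.ball s (ρ / 2) ⊆ U := fun x hx => hball (by
    rw [Metric.mem_closedBall]
    rw [Metric.mem_ball] at hx
    linarith)
  have hae : ∀ᵐ t ∂(volume.restrict S), t ∈ S := ae_restrict_mem hS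
  have hF'meas : AEStronglyMeasurable (fun t => deriv (fun s => g s t) s)
      (volume.restrict S) := by
    have hδpos : ∀ n : ℕ, 0 < ρ / ((n : ℝ) + 1) := fun n => by positivity
    have hδU : ∀ n : ℕ, s + ((ρ / ((n : ℝ) + 1) : ℝ) : ℂ) ∈ U := by
      intro n
      apply hball
      rw [Metric.mem_closedBall, dist_eq_norm, add_sub_cancel_left, Complex.norm_real,
        Real.norm_of_nonneg (hδpos n).le]
      exact div_le_self hρ.le (by linarith [(Nat.cast_nonneg n : (0 : ℝ) ≤ n)])
    have hδ0 : Filter.Tendsto (fun n : ℕ => ((ρ / ((n : ℝ) + 1) : ℝ) : ℂ)) Filter.atTop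
        (nhdsWithin 0 {0}ᶜ) := by
      apply tendsto_nhdsWithin_iff.mpr ⟨?_, ?_⟩
      · have h1 : Filter.Tendsto (fun n : ℕ => ρ / ((n : ℝ) + 1)) Filter.atTop (nhds 0) := by
          have := (tendsto_one_div_add_atTop_nhds_zero_nat (𝕜 := ℝ)).const_mul ρ
          rw [mul_zero] at this
          refine this.congr fun n => ?_
          rw [mul_one_div]
        have h2 := (Complex.continuous_ofReal.tendsto (0 : ℝ)).comp h1
        rw [Complex.ofReal_zero] at h2
        exact h2
      · refine Filter.Eventually.of_forall fun n => ?_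
        simp only [Set.mem_compl_iff, Set.mem_singleton_iff]
        exact_mod_cast (hδpos n).ne'
    refine aestronglyMeasurable_of_tendsto_ae atTop (f := fun (n : ℕ) t =>
      (((ρ / ((n : ℝ) + 1) : ℝ) : ℂ))⁻¹ •
        (g (s + ((ρ / ((n : ℝ) + 1) : ℝ) : ℂ)) t - g s t)) ?_ ?_
    · intro n
      have h1 := (hm _ (hδU n)).sub (hm s hs)
      exact h1.const_smul (((ρ / ((n : ℝ) + 1) : ℝ) : ℂ))⁻¹
    · filter_upwards [hae] with t ht
      exact (hasDerivAt_iff_tendsto_slope_zero.mp (hFda t ht s hs)).comp hδ0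
  have hcauchy : ∀ t ∈ S, ∀ x ∈ Metric.ball s (ρ / 2),
      ‖deriv (fun s => g s t) x‖ ≤ b t / (ρ / 2) := by
    intro t ht x hx
    have hsubx : Metric.closedBall x (ρ / 2) ⊆ Metric.closedBall s ρ := by
      intro y hy
      rw [Metric.mem_closedBall] at hy ⊢
      rw [Metric.mem_ball] at hx
      have := dist_triangle y x s
      linarith
    apply Complex.norm_deriv_le_of_forall_mem_sphere_norm_le (by positivity)
    · apply DifferentiableOn.diffContOnCl
      rw [closure_ball x (by positivity)]
      exact (hg t ht).mono (hsubx.trans hball)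
    · intro z hz
      exact hbb z (hsubx (Metric.sphere_subset_closedBall hz)) t ht
  have hmain := hasDerivAt_integral_of_dominated_loc_of_deriv_le (μ := volume.restrict S)
    (F := g) (F' := fun x t => deriv (fun s => g s t) x)
    (s := Metric.ball s (ρ / 2)) (x₀ := s) (bound := fun t => b t / (ρ / 2))
    (Metric.ball_mem_nhds s (by positivity))
    (by
      filter_upwards [hU.mem_nhds hs] with x hx
      exact hm x hx)
    (by
      refine Integrable.mono' hbint (hm s hs) ?_
      filter_upwards [hae] with t ht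
      exact hbb s (Metric.mem_closedBall_self hρ.le) t ht)
    hF'meas
    (by
      filter_upwards [hae] with t ht x hx
      exact hcauchy t ht x hx)
    (hbint.div_const _)
    (by
      filter_upwards [hae] with t ht x hx
      exact hFda t ht x (hsub hx))
  exact hmain.2.differentiableAt

end BE36C
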