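import Pool.Agent.LibBE36C.AL1
import Pool.Agent.LibBE36C.HI
import Pool.Agent.LibBE35.Defs

/-! BE36 part C, row AL2: the symbols at complex distances. -/

open MeasureTheory Set Filter Topology

namespace BE36C

open BE

/-- The kernel. -/
noncomputable def kE (j : ℕ) (r : ℂ) (u : ℝ) : ℂ :=
  ((u : ℂ) * (2 * r + u)) ^ (((j : ℝ) - 1 / 2 : ℝ) : ℂ)

/-- The derivative of the oscillating amplitude without the exponential. -/
noncomputable def hE (F : ℂ → ℂ) (τ : ℝ) (z : ℂ) : ℂ := -(Complex.I * τ) * F z + deriv F z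

/-- The symbol `al` at complex distances. -/
noncomputable def alE (j : ℕ) (F : ℂ → ℂ) (τ : ℝ) (r : ℂ) : ℂ :=
  -((1 / (√Real.pi * Real.Gamma ((j : ℝ) + 1 / 2)) : ℝ) : ℂ) *
    ∫ u in Ioi (0 : ℝ), hE F τ (r + u) * kE j r u * Complex.exp (-(Complex.I * τ * u))

/-- The bound of the integrals. -/
noncomputable def wE (j : ℕ) (ρ : ℝ) (r : ℂ) : ℝ :=
  (64 * (j + 1) * (1 + ρ + ‖r‖)) ^ (2 * j + 1) / √r.re

theorem gam_half (j : ℕ) : √Real.pi / 2 ≤ Real.Gamma ((j : ℝ) + 1 / 2) := by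
  have hp : 0 < √Real.pi := Real.sqrt_pos.2 Real.pi_pos
  induction j with
  | zero =>
    rw [Nat.cast_zero, zero_add, Real.Gamma_one_half_eq]
    linarith
  | succ n ih =>
    have h1 : ((n + 1 : ℕ) : ℝ) + 1 / 2 = ((n : ℝ) + 1 / 2) + 1 := by push_cast; ring
    rw [h1, Real.Gamma_add_one (by positivity)]
    rcases Nat.eq_zero_or_pos n with rfl | hn
    · rw [Nat.cast_zero, zero_add, Real.Gamma_one_half_eq]
      linarith
    · have h2 : (1 : ℝ) ≤ n := by exact_mod_cast hn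
      have h3 : 0 ≤ Real.Gamma ((n : ℝ) + 1 / 2) := le_trans (by positivity) ih
      nlinarith

theorem gam_pre (j : ℕ) : 0 ≤ 1 / (√Real.pi * Real.Gamma ((j : ℝ) + 1 / 2)) ∧
    1 / (√Real.pi * Real.Gamma ((j : ℝ) + 1 / 2)) ≤ 1 := by
  have hp : 0 < √Real.pi := Real.sqrt_pos.2 Real.pi_pos
  have h1 := gam_half j
  have h2 : 0 < Real.Gamma ((j : ℝ) + 1 / 2) := lt_of_lt_of_le (by positivity) h1
  refine ⟨by positivity, ?_⟩
  rw [div_le_one (by positivity)]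
  have h3 : √Real.pi * √Real.pi = Real.pi := Real.mul_self_sqrt Real.pi_pos.le
  have h4 := Real.pi_gt_three
  have h5 : √Real.pi * (√Real.pi / 2) ≤ √Real.pi * Real.Gamma ((j : ℝ) + 1 / 2) := by gcongr
  nlinarith

theorem kE_mem {r : ℂ} (hr : 0 < r.re) {u : ℝ} (hu : 0 < u) :
    0 < ((u : ℂ) * (2 * r + u)).re := by
  have : ((u : ℂ) * (2 * r + u)).re = u * (2 * r.re + u) := by simp
  rw [this]
  positivity

theorem norm_kE_le {r : ℂ} (hr : 0 < r.re) {u : ℝ} (hu : 0 < u) (j : ℕ) :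
    ‖kE j r u‖ ≤ (2 * ‖r‖ + u) ^ (2 * j) * (u ^ (-(1 / 2) : ℝ) / √r.re) := by
  set w : ℂ := (u : ℂ) * (2 * r + u) with hw
  have hw0 : 0 < w.re := kE_mem hr hu
  have hwre : w.re = u * (2 * r.re + u) := by simp [hw]
  have h1 : ‖kE j r u‖ = ‖w‖ ^ ((j : ℝ) - 1 / 2) := by
    rw [kE, ← hw, Complex.norm_cpow_real]
  have hw1 : w.re ≤ ‖w‖ := (le_abs_self _).trans (Complex.abs_re_le_norm w)
  have hwp : 0 < ‖w‖ := lt_of_lt_of_le hw0 hw1
  have h2 : ‖w‖ ≤ (2 * ‖r‖ + u) ^ 2 := by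
    rw [hw, norm_mul, Complex.norm_real, Real.norm_of_nonneg hu.le]
    have a1 : ‖2 * r + (u : ℂ)‖ ≤ 2 * ‖r‖ + u := by
      refine (norm_add_le _ _).trans ?_
      rw [norm_mul, Complex.norm_real, Real.norm_of_nonneg hu.le]
      simp
    have a2 : u ≤ 2 * ‖r‖ + u := by linarith [norm_nonneg r]
    calc u * ‖2 * r + (u : ℂ)‖ ≤ (2 * ‖r‖ + u) * (2 * ‖r‖ + u) := by gcongr
      _ = (2 * ‖r‖ + u) ^ 2 := by ring
  have h3 : ‖w‖ ^ ((j : ℝ) - 1 / 2) = ‖w‖ ^ j * ‖w‖ ^ (-(1 / 2) : ℝ) := by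
    rw [sub_eq_add_neg, Real.rpow_add hwp, Real.rpow_natCast]
  have h4 : ‖w‖ ^ (-(1 / 2) : ℝ) ≤ (u * r.re) ^ (-(1 / 2) : ℝ) := by
    apply Real.rpow_le_rpow_of_nonpos (by positivity)
    · calc u * r.re ≤ u * (2 * r.re + u) := by nlinarith
        _ ≤ ‖w‖ := by rw [← hwre]; exact hw1
    · norm_num
  have h5 : (u * r.re) ^ (-(1 / 2) : ℝ) = u ^ (-(1 / 2) : ℝ) / √r.re := by
    rw [Real.mul_rpow hu.le hr.le, Real.rpow_neg hr.le, ← Real.sqrt_eq_rpow]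
    exact (div_eq_mul_inv _ _).symm
  rw [h1, h3]
  calc ‖w‖ ^ j * ‖w‖ ^ (-(1 / 2) : ℝ) ≤ ((2 * ‖r‖ + u) ^ 2) ^ j * (u * r.re) ^ (-(1 / 2) : ℝ) := by
        gcongr
    _ = (2 * ‖r‖ + u) ^ (2 * j) * (u ^ (-(1 / 2) : ℝ) / √r.re) := by rw [h5, ← pow_mul]

theorem max_split {x u ρ : ℝ} (hx : 0 ≤ x) (hu : 0 ≤ u) (hρ : 0 ≤ ρ) :
    (max 0 (x - ρ)) ^ 2 + (max 0 (u - ρ)) ^ 2 ≤ (max 0 (x + u - ρ)) ^ 2 := by
  rcases le_total x ρ with h1 | h1
  · rw [max_eq_left (by linarith : x - ρ ≤ 0)]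
    have h2 : max 0 (u - ρ) ≤ max 0 (x + u - ρ) := max_le_max le_rfl (by linarith)
    have h3 : (0 : ℝ) ≤ max 0 (u - ρ) := le_max_left _ _
    nlinarith
  · rw [max_eq_right (by linarith : 0 ≤ x - ρ), max_eq_right (by linarith : 0 ≤ x + u - ρ)]
    have h2 : max 0 (u - ρ) ≤ u := max_le hu (by linarith)
    have h3 : (0 : ℝ) ≤ max 0 (u - ρ) := le_max_left _ _
    have h4 : 0 ≤ x - ρ := by linarith
    nlinarith

/-- An elementary bound. -/
theorem pow_gauss (j : ℕ) {v : ℝ} (hv : 0 ≤ v) :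
    (1 + v) ^ (2 * j) * Real.exp (-(v ^ 2 / 8)) ≤ 2 * (16 * (j + 1)) ^ j := by
  have h1 : (1 + v) ^ (2 * j) ≤ (2 + 2 * v ^ 2) ^ j := by
    rw [pow_mul]
    gcongr
    nlinarith [sq_nonneg (1 - v)]
  set x : ℝ := 2 + 2 * v ^ 2 with hx
  have hx0 : 0 ≤ x := by positivity
  have h2 : x ^ j ≤ (16 * (j + 1)) ^ j * Real.exp (x / 16) := by
    have a0 : (0 : ℝ) < 16 * (j + 1) := by positivity
    have a1 : x / (16 * (j + 1)) ≤ Real.exp (x / (16 * (j + 1))) := by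
      linarith [Real.add_one_le_exp (x / (16 * (j + 1)))]
    have a2 : (x / (16 * (j + 1))) ^ j ≤ Real.exp (x / (16 * (j + 1))) ^ j :=
      pow_le_pow_left₀ (by positivity) a1 j
    have a3 : Real.exp (x / (16 * (j + 1))) ^ j ≤ Real.exp (x / 16) := by
      rw [← Real.exp_nat_mul]
      apply Real.exp_le_exp.2
      rw [mul_div_assoc', div_le_div_iff₀ a0 (by norm_num)]
      nlinarith [hx0, (Nat.cast_nonneg j : (0 : ℝ) ≤ j)]
    have a4 : x ^ j = (16 * (j + 1)) ^ j * (x / (16 * (j + 1))) ^ j := by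
      rw [← mul_pow]
      congr 1
      field_simp
    rw [a4]
    gcongr
    exact a2.trans a3
  have h3 : Real.exp (x / 16) * Real.exp (-(v ^ 2 / 8)) = Real.exp (1 / 8) := by
    rw [← Real.exp_add]
    congr 1
    rw [hx]
    ring
  have h4 : Real.exp (1 / 8) ≤ 2 := by
    have b1 : Real.exp (1 / 8) ≤ Real.exp (1 / 2) := Real.exp_le_exp.2 (by norm_num)
    have b2 : Real.exp (1 / 2) ^ 2 = Real.exp 1 := by rw [← Real.exp_nat_mul]; norm_num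
    have b3 := Real.exp_one_lt_d9
    have b4 : Real.exp (1 / 2) ≤ 2 := by
      by_contra hcon
      push Not at hcon
      nlinarith
    linarith
  calc (1 + v) ^ (2 * j) * Real.exp (-(v ^ 2 / 8))
      ≤ ((16 * (j + 1)) ^ j * Real.exp (x / 16)) * Real.exp (-(v ^ 2 / 8)) := by
        gcongr
        exact h1.trans h2
    _ = (16 * (j + 1)) ^ j * Real.exp (1 / 8) := by rw [mul_assoc, h3]
    _ ≤ (16 * (j + 1)) ^ j * 2 := by gcongr
    _ = 2 * (16 * (j + 1)) ^ j := by ring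

/-- The majorant is integrable. -/
theorem maj_int {ρ : ℝ} (hρ : 0 ≤ ρ) :
    IntegrableOn (fun u : ℝ => Real.exp (-((3 / 8) * (max 0 (u - ρ)) ^ 2)) * u ^ (-(1 / 2) : ℝ))
      (Ioi 0) ∧
    ∫ u in Ioi (0 : ℝ), Real.exp (-((3 / 8) * (max 0 (u - ρ)) ^ 2)) * u ^ (-(1 / 2) : ℝ) ≤
      8 * (1 + ρ) := by
  set g : ℝ → ℝ := fun u => Real.exp (-((3 / 8) * (max 0 (u - ρ)) ^ 2)) * u ^ (-(1 / 2) : ℝ)
    with hg
  have hmeas : Measurable g := by
    rw [hg]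
    fun_prop
  -- the part near zero
  have hA : IntegrableOn (fun u : ℝ => u ^ (-(1 / 2) : ℝ)) (Ioc 0 1) := by
    have := (intervalIntegral.intervalIntegrable_rpow' (a := 0) (b := 1)
      (r := (-(1 / 2) : ℝ)) (by norm_num))
    rwa [intervalIntegrable_iff_integrableOn_Ioc_of_le (by norm_num)] at this
  have hAv : ∫ u in Ioc (0 : ℝ) 1, u ^ (-(1 / 2) : ℝ) = 2 := by
    rw [← intervalIntegral.integral_of_le (by norm_num), integral_rpow (by norm_num)]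
    norm_num
  have hA1 : ∀ u ∈ Ioc (0 : ℝ) 1, ‖g u‖ ≤ u ^ (-(1 / 2) : ℝ) := by
    intro u hu
    have h0 : 0 ≤ u ^ (-(1 / 2) : ℝ) := Real.rpow_nonneg hu.1.le _
    rw [hg, norm_mul, Real.norm_of_nonneg (Real.exp_pos _).le, Real.norm_of_nonneg h0]
    have h1 : Real.exp (-((3 / 8) * (max 0 (u - ρ)) ^ 2)) ≤ 1 := by
      rw [Real.exp_le_one_iff]
      have : 0 ≤ (3 / 8) * (max 0 (u - ρ)) ^ 2 := by positivity
      linarith
    nlinarith
  have hAi : IntegrableOn g (Ioc 0 1) :=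
    hA.mono' hmeas.aestronglyMeasurable ((ae_restrict_iff' measurableSet_Ioc).2
      (Eventually.of_forall hA1))
  have hAb : ∫ u in Ioc (0 : ℝ) 1, g u ≤ 2 := by
    rw [← hAv]
    refine setIntegral_mono_on hAi hA measurableSet_Ioc fun u hu => ?_
    exact (le_abs_self _).trans (hA1 u hu)
  -- the part beyond one
  have hG : Integrable (fun u : ℝ => Real.exp (-((3 / 8) * u ^ 2))) := by
    have := integrable_exp_neg_mul_sq (b := 3 / 8) (by norm_num)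
    refine this.congr (Eventually.of_forall fun u => ?_)
    simp only
    congr 1
    ring
  have hGv : ∫ u : ℝ, Real.exp (-((3 / 8) * u ^ 2)) ≤ 4 := by
    have h1 := integral_gaussian (3 / 8)
    have h2 : ∫ u : ℝ, Real.exp (-((3 / 8) * u ^ 2)) = ∫ u : ℝ, Real.exp (-(3 / 8) * u ^ 2) := by
      congr 1
      ext u
      congr 1
      ring
    rw [h2, h1, Real.sqrt_le_left (by norm_num)]
    have := Real.pi_lt_four
    rw [div_le_iff₀ (by norm_num)]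
    linarith
  set R : ℝ := 1 + ρ with hR
  have hBc : IntegrableOn (fun u : ℝ => Real.exp (-((3 / 8) * (u - R) ^ 2))) (Ioi R) :=
    (hG.comp_sub_right R).integrableOn
  -- `g ≤ 1` on `(1, R]`, `g ≤ exp` beyond
  have hB1 : ∀ u ∈ Ioc (1 : ℝ) R, ‖g u‖ ≤ 1 := by
    intro u hu
    have h0 : 0 ≤ u ^ (-(1 / 2) : ℝ) := Real.rpow_nonneg (by linarith [hu.1]) _
    rw [hg, norm_mul, Real.norm_of_nonneg (Real.exp_pos _).le, Real.norm_of_nonneg h0]
    have h1 : Real.exp (-((3 / 8) * (max 0 (u - ρ)) ^ 2)) ≤ 1 := by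
      rw [Real.exp_le_one_iff]
      have : 0 ≤ (3 / 8) * (max 0 (u - ρ)) ^ 2 := by positivity
      linarith
    have h2 : u ^ (-(1 / 2) : ℝ) ≤ 1 := Real.rpow_le_one_of_one_le_of_nonpos hu.1.le (by norm_num)
    exact mul_le_one₀ h1 h0 h2
  have hBi : IntegrableOn g (Ioc 1 R) := by
    have : IntegrableOn (fun _ : ℝ => (1 : ℝ)) (Ioc 1 R) := by simp
    exact this.mono' hmeas.aestronglyMeasurable ((ae_restrict_iff' measurableSet_Ioc).2
      (Eventually.of_forall hB1))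
  have hBb : ∫ u in Ioc (1 : ℝ) R, g u ≤ ρ := by
    have h1 : ∫ u in Ioc (1 : ℝ) R, g u ≤ ∫ _ in Ioc (1 : ℝ) R, (1 : ℝ) :=
      setIntegral_mono_on hBi (by simp) measurableSet_Ioc fun u hu =>
        (le_abs_self _).trans (hB1 u hu)
    refine h1.trans ?_
    rw [setIntegral_const, smul_eq_mul, mul_one, Real.volume_real_Ioc_of_le (by linarith)]
    linarith
  have hC1 : ∀ u ∈ Ioi R, ‖g u‖ ≤ Real.exp (-((3 / 8) * (u - R) ^ 2)) := by
    intro u hu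
    rw [mem_Ioi] at hu
    have h0 : 0 ≤ u ^ (-(1 / 2) : ℝ) := Real.rpow_nonneg (by linarith) _
    rw [hg, norm_mul, Real.norm_of_nonneg (Real.exp_pos _).le, Real.norm_of_nonneg h0]
    have h1 : Real.exp (-((3 / 8) * (max 0 (u - ρ)) ^ 2)) ≤
        Real.exp (-((3 / 8) * (u - R) ^ 2)) := by
      apply Real.exp_le_exp.2
      rw [max_eq_right (by linarith)]
      nlinarith
    have h2 : u ^ (-(1 / 2) : ℝ) ≤ 1 :=
      Real.rpow_le_one_of_one_le_of_nonpos (by linarith) (by norm_num)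
    calc Real.exp (-((3 / 8) * (max 0 (u - ρ)) ^ 2)) * u ^ (-(1 / 2) : ℝ)
        ≤ Real.exp (-((3 / 8) * (u - R) ^ 2)) * 1 := by gcongr
      _ = _ := mul_one _
  have hCi : IntegrableOn g (Ioi R) :=
    hBc.mono' hmeas.aestronglyMeasurable ((ae_restrict_iff' measurableSet_Ioi).2
      (Eventually.of_forall hC1))
  have hCb : ∫ u in Ioi R, g u ≤ 4 := by
    calc ∫ u in Ioi R, g u ≤ ∫ u in Ioi R, Real.exp (-((3 / 8) * (u - R) ^ 2)) :=
          setIntegral_mono_on hCi hBc measurableSet_Ioi fun u hu =>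
            (le_abs_self _).trans (hC1 u hu)
      _ ≤ ∫ u : ℝ, Real.exp (-((3 / 8) * (u - R) ^ 2)) :=
          setIntegral_le_integral (hG.comp_sub_right R)
            (Eventually.of_forall fun u => (Real.exp_pos _).le)
      _ = ∫ u : ℝ, Real.exp (-((3 / 8) * u ^ 2)) :=
          integral_sub_right_eq_self (fun u : ℝ => Real.exp (-((3 / 8) * u ^ 2))) R
      _ ≤ 4 := hGv
  have hu1 : Ioi (0 : ℝ) = (Ioc 0 1 ∪ Ioc 1 R) ∪ Ioi R := by
    rw [Ioc_union_Ioc_eq_Ioc (by norm_num) (by linarith), Ioc_union_Ioi_eq_Ioi (by linarith)]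
  have hAB : IntegrableOn g (Ioc 0 1 ∪ Ioc 1 R) := hAi.union hBi
  refine ⟨by rw [hu1]; exact hAB.union hCi, ?_⟩
  rw [hu1, setIntegral_union _ measurableSet_Ioi hAB hCi,
    setIntegral_union _ measurableSet_Ioc hAi hBi]
  · linarith
  · rw [Set.disjoint_left]
    intro u hu hu'
    exact absurd hu.2 (not_le.2 hu'.1)
  · rw [Set.disjoint_left]
    intro u hu hu'
    rw [mem_Ioi] at hu'
    rcases hu with hu | hu
    · linarith [hu.2]
    · linarith [hu.2]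

/-- The core estimate. -/
theorem al_core {r : ℂ} (hr : 0 < r.re) {ρ q : ℝ} (hρ : 0 ≤ ρ) (hq : 1 ≤ q) (j : ℕ) {u : ℝ}
    (hu : 0 < u) :
    Real.exp (-(q ^ 2 / 2 * (max 0 (r.re + u - ρ)) ^ 2)) * ‖kE j r u‖ ≤
      Real.exp (-(q ^ 2 / 2 * (max 0 (r.re - ρ)) ^ 2)) *
        ((2 * ‖r‖ + ρ + 1) ^ (2 * j) * (2 * (16 * (j + 1)) ^ j) / √r.re) *
        (Real.exp (-((3 / 8) * (max 0 (u - ρ)) ^ 2)) * u ^ (-(1 / 2) : ℝ)) := by
  set v : ℝ := max 0 (u - ρ) with hv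
  have hv0 : 0 ≤ v := le_max_left _ _
  have hs : 0 < √r.re := Real.sqrt_pos.2 hr
  have h1 := max_split hr.le hu.le hρ
  have hup : 0 ≤ u ^ (-(1 / 2) : ℝ) := Real.rpow_nonneg hu.le _
  have h2 : Real.exp (-(q ^ 2 / 2 * (max 0 (r.re + u - ρ)) ^ 2)) ≤
      Real.exp (-(q ^ 2 / 2 * (max 0 (r.re - ρ)) ^ 2)) * (Real.exp (-(v ^ 2 / 8)) *
        Real.exp (-((3 / 8) * v ^ 2))) := by
    rw [← Real.exp_add, ← Real.exp_add]
    apply Real.exp_le_exp.2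
    have a1 : q ^ 2 / 2 * ((max 0 (r.re - ρ)) ^ 2 + v ^ 2) ≤
        q ^ 2 / 2 * (max 0 (r.re + u - ρ)) ^ 2 := by gcongr
    have a2 : v ^ 2 / 2 ≤ q ^ 2 / 2 * v ^ 2 := by
      have : 1 ≤ q ^ 2 := one_le_pow₀ hq
      nlinarith [sq_nonneg v]
    nlinarith
  have h3 : 2 * ‖r‖ + u ≤ (2 * ‖r‖ + ρ + 1) * (1 + v) := by
    have a1 : u ≤ ρ + v := by
      have : u - ρ ≤ v := le_max_right _ _
      linarith
    have a2 := norm_nonneg r
    nlinarith [mul_nonneg a2 hv0, mul_nonneg hρ hv0]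
  have h4 : (2 * ‖r‖ + u) ^ (2 * j) ≤ (2 * ‖r‖ + ρ + 1) ^ (2 * j) * (1 + v) ^ (2 * j) := by
    rw [← mul_pow]
    exact pow_le_pow_left₀ (by positivity) h3 _
  have h5 := pow_gauss j hv0
  have hk := norm_kE_le hr hu j
  calc Real.exp (-(q ^ 2 / 2 * (max 0 (r.re + u - ρ)) ^ 2)) * ‖kE j r u‖
      ≤ (Real.exp (-(q ^ 2 / 2 * (max 0 (r.re - ρ)) ^ 2)) * (Real.exp (-(v ^ 2 / 8)) *
        Real.exp (-((3 / 8) * v ^ 2)))) * (((2 * ‖r‖ + ρ + 1) ^ (2 * j) * (1 + v) ^ (2 * j)) *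
          (u ^ (-(1 / 2) : ℝ) / √r.re)) := by
        refine mul_le_mul h2 (hk.trans ?_) (norm_nonneg _) (by positivity)
        gcongr
    _ = Real.exp (-(q ^ 2 / 2 * (max 0 (r.re - ρ)) ^ 2)) *
        ((2 * ‖r‖ + ρ + 1) ^ (2 * j) * ((1 + v) ^ (2 * j) * Real.exp (-(v ^ 2 / 8))) / √r.re) *
        (Real.exp (-((3 / 8) * v ^ 2)) * u ^ (-(1 / 2) : ℝ)) := by ring
    _ ≤ _ := by gcongr

theorem al_cst {r : ℂ} (hr : 0 < r.re) {ρ : ℝ} (hρ : 0 ≤ ρ) (j : ℕ) :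
    ((2 * ‖r‖ + ρ + 1) ^ (2 * j) * (2 * (16 * (j + 1)) ^ j) / √r.re) * (8 * (1 + ρ)) ≤
      wE j ρ r := by
  have hs : 0 < √r.re := Real.sqrt_pos.2 hr
  rw [wE, div_mul_eq_mul_div]
  apply div_le_div_of_nonneg_right _ hs.le
  set A : ℝ := 1 + ρ + ‖r‖ with hA
  have hA1 : 1 ≤ A := by linarith [norm_nonneg r]
  have h1 : 2 * ‖r‖ + ρ + 1 ≤ 2 * A := by linarith [norm_nonneg r]
  have hj : (1 : ℝ) ≤ (j : ℝ) + 1 := by linarith [(Nat.cast_nonneg j : (0 : ℝ) ≤ j)]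
  have h2 : (16 * ((j : ℝ) + 1)) ^ j ≤ (16 * ((j : ℝ) + 1)) ^ (2 * j) :=
    pow_le_pow_right₀ (by linarith) (by omega)
  have h3 : 1 + ρ ≤ A := by linarith [norm_nonneg r]
  calc (2 * ‖r‖ + ρ + 1) ^ (2 * j) * (2 * (16 * ((j : ℝ) + 1)) ^ j) * (8 * (1 + ρ))
      ≤ (2 * A) ^ (2 * j) * (2 * (16 * ((j : ℝ) + 1)) ^ (2 * j)) * (8 * A) := by
        gcongr
    _ = (32 * ((j : ℝ) + 1) * A) ^ (2 * j) * (16 * A) := by
        have e : (32 * ((j : ℝ) + 1) * A) ^ (2 * j) =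
            (2 * A) ^ (2 * j) * (16 * ((j : ℝ) + 1)) ^ (2 * j) := by
          rw [← mul_pow]
          congr 1
          ring
        rw [e]
        ring
    _ ≤ (64 * ((j : ℝ) + 1) * A) ^ (2 * j) * (64 * ((j : ℝ) + 1) * A) := by
        have h6 : 16 * A ≤ 64 * ((j : ℝ) + 1) * A := by nlinarith
        have h7 : (32 * ((j : ℝ) + 1) * A) ^ (2 * j) ≤ (64 * ((j : ℝ) + 1) * A) ^ (2 * j) := by
          apply pow_le_pow_left₀ (by positivity)
          nlinarith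
        gcongr
    _ = (64 * ((j : ℝ) + 1) * A) ^ (2 * j + 1) := by rw [pow_succ]

theorem kE_cont {r : ℂ} (hr : 0 < r.re) (j : ℕ) : ContinuousOn (kE j r) (Ioi 0) := by
  intro u hu
  rw [mem_Ioi] at hu
  apply ContinuousAt.continuousWithinAt
  unfold kE
  apply ContinuousAt.cpow (by fun_prop) continuousAt_const
  exact Or.inl (kE_mem hr hu)

/-- The integral of any function with the Gaussian bound. -/
theorem al_gen {r : ℂ} (hr : 0 < r.re) {ρ q : ℝ} (hρ : 0 ≤ ρ) (hq : 1 ≤ q) (j : ℕ)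
    {H : ℝ → ℂ} (hH : ContinuousOn H (Ioi 0)) {B : ℝ} (hB : 0 ≤ B)
    (hb : ∀ u, 0 < u → ‖H u‖ ≤ B * Real.exp (-(q ^ 2 / 2 * (max 0 (r.re + u - ρ)) ^ 2))) :
    IntegrableOn (fun u => H u * kE j r u) (Ioi 0) ∧
      ‖∫ u in Ioi (0 : ℝ), H u * kE j r u‖ ≤
        B * Real.exp (-(q ^ 2 / 2 * (max 0 (r.re - ρ)) ^ 2)) * wE j ρ r := by
  obtain ⟨hi, hv⟩ := maj_int hρ
  set K : ℝ := (2 * ‖r‖ + ρ + 1) ^ (2 * j) * (2 * (16 * (j + 1)) ^ j) / √r.re with hK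
  have hs : 0 < √r.re := Real.sqrt_pos.2 hr
  have hK0 : 0 ≤ K := by
    have := norm_nonneg r
    positivity
  set X : ℝ := Real.exp (-(q ^ 2 / 2 * (max 0 (r.re - ρ)) ^ 2)) with hX
  have hX0 : 0 < X := Real.exp_pos _
  have hbd : ∀ u ∈ Ioi (0 : ℝ), ‖H u * kE j r u‖ ≤ B * X * K *
      (Real.exp (-((3 / 8) * (max 0 (u - ρ)) ^ 2)) * u ^ (-(1 / 2) : ℝ)) := by
    intro u hu
    rw [mem_Ioi] at hu
    rw [norm_mul]
    calc ‖H u‖ * ‖kE j r u‖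
        ≤ (B * Real.exp (-(q ^ 2 / 2 * (max 0 (r.re + u - ρ)) ^ 2))) * ‖kE j r u‖ := by
          gcongr
          exact hb u hu
      _ = B * (Real.exp (-(q ^ 2 / 2 * (max 0 (r.re + u - ρ)) ^ 2)) * ‖kE j r u‖) := by ring
      _ ≤ B * (X * K * (Real.exp (-((3 / 8) * (max 0 (u - ρ)) ^ 2)) * u ^ (-(1 / 2) : ℝ))) := by
          exact mul_le_mul_of_nonneg_left (al_core hr hρ hq j hu) hB
      _ = _ := by ring
  have hm : AEStronglyMeasurable (fun u => H u * kE j r u) (volume.restrict (Ioi 0)) :=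
    (hH.mul (kE_cont hr j)).aestronglyMeasurable measurableSet_Ioi
  have hint : IntegrableOn (fun u => H u * kE j r u) (Ioi 0) :=
    (hi.const_mul (B * X * K)).mono' hm ((ae_restrict_iff' measurableSet_Ioi).2
      (Eventually.of_forall hbd))
  refine ⟨hint, ?_⟩
  calc ‖∫ u in Ioi (0 : ℝ), H u * kE j r u‖ ≤ ∫ u in Ioi (0 : ℝ), ‖H u * kE j r u‖ :=
        norm_integral_le_integral_norm _
    _ ≤ ∫ u in Ioi (0 : ℝ), B * X * K *
      (Real.exp (-((3 / 8) * (max 0 (u - ρ)) ^ 2)) * u ^ (-(1 / 2) : ℝ)) :=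
        setIntegral_mono_on hint.norm (hi.const_mul _) measurableSet_Ioi hbd
    _ = B * X * (K * ∫ u in Ioi (0 : ℝ),
      Real.exp (-((3 / 8) * (max 0 (u - ρ)) ^ 2)) * u ^ (-(1 / 2) : ℝ)) := by
        rw [integral_const_mul]; ring
    _ ≤ B * X * (K * (8 * (1 + ρ))) := by gcongr
    _ ≤ B * X * wE j ρ r := by
        gcongr
        exact al_cst hr hρ j

end BE36C
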