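import Pool.Agent.LibBE36C.AL3
import Pool.Agent.LibBE36T.Defs

/-! BE36 part C, row AL4: the bounds in terms of the amplitudes of `LibBE36T`. -/

open MeasureTheory Set Filter Topology

namespace BE36C

theorem EA_of {a : ℂ → ℂ} {ρ M H h : ℝ} (ha : B36.EA a ρ M H h) : EA a H h ρ M :=
  ⟨ha.diff, fun z => by
    have := ha.bound z
    rwa [mul_pow, mul_pow] at this⟩

/-- The symbol at complex distances. -/
theorem al_hol {a : ℂ → ℂ} {ρ M H h r0 τ : ℝ} (ha : B36.EA a ρ M H h) (hρ : 0 ≤ ρ) (hh : 1 ≤ h)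
    (hH : h ≤ H) (hr0 : 0 < r0) (hτ : 1 ≤ τ) (j : ℕ) :
    ∃ g : ℂ → ℂ, DifferentiableOn ℂ g {z | 0 < z.re} ∧
      (∀ r : ℝ, 0 < r → g r = B35.al j (B36.rst a) τ r) ∧
      ∀ z : ℂ, r0 / 2 ≤ z.re → |z.im| ≤ 1 / (4 * H) →
        ‖g z‖ ≤ 40 * H * τ * M / √r0 * (64 * (j + 1) * (1 + ρ + ‖z‖)) ^ (2 * j + 1) := by
  have hE := EA_of ha
  have hM := hE.M_nonneg
  have hH0 : 0 < H := by linarith
  refine ⟨alE j a τ, alE_diff hE hρ hh hH (by linarith) j, fun r hr => alE_real hE.diff j τ hr,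
    fun z hz hi => ?_⟩
  have hz0 : 0 < z.re := by linarith
  have h1 := alE_bound hE hρ hh hH (by linarith : (0 : ℝ) ≤ τ) j hz0
  have h2 : Real.exp (2 * H ^ 2 * z.im ^ 2) ≤ 6 / 5 := by
    have a1 : z.im ^ 2 ≤ (1 / (4 * H)) ^ 2 := by
      rw [← sq_abs]
      exact pow_le_pow_left₀ (abs_nonneg _) hi 2
    have a2 : 2 * H ^ 2 * z.im ^ 2 ≤ 1 / 8 := by
      calc 2 * H ^ 2 * z.im ^ 2 ≤ 2 * H ^ 2 * (1 / (4 * H)) ^ 2 := by gcongr
        _ = 1 / 8 := by field_simp; norm_num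
    refine (Real.exp_le_exp.2 a2).trans ?_
    have b2 : Real.exp (1 / 8) ^ 8 = Real.exp 1 := by rw [← Real.exp_nat_mul]; norm_num
    have b3 := Real.exp_one_lt_d9
    by_contra hcon
    push Not at hcon
    have b4 : (6 / 5 : ℝ) ^ 8 < Real.exp (1 / 8) ^ 8 :=
      pow_lt_pow_left₀ hcon (by norm_num) (by norm_num)
    norm_num at b4
    linarith
  have h3 : Real.exp (-(h ^ 2 / 2 * (max 0 (z.re - ρ)) ^ 2)) ≤ 1 := by
    rw [Real.exp_le_one_iff]
    have : 0 ≤ h ^ 2 / 2 * (max 0 (z.re - ρ)) ^ 2 := by positivity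
    linarith
  have hs : 0 < √r0 := Real.sqrt_pos.2 hr0
  have h4 : 1 / √z.re ≤ 3 / 2 / √r0 := by
    have a1 : √(r0 / 2) ≤ √z.re := Real.sqrt_le_sqrt hz
    have a2 : √(r0 / 2) = √r0 / √2 := Real.sqrt_div hr0.le 2
    have a3 : √2 ≤ 3 / 2 := by
      rw [Real.sqrt_le_left (by norm_num)]
      norm_num
    have a4 : 0 < √2 := by positivity
    have a5 : 0 < √z.re := Real.sqrt_pos.2 hz0
    rw [a2] at a1
    rw [div_le_div_iff₀ a5 hs, one_mul]
    rw [div_le_iff₀ a4] at a1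
    nlinarith
  set W : ℝ := (64 * (j + 1) * (1 + ρ + ‖z‖)) ^ (2 * j + 1) with hW
  have hW0 : 0 ≤ W := by
    have := norm_nonneg z
    positivity
  have h5 : wE j ρ z = W * (1 / √z.re) := by rw [wE, hW]; ring
  have h6 : τ + 21 * H ≤ 22 * H * τ := by nlinarith
  calc ‖alE j a τ z‖ ≤ (τ + 21 * H) * M * Real.exp (2 * H ^ 2 * z.im ^ 2) *
        Real.exp (-(h ^ 2 / 2 * (max 0 (z.re - ρ)) ^ 2)) * wE j ρ z := h1
    _ ≤ (22 * H * τ) * M * (6 / 5) * 1 * (W * (3 / 2 / √r0)) := by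
        rw [h5]
        gcongr
    _ ≤ 40 * H * τ * M / √r0 * W := by
        have e1 : (22 * H * τ) * M * (6 / 5) * 1 * (W * (3 / 2 / √r0)) =
          (198 / 5) * (H * τ * M / √r0 * W) := by ring
        have e2 : 40 * H * τ * M / √r0 * W = 40 * (H * τ * M / √r0 * W) := by ring
        rw [e1, e2]
        have : 0 ≤ H * τ * M / √r0 * W := by positivity
        linarith

end BE36C
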