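import Pool.Agent.LibBE36C.Defs

/-! BE36 C', row F1: the contour shift on an interval.

MEDIUM. `rect_phase` (CT.lean) with φ = D, G z = (1 - thE h e z) * Σ W j z * alE j F τ (D z), on the
rectangle ⊆ Nb a b r (`rect_sub`, GL.lean; points are x - t i, `mem_Nb`). Holomorphy: `thE_diff`,
`alE_diff` (AL3) composed with D (re (D z) ≥ r0 > 0 on the closed rectangle by hDb; every point of the
rectangle is x - t i). Bounds: `alE_bound` (AL3): ‖alE j F τ (D z)‖ ≤ (τ + 21 Q) M e² · exp(-(qd²/2)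
(max 0 (re - ρ))²) · wE j ρ (D z) with 2 Q² im² ≤ 2, e² ≤ 8, and wE j ρ z = (64 (j+1)(1+ρ+‖z‖))^(2j+1) / √re z ≤
(64 (N+1)(1+ρ+B))^(2N+1) / √r0 for j ≤ N (base ≥ 1). ‖1 - thE‖ ≤ 1 + exp((t/e)²) ≤ 1 + e ≤ 4 (`norm_thE_le`)
everywhere, ≤ √2 exp(-d²/(2e²)) e ≤ 5 exp(..) at x = a (`norm_thE_in`, |a| + d ≤ h). At x = b: the factor
exp(-qd²/2) (re ≥ ρ + 1). -/

open MeasureTheory Set Filter Topology Metric

namespace BE36C

private theorem F1_wE {j N : ℕ} (hj : j ≤ N) {ρ B r0 : ℝ} (hρ : 0 ≤ ρ) (hr0 : 0 < r0) {z : ℂ}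
    (hz : ‖z‖ ≤ B) (hr : r0 ≤ z.re) :
    wE j ρ z ≤ (64 * (N + 1) * (1 + ρ + B)) ^ (2 * N + 1) / √r0 := by
  have hB : 0 ≤ B := (norm_nonneg z).trans hz
  have hjN : (j : ℝ) ≤ N := by exact_mod_cast hj
  have hj0 : (0 : ℝ) ≤ j := Nat.cast_nonneg j
  have h1 : 64 * ((j : ℝ) + 1) * (1 + ρ + ‖z‖) ≤ 64 * ((N : ℝ) + 1) * (1 + ρ + B) :=
    mul_le_mul (by linarith) (by linarith) (by positivity) (by positivity)
  have h2 : 1 ≤ 64 * ((N : ℝ) + 1) * (1 + ρ + B) := by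
    have : (0 : ℝ) ≤ N := Nat.cast_nonneg N
    nlinarith [mul_nonneg this (add_nonneg (add_nonneg zero_le_one hρ) hB)]
  have h3 : (64 * ((j : ℝ) + 1) * (1 + ρ + ‖z‖)) ^ (2 * j + 1) ≤
      (64 * ((N : ℝ) + 1) * (1 + ρ + B)) ^ (2 * N + 1) :=
    (pow_le_pow_left₀ (by positivity) h1 _).trans (pow_le_pow_right₀ h2 (by omega))
  unfold wE
  exact div_le_div₀ (by positivity) h3 (Real.sqrt_pos.2 hr0) (Real.sqrt_le_sqrt hr)

private theorem F1_al {F : ℂ → ℂ} {Q qd ρ M τ r0 B : ℝ} {j N : ℕ} (hj : j ≤ N)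
    (hF : EA F Q qd ρ M) (hρ : 0 ≤ ρ) (hq1 : 1 ≤ qd) (hqQ : qd ≤ Q) (hτ : 0 ≤ τ) (hr0 : 0 < r0)
    {z : ℂ} (hz : ‖z‖ ≤ B) (hr : r0 ≤ z.re) (him : |z.im| ≤ 1 / Q) :
    ‖alE j F τ z‖ ≤ 8 * (τ + 21 * Q) * M *
      ((64 * (N + 1) * (1 + ρ + B)) ^ (2 * N + 1) / √r0) *
        Real.exp (-(qd ^ 2 / 2 * (max 0 (z.re - ρ)) ^ 2)) := by
  have hQ : 0 < Q := by linarith
  have hM := hF.M_nonneg
  have h1 := alE_bound hF hρ hq1 hqQ hτ j (r := z) (hr0.trans_le hr)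
  have h2 : Real.exp (2 * Q ^ 2 * z.im ^ 2) ≤ 8 := by
    have h3 : z.im ^ 2 ≤ (1 / Q) ^ 2 := by
      rw [← sq_abs z.im]
      exact pow_le_pow_left₀ (abs_nonneg _) him 2
    have h4 : 2 * Q ^ 2 * z.im ^ 2 ≤ 2 := by
      calc 2 * Q ^ 2 * z.im ^ 2 ≤ 2 * Q ^ 2 * (1 / Q) ^ 2 :=
            mul_le_mul_of_nonneg_left h3 (by positivity)
        _ = 2 := by field_simp
    refine (Real.exp_le_exp.2 h4).trans ?_
    have h5 : Real.exp 2 = Real.exp 1 * Real.exp 1 := by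
      rw [← Real.exp_add]
      norm_num
    rw [h5]
    have h6 := Real.exp_one_lt_d9
    have h7 := Real.exp_pos 1
    nlinarith
  have h8 := F1_wE hj hρ hr0 hz hr
  have hw0 : 0 ≤ wE j ρ z := by
    unfold wE
    have := norm_nonneg z
    positivity
  set E := Real.exp (-(qd ^ 2 / 2 * (max 0 (z.re - ρ)) ^ 2)) with hE
  have hE0 : 0 ≤ E := (Real.exp_pos _).le
  have hA : 0 ≤ (τ + 21 * Q) * M := by positivity
  calc ‖alE j F τ z‖ ≤ (τ + 21 * Q) * M * Real.exp (2 * Q ^ 2 * z.im ^ 2) * E * wE j ρ z := h1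
    _ ≤ (τ + 21 * Q) * M * 8 * E * ((64 * (N + 1) * (1 + ρ + B)) ^ (2 * N + 1) / √r0) := by
        refine mul_le_mul ?_ h8 hw0 (by positivity)
        exact mul_le_mul_of_nonneg_right (mul_le_mul_of_nonneg_left h2 hA) hE0
    _ = _ := by ring

theorem far_abs {F : ℂ → ℂ} {Q qd ρ M τ h e d r0 r B Bw c η a b : ℝ} {N : ℕ} {D : ℂ → ℂ}
    {W : ℕ → ℂ → ℂ} (hF : EA F Q qd ρ M) (hρ : 0 ≤ ρ) (hq1 : 1 ≤ qd) (hqQ : qd ≤ Q)
    (hτ : 0 ≤ τ) (ha : 0 ≤ a) (hab : a ≤ b) (hη : 0 ≤ η) (hηr : η < r) (he : 0 < e) (hηe : η ≤ e)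
    (hh : 0 ≤ h) (hd : 0 ≤ d) (had : a + d ≤ h) (hr0 : 0 < r0) (hr1 : r0 ≤ 1) (hc : 0 ≤ c)
    (hB : 0 ≤ B) (hBw : 0 ≤ Bw)
    (hD : DifferentiableOn ℂ D (Nb a b r))
    (hW : ∀ j ≤ N, DifferentiableOn ℂ (W j) (Nb a b r))
    (hDb : ∀ x ∈ Icc a b, ∀ t ∈ Icc (0 : ℝ) η, ‖D (x - t * Complex.I)‖ ≤ B ∧
      r0 ≤ (D (x - t * Complex.I)).re ∧ |(D (x - t * Complex.I)).im| ≤ 1 / Q ∧
      (D (x - t * Complex.I)).im ≤ -(c * t))
    (hWb : ∀ j ≤ N, ∀ x ∈ Icc a b, ∀ t ∈ Icc (0 : ℝ) η, ‖W j (x - t * Complex.I)‖ ≤ Bw)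
    (hend : ∀ t ∈ Icc (0 : ℝ) η, ρ + 1 ≤ (D (b - t * Complex.I)).re) :
    ‖∫ x in a..b, (1 - thE h e x) * (∑ j ∈ Finset.range (N + 1), W j x * alE j F τ (D x)) *
      Complex.exp (-(Complex.I * τ * D x))‖ ≤
      (N + 1) * Bw * (8 * (τ + 21 * Q) * M *
        ((64 * (N + 1) * (1 + ρ + B)) ^ (2 * N + 1) / √r0)) *
        ((b - a) * (4 * Real.exp (-(c * τ * η))) +
          η * (5 * Real.exp (-(d ^ 2 / (2 * e ^ 2))) + 4 * Real.exp (-(qd ^ 2 / 2)))) := by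
  have hQ : 0 < Q := by linarith
  have hM := hF.M_nonneg
  set K : ℝ := 8 * (τ + 21 * Q) * M * ((64 * (N + 1) * (1 + ρ + B)) ^ (2 * N + 1) / √r0) with hK
  have hK0 : 0 ≤ K := by
    rw [hK]
    positivity
  set S : ℝ := (N + 1) * Bw * K with hS
  have hS0 : 0 ≤ S := by
    rw [hS]
    positivity
  have hre : ∀ x t : ℝ, ((x : ℂ) - t * Complex.I).re = x := fun x t => by simp
  have him : ∀ x t : ℝ, ((x : ℂ) - t * Complex.I).im = -t := fun x t => by simp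
  have hpt : ∀ x ∈ Icc a b, ∀ t ∈ Icc (0 : ℝ) η,
      ‖∑ j ∈ Finset.range (N + 1), W j (x - t * Complex.I) *
        alE j F τ (D (x - t * Complex.I))‖ ≤
        S * Real.exp (-(qd ^ 2 / 2 * (max 0 ((D (x - t * Complex.I)).re - ρ)) ^ 2)) := by
    intro x hx t ht
    obtain ⟨d1, d2, d3, -⟩ := hDb x hx t ht
    set E := Real.exp (-(qd ^ 2 / 2 * (max 0 ((D (x - t * Complex.I)).re - ρ)) ^ 2)) with hE
    refine (norm_sum_le _ _).trans ?_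
    have h1 : ∀ j ∈ Finset.range (N + 1), ‖W j (x - t * Complex.I) *
        alE j F τ (D (x - t * Complex.I))‖ ≤ Bw * (K * E) := by
      intro j hj
      have hjN : j ≤ N := Nat.lt_succ_iff.1 (Finset.mem_range.1 hj)
      rw [norm_mul]
      exact mul_le_mul (hWb j hjN x hx t ht) (F1_al hjN hF hρ hq1 hqQ hτ hr0 d1 d2 d3)
        (norm_nonneg _) hBw
    refine (Finset.sum_le_sum h1).trans (le_of_eq ?_)
    rw [Finset.sum_const, Finset.card_range, nsmul_eq_mul]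
    push_cast
    rw [hS]
    ring
  have hte : ∀ t ∈ Icc (0 : ℝ) η, Real.exp ((-t / e) ^ 2) ≤ 2.7182818286 := by
    intro t ht
    have h1 : (-t / e) ^ 2 ≤ 1 := by
      have h2 : t / e ≤ 1 := (div_le_one he).2 (ht.2.trans hηe)
      have h3 : 0 ≤ t / e := div_nonneg ht.1 he.le
      have h4 : (-t / e) ^ 2 = (t / e) ^ 2 := by ring
      rw [h4]
      exact pow_le_one₀ h3 h2
    exact ((Real.exp_le_exp.2 h1).trans Real.exp_one_lt_d9.le)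
  have hE1 : ∀ y : ℝ, Real.exp (-(qd ^ 2 / 2 * (max 0 y) ^ 2)) ≤ 1 := by
    intro y
    rw [Real.exp_le_one_iff]
    have : 0 ≤ qd ^ 2 / 2 * (max 0 y) ^ 2 := by positivity
    linarith
  have hth : ∀ x : ℝ, ∀ t ∈ Icc (0 : ℝ) η, ‖1 - thE h e (x - t * Complex.I)‖ ≤ 4 := by
    intro x t ht
    have h1 := norm_thE_le hh he ((x : ℂ) - t * Complex.I)
    rw [him] at h1
    refine (norm_sub_le _ _).trans ?_
    rw [norm_one]
    have := hte t ht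
    linarith
  have hrect : uIcc a b ×ℂ uIcc (-η) 0 ⊆ Nb a b r := rect_sub hab hη hηr
  have hrep : ∀ z ∈ uIcc a b ×ℂ uIcc (-η) 0, ∃ x ∈ Icc a b, ∃ t ∈ Icc (0 : ℝ) η,
      z = (x : ℂ) - t * Complex.I := by
    intro z hz
    obtain ⟨h1, h2⟩ := hz
    rw [mem_preimage, uIcc_of_le hab] at h1
    rw [mem_preimage, uIcc_of_le (by linarith)] at h2
    refine ⟨z.re, h1, -z.im, ⟨by linarith [h2.2], by linarith [h2.1]⟩, ?_⟩
    conv_lhs => rw [← Complex.re_add_im z]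
    push_cast
    ring
  have hDr : DifferentiableOn ℂ D (uIcc a b ×ℂ uIcc (-η) 0) := hD.mono hrect
  have hmaps : MapsTo D (uIcc a b ×ℂ uIcc (-η) 0) {r : ℂ | 0 < r.re} := by
    intro z hz
    obtain ⟨x, hx, t, ht, rfl⟩ := hrep z hz
    exact hr0.trans_le (hDb x hx t ht).2.1
  have hG : DifferentiableOn ℂ (fun z => (1 - thE h e z) *
      ∑ j ∈ Finset.range (N + 1), W j z * alE j F τ (D z)) (uIcc a b ×ℂ uIcc (-η) 0) := by
    refine ((differentiable_const _).sub (thE_diff he)).differentiableOn.mul ?_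
    refine DifferentiableOn.fun_sum fun j hj => ?_
    have hjN : j ≤ N := Nat.lt_succ_iff.1 (Finset.mem_range.1 hj)
    exact ((hW j hjN).mono hrect).mul ((alE_diff hF hρ hq1 hqQ hτ j).comp hDr hmaps)
  have key := rect_phase (G := fun z => (1 - thE h e z) *
      ∑ j ∈ Finset.range (N + 1), W j z * alE j F τ (D z)) (φ := D) (a := a) (b := b) (η := η)
    (c := c) (τ := τ) (M1 := 4 * S) (M2 := 5 * Real.exp (-(d ^ 2 / (2 * e ^ 2))) * S)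
    (M3 := 4 * (S * Real.exp (-(qd ^ 2 / 2)))) hab hη hc hτ (by positivity) (by positivity)
    (by positivity) hG hDr (fun x hx t ht => (hDb x hx t ht).2.2.2) ?_ ?_ ?_
  · refine key.trans (le_of_eq ?_)
    ring
  · intro x hx
    have hη' : η ∈ Icc (0 : ℝ) η := ⟨hη, le_rfl⟩
    rw [norm_mul]
    refine mul_le_mul (hth x η hη') ?_ (norm_nonneg _) (by norm_num)
    exact (hpt x hx η hη').trans (mul_le_of_le_one_right hS0 (hE1 _))
  · intro t ht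
    rw [norm_mul]
    have ha' : a ∈ Icc a b := ⟨le_rfl, hab⟩
    refine mul_le_mul ?_ ((hpt a ha' t ht).trans (mul_le_of_le_one_right hS0 (hE1 _)))
      (norm_nonneg _) (by positivity)
    have h1 := norm_thE_in hh he hd (z := (a : ℂ) - t * Complex.I)
      (by rw [hre, abs_of_nonneg ha]; exact had)
    rw [him] at h1
    have h2 : √2 ≤ 1.5 := by
      rw [show (1.5 : ℝ) = √(1.5 ^ 2) by rw [Real.sqrt_sq (by norm_num)]]
      exact Real.sqrt_le_sqrt (by norm_num)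
    have h3 := hte t ht
    have h4 : 0 ≤ Real.exp (-(d ^ 2 / (2 * e ^ 2))) := (Real.exp_pos _).le
    have h5 : √2 * Real.exp ((-t / e) ^ 2) ≤ 5 := by
      have := Real.sqrt_nonneg 2
      nlinarith [Real.exp_pos ((-t / e) ^ 2)]
    calc _ ≤ √2 * Real.exp (-(d ^ 2 / (2 * e ^ 2))) * Real.exp ((-t / e) ^ 2) := h1
      _ = √2 * Real.exp ((-t / e) ^ 2) * Real.exp (-(d ^ 2 / (2 * e ^ 2))) := by ring
      _ ≤ 5 * Real.exp (-(d ^ 2 / (2 * e ^ 2))) := mul_le_mul_of_nonneg_right h5 h4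
  · intro t ht
    rw [norm_mul]
    have hb' : b ∈ Icc a b := ⟨hab, le_rfl⟩
    refine mul_le_mul (hth b t ht) ((hpt b hb' t ht).trans ?_) (norm_nonneg _) (by norm_num)
    refine mul_le_mul_of_nonneg_left (Real.exp_le_exp.2 ?_) hS0
    have h1 : 1 ≤ max 0 ((D (b - t * Complex.I)).re - ρ) :=
      le_max_of_le_right (by linarith [hend t ht])
    have h2 : 1 ≤ (max 0 ((D (b - t * Complex.I)).re - ρ)) ^ 2 := one_le_pow₀ h1
    have h3 : 0 ≤ qd ^ 2 / 2 := by positivity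
    nlinarith

end BE36C
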