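import Pool.Agent.LibBE36C.Defs

/-! BE36 C', row F2: bounds on the real line, exchange of the amplitudes.

SHORT/MEDIUM. `al j (rs F) τ r = alE j F τ r` (`alE_real`), `alE_bound`, `al_exch` (AL3), all
at im = 0; exponentials of non-positive numbers are ≤ 1; wE j ρ r ≤ (64 (N+1)(1+ρ+B))^(2N+1) / √r0 for j ≤ N. -/

open MeasureTheory Set Filter Topology Metric

namespace BE36C

open BGS BR BE

private theorem F2_wE {ρ r r0 B : ℝ} {N j : ℕ} (hρ : 0 ≤ ρ) (hr0 : 0 < r0) (hr : r0 ≤ r)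
    (hrB : r ≤ B) (hj : j ≤ N) :
    wE j ρ (r : ℂ) ≤ (64 * (N + 1) * (1 + ρ + B)) ^ (2 * N + 1) / √r0 := by
  unfold wE
  have hr' : 0 < r := by linarith
  have hjN : (j : ℝ) ≤ N := by exact_mod_cast hj
  have hj0 : (0 : ℝ) ≤ j := Nat.cast_nonneg _
  have hN0 : (0 : ℝ) ≤ N := Nat.cast_nonneg _
  rw [Complex.norm_real, Real.norm_of_nonneg hr'.le, Complex.ofReal_re]
  have h1 : 64 * ((j : ℝ) + 1) * (1 + ρ + r) ≤ 64 * ((N : ℝ) + 1) * (1 + ρ + B) := by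
    apply mul_le_mul (by linarith) (by linarith) (by linarith) (by linarith)
  have h2 : 1 ≤ 64 * ((N : ℝ) + 1) * (1 + ρ + B) := by nlinarith
  have h3 : (64 * ((j : ℝ) + 1) * (1 + ρ + r)) ^ (2 * j + 1) ≤
      (64 * ((N : ℝ) + 1) * (1 + ρ + B)) ^ (2 * N + 1) :=
    (pow_le_pow_left₀ (by positivity) h1 _).trans (pow_le_pow_right₀ h2 (by omega))
  exact div_le_div₀ (by positivity) h3 (Real.sqrt_pos.2 hr0) (Real.sqrt_le_sqrt hr)

private theorem F2_sum {N : ℕ} {w : ℕ → ℝ} {Bw K : ℝ} {a : ℕ → ℂ} (hw : ∀ j ≤ N, |w j| ≤ Bw)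
    (ha : ∀ j ≤ N, ‖a j‖ ≤ K) :
    ‖∑ j ∈ Finset.range (N + 1), (w j : ℂ) * a j‖ ≤ (N + 1) * Bw * K := by
  have hBw : 0 ≤ Bw := (abs_nonneg _).trans (hw 0 (Nat.zero_le _))
  refine (norm_sum_le _ _).trans ?_
  have h1 : ∀ j ∈ Finset.range (N + 1), ‖(w j : ℂ) * a j‖ ≤ Bw * K := by
    intro j hj
    have hj' : j ≤ N := by rw [Finset.mem_range] at hj; omega
    rw [norm_mul, Complex.norm_real, Real.norm_eq_abs]
    exact mul_le_mul (hw j hj') (ha j hj') (norm_nonneg _) hBw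
  refine (Finset.sum_le_sum h1).trans (le_of_eq ?_)
  rw [Finset.sum_const, Finset.card_range, nsmul_eq_mul]
  push_cast
  ring

private theorem F2_exp (q x : ℝ) : Real.exp (-(q ^ 2 / 2 * (max 0 x) ^ 2)) ≤ 1 := by
  rw [Real.exp_le_one_iff]
  have : 0 ≤ q ^ 2 / 2 * (max 0 x) ^ 2 := by positivity
  linarith

theorem sum_al_le {F : ℂ → ℂ} {f : ℝ → ℂ} {Q qd ρ R M M' κ τ r r0 B Bw : ℝ} {N : ℕ} {w : ℕ → ℝ}
    (hA : AH F f Q qd ρ R M M' κ) (hτ : 1 ≤ τ) (hr0 : 0 < r0) (hr1 : r0 ≤ 1) (hr : r0 ≤ r)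
    (hrB : r ≤ B) (hw : ∀ j ≤ N, |w j| ≤ Bw) :
    ‖∑ j ∈ Finset.range (N + 1), (w j : ℂ) * al j (rs F) τ r‖ ≤
      (N + 1) * Bw * ((τ + 21 * Q) * M *
        ((64 * (N + 1) * (1 + ρ + B)) ^ (2 * N + 1) / √r0)) ∧
    ‖∑ j ∈ Finset.range (N + 1), (w j : ℂ) * (al j f τ r - al j (rs F) τ r)‖ ≤
      (N + 1) * Bw * ((τ + 1) * κ * ((64 * (N + 1) * (1 + ρ + B)) ^ (2 * N + 1) / √r0)) := by
  have hr' : 0 < r := by linarith
  have hM := hA.ea.M_nonneg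
  have hρ := hA.rho
  have hQ : 0 ≤ Q := by have h1 := hA.q1; have h2 := hA.qQ; linarith
  have hκ := hA.cut.nonneg
  have hre : ∀ j, al j (rs F) τ r = alE j F τ (r : ℂ) := fun j =>
    (alE_real hA.ea.diff j τ hr').symm
  have hW : ∀ j ≤ N, wE j ρ (r : ℂ) ≤ (64 * (N + 1) * (1 + ρ + B)) ^ (2 * N + 1) / √r0 :=
    fun j hj => F2_wE hρ hr0 hr hrB hj
  have hw0 : ∀ j : ℕ, 0 ≤ wE j ρ (r : ℂ) := by
    intro j
    unfold wE
    have := norm_nonneg (r : ℂ)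
    positivity
  constructor
  · refine F2_sum hw fun j hj => ?_
    rw [hre]
    have h1 := alE_bound hA.ea hρ hA.q1 hA.qQ (by linarith : 0 ≤ τ) j (r := (r : ℂ))
      (by simpa using hr')
    rw [Complex.ofReal_im, zero_pow two_ne_zero, mul_zero, Real.exp_zero, mul_one,
      Complex.ofReal_re] at h1
    refine h1.trans ?_
    have h2 := F2_exp qd (r - ρ)
    calc (τ + 21 * Q) * M * Real.exp (-(qd ^ 2 / 2 * (max 0 (r - ρ)) ^ 2)) * wE j ρ (r : ℂ)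
        ≤ (τ + 21 * Q) * M * 1 * ((64 * (N + 1) * (1 + ρ + B)) ^ (2 * N + 1) / √r0) := by
          apply mul_le_mul _ (hW j hj) (hw0 j) (by positivity)
          exact mul_le_mul_of_nonneg_left h2 (by positivity)
      _ = _ := by ring
  · refine F2_sum hw fun j hj => ?_
    rw [hre]
    have h1 := al_exch hA.ea hρ hA.q1 hA.qQ (by linarith : 0 ≤ τ) hA.amp hκ hA.cut.h0 hA.cut.h1
      j hr'
    refine h1.trans ?_
    have h2 := F2_exp qd (r - ρ)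
    calc (τ + 1) * κ * Real.exp (-(qd ^ 2 / 2 * (max 0 (r - ρ)) ^ 2)) * wE j ρ (r : ℂ)
        ≤ (τ + 1) * κ * 1 * ((64 * (N + 1) * (1 + ρ + B)) ^ (2 * N + 1) / √r0) := by
          apply mul_le_mul _ (hW j hj) (hw0 j) (by positivity)
          exact mul_le_mul_of_nonneg_left h2 (by positivity)
      _ = _ := by ring

end BE36C
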