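import Pool.Agent.LibBE36C.L5

/-! BE36 C', row L6: the holomorphic functions on the strip.

MEDIUM/STRONG. At every y ∈ [-Y, Y]: `2 + q.d m s y ≤ C (2 + l + Y)` (`Ax_growth`, LibBE99/S3).
(1) the displacement: `E1_along` for `G g x = ds (mm m (s i) p1) x (g • x)` (invariance: `L0_ll` or
`Dk_ds`), EX from `hG.d` at the index ⟨i, p1, g', x', ..⟩ : Jx. (2) `ff`: `hG.f` (invariance: `Dk_ff`,
LibBE99/U1) and `uu j`: `hG.u` (`uu_deck`, LibBE99/U1). (3) `UU_j = uu_j * exp (-(ff)/2)` by definition of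
`uu` (LibBE88/Defs); `E1.exp` for -ff/2: radius r/(8B), bound 3 exp (-ff(y)/2), and exp (-ff/2) = |UU_0| /
|uu_0|: `uu_0 = 1` (or: wt ≥ 1, so ff ≥ 0 and the bound is 3; look for `one_le` of `wt` / `sinh` in
LibBE88/V*.lean and LibBR70), in any case polynomial in 2 + d by `LP_UU h 0` (LibBE99/L3). (4)
`exp (s (p1, .) - s (p0, .))`: E1_along for the two functions `s i (p, x)` (h.inv), E1.sub, E1.exp; the
real value is bounded by h.bd (k = 0) and invariance. (5) JA: row L5. (6) products: `E1.mul`; so for one A,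
all N, j ≤ N, y ∈ [-Y, Y]: E1 (q.d m s) y (X^A)⁻¹ (X^A) and E1 (Wj m s q j) y (X^A)⁻¹
(X^(A(j+1)) exp(A Y)), X = XN N (Qs q.i) (l + Y) (X ≥ 4; XN N Q (l+Y) = (N+2) Q (2 + l + Y)).
(7) `glue` (GL.lean) with a = -Y, b = Y, r = (X^A)⁻¹ gives the functions on Nb (-Y) Y (r/2); enlarge A by
one (X ≥ 2). Choose the W j for j ≤ N with `choose!` or `Classical.choose`. -/

open MeasureTheory Set Filter Topology Metric
open scoped ContDiff

namespace BE36C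

open BGS BR BE

variable {Γ : Type} [Group Γ] [MulAction Γ Pl] {D : Set Pl}
variable {ι P : Type} [NormedAddCommGroup P] [NormedSpace ℝ P] [FiniteDimensional ℝ P]
  {m : Pl → Co} {a b : ℝ} {s : ι → P × Pl → ℝ}

private theorem L6_rad {X b c : ℝ} {A A0 k : ℕ} (hX : 1 ≤ X) (hb0 : 0 < b) (hb : b ≤ X ^ k)
    (hc0 : 0 < c) (hc : c ≤ X) : (X ^ (k * A + A0))⁻¹ ≤ (b ^ A)⁻¹ / c ^ A0 := by
  have h1 : (b ^ A)⁻¹ / c ^ A0 = (b ^ A * c ^ A0)⁻¹ := by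
    rw [mul_inv, div_eq_mul_inv]
  rw [h1]
  refine inv_anti₀ (by positivity) ?_
  rw [pow_add, pow_mul]
  exact mul_le_mul (pow_le_pow_left₀ hb0.le hb A) (pow_le_pow_left₀ hc0.le hc A0) (by positivity)
    (by positivity)

private theorem L6_ctx (h : CF Γ D m a b s) {Qs : ι → ℝ} (hG : GI Γ D m s Qs) : ∃ k : ℕ,
    ∀ (N : ℕ) (q : Ln ι P Γ) (v : Pl) (l Y : ℝ), q.Ax m s v l → 1 ≤ Y → ∀ y ∈ Icc (-Y) Y,
      2 ≤ XN N (Qs q.i) (l + Y) ∧ 2 * Qs q.i ≤ XN N (Qs q.i) (l + Y) ∧ 0 ≤ q.d m s y ∧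
      (N + 2) * Qs q.i * (2 + q.d m s y) ≤ XN N (Qs q.i) (l + Y) ^ k ∧
      Qs q.i * (2 + q.d m s y) ≤ XN N (Qs q.i) (l + Y) ^ k := by
  obtain ⟨C, hC1, hC⟩ := Ax_growth h
  obtain ⟨k0, hk0⟩ := pow_unbounded_of_one_lt C (one_lt_two : (1 : ℝ) < 2)
  refine ⟨k0 + 1, fun N q v l Y hAx hY y hy => ?_⟩
  obtain ⟨hl, hgr⟩ := hC q v l hAx
  have hQ : 1 ≤ Qs q.i := hG.one q.i
  have hl0 : 0 < l := by
    by_contra hcon
    rw [not_lt] at hcon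
    have : C * l ≤ 0 := mul_nonpos_of_nonneg_of_nonpos (by linarith) hcon
    linarith
  have hd0 : 0 ≤ q.d m s y := Real.sqrt_nonneg _
  have hy' : |y| ≤ Y := abs_le.mpr ⟨hy.1, hy.2⟩
  have hd : q.d m s y ≤ C * (l + Y) := by
    refine ((hgr y).2.2).trans ?_
    exact mul_le_mul_of_nonneg_left (by linarith) (by linarith)
  have hN : (0 : ℝ) ≤ N := Nat.cast_nonneg N
  have hXdef : XN N (Qs q.i) (l + Y) = (N + 2) * Qs q.i * (2 + (l + Y)) := rfl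
  have hNQ : 2 * Qs q.i ≤ ((N : ℝ) + 2) * Qs q.i :=
    mul_le_mul_of_nonneg_right (by linarith) (by linarith)
  have hX2 : 2 * Qs q.i ≤ XN N (Qs q.i) (l + Y) := by
    rw [hXdef]
    calc 2 * Qs q.i ≤ ((N : ℝ) + 2) * Qs q.i := hNQ
      _ = ((N : ℝ) + 2) * Qs q.i * 1 := (mul_one _).symm
      _ ≤ ((N : ℝ) + 2) * Qs q.i * (2 + (l + Y)) :=
          mul_le_mul_of_nonneg_left (by linarith) (by linarith)
  have hX : 2 ≤ XN N (Qs q.i) (l + Y) := by linarith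
  have hX0 : 0 ≤ XN N (Qs q.i) (l + Y) := by linarith
  have hCX : C ≤ XN N (Qs q.i) (l + Y) ^ k0 :=
    hk0.le.trans (pow_le_pow_left₀ (by norm_num) hX k0)
  have h2d : 2 + q.d m s y ≤ C * (2 + (l + Y)) := by
    have : 2 ≤ C * 2 := by linarith
    linarith [mul_add C 2 (l + Y)]
  have hbig : (N + 2) * Qs q.i * (2 + q.d m s y) ≤ XN N (Qs q.i) (l + Y) ^ (k0 + 1) := by
    calc (N + 2) * Qs q.i * (2 + q.d m s y) ≤ (N + 2) * Qs q.i * (C * (2 + (l + Y))) :=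
          mul_le_mul_of_nonneg_left h2d (by linarith)
      _ = C * XN N (Qs q.i) (l + Y) := by
          rw [hXdef]
          ring
      _ ≤ XN N (Qs q.i) (l + Y) ^ k0 * XN N (Qs q.i) (l + Y) :=
          mul_le_mul_of_nonneg_right hCX hX0
      _ = XN N (Qs q.i) (l + Y) ^ (k0 + 1) := (pow_succ _ _).symm
  refine ⟨hX, hX2, hd0, hbig, le_trans ?_ hbig⟩
  refine mul_le_mul_of_nonneg_right ?_ (by linarith)
  linarith

private theorem L6_d (h : CF Γ D m a b s) {Qs : ι → ℝ} (hG : GI Γ D m s Qs) : ∃ A : ℕ,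
    ∀ (N : ℕ) (q : Ln ι P Γ) (v : Pl) (l Y : ℝ), q.Ax m s v l → 1 ≤ Y → ∀ y ∈ Icc (-Y) Y,
      E1 (fun t => q.d m s t) y (XN N (Qs q.i) (l + Y) ^ A)⁻¹ (XN N (Qs q.i) (l + Y) ^ A) := by
  obtain ⟨k, hk⟩ := L6_ctx h hG
  obtain ⟨A0, hA0⟩ := E1_along h hG
  obtain ⟨A, hA⟩ := hG.d
  refine ⟨k * A + A0, fun N q v l Y hAx hY y hy => ?_⟩
  obtain ⟨hX, hX2, hd0, hb1, hb2⟩ := hk N q v l Y hAx hY y hy
  have hQ : 1 ≤ Qs q.i := hG.one q.i
  have hb0 : 1 ≤ Qs q.i * (2 + q.d m s y) := by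
    calc (1 : ℝ) ≤ 1 * (2 + q.d m s y) := by linarith
      _ ≤ Qs q.i * (2 + q.d m s y) := mul_le_mul_of_nonneg_right hQ (by linarith)
  have hbA : 1 ≤ (Qs q.i * (2 + q.d m s y)) ^ A := one_le_pow₀ hb0
  have hE := hA0 (fun g x => ds (mm m (s q.i) q.p1) x (g • x))
    (by
      intro g β x
      have e1 : (β * g * β⁻¹) • β • x = β • g • x := by
        rw [smul_smul, smul_smul, inv_mul_cancel_right]
      change ds (mm m (s q.i) q.p1) (β • x) ((β * g * β⁻¹) • β • x) = _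
      rw [e1]
      exact Dk_ds h q.i q.p1 β x (g • x))
    q y ((Qs q.i * (2 + q.d m s y)) ^ A)⁻¹ ((Qs q.i * (2 + q.d m s y)) ^ A)
    (by positivity) (inv_le_one_of_one_le₀ hbA)
    (by
      intro g' x' hg' hx' hds
      have e2 := hA ⟨q.i, q.p1, g', x', q.h1, hg', hx'⟩
      have e3 : Jx.d m s (⟨q.i, q.p1, g', x', q.h1, hg', hx'⟩ : Jx ι P Γ (closure D)) =
          q.d m s y := hds
      rw [e3] at e2
      exact e2)
  refine E1.mono hE (L6_rad (by linarith) (by linarith) hb2 (by linarith) hX2) ?_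
  calc (Qs q.i * (2 + q.d m s y)) ^ A ≤ (XN N (Qs q.i) (l + Y) ^ k) ^ A :=
        pow_le_pow_left₀ (by linarith) hb2 A
    _ = XN N (Qs q.i) (l + Y) ^ (k * A) := (pow_mul _ _ _).symm
    _ ≤ XN N (Qs q.i) (l + Y) ^ (k * A + A0) :=
        pow_le_pow_right₀ (by linarith) (Nat.le_add_right _ _)

private theorem L6_ff (h : CF Γ D m a b s) {Qs : ι → ℝ} (hG : GI Γ D m s Qs) : ∃ A : ℕ,
    ∀ (N : ℕ) (q : Ln ι P Γ) (v : Pl) (l Y : ℝ), q.Ax m s v l → 1 ≤ Y → ∀ y ∈ Icc (-Y) Y,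
      E1 (fun t => ff m (s q.i) (q.p1, q.X m s t, q.g • q.X m s t)) y
        (XN N (Qs q.i) (l + Y) ^ A)⁻¹ (XN N (Qs q.i) (l + Y) ^ A) := by
  obtain ⟨k, hk⟩ := L6_ctx h hG
  obtain ⟨A0, hA0⟩ := E1_along h hG
  obtain ⟨A, hA⟩ := hG.f
  refine ⟨k * A + A0, fun N q v l Y hAx hY y hy => ?_⟩
  obtain ⟨hX, hX2, hd0, hb1, hb2⟩ := hk N q v l Y hAx hY y hy
  have hQ : 1 ≤ Qs q.i := hG.one q.i
  have hb0 : 1 ≤ Qs q.i * (2 + q.d m s y) := by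
    calc (1 : ℝ) ≤ 1 * (2 + q.d m s y) := by linarith
      _ ≤ Qs q.i * (2 + q.d m s y) := mul_le_mul_of_nonneg_right hQ (by linarith)
  have hbA : 1 ≤ (Qs q.i * (2 + q.d m s y)) ^ A := one_le_pow₀ hb0
  have hE := hA0 (fun g x => ff m (s q.i) (q.p1, x, g • x))
    (by
      intro g β x
      have e1 : (β * g * β⁻¹) • β • x = β • g • x := by
        rw [smul_smul, smul_smul, inv_mul_cancel_right]
      change ff m (s q.i) (q.p1, β • x, (β * g * β⁻¹) • β • x) = _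
      rw [e1]
      exact Dk_ff h q.i q.p1 β x (g • x))
    q y ((Qs q.i * (2 + q.d m s y)) ^ A)⁻¹ ((Qs q.i * (2 + q.d m s y)) ^ A)
    (by positivity) (inv_le_one_of_one_le₀ hbA)
    (by
      intro g' x' hg' hx' hds
      have e2 := hA ⟨q.i, q.p1, g', x', q.h1, hg', hx'⟩
      have e3 : Jx.d m s (⟨q.i, q.p1, g', x', q.h1, hg', hx'⟩ : Jx ι P Γ (closure D)) =
          q.d m s y := hds
      rw [e3] at e2
      exact e2)
  refine E1.mono hE (L6_rad (by linarith) (by linarith) hb2 (by linarith) hX2) ?_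
  calc (Qs q.i * (2 + q.d m s y)) ^ A ≤ (XN N (Qs q.i) (l + Y) ^ k) ^ A :=
        pow_le_pow_left₀ (by linarith) hb2 A
    _ = XN N (Qs q.i) (l + Y) ^ (k * A) := (pow_mul _ _ _).symm
    _ ≤ XN N (Qs q.i) (l + Y) ^ (k * A + A0) :=
        pow_le_pow_right₀ (by linarith) (Nat.le_add_right _ _)

private theorem L6_uu (h : CF Γ D m a b s) {Qs : ι → ℝ} (hG : GI Γ D m s Qs) : ∃ A : ℕ,
    ∀ (N : ℕ) (q : Ln ι P Γ) (v : Pl) (l Y : ℝ), q.Ax m s v l → 1 ≤ Y → ∀ y ∈ Icc (-Y) Y,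
      ∀ j ≤ N, E1 (fun t => uu m (s q.i) j (q.p1, q.X m s t, q.g • q.X m s t)) y
        (XN N (Qs q.i) (l + Y) ^ A)⁻¹ (XN N (Qs q.i) (l + Y) ^ (A * (j + 1))) := by
  obtain ⟨k, hk⟩ := L6_ctx h hG
  obtain ⟨A0, hA0⟩ := E1_along h hG
  obtain ⟨A, hA⟩ := hG.u
  refine ⟨k * A + A0, fun N q v l Y hAx hY y hy j hj => ?_⟩
  obtain ⟨hX, hX2, hd0, hb1, hb2⟩ := hk N q v l Y hAx hY y hy
  have hQ : 1 ≤ Qs q.i := hG.one q.i
  have hN : (0 : ℝ) ≤ N := Nat.cast_nonneg N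
  have hb0 : 1 ≤ (N + 2) * Qs q.i * (2 + q.d m s y) := by
    have e1 : 1 ≤ ((N : ℝ) + 2) * Qs q.i := by
      calc (1 : ℝ) ≤ (N + 2) * 1 := by linarith
        _ ≤ (N + 2) * Qs q.i := mul_le_mul_of_nonneg_left hQ (by linarith)
    calc (1 : ℝ) ≤ 1 * (2 + q.d m s y) := by linarith
      _ ≤ (N + 2) * Qs q.i * (2 + q.d m s y) := mul_le_mul_of_nonneg_right e1 (by linarith)
  have hbA : 1 ≤ ((N + 2) * Qs q.i * (2 + q.d m s y)) ^ A := one_le_pow₀ hb0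
  have hE := hA0 (fun g x => uu m (s q.i) j (q.p1, x, g • x))
    (by
      intro g β x
      have e1 : (β * g * β⁻¹) • β • x = β • g • x := by
        rw [smul_smul, smul_smul, inv_mul_cancel_right]
      change uu m (s q.i) j (q.p1, β • x, (β * g * β⁻¹) • β • x) = _
      rw [e1]
      exact uu_deck h j q.i q.p1 β x (g • x))
    q y (((N + 2) * Qs q.i * (2 + q.d m s y)) ^ A)⁻¹
    (((N + 2) * Qs q.i * (2 + q.d m s y)) ^ (A * (j + 1)))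
    (by positivity) (inv_le_one_of_one_le₀ hbA)
    (by
      intro g' x' hg' hx' hds
      have e2 := hA N ⟨q.i, q.p1, g', x', q.h1, hg', hx'⟩ j hj
      have e3 : Jx.d m s (⟨q.i, q.p1, g', x', q.h1, hg', hx'⟩ : Jx ι P Γ (closure D)) =
          q.d m s y := hds
      rw [e3] at e2
      exact e2)
  refine E1.mono hE (L6_rad (by linarith) (by linarith) hb1 (by linarith) hX2) ?_
  calc ((N + 2) * Qs q.i * (2 + q.d m s y)) ^ (A * (j + 1)) ≤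
        (XN N (Qs q.i) (l + Y) ^ k) ^ (A * (j + 1)) := pow_le_pow_left₀ (by linarith) hb1 _
    _ = XN N (Qs q.i) (l + Y) ^ (k * (A * (j + 1))) := (pow_mul _ _ _).symm
    _ ≤ XN N (Qs q.i) (l + Y) ^ ((k * A + A0) * (j + 1)) := by
        refine pow_le_pow_right₀ (by linarith) ?_
        rw [← mul_assoc]
        exact Nat.mul_le_mul_right _ (Nat.le_add_right _ _)

private theorem L6_exp {f : ℝ → ℝ} {y X : ℝ} {A n : ℕ} (hX : 2 ≤ X)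
    (hE : E1 f y (X ^ A)⁻¹ (X ^ A)) (hf : 3 * Real.exp (f y) ≤ X ^ n) :
    E1 (fun t => Real.exp (f t)) y (X ^ (2 * A + 3 + n))⁻¹ (X ^ (2 * A + 3 + n)) := by
  have hX1 : 1 ≤ X := by linarith
  have hX0 : 0 < X := by linarith
  have h1 := E1.exp hE (by positivity) (one_le_pow₀ hX1)
  refine E1.mono h1 ?_ ?_
  · have e1 : (X ^ A)⁻¹ / (8 * X ^ A) = (8 * X ^ (2 * A))⁻¹ := by
      rw [div_eq_mul_inv, ← mul_inv, two_mul, pow_add]
      congr 1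
      ring
    rw [e1]
    refine inv_anti₀ (by positivity) ?_
    have e2 : (8 : ℝ) ≤ X ^ 3 := by
      have := pow_le_pow_left₀ (by norm_num : (0 : ℝ) ≤ 2) hX 3
      linarith
    calc 8 * X ^ (2 * A) ≤ X ^ 3 * X ^ (2 * A) := mul_le_mul_of_nonneg_right e2 (by positivity)
      _ = X ^ (2 * A + 3) := by ring
      _ ≤ X ^ (2 * A + 3 + n) := pow_le_pow_right₀ hX1 (Nat.le_add_right _ _)
  · exact hf.trans (pow_le_pow_right₀ hX1 (Nat.le_add_left _ _))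

private theorem L6_eff (h : CF Γ D m a b s) {Qs : ι → ℝ} (hG : GI Γ D m s Qs) : ∃ A : ℕ,
    ∀ (N : ℕ) (q : Ln ι P Γ) (v : Pl) (l Y : ℝ), q.Ax m s v l → 1 ≤ Y → ∀ y ∈ Icc (-Y) Y,
      E1 (fun t => Real.exp (-(1 / 2) * ff m (s q.i) (q.p1, q.X m s t, q.g • q.X m s t))) y
        (XN N (Qs q.i) (l + Y) ^ A)⁻¹ (XN N (Qs q.i) (l + Y) ^ A) := by
  obtain ⟨k, hk⟩ := L6_ctx h hG
  obtain ⟨A, hA⟩ := L6_ff h hG
  refine ⟨2 * A + 3 + 2, fun N q v l Y hAx hY y hy => ?_⟩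
  obtain ⟨hX, hX2, hd0, hb1, hb2⟩ := hk N q v l Y hAx hY y hy
  have h1 := E1.smul (hA N q v l Y hAx hY y hy) (-(1 / 2))
  have h2 : E1 (fun t => -(1 / 2) * ff m (s q.i) (q.p1, q.X m s t, q.g • q.X m s t)) y
      (XN N (Qs q.i) (l + Y) ^ A)⁻¹ (XN N (Qs q.i) (l + Y) ^ A) := by
    refine E1.mono h1 le_rfl ?_
    have e1 : |-(1 / 2 : ℝ)| = 1 / 2 := by
      rw [abs_neg, abs_of_pos (by norm_num)]
    rw [e1]
    have : 0 < XN N (Qs q.i) (l + Y) ^ A := pow_pos (by linarith) A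
    linarith
  refine L6_exp hX h2 ?_
  have h3 := ff_nonneg h q.i (q.p1, q.X m s y, q.g • q.X m s y)
  have h4 : Real.exp (-(1 / 2) * ff m (s q.i) (q.p1, q.X m s y, q.g • q.X m s y)) ≤ 1 :=
    Real.exp_le_one_iff.mpr (by linarith)
  have h5 := pow_le_pow_left₀ (by norm_num : (0 : ℝ) ≤ 2) hX 2
  linarith

private theorem L6_es (h : CF Γ D m a b s) {Qs : ι → ℝ} (hG : GI Γ D m s Qs) : ∃ A : ℕ,
    ∀ (N : ℕ) (q : Ln ι P Γ) (v : Pl) (l Y : ℝ), q.Ax m s v l → 1 ≤ Y → ∀ y ∈ Icc (-Y) Y,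
      E1 (fun t => Real.exp (s q.i (q.p1, q.X m s t) - s q.i (q.p0, q.X m s t))) y
        (XN N (Qs q.i) (l + Y) ^ A)⁻¹ (XN N (Qs q.i) (l + Y) ^ A) := by
  obtain ⟨k, hk⟩ := L6_ctx h hG
  obtain ⟨A0, hA0⟩ := E1_along h hG
  obtain ⟨A, hA⟩ := hG.ex
  obtain ⟨C, hC0, hC⟩ := s_bdd h
  obtain ⟨n, hn⟩ := pow_unbounded_of_one_lt (3 * Real.exp (2 * C)) (one_lt_two : (1 : ℝ) < 2)
  refine ⟨2 * (A + A0 + 1) + 3 + n, fun N q v l Y hAx hY y hy => ?_⟩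
  obtain ⟨hX, hX2, hd0, hb1, hb2⟩ := hk N q v l Y hAx hY y hy
  have hQ : 1 ≤ Qs q.i := hG.one q.i
  have hbA : 1 ≤ (2 * Qs q.i) ^ A := one_le_pow₀ (by linarith)
  have hE : ∀ p : P, ‖p‖ ≤ 1 → E1 (fun t => s q.i (p, q.X m s t)) y
      (XN N (Qs q.i) (l + Y) ^ (A + A0 + 1))⁻¹ (XN N (Qs q.i) (l + Y) ^ (A + A0)) := by
    intro p hp
    have h1 := hA0 (fun _ x => s q.i (p, x)) (fun g β x => h.inv q.i p β x) q y
      ((2 * Qs q.i) ^ A)⁻¹ ((2 * Qs q.i) ^ A) (by positivity) (inv_le_one_of_one_le₀ hbA)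
      (fun g' x' _ hx' _ => hA q.i p hp x' hx')
    refine E1.mono h1 ?_ ?_
    · have h2 := L6_rad (X := XN N (Qs q.i) (l + Y)) (b := 2 * Qs q.i) (c := 2 * Qs q.i) (A := A)
        (A0 := A0) (k := 1) (by linarith) (by linarith) (by rw [pow_one]; exact hX2) (by linarith)
        hX2
      refine le_trans ?_ h2
      refine inv_anti₀ (pow_pos (by linarith) _) (pow_le_pow_right₀ (by linarith) ?_)
      omega
    · calc (2 * Qs q.i) ^ A ≤ XN N (Qs q.i) (l + Y) ^ A := pow_le_pow_left₀ (by linarith) hX2 A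
        _ ≤ XN N (Qs q.i) (l + Y) ^ (A + A0) :=
          pow_le_pow_right₀ (by linarith) (Nat.le_add_right _ _)
  have h3 := E1.sub (hE q.p1 q.h1) (hE q.p0 q.h0)
  have h4 : E1 (fun t => s q.i (q.p1, q.X m s t) - s q.i (q.p0, q.X m s t)) y
      (XN N (Qs q.i) (l + Y) ^ (A + A0 + 1))⁻¹ (XN N (Qs q.i) (l + Y) ^ (A + A0 + 1)) := by
    refine E1.mono h3 le_rfl ?_
    rw [pow_succ]
    have : 0 < XN N (Qs q.i) (l + Y) ^ (A + A0) := pow_pos (by linarith) _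
    nlinarith
  refine L6_exp hX h4 ?_
  have h5 := (abs_le.mp (hC q.i q.p1 q.h1 (q.X m s y))).2
  have h6 := (abs_le.mp (hC q.i q.p0 q.h0 (q.X m s y))).1
  calc 3 * Real.exp (s q.i (q.p1, q.X m s y) - s q.i (q.p0, q.X m s y))
      ≤ 3 * Real.exp (2 * C) := by
        refine mul_le_mul_of_nonneg_left (Real.exp_le_exp.mpr ?_) (by norm_num)
        linarith
    _ ≤ 2 ^ n := hn.le
    _ ≤ XN N (Qs q.i) (l + Y) ^ n := pow_le_pow_left₀ (by norm_num) hX n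

private theorem L6_JA (h : CF Γ D m a b s) {Qs : ι → ℝ} (hG : GI Γ D m s Qs) : ∃ A : ℕ,
    ∀ (N : ℕ) (q : Ln ι P Γ) (v : Pl) (l Y : ℝ), q.Ax m s v l → 1 ≤ Y → ∀ y ∈ Icc (-Y) Y,
      E1 (fun t => JA (mm m (s q.i) q.p0) q.x q.u t) y
        (XN N (Qs q.i) (l + Y) ^ A)⁻¹ (XN N (Qs q.i) (l + Y) ^ A * Real.exp (A * Y)) := by
  obtain ⟨k, hk⟩ := L6_ctx h hG
  obtain ⟨A, hA⟩ := E1_JA h hG
  refine ⟨A, fun N q v l Y hAx hY y hy => ?_⟩
  obtain ⟨hX, hX2, hd0, hb1, hb2⟩ := hk N q v l Y hAx hY y hy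
  have hQ : 1 ≤ Qs q.i := hG.one q.i
  have hy' : |y| ≤ Y := abs_le.mpr ⟨hy.1, hy.2⟩
  have hpow : (2 * Qs q.i) ^ A ≤ XN N (Qs q.i) (l + Y) ^ A :=
    pow_le_pow_left₀ (by linarith) hX2 A
  refine E1.mono (hA q y) (inv_anti₀ (by positivity) hpow) ?_
  refine mul_le_mul hpow (Real.exp_le_exp.mpr ?_) (Real.exp_pos _).le (by positivity)
  exact mul_le_mul_of_nonneg_left hy' (Nat.cast_nonneg A)

private theorem L6_W (h : CF Γ D m a b s) {Qs : ι → ℝ} (hG : GI Γ D m s Qs) : ∃ A : ℕ,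
    ∀ (N : ℕ) (q : Ln ι P Γ) (v : Pl) (l Y : ℝ), q.Ax m s v l → 1 ≤ Y → ∀ y ∈ Icc (-Y) Y,
      ∀ j ≤ N, E1 (Wj m s q j) y (XN N (Qs q.i) (l + Y) ^ A)⁻¹
        (XN N (Qs q.i) (l + Y) ^ (A * (j + 1)) * Real.exp (A * Y)) := by
  obtain ⟨k, hk⟩ := L6_ctx h hG
  obtain ⟨A1, hA1⟩ := L6_uu h hG
  obtain ⟨A2, hA2⟩ := L6_eff h hG
  obtain ⟨A3, hA3⟩ := L6_es h hG
  obtain ⟨A4, hA4⟩ := L6_JA h hG
  refine ⟨A1 + A2 + A3 + A4, fun N q v l Y hAx hY y hy j hj => ?_⟩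
  obtain ⟨hX, hX2, hd0, hb1, hb2⟩ := hk N q v l Y hAx hY y hy
  have k1 := hA1 N q v l Y hAx hY y hy j hj
  have k2 := hA2 N q v l Y hAx hY y hy
  have k3 := hA3 N q v l Y hAx hY y hy
  have k4 := hA4 N q v l Y hAx hY y hy
  generalize XN N (Qs q.i) (l + Y) = X at hX k1 k2 k3 k4
  have hX1 : 1 ≤ X := by linarith
  have hX0 : 0 < X := by linarith
  have hrad : ∀ A' : ℕ, A' ≤ A1 + A2 + A3 + A4 → (X ^ (A1 + A2 + A3 + A4))⁻¹ ≤ (X ^ A')⁻¹ :=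
    fun A' hA' => inv_anti₀ (by positivity) (pow_le_pow_right₀ hX1 hA')
  have m1 := E1.mono k1 (hrad A1 (by omega)) le_rfl
  have m2 := E1.mono k2 (hrad A2 (by omega)) le_rfl
  have m3 := E1.mono k3 (hrad A3 (by omega)) le_rfl
  have m4 := E1.mono k4 (hrad A4 (by omega)) le_rfl
  have p1 := E1.mul (by positivity) m1 m2
  have p2 := E1.mul (by positivity) m3 m4
  have p3 := E1.mul (by positivity) p1 p2
  have hcong : ∀ t, uu m (s q.i) j (q.p1, q.X m s t, q.g • q.X m s t) *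
      Real.exp (-(1 / 2) * ff m (s q.i) (q.p1, q.X m s t, q.g • q.X m s t)) *
      (Real.exp (s q.i (q.p1, q.X m s t) - s q.i (q.p0, q.X m s t)) *
        JA (mm m (s q.i) q.p0) q.x q.u t) = Wj m s q j t := by
    intro t
    have e1 : uu m (s q.i) j (q.p1, q.X m s t, q.g • q.X m s t) =
        UU (Gx (mm m (s q.i) q.p1) (q.X m s t)) j (Vx (mm m (s q.i) q.p1) (q.X m s t)
          (q.g • q.X m s t)) *
        Real.exp (ff m (s q.i) (q.p1, q.X m s t, q.g • q.X m s t) / 2) := rfl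
    have e2 : Real.exp (ff m (s q.i) (q.p1, q.X m s t, q.g • q.X m s t) / 2) *
        Real.exp (-(1 / 2) * ff m (s q.i) (q.p1, q.X m s t, q.g • q.X m s t)) = 1 := by
      rw [← Real.exp_add]
      have : ff m (s q.i) (q.p1, q.X m s t, q.g • q.X m s t) / 2 +
          -(1 / 2) * ff m (s q.i) (q.p1, q.X m s t, q.g • q.X m s t) = 0 := by ring
      rw [this, Real.exp_zero]
    rw [e1, mul_assoc (UU _ _ _), e2, mul_one]
    rfl
  have p4 := E1.congr p3 (fun t _ => hcong t)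
  refine E1.mono p4 le_rfl ?_
  have hexp : Real.exp ((A4 : ℝ) * Y) ≤ Real.exp (((A1 + A2 + A3 + A4 : ℕ) : ℝ) * Y) := by
    refine Real.exp_le_exp.mpr (mul_le_mul_of_nonneg_right ?_ (by linarith))
    exact_mod_cast Nat.le_add_left _ _
  calc X ^ (A1 * (j + 1)) * X ^ A2 * (X ^ A3 * (X ^ A4 * Real.exp ((A4 : ℝ) * Y)))
      = X ^ (A1 * (j + 1) + A2 + A3 + A4) * Real.exp ((A4 : ℝ) * Y) := by
        rw [pow_add, pow_add, pow_add]
        ring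
    _ ≤ X ^ ((A1 + A2 + A3 + A4) * (j + 1)) * Real.exp (((A1 + A2 + A3 + A4 : ℕ) : ℝ) * Y) := by
        refine mul_le_mul (pow_le_pow_right₀ hX1 ?_) hexp (Real.exp_pos _).le (by positivity)
        have : (A1 + A2 + A3 + A4) * (j + 1) = A1 * (j + 1) + (A2 + A3 + A4) * (j + 1) := by ring
        rw [this]
        have h2 : A2 + A3 + A4 ≤ (A2 + A3 + A4) * (j + 1) := Nat.le_mul_of_pos_right _ (by omega)
        omega

private theorem L6_Nb {Y r r' : ℝ} (h : r' ≤ r) : Nb (-Y) Y r' ⊆ Nb (-Y) Y r := by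
  rintro z ⟨y, hy, hz⟩
  exact ⟨y, hy, ball_subset_ball h hz⟩

theorem strip (h : CF Γ D m a b s) {Qs : ι → ℝ} (hG : GI Γ D m s Qs) : ∃ A : ℕ,
    ∀ (N : ℕ) (q : Ln ι P Γ) (v : Pl) (l Y : ℝ), q.Ax m s v l → 1 ≤ Y →
      ∃ (Dc : ℂ → ℂ) (W : ℕ → ℂ → ℂ), Strip m s q N A (XN N (Qs q.i) (l + Y)) Y Dc W := by
  classical
  obtain ⟨k, hk⟩ := L6_ctx h hG
  obtain ⟨A1, hA1⟩ := L6_d h hG
  obtain ⟨A2, hA2⟩ := L6_W h hG
  refine ⟨A1 + A2 + 1, fun N q v l Y hAx hY => ?_⟩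
  have hY0 : (0 : ℝ) ∈ Icc (-Y) Y := ⟨by linarith, by linarith⟩
  obtain ⟨hX, -, -, -, -⟩ := hk N q v l Y hAx hY 0 hY0
  have k1 := hA1 N q v l Y hAx hY
  have k2 := hA2 N q v l Y hAx hY
  generalize XN N (Qs q.i) (l + Y) = X at hX k1 k2
  have hX1 : 1 ≤ X := by linarith
  have hX0 : 0 < X := by linarith
  have hrad : ∀ A' : ℕ, A' ≤ A1 + A2 → (X ^ (A1 + A2 + 1))⁻¹ ≤ (X ^ A')⁻¹ / 2 := by
    intro A' hA'
    have e1 : (X ^ A')⁻¹ / 2 = (X ^ A' * 2)⁻¹ := by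
      rw [mul_inv, div_eq_mul_inv]
    rw [e1]
    refine inv_anti₀ (by positivity) ?_
    calc X ^ A' * 2 ≤ X ^ (A1 + A2) * X :=
          mul_le_mul (pow_le_pow_right₀ hX1 hA') hX (by norm_num) (by positivity)
      _ = X ^ (A1 + A2 + 1) := (pow_succ _ _).symm
  obtain ⟨Dc, hD1, hD2, hD3⟩ := glue (f := fun t : ℝ => ((q.d m s t : ℝ) : ℂ)) (a := -Y) (b := Y)
    (r := (X ^ A1)⁻¹) (B := X ^ A1) (by positivity) (by
      intro y hy
      obtain ⟨g, g1, g2, g3⟩ := k1 y hy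
      exact ⟨g, g1, g3, g2⟩)
  have hWj : ∀ j : ℕ, ∃ G : ℂ → ℂ, j ≤ N → (DifferentiableOn ℂ G (Nb (-Y) Y ((X ^ A2)⁻¹ / 2)) ∧
      (∀ x ∈ Icc (-Y) Y, G x = ((Wj m s q j x : ℝ) : ℂ)) ∧
      ∀ z ∈ Nb (-Y) Y ((X ^ A2)⁻¹ / 2), ‖G z‖ ≤ X ^ (A2 * (j + 1)) * Real.exp (A2 * Y)) := by
    intro j
    by_cases hj : j ≤ N
    · obtain ⟨G, hG1, hG2, hG3⟩ := glue (f := fun t : ℝ => ((Wj m s q j t : ℝ) : ℂ)) (a := -Y)
        (b := Y) (r := (X ^ A2)⁻¹) (B := X ^ (A2 * (j + 1)) * Real.exp (A2 * Y)) (by positivity) (by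
          intro y hy
          obtain ⟨g, g1, g2, g3⟩ := k2 y hy j hj
          exact ⟨g, g1, g3, g2⟩)
      exact ⟨G, fun _ => ⟨hG1, hG2, hG3⟩⟩
    · exact ⟨0, fun hj' => absurd hj' hj⟩
  choose W hW using hWj
  refine ⟨Dc, W, ?_⟩
  have n1 := L6_Nb (Y := Y) (hrad A1 (Nat.le_add_right _ _))
  have n2 := L6_Nb (Y := Y) (hrad A2 (Nat.le_add_left _ _))
  refine ⟨hD1.mono n1, fun z hz => (hD3 z (n1 hz)).trans (pow_le_pow_right₀ hX1 (by omega)),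
    hD2, fun j hj => (hW j hj).1.mono n2, fun j hj z hz => ((hW j hj).2.2 z (n2 hz)).trans ?_,
    fun j hj => (hW j hj).2.1⟩
  refine mul_le_mul (pow_le_pow_right₀ hX1 ?_) (Real.exp_le_exp.mpr ?_) (Real.exp_pos _).le
    (by positivity)
  · exact Nat.mul_le_mul_right _ (by omega)
  · refine mul_le_mul_of_nonneg_right ?_ (by linarith)
    exact_mod_cast (by omega : A2 ≤ A1 + A2 + 1)

end BE36C
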