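import Pool.Agent.LibBE36C.P1

/-! BE36 C', row P2: the phase on the lines.

MEDIUM. From `Ax_phase` (LibBE99/L3): `min (c |y|) 1 - n (2 + d)^n ‖p1 - p0‖ ≤ |deriv (q.d m s) y|`; by
`Ax_growth` 2 + d(y) ≤ C (2 + l + Y) ≤ C X for |y| ≤ Y, so for A large (X ≥ 3) the second term is at most
c δ / 8 and |deriv d| ≥ c δ / 4 =: a0 for δ/2 ≤ |y| ≤ Y (if c ≤ 1, δ ≤ 1: min (c δ/2) 1 = c δ / 2).
Sign: `deriv d` is continuous (LP_d: smooth) and has no zero on [δ/2, Y]; it is positive: for the same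
bound with larger and larger Y? No: use that |deriv d| > 0 on [δ/2, Y] and the sign on this interval is
constant; if it were negative then d (Y) < d (δ/2) - impossible when Y is large; in general compare with the
metric p0: `LP_dd` (LibBE99/L3): |deriv d_{p1} - deriv d_{p0}| ≤ n (2 + d)^n ‖p1 - p0‖ ≤ c δ / 8 and for
p0 the derivative is `Fd1` with the right sign: `Fd_lowU` (LibBE99/S3) (see the proof of `Ax_phase`): this
gives directly deriv d ≥ c δ / 4 for y ≥ δ/2 and ≤ - c δ/4 for y ≤ -δ/2, no connectedness argument needed.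
Then `phase_im` (row P1) at y (f = Dc, r = (X^A0)⁻¹, B = X^A0, a = c δ / 4) and at -y for
f w = Dc (-w) (ball -y ⊆ Nb; deriv changes the sign), A large such that t ≤ δ / X^A implies t ≤ r/8 and
64 B t ≤ a r². `deriv Dc y = deriv (q.d m s) y` (real number): `HasDerivAt.comp_ofReal` and uniqueness,
the two functions agree near y since y ≤ Y - 1. -/

open MeasureTheory Set Filter Topology Metric
open scoped ContDiff

namespace BE36C

open BGS BR BE

variable {Γ : Type} [Group Γ] [MulAction Γ Pl] {D : Set Pl}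
variable {ι P : Type} [NormedAddCommGroup P] [NormedSpace ℝ P] [FiniteDimensional ℝ P]
  {m : Pl → Co} {a b : ℝ} {s : ι → P × Pl → ℝ}

private theorem P2_one {f : ℂ → ℂ} {u : ℝ → ℝ} {y r B a t : ℝ} (hr : 0 < r) (hB : 0 < B)
    (hf : DifferentiableOn ℂ f (ball (y : ℂ) r)) (hb : ∀ z ∈ ball (y : ℂ) r, ‖f z‖ ≤ B)
    (hu : DifferentiableAt ℝ u y) (he : ∀ᶠ x : ℝ in 𝓝 y, f (x : ℂ) = ((u x : ℝ) : ℂ))
    (ha : a ≤ deriv u y) (ha0 : 0 < a) (ht0 : 0 ≤ t) (ht : t ≤ r / 8)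
    (ht' : 64 * B * t ≤ a * r ^ 2) :
    (f (y - t * Complex.I)).im ≤ -(a / 2 * t) ∧
      ‖f (y - t * Complex.I) - ((u y : ℝ) : ℂ)‖ ≤ 4 * B / r * t := by
  have hy : f (y : ℂ) = ((u y : ℝ) : ℂ) := he.self_of_nhds
  have hfd : DifferentiableAt ℂ f (y : ℂ) :=
    hf.differentiableAt (isOpen_ball.mem_nhds (mem_ball_self hr))
  have h1 : HasDerivAt (fun x : ℝ => f (x : ℂ)) (deriv f (y : ℂ)) y :=
    hfd.hasDerivAt.comp_ofReal
  have h2 : HasDerivAt (fun x : ℝ => ((u x : ℝ) : ℂ)) ((deriv u y : ℝ) : ℂ) y :=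
    hu.hasDerivAt.ofReal_comp
  have h3 : deriv f (y : ℂ) = ((deriv u y : ℝ) : ℂ) :=
    (h1.congr_of_eventuallyEq (he.mono fun x hx => hx.symm)).unique h2
  have h4 := phase_im (a := a) (t := t) hr hB hf hb (by rw [hy]; exact Complex.ofReal_im _)
    (by rw [h3]; exact Complex.ofReal_im _) (by rw [h3, Complex.ofReal_re]; exact ha) ha0 ht0 ht ht'
  rw [hy] at h4
  exact h4

private theorem P2_deriv (h : CF Γ D m a b s) : ∃ (c C : ℝ) (n : ℕ), 0 < c ∧ c ≤ 1 ∧ 1 ≤ C ∧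
    ∀ (q : Ln ι P Γ) (v : Pl) (l Y X : ℝ), q.Ax m s v l → 2 + l + Y ≤ X →
      ∀ y, |y| ≤ Y →
        (0 ≤ y → min (c * y) 1 - n * (C * X) ^ n * ‖q.p1 - q.p0‖ ≤ deriv (q.d m s) y) ∧
        (y ≤ 0 → min (c * (-y)) 1 - n * (C * X) ^ n * ‖q.p1 - q.p0‖ ≤ -deriv (q.d m s) y) := by
  obtain ⟨n, hn⟩ := LP_dd h
  obtain ⟨c, hc, hlow⟩ := Fd_lowU h
  obtain ⟨C, hC, hgr⟩ := Ax_growth h
  refine ⟨min c 1, C, n, lt_min hc one_pos, min_le_right _ _, hC, fun q v l Y X hA hX y hy => ?_⟩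
  have hM := hm_mm h q.i q.p0
  have hXp : ∀ y, q.X m s y = Xp (mm m (s q.i) q.p0) q.x v y := by
    intro y
    show (gfl (mm m (s q.i) q.p0) y (q.x, q.u)).1 = Ex (mm m (s q.i) q.p0) q.x (y • rot v)
    rw [hA.2, Ex_ray h.hX hM]
  have hF : (fun y => ds (mm m (s q.i) q.p0) (q.X m s y) (q.g • q.X m s y)) =
      Fd (mm m (s q.i) q.p0) q.g q.x v := by
    funext y
    rw [hXp y]
    rfl
  have h1 := hn q y
  rw [hF, (Fd_deriv h.hX h.hO hM hA.1 y).deriv] at h1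
  have h2 := hlow (⟨q.i, q.p0, q.g, q.x, v, l, q.h0, hA.1⟩ : AxU Γ ι P m s) y
  have hd0 : 0 ≤ q.d m s y := Real.sqrt_nonneg _
  have hdX : 2 + q.d m s y ≤ C * X := by
    have h3 := ((hgr q v l hA).2 y).2.2
    have h4 : C * (l + |y|) ≤ C * (l + Y) := mul_le_mul_of_nonneg_left (by linarith) (by linarith)
    have h5 : C * (2 + l + Y) ≤ C * X := mul_le_mul_of_nonneg_left hX (by linarith)
    nlinarith
  have hpow : (n : ℝ) * (2 + q.d m s y) ^ n * ‖q.p1 - q.p0‖ ≤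
      n * (C * X) ^ n * ‖q.p1 - q.p0‖ := by
    refine mul_le_mul_of_nonneg_right ?_ (norm_nonneg _)
    exact mul_le_mul_of_nonneg_left (pow_le_pow_left₀ (by linarith) hdX n) (Nat.cast_nonneg n)
  have h6 := h1.trans hpow
  rw [abs_le] at h6
  refine ⟨fun h0 => ?_, fun h0 => ?_⟩
  · have h7 : min (min c 1 * y) 1 ≤ min (c * y) 1 :=
      min_le_min_right _ (mul_le_mul_of_nonneg_right (min_le_left _ _) h0)
    have h8 := h2.1 h0
    simp only at h8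
    linarith [h6.1]
  · have h7 : min (min c 1 * (-y)) 1 ≤ min (c * (-y)) 1 :=
      min_le_min_right _ (mul_le_mul_of_nonneg_right (min_le_left _ _) (by linarith))
    have h8 := h2.2 h0
    simp only at h8
    linarith [h6.2]

theorem phase_line (h : CF Γ D m a b s) : ∃ c : ℝ, 0 < c ∧ c ≤ 1 ∧ ∀ A0 : ℕ, ∃ A : ℕ, A0 ≤ A ∧
    ∀ (q : Ln ι P Γ) (v : Pl) (l Y X δ : ℝ), q.Ax m s v l → 1 ≤ Y → 2 + l + Y ≤ X → 0 < δ →
      δ ≤ 1 → X ^ A * ‖q.p1 - q.p0‖ ≤ δ → ∀ Dc : ℂ → ℂ,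
      DifferentiableOn ℂ Dc (Nb (-Y) Y (X ^ A0)⁻¹) →
      (∀ z ∈ Nb (-Y) Y (X ^ A0)⁻¹, ‖Dc z‖ ≤ X ^ A0) → (∀ y ∈ Icc (-Y) Y, Dc y = q.d m s y) →
      ∀ y t : ℝ, δ / 2 ≤ y → y ≤ Y - 1 → 0 ≤ t → t ≤ δ / X ^ A →
        (Dc (y - t * Complex.I)).im ≤ -(c * δ * t) ∧
        (Dc (-y + t * Complex.I)).im ≤ -(c * δ * t) ∧
        ‖Dc (y - t * Complex.I) - q.d m s y‖ ≤ X ^ A * t ∧
        ‖Dc (-y + t * Complex.I) - q.d m s (-y)‖ ≤ X ^ A * t := by
  obtain ⟨c, C, n, hc, hc1, hC, hder⟩ := P2_deriv h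
  refine ⟨c / 8, by positivity, by linarith, fun A0 => ?_⟩
  obtain ⟨k, hk⟩ := pow_unbounded_of_one_lt (4 * n * C ^ n / c + 256 / c) (by norm_num : (1 : ℝ) < 3)
  refine ⟨3 * A0 + n + k + 2, by omega, ?_⟩
  intro q v l Y X δ hA hY hX hδ hδ1 hp Dc hDc hDb hDr y t hy hyY ht0 ht
  have hl : 0 < l := hA.1.pos
  have hX3 : 3 ≤ X := by linarith
  have hX1 : 1 ≤ X := by linarith
  have hX0 : 0 < X := by linarith
  set W : ℝ := X ^ A0 with hW
  set Z : ℝ := X ^ (3 * A0 + n + k + 2) with hZ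
  have hW1 : 1 ≤ W := one_le_pow₀ hX1
  have hW0 : 0 < W := by linarith
  have hZe : Z = W ^ 3 * X ^ n * X ^ k * X ^ 2 := by
    rw [hZ, hW]
    ring
  have hn1 : 1 ≤ X ^ n := one_le_pow₀ hX1
  have hk3 : (3 : ℝ) ^ k ≤ X ^ k := pow_le_pow_left₀ (by norm_num) hX3 k
  have hk1 : 1 ≤ X ^ k := one_le_pow₀ hX1
  have hX9 : 9 ≤ X ^ 2 := by nlinarith
  have hW3 : 1 ≤ W ^ 3 := one_le_pow₀ hW1
  have hq0 : 0 ≤ 4 * n * C ^ n / c := by positivity
  have hq1 : 0 < 256 / c := by positivity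
  have hZ0 : 0 < Z := by rw [hZ]; positivity
  -- the comparisons
  have hZ3 : 256 * W ^ 3 ≤ c * Z := by
    have e1 : 256 / c ≤ X ^ k := by linarith
    rw [div_le_iff₀ hc] at e1
    have e2 : (1 : ℝ) ≤ X ^ n * X ^ 2 := by nlinarith
    rw [hZe]
    calc 256 * W ^ 3 ≤ (X ^ k * c) * W ^ 3 := mul_le_mul_of_nonneg_right e1 (by positivity)
      _ = (X ^ k * c) * W ^ 3 * 1 := by ring
      _ ≤ (X ^ k * c) * W ^ 3 * (X ^ n * X ^ 2) := mul_le_mul_of_nonneg_left e2 (by positivity)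
      _ = _ := by ring
  have hZn : 4 * n * C ^ n * X ^ n ≤ c * Z := by
    have e1 : 4 * n * C ^ n / c ≤ X ^ k := by linarith
    rw [div_le_iff₀ hc] at e1
    have e2 : (1 : ℝ) ≤ W ^ 3 * X ^ 2 := by nlinarith
    rw [hZe]
    calc 4 * n * C ^ n * X ^ n ≤ (X ^ k * c) * X ^ n :=
          mul_le_mul_of_nonneg_right e1 (by positivity)
      _ = (X ^ k * c) * X ^ n * 1 := by ring
      _ ≤ (X ^ k * c) * X ^ n * (W ^ 3 * X ^ 2) := mul_le_mul_of_nonneg_left e2 (by positivity)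
      _ = _ := by ring
  have hcZ : c * Z ≤ Z := by nlinarith
  have hZ1 : 8 * W ≤ Z := by
    have e1 : W ≤ W ^ 3 := by
      calc W = W * 1 := (mul_one _).symm
        _ ≤ W * W ^ 2 := mul_le_mul_of_nonneg_left (one_le_pow₀ hW1) hW0.le
        _ = W ^ 3 := by ring
    linarith
  have hZ2 : 4 * W ^ 2 ≤ Z := by
    have e1 : W ^ 2 ≤ W ^ 3 := pow_le_pow_right₀ hW1 (by norm_num)
    linarith [sq_nonneg W]
  have hpn : (n : ℝ) * (C * X) ^ n * ‖q.p1 - q.p0‖ ≤ c * δ / 4 := by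
    have e1 : 4 * n * C ^ n * X ^ n * ‖q.p1 - q.p0‖ ≤ c * Z * ‖q.p1 - q.p0‖ :=
      mul_le_mul_of_nonneg_right hZn (norm_nonneg _)
    have e2 : c * (Z * ‖q.p1 - q.p0‖) ≤ c * δ := mul_le_mul_of_nonneg_left hp hc.le
    have e3 : (n : ℝ) * (C * X) ^ n * ‖q.p1 - q.p0‖ =
        4 * n * C ^ n * X ^ n * ‖q.p1 - q.p0‖ / 4 := by
      rw [mul_pow]
      ring
    rw [e3]
    linarith
  have ht1 : t ≤ W⁻¹ / 8 := by
    refine ht.trans ?_
    rw [div_le_iff₀ hZ0]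
    have e1 : W⁻¹ / 8 * (8 * W) ≤ W⁻¹ / 8 * Z := mul_le_mul_of_nonneg_left hZ1 (by positivity)
    have e2 : W⁻¹ / 8 * (8 * W) = 1 := by field_simp
    linarith
  have ht2 : 64 * W * t ≤ c * δ / 4 * W⁻¹ ^ 2 := by
    have e1 : 64 * W * t ≤ 64 * W * (δ / Z) := mul_le_mul_of_nonneg_left ht (by positivity)
    refine e1.trans ?_
    have e2 : 64 * W * (δ / Z) = (64 * W * δ) / Z := by ring
    have e3 : c * δ / 4 * W⁻¹ ^ 2 = (c * δ) / (4 * W ^ 2) := by field_simp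
    rw [e2, e3, div_le_div_iff₀ hZ0 (by positivity)]
    have e4 := mul_le_mul_of_nonneg_left hZ3 hδ.le
    nlinarith
  have hr : 0 < W⁻¹ := inv_pos.2 hW0
  have hbn : 4 * W / W⁻¹ * t ≤ Z * t := by
    refine mul_le_mul_of_nonneg_right ?_ ht0
    have e1 : 4 * W / W⁻¹ = 4 * W ^ 2 := by field_simp
    rw [e1]
    exact hZ2
  have hdiff : Differentiable ℝ (q.d m s) :=
    ((LP_d h).smooth (q, 0)).differentiable (by simp)
  have hy0 : 0 < y := by linarith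
  have ha0 : 0 < c * δ / 4 := by positivity
  have hmin : c * δ / 2 ≤ min (c * y) 1 := by
    refine le_min ?_ ?_
    · nlinarith
    · nlinarith
  have hsub : ∀ x ∈ Icc (-Y) Y, ball (x : ℂ) W⁻¹ ⊆ Nb (-Y) Y W⁻¹ := fun x hx z hz => ⟨x, hx, hz⟩
  have hyI : y ∈ Icc (-Y) Y := ⟨by linarith, by linarith⟩
  have hyI' : -y ∈ Icc (-Y) Y := ⟨by linarith, by linarith⟩
  have hyabs : |y| ≤ Y := abs_le.2 ⟨hyI.1, hyI.2⟩
  have hyabs' : |-y| ≤ Y := by rw [abs_neg]; exact hyabs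
  -- the right half
  have h1 := P2_one (f := Dc) (u := q.d m s) (y := y) (r := W⁻¹) (B := W) (a := c * δ / 4) (t := t)
    hr hW0 (hDc.mono (hsub y hyI)) (fun z hz => hDb z (hsub y hyI hz)) (hdiff y)
    (by
      filter_upwards [Icc_mem_nhds (show -Y < y by linarith) (show y < Y by linarith)] with x hx
      exact hDr x hx)
    (by
      have e1 := (hder q v l Y X hA hX y hyabs).1 hy0.le
      linarith) ha0 ht0 ht1 ht2
  -- the left half
  have hneg : ∀ z ∈ ball (y : ℂ) W⁻¹, -z ∈ ball (((-y : ℝ) : ℂ)) W⁻¹ := by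
    intro z hz
    rw [mem_ball, dist_eq_norm] at hz ⊢
    have e1 : -z - ((-y : ℝ) : ℂ) = -(z - (y : ℂ)) := by
      push_cast
      ring
    rw [e1, norm_neg]
    exact hz
  have h2 := P2_one (f := fun z => Dc (-z)) (u := fun x => q.d m s (-x)) (y := y) (r := W⁻¹)
    (B := W) (a := c * δ / 4) (t := t) hr hW0
    (by
      intro z hz
      have e1 : DifferentiableAt ℂ Dc (-z) :=
        (hDc.mono (hsub (-y) hyI')).differentiableAt (isOpen_ball.mem_nhds (hneg z hz))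
      exact (e1.comp z differentiableAt_id.neg).differentiableWithinAt)
    (fun z hz => hDb _ (hsub (-y) hyI' (hneg z hz)))
    ((hdiff (-y)).comp y differentiableAt_id.neg)
    (by
      filter_upwards [Icc_mem_nhds (show -Y < y by linarith) (show y < Y by linarith)] with x hx
      have e1 := hDr (-x) ⟨by linarith [hx.2], by linarith [hx.1]⟩
      rw [← e1]
      push_cast
      rfl)
    (by
      have e1 := (hder q v l Y X hA hX (-y) hyabs').2 (by linarith)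
      rw [neg_neg] at e1
      have e2 : deriv (fun x => q.d m s (-x)) y = -deriv (q.d m s) (-y) := deriv_comp_neg _ _
      rw [e2]
      linarith) ha0 ht0 ht1 ht2
  have e3 : -((y : ℂ) - t * Complex.I) = -(y : ℂ) + t * Complex.I := by ring
  simp only [e3] at h2
  refine ⟨h1.1.trans (le_of_eq (by ring)), h2.1.trans (le_of_eq (by ring)), h1.2.trans hbn,
    h2.2.trans hbn⟩

end BE36C
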