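import Pool.Agent.LibBE36C.F2

/-! BE36 C', row U5: continuity of the integrand for entire amplitudes.

MEDIUM. al_rs_cont: `alE_diff` (AL3) is holomorphic on {0 < re}, `alE_real`: al j (rs F) τ r = alE j F τ r for
r > 0, continuity of the composition with ofReal. KE_contE: template `KE_cont` in LibBE99/U2.lean (there
al j f τ is continuous on (0, ∞) by `al_smooth`; the displacement is continuous and positive:
`free_act`). ZT_cont: template the first half of `ZF_intg` in LibBE99/U4.lean, thR is continuous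
(`thE_diff`, `thE_ofReal`, or continuity of a parametric interval integral). -/

open MeasureTheory Set Filter Topology Metric
open scoped ContDiff

namespace BE36C

open BGS BR BE

variable {Γ : Type} [Group Γ] [MulAction Γ Pl] {D : Set Pl}
variable {ι P : Type} [NormedAddCommGroup P] [NormedSpace ℝ P] [FiniteDimensional ℝ P]
  {m : Pl → Co} {a b : ℝ} {s : ι → P × Pl → ℝ}

theorem al_rs_cont {F : ℂ → ℂ} {Q qd ρ M τ : ℝ} (hF : EA F Q qd ρ M) (hρ : 0 ≤ ρ) (hq1 : 1 ≤ qd)
    (hqQ : qd ≤ Q) (hτ : 0 ≤ τ) (j : ℕ) : ContinuousOn (al j (rs F) τ) (Ioi 0) := by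
  have h1 : ContinuousOn (fun r : ℝ => alE j F τ (r : ℂ)) (Ioi 0) :=
    (alE_diff hF hρ hq1 hqQ hτ j).continuousOn.comp Complex.continuous_ofReal.continuousOn
      fun r hr => by
        show 0 < ((r : ℂ)).re
        rw [Complex.ofReal_re]
        exact hr
  refine h1.congr fun r hr => ?_
  exact (alE_real hF.diff j τ hr).symm

theorem KE_contE (h : CF Γ D m a b s) (i : ι) (p : P) (N : ℕ) {F : ℂ → ℂ} {Q qd ρ M τ : ℝ}
    (hF : EA F Q qd ρ M) (hρ : 0 ≤ ρ) (hq1 : 1 ≤ qd) (hqQ : qd ≤ Q) (hτ : 0 ≤ τ) {g : Γ}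
    (hg : g ≠ 1) : Continuous (KE (mm m (s i) p) N (rs F) τ g) := by
  have hm := hm_mm h i p
  have hV : Continuous fun x : Pl => Vx (mm m (s i) p) x (g • x) :=
    (TR.Vd_smooth h.hX hm g).continuous
  have hd : Continuous fun x : Pl => ds (mm m (s i) p) x (g • x) := by
    unfold ds eu
    exact Real.continuous_sqrt.comp
      (((continuous_fst.comp hV).pow 2).add ((continuous_snd.comp hV).pow 2))
  have hU : ∀ j, Continuous fun x : Pl =>
      UU (Gx (mm m (s i) p) x) j (Vx (mm m (s i) p) x (g • x)) := fun j =>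
    (TR.UU_joint h.hX h.hO hm j).continuous.comp (continuous_id.prodMk hV)
  have ha : ∀ j, Continuous fun x : Pl => al j (rs F) τ (ds (mm m (s i) p) x (g • x)) := fun j =>
    (al_rs_cont hF hρ hq1 hqQ hτ j).comp_continuous hd fun x =>
      ds_pos h.hX hm (free_act h.hX hg x)
  have h1 : KE (mm m (s i) p) N (rs F) τ g = fun x =>
      Complex.exp (-(Complex.I * τ * ds (mm m (s i) p) x (g • x))) *
        ∑ j ∈ Finset.range (N + 1),
          ((UU (Gx (mm m (s i) p) x) j (Vx (mm m (s i) p) x (g • x)) : ℝ) : ℂ) *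
            al j (rs F) τ (ds (mm m (s i) p) x (g • x)) := rfl
  rw [h1]
  refine Continuous.mul ?_ (continuous_finsetSum _ fun j _ => ?_)
  · exact Complex.continuous_exp.comp
      ((continuous_const.mul (Complex.continuous_ofReal.comp hd)).neg)
  · exact (Complex.continuous_ofReal.comp (hU j)).mul (ha j)

private theorem U5_thR_cont {δ e : ℝ} (he : 0 < e) : Continuous (thR δ e) := by
  have h1 : Continuous fun x : ℝ => (thE δ e (x : ℂ)).re :=
    Complex.continuous_re.comp ((thE_diff he).continuous.comp Complex.continuous_ofReal)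
  have h2 : (fun x : ℝ => (thE δ e (x : ℂ)).re) = thR δ e := by
    funext x
    rw [thE_ofReal, Complex.ofReal_re]
  rwa [h2] at h1

/-- The integrand of `ZT` is continuous. -/
theorem ZT_cont (h : CF Γ D m a b s) (i : ι) {p0 p1 : P} (h0 : ‖p0‖ ≤ 1) (h1 : ‖p1‖ ≤ 1) (N : ℕ)
    {F : ℂ → ℂ} {Q qd ρ M τ : ℝ} (hF : EA F Q qd ρ M) (hρ : 0 ≤ ρ) (hq1 : 1 ≤ qd)
    (hqQ : qd ≤ Q) (hτ : 0 ≤ τ) {δ e : ℝ} (hD : DH δ e) {g : Γ} {x0 v0 : Pl} {l : ℝ}
    (hA : Axis (mm m (s i) p0) g x0 v0 l) :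
    Continuous fun p : Pl => ((thR δ e p.2 : ℝ) : ℂ) *
      KE (mm m (s i) p1) N (rs F) τ g (Fm (mm m (s i) p0) x0 v0 p) *
      ((√(dt (mm m (s i) p1 (Fm (mm m (s i) p0) x0 v0 p))) *
        |(fderiv ℝ (Fm (mm m (s i) p0) x0 v0) p).det| : ℝ) : ℂ) := by
  have hm0 := hm_mm h i p0
  have hm1 := hm_mm h i p1
  have hg := (Axis_ne h.hX h.hO hm0 hA).1
  have hFm := Fm_smooth h.hX hm0 x0 v0
  have h2 : Continuous fun p => |(fderiv ℝ (Fm (mm m (s i) p0) x0 v0) p).det| :=
    (ContinuousLinearMap.continuous_det.comp (hFm.continuous_fderiv (by simp))).abs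
  have h3 : Continuous fun p : Pl => ((thR δ e p.2 : ℝ) : ℂ) :=
    Complex.continuous_ofReal.comp ((U5_thR_cont hD.epos).comp continuous_snd)
  exact (h3.mul ((KE_contE h i p1 N hF hρ hq1 hqQ hτ hg).comp hFm.continuous)).mul
    (Complex.continuous_ofReal.comp (((AN8b_rho_cont hm1).comp hFm.continuous).mul h2))

end BE36C
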