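import Pool.Agent.LibBE36C.F3a
import Pool.Agent.LibBE36C.L6
import Pool.Agent.LibBE36C.P2
import Pool.Agent.LibBE36C.U5

/-! BE36 C', row F3: one line. -/

open MeasureTheory Set Filter Topology Metric
open scoped ContDiff

namespace BE36C

open BGS BR BE

variable {Γ : Type} [Group Γ] [MulAction Γ Pl] {D : Set Pl}
variable {ι P : Type} [NormedAddCommGroup P] [NormedSpace ℝ P] [FiniteDimensional ℝ P]
  {m : Pl → Co} {a b : ℝ} {s : ι → P × Pl → ℝ}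

theorem F3_w_cont (h : CF Γ D m a b s) (q : Ln ι P Γ) :
    Continuous (q.X m s) ∧ Continuous (fun y => q.w m s y) := by
  have hm0 := hm_mm h q.i q.p0
  have hX : Continuous (q.X m s) := by
    have h1 := gfl_smooth h.hX hm0
    have h2 : ContDiff ℝ ∞ (fun y : ℝ => gfl (mm m (s q.i) q.p0) y (q.x, q.u)) :=
      h1.comp (contDiff_id.prodMk contDiff_const)
    exact (contDiff_fst.comp h2).continuous
  refine ⟨hX, ?_⟩
  obtain ⟨c0, -, hJ⟩ := JA_bd h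
  obtain ⟨C, -, hJ0⟩ := hJ 0
  have hs := (h.smooth q.i).continuous
  unfold Ln.w
  have hJc := (hJ0 q.i q.p0 q.h0 q.x q.u q.hu).1.continuous
  exact ((Real.continuous_exp.comp (((hs.comp (continuous_const.prodMk hX))).sub
    (hs.comp (continuous_const.prodMk hX)))).mul hJc)

theorem F3_kn (q : Ln ι P Γ) (N : ℕ) (f : ℝ → ℂ) (τ y : ℝ) :
    kn N (q.d m s) (Wj m s q) f τ y =
      KE (mm m (s q.i) q.p1) N f τ q.g (q.X m s y) * ((q.w m s y : ℝ) : ℂ) := by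
  have h1 : ∀ j, ((Wj m s q j y : ℝ) : ℂ) * al j f τ (q.d m s y) =
      (((UU (Gx (mm m (s q.i) q.p1) (q.X m s y)) j (Vx (mm m (s q.i) q.p1) (q.X m s y)
        (q.g • q.X m s y)) : ℝ) : ℂ) *
        al j f τ (ds (mm m (s q.i) q.p1) (q.X m s y) (q.g • q.X m s y))) *
          ((q.w m s y : ℝ) : ℂ) := by
    intro j
    rw [Wj, Complex.ofReal_mul, Ln.d]
    ring
  rw [kn, KE, KC, Finset.sum_congr rfl fun j _ => h1 j, ← Finset.sum_mul, ← mul_assoc]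
  rfl

/-- Absorption of the constants. -/
theorem F3_abs {N A0 A1 kk k1 : ℕ} {C c Q R ρ X Z Y : ℝ} (hC : 1 ≤ C) (hc0 : 0 < c)
    (hR : 4 ≤ R) (hρ0 : 0 ≤ ρ) (hρ : ρ ≤ R) (hY : Y = C * (R + 8) + 1) (hN : (N : ℝ) + 1 ≤ X)
    (hQX : Q ≤ X) (hQ : 1 ≤ Q) (hX : 2 + R + Y ≤ X) (hXZ : X ≤ Z ^ kk) (hZ : 2 ≤ Z)
    (hk1 : 1 / c ≤ 2 ^ k1) {A : ℕ} (hA : A = kk * (3 * A0 + 16) + kk * (A1 + 2) + k1 +
      ⌈A0 * (3 * C + 1)⌉₊ + 8 + ⌈1 / c⌉₊) :
    5984 * Y * (N + 1) * (X ^ (A0 * (N + 1)) * Real.exp (A0 * (Y + 1))) *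
      ((64 * (N + 1) * (1 + ρ + X ^ A0)) ^ (2 * N + 1) / √(1 / (2 * C ^ 2))) * Q ≤
      Z ^ (A * (N + 1)) * Real.exp (A * R) ∧ X ^ (A1 + 2) / c ≤ Z ^ A ∧ X ^ A1 ≤ Z ^ A := by
  have hX16 : 16 ≤ X := by nlinarith only [hX, hY, hC, hR]
  have hX1 : 1 ≤ X := by linarith
  have hXC : 8 * C ≤ X := by nlinarith only [hX, hY, hC, hR]
  have hYX : Y ≤ X := by linarith
  have hY0 : 0 ≤ Y := by rw [hY]; positivity
  have hZ1 : 1 ≤ Z := by linarith
  have hN0 : (0 : ℝ) ≤ N := Nat.cast_nonneg N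
  have hpX : ∀ {i j : ℕ}, i ≤ j → X ^ i ≤ X ^ j := fun hij => pow_le_pow_right₀ hX1 hij
  have hpZ : ∀ {i j : ℕ}, i ≤ j → Z ^ i ≤ Z ^ j := fun hij => pow_le_pow_right₀ hZ1 hij
  have hXn : ∀ n : ℕ, X ^ n ≤ Z ^ (kk * n) := fun n => by
    rw [pow_mul]
    exact pow_le_pow_left₀ (by linarith) hXZ n
  refine ⟨?_, ?_, ?_⟩
  · have e1 : 64 * ((N : ℝ) + 1) * (1 + ρ + X ^ A0) ≤ X ^ (A0 + 4) := by
      have a1 : X ^ A0 ≤ X ^ (A0 + 1) := hpX (by omega)
      have a2 : X ≤ X ^ (A0 + 1) := by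
        calc X = X ^ 1 := (pow_one X).symm
          _ ≤ X ^ (A0 + 1) := hpX (by omega)
      have a3 : 1 + ρ + X ^ A0 ≤ 2 * X ^ (A0 + 1) := by linarith
      have a4 : (128 : ℝ) ≤ X ^ 2 := by nlinarith only [hX16]
      have a5 : 0 ≤ 1 + ρ + X ^ A0 := by positivity
      calc 64 * ((N : ℝ) + 1) * (1 + ρ + X ^ A0) ≤ 64 * X * (2 * X ^ (A0 + 1)) := by gcongr
        _ = 128 * (X ^ (A0 + 1) * X) := by ring
        _ ≤ X ^ 2 * (X ^ (A0 + 1) * X) := by gcongr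
        _ = X ^ (A0 + 4) := by ring
    have e2 : 1 / √(1 / (2 * C ^ 2)) ≤ X := by
      have a1 : √(1 / (2 * C ^ 2)) = 1 / √(2 * C ^ 2) := by
        rw [Real.sqrt_div (by norm_num), Real.sqrt_one]
      rw [a1, one_div_one_div]
      calc √(2 * C ^ 2) ≤ √((8 * C) ^ 2) := Real.sqrt_le_sqrt (by nlinarith only [hC])
        _ = 8 * C := Real.sqrt_sq (by linarith)
        _ ≤ X := hXC
    have e3 : (5984 : ℝ) ≤ X ^ 4 := by
      calc (5984 : ℝ) ≤ 16 ^ 4 := by norm_num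
        _ ≤ X ^ 4 := pow_le_pow_left₀ (by norm_num) hX16 4
    have e4 : Real.exp (A0 * (Y + 1)) ≤ Real.exp (A * R) := by
      apply Real.exp_le_exp.2
      have a1 : Y + 1 ≤ (3 * C + 1) * R := by rw [hY]; nlinarith only [hC, hR]
      have a2 : (A0 : ℝ) * (3 * C + 1) ≤ A := by
        have a3 := Nat.le_ceil ((A0 : ℝ) * (3 * C + 1))
        have a4 : ((⌈A0 * (3 * C + 1)⌉₊ : ℕ) : ℝ) ≤ A := by
          rw [hA]
          exact_mod_cast (by omega)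
        linarith
      have hR0 : 0 ≤ R := by linarith
      calc (A0 : ℝ) * (Y + 1) ≤ A0 * ((3 * C + 1) * R) := by gcongr
        _ = (A0 * (3 * C + 1)) * R := by ring
        _ ≤ A * R := by gcongr
    have e5 : (64 * ((N : ℝ) + 1) * (1 + ρ + X ^ A0)) ^ (2 * N + 1) ≤
        X ^ ((A0 + 4) * (2 * N + 1)) := by
      rw [pow_mul]
      exact pow_le_pow_left₀ (by positivity) e1 _
    have hs : 0 < √(1 / (2 * C ^ 2)) := Real.sqrt_pos.2 (by positivity)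
    calc _ = 5984 * Y * (N + 1) * (X ^ (A0 * (N + 1)) * Real.exp (A0 * (Y + 1))) *
          ((64 * (N + 1) * (1 + ρ + X ^ A0)) ^ (2 * N + 1) * (1 / √(1 / (2 * C ^ 2)))) * Q := by
          ring
      _ ≤ X ^ 4 * X * X * (X ^ (A0 * (N + 1)) * Real.exp (A * R)) *
          (X ^ ((A0 + 4) * (2 * N + 1)) * X) * X := by gcongr
      _ = X ^ (8 + A0 * (N + 1) + (A0 + 4) * (2 * N + 1)) * Real.exp (A * R) := by
          rw [pow_add, pow_add]
          ring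
      _ ≤ X ^ ((3 * A0 + 16) * (N + 1)) * Real.exp (A * R) := by
          gcongr ?_ * _
          apply hpX
          nlinarith
      _ ≤ Z ^ (kk * ((3 * A0 + 16) * (N + 1))) * Real.exp (A * R) := by
          gcongr ?_ * _
          exact hXn _
      _ ≤ Z ^ (A * (N + 1)) * Real.exp (A * R) := by
          gcongr ?_ * _
          apply hpZ
          rw [hA, ← mul_assoc]
          apply Nat.mul_le_mul_right
          omega
  · have a1 : X ^ (A1 + 2) / c = X ^ (A1 + 2) * (1 / c) := by ring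
    rw [a1]
    calc X ^ (A1 + 2) * (1 / c) ≤ Z ^ (kk * (A1 + 2)) * 2 ^ k1 := by
          gcongr
          exact hXn _
      _ ≤ Z ^ (kk * (A1 + 2)) * Z ^ k1 := by gcongr
      _ = Z ^ (kk * (A1 + 2) + k1) := by rw [pow_add]
      _ ≤ Z ^ A := by
          apply hpZ
          rw [hA]
          omega
  · refine (hXn A1).trans (hpZ ?_)
    rw [hA]
    nlinarith

theorem far_one (h : CF Γ D m a b s) {Qs : ι → ℝ} (hG : GI Γ D m s Qs) : ∃ A : ℕ, 1 ≤ A ∧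
    ∀ (N : ℕ) (q : Ln ι P Γ) (v : Pl) (l : ℝ) (F : ℂ → ℂ) (f : ℝ → ℂ)
      (qd ρ R M M' κ τ δ e : ℝ), q.Ax m s v l → l ≤ R → AH F f (Qs q.i) qd ρ R M M' κ →
      DH δ e → 1 ≤ τ → XN N (Qs q.i) R ^ A * ‖q.p1 - q.p0‖ ≤ δ →
      ‖(∫ y : ℝ, KE (mm m (s q.i) q.p1) N f τ q.g (q.X m s y) * ((q.w m s y : ℝ) : ℂ)) -
        ∫ y in (-(2 * δ))..(2 * δ), ((thR δ e y : ℝ) : ℂ) *
          KE (mm m (s q.i) q.p1) N (rs F) τ q.g (q.X m s y) * ((q.w m s y : ℝ) : ℂ)‖ ≤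
        TN A N (Qs q.i) R M κ τ δ e qd := by
  obtain ⟨A0, hst⟩ := strip h hG
  obtain ⟨c, hc0, hc1, hph⟩ := phase_line h
  obtain ⟨A1, hA01, hph⟩ := hph A0
  obtain ⟨C, hC1, hgr⟩ := Ax_growth h
  obtain ⟨k0, hk0⟩ := pow_unbounded_of_one_lt (2 + 4 * C) (by norm_num : (1 : ℝ) < 2)
  obtain ⟨k1, hk1⟩ := pow_unbounded_of_one_lt (1 / c) (by norm_num : (1 : ℝ) < 2)
  set kk : ℕ := k0 + 1 with hkk
  set A : ℕ := kk * (3 * A0 + 16) + kk * (A1 + 2) + k1 + ⌈A0 * (3 * C + 1)⌉₊ + 8 +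
    ⌈1 / c⌉₊ with hAdef
  refine ⟨A, by omega, ?_⟩
  intro N q v l F f qd ρ R M M' κ τ δ e hAx hlR hA hD hτ hpp
  obtain ⟨hCl, hgrow⟩ := hgr q v l hAx
  have hδ := hD.dpos
  have hδ8 := hD.dle
  have he := hD.epos
  have hee := hD.ele
  have hQ1 : 1 ≤ Qs q.i := hG.one q.i
  set Q : ℝ := Qs q.i with hQ
  have hM : 0 ≤ M := hA.ea.M_nonneg
  have hκ : 0 ≤ κ := hA.cut.nonneg
  have hρ := hA.rho
  have hρR := hA.rR
  have hR4 : 4 ≤ R := by linarith
  have hC0 : 0 < C := by linarith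
  have hl0 : 0 < l := by
    by_contra hcon
    push Not at hcon
    have : C * l ≤ 0 := mul_nonpos_of_nonneg_of_nonpos hC0.le hcon
    linarith
  have hN0 : (0 : ℝ) ≤ N := Nat.cast_nonneg N
  set Y : ℝ := C * (R + 8) + 1 with hY
  have hY1 : 1 ≤ Y := by rw [hY]; nlinarith only [hC1, hR4]
  have hYR : R + 8 ≤ Y := by rw [hY]; nlinarith only [hC1, hR4]
  set X : ℝ := XN N Q (l + (Y + 1)) with hX
  have hXe : X = (N + 2) * Q * (2 + (l + (Y + 1))) := rfl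
  set Z : ℝ := XN N Q R with hZ
  have hZe : Z = (N + 2) * Q * (2 + R) := rfl
  have hNQ : 2 ≤ (N + 2) * Q := by nlinarith only [hN0, hQ1]
  have hX2 : 2 + l + (Y + 1) ≤ X := by rw [hXe]; nlinarith only [hNQ, hl0, hY1]
  have hXR : 2 + R + Y ≤ X := by
    rw [hXe]
    nlinarith only [hNQ, hl0, hY1, hYR]
  have hX1 : 1 ≤ X := by linarith
  have hX0 : 0 < X := by linarith
  have hZ2 : 2 ≤ Z := by rw [hZe]; nlinarith only [hNQ, hR4]
  have hXN1 : (N : ℝ) + 1 ≤ X := by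
    rw [hXe]
    have : (N : ℝ) + 2 ≤ (N + 2) * Q := by nlinarith only [hN0, hQ1]
    nlinarith only [this, hl0, hY1, hNQ, hN0]
  have hXQ : Q ≤ X := by
    rw [hXe]
    have : Q ≤ (N + 2) * Q := by nlinarith only [hN0, hQ1]
    nlinarith only [this, hl0, hY1, hNQ]
  have hXZ : X ≤ Z ^ kk := by
    have a1 : X ≤ (2 + 4 * C) * Z := by
      rw [hXe, hZe]
      have b1 : 2 + (l + (Y + 1)) ≤ (2 + 4 * C) * (2 + R) := by rw [hY]; nlinarith only [hlR, hC1, hR4, hl0]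
      have b2 : 0 ≤ ((N : ℝ) + 2) * Q := by positivity
      calc ((N : ℝ) + 2) * Q * (2 + (l + (Y + 1))) ≤
          ((N : ℝ) + 2) * Q * ((2 + 4 * C) * (2 + R)) := by gcongr
        _ = (2 + 4 * C) * (((N : ℝ) + 2) * Q * (2 + R)) := by ring
    calc X ≤ (2 + 4 * C) * Z := a1
      _ ≤ 2 ^ k0 * Z := by gcongr
      _ ≤ Z ^ k0 * Z := by gcongr
      _ = Z ^ kk := by rw [hkk, pow_succ]
  obtain ⟨ab1, ab2, ab3⟩ := F3_abs (N := N) (A0 := A0) (A1 := A1) (kk := kk) (k1 := k1) (C := C)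
    (c := c) (Q := Q) (R := R) (ρ := ρ) (X := X) (Z := Z) (Y := Y) hC1 hc0 hR4 hρ (by linarith) hY
    hXN1 hXQ hQ1 hXR hXZ hZ2 hk1.le hAdef
  obtain ⟨Dc, W, hS⟩ := hst N q v l (Y + 1) hAx (by linarith)
  have hsp : X ^ A1 * ‖q.p1 - q.p0‖ ≤ δ :=
    (mul_le_mul_of_nonneg_right ab3 (norm_nonneg _)).trans hpp
  have hphl := hph q v l (Y + 1) X δ hAx (by linarith) hX2 hδ (by linarith) hsp Dc hS.dd hS.db
    hS.dr
  -- the parameters of the contour
  set r : ℝ := (X ^ A0)⁻¹ with hr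
  set η : ℝ := min e (δ / X ^ (A1 + 2)) with hη
  set r0 : ℝ := 1 / (2 * C ^ 2) with hr0
  have hr00 : 0 < r0 := by positivity
  have hη0 : 0 ≤ η := le_min he.le (by positivity)
  have hηe : η ≤ e := min_le_left _ _
  have hη2 : η ≤ δ / X ^ (A1 + 2) := min_le_right _ _
  have hpw : X ^ (A1 + 2) = X ^ A1 * X ^ 2 := by rw [pow_add]
  have hA1p : 1 ≤ X ^ A1 := one_le_pow₀ hX1
  have hX2p : 0 < X ^ 2 := by positivity
  have hη1 : η ≤ δ / X ^ A1 := by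
    refine hη2.trans ?_
    apply div_le_div_of_nonneg_left hδ.le (by positivity)
    exact pow_le_pow_right₀ hX1 (by omega)
  have hηr : η < r := by
    refine lt_of_le_of_lt hη1 ?_
    rw [hr, div_eq_mul_inv]
    have b1 : (X ^ A1)⁻¹ ≤ (X ^ A0)⁻¹ :=
      inv_anti₀ (by positivity) (pow_le_pow_right₀ hX1 hA01)
    have b2 : 0 < (X ^ A0)⁻¹ := by positivity
    calc δ * (X ^ A1)⁻¹ ≤ (1 / 8) * (X ^ A0)⁻¹ := by gcongr
      _ < (X ^ A0)⁻¹ := by linarith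
  have hsmall : ∀ t ∈ Icc (0 : ℝ) η, X ^ A1 * t ≤ δ / X ^ 2 := by
    intro t ht
    calc X ^ A1 * t ≤ X ^ A1 * (δ / X ^ (A1 + 2)) := by gcongr; exact ht.2.trans hη2
      _ = δ / X ^ 2 := by rw [hpw]; field_simp
  have hδX : δ / X ^ 2 ≤ r0 ∧ δ / X ^ 2 ≤ 1 / Q ∧ δ / X ^ 2 ≤ 1 := by
    have b0 : 8 * C ≤ X := by nlinarith only [hXR, hY, mul_nonneg hC0.le (by linarith : (0 : ℝ) ≤ R), hR4]
    refine ⟨?_, ?_, ?_⟩
    · rw [hr0, div_le_div_iff₀ hX2p (by positivity)]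
      nlinarith only [pow_le_pow_left₀ (by positivity : (0 : ℝ) ≤ 8 * C) b0 2, mul_nonneg (sub_nonneg.2 hδ8) (sq_nonneg C), sq_nonneg C]
    · rw [div_le_div_iff₀ hX2p (by linarith)]
      nlinarith only [hδ8, hδ, hQ1, hXQ, hX1]
    · rw [div_le_one hX2p]
      nlinarith only [hδ8, hX1]
  have hd2 : ∀ y, 2 * r0 ≤ q.d m s y := by
    intro y
    have b1 := (hgrow y).2.1
    have b2 : 1 ≤ C * (C * q.d m s y) := hCl.trans (by gcongr)
    rw [hr0]
    have b3 : 2 * (1 / (2 * C ^ 2)) = 1 / C ^ 2 := by field_simp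
    rw [b3, div_le_iff₀ (by positivity)]
    nlinarith only [b2]
  have hdY : ∀ y, Y ≤ |y| → R + 6 ≤ q.d m s y := by
    intro y hy
    have b1 := (hgrow y).1
    have b2 : C * (R + 8) + 1 ≤ C * (1 + q.d m s y) := by
      rw [hY] at hy
      linarith
    have b3 : C * (R + 8) ≤ C * (1 + q.d m s y) := by linarith
    have b4 := le_of_mul_le_mul_left b3 hC0
    linarith
  have hsubN : Nb (-Y) Y r ⊆ Nb (-(Y + 1)) (Y + 1) r := Nb_mono (by linarith) (by linarith)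
  have hIcc : ∀ y ∈ Icc (-Y) Y, y ∈ Icc (-(Y + 1)) (Y + 1) := fun y hy =>
    ⟨by linarith [hy.1], by linarith [hy.2]⟩
  obtain ⟨hXc, hwc⟩ := F3_w_cont h q
  have hkf : Continuous (kn N (q.d m s) (Wj m s q) f τ) := by
    have : kn N (q.d m s) (Wj m s q) f τ = fun y =>
      KE (mm m (s q.i) q.p1) N f τ q.g (q.X m s y) * ((q.w m s y : ℝ) : ℂ) := by
      funext y
      exact F3_kn q N f τ y
    rw [this]
    exact ((KE_cont h q.i q.p1 N (by linarith : (0 : ℝ) ≤ ρ + 3) hA.amp τ q.hg).comp hXc).mul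
      (Complex.continuous_ofReal.comp hwc)
  have hkF : Continuous (kn N (q.d m s) (Wj m s q) (rs F) τ) := by
    have : kn N (q.d m s) (Wj m s q) (rs F) τ = fun y =>
      KE (mm m (s q.i) q.p1) N (rs F) τ q.g (q.X m s y) * ((q.w m s y : ℝ) : ℂ) := by
      funext y
      exact F3_kn q N (rs F) τ y
    rw [this]
    exact ((KE_contE h q.i q.p1 N hA.ea hρ hA.q1 hA.qQ (by linarith) q.hg).comp hXc).mul
      (Complex.continuous_ofReal.comp hwc)
  have hBw0 : 0 ≤ X ^ (A0 * (N + 1)) * Real.exp (A0 * (Y + 1)) := by positivity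
  -- points of the contour
  have hDb : ∀ y ∈ Icc (-Y) Y, ∀ t : ℝ, |t| ≤ η →
      ‖Dc (y - t * Complex.I)‖ ≤ X ^ A0 := fun y hy t ht =>
    hS.db _ (hsubN (mem_Nb hy (lt_of_le_of_lt ht hηr)))
  have hneg : ∀ y t : ℝ, -(y : ℂ) + t * Complex.I = ((-y : ℝ) : ℂ) - ((-t : ℝ) : ℂ) * Complex.I := by
    intro y t
    push_cast
    ring
  have hclose : ∀ {z : ℂ} {y t : ℝ}, t ∈ Icc (0 : ℝ) η → ‖z - q.d m s y‖ ≤ X ^ A1 * t →
      q.d m s y - δ / X ^ 2 ≤ z.re ∧ |z.im| ≤ δ / X ^ 2 := by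
    intro z y t ht hz
    have b1 := hz.trans (hsmall t ht)
    have b2 : |z.re - q.d m s y| ≤ δ / X ^ 2 := by
      refine le_trans ?_ b1
      have := Complex.abs_re_le_norm (z - q.d m s y)
      simpa using this
    have b3 : |z.im| ≤ δ / X ^ 2 := by
      refine le_trans ?_ b1
      have := Complex.abs_im_le_norm (z - q.d m s y)
      simpa using this
    exact ⟨by linarith [(abs_le.1 b2).1], b3⟩
  have hcore := far_core (F := F) (f := f) (Q := Q) (qd := qd) (ρ := ρ) (R := R) (M := M)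
    (M' := M') (κ := κ) (τ := τ) (δ := δ) (e := e) (r0 := r0) (r := r) (B := X ^ A0)
    (Bw := X ^ (A0 * (N + 1)) * Real.exp (A0 * (Y + 1))) (c := c * δ) (η := η) (Y := Y) (N := N)
    (d := q.d m s) (w := Wj m s q) (Dc := Dc) (W := W) hA hD hτ hY1 hr00
    (by
      rw [hr0, div_le_one (by positivity)]
      nlinarith only [hC1])
    (by positivity) hBw0 (by positivity) hη0 hηr hηe
    (fun y => by linarith [hd2 y])
    (fun y hy => by
      have b1 := hS.db (y : ℂ) (hsubN ⟨y, hy, mem_ball_self (lt_of_le_of_lt hη0 hηr)⟩)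
      rw [hS.dr y (hIcc y hy), Complex.norm_real] at b1
      exact (le_abs_self _).trans b1)
    (fun y hy => by linarith [hdY y hy])
    hkf hkF (hS.dd.mono hsubN) (fun j hj => (hS.wd j hj).mono hsubN)
    (fun y hy => hS.dr y (hIcc y hy)) (fun j hj y hy => hS.wr j hj y (hIcc y hy))
    (fun j hj z hz => (hS.wb j hj z (hsubN hz)).trans (by
      gcongr))
    (fun y hy t ht => by
      have hp1 := hphl y t hy.1 (by linarith [hy.2]) ht.1 (ht.2.trans hη1)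
      have hy' : y ∈ Icc (-Y) Y := ⟨by linarith [hy.1], hy.2⟩
      have hy'' : -y ∈ Icc (-Y) Y := ⟨by linarith [hy.2], by linarith [hy.1]⟩
      obtain ⟨c1, c2⟩ := hclose ht hp1.2.2.1
      obtain ⟨c3, c4⟩ := hclose ht hp1.2.2.2
      refine ⟨⟨hDb y hy' t (by rw [abs_of_nonneg ht.1]; exact ht.2), ?_,
        c2.trans hδX.2.1, hp1.1⟩, ⟨?_, ?_, c4.trans hδX.2.1, hp1.2.1⟩⟩
      · linarith [hd2 y, hδX.1]
      · rw [hneg]
        exact hDb (-y) hy'' (-t) (by rw [abs_neg, abs_of_nonneg ht.1]; exact ht.2)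
      · linarith [hd2 (-y), hδX.1])
    (fun t ht => by
      have hp1 := hphl Y t (by linarith) (by linarith) ht.1 (ht.2.trans hη1)
      obtain ⟨c1, c2⟩ := hclose ht hp1.2.2.1
      obtain ⟨c3, c4⟩ := hclose ht hp1.2.2.2
      have d1 := hdY Y (by rw [abs_of_nonneg (by linarith)])
      have d2 := hdY (-Y) (by rw [abs_neg, abs_of_nonneg (by linarith)])
      exact ⟨by linarith [hδX.2.2], by linarith [hδX.2.2]⟩)
  have hL1 : (∫ y : ℝ, KE (mm m (s q.i) q.p1) N f τ q.g (q.X m s y) * ((q.w m s y : ℝ) : ℂ)) =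
      ∫ y : ℝ, kn N (q.d m s) (Wj m s q) f τ y := by
    congr 1
    funext y
    exact (F3_kn q N f τ y).symm
  have hL2 : (∫ y in (-(2 * δ))..(2 * δ), ((thR δ e y : ℝ) : ℂ) *
          KE (mm m (s q.i) q.p1) N (rs F) τ q.g (q.X m s y) * ((q.w m s y : ℝ) : ℂ)) =
      ∫ y in (-(2 * δ))..(2 * δ), ((thR δ e y : ℝ) : ℂ) *
        kn N (q.d m s) (Wj m s q) (rs F) τ y := by
    congr 1
    funext y
    rw [F3_kn q N (rs F) τ y, mul_assoc]
  rw [hL1, hL2]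
  refine hcore.trans ?_
  -- absorption
  set Bw : ℝ := X ^ (A0 * (N + 1)) * Real.exp (A0 * (Y + 1)) with hBw
  set V : ℝ := (64 * (N + 1) * (1 + ρ + X ^ A0)) ^ (2 * N + 1) / √r0 with hV
  have hV0 : 0 ≤ V := by positivity
  set o1 : ℝ := Real.exp (-(τ * δ * e / A)) with ho1
  set o2 : ℝ := Real.exp (-(τ * δ ^ 2 / Z ^ A)) with ho2
  set o3 : ℝ := Real.exp (-(δ ^ 2 / (A * e ^ 2))) with ho3
  set o4 : ℝ := Real.exp (-(qd ^ 2 / A)) with ho4
  have p1 : 0 < o1 := Real.exp_pos _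
  have p2 : 0 < o2 := Real.exp_pos _
  have p3 : 0 < o3 := Real.exp_pos _
  have p4 : 0 < o4 := Real.exp_pos _
  have hAc : 1 / c ≤ A := by
    have a3 := Nat.le_ceil (1 / c)
    have a4 : ((⌈1 / c⌉₊ : ℕ) : ℝ) ≤ A := by exact_mod_cast (by omega)
    linarith
  have hA8 : (8 : ℝ) ≤ A := by
    have : 8 ≤ A := by omega
    exact_mod_cast this
  have hA0 : (0 : ℝ) < A := by linarith
  have hcA : 1 / (A : ℝ) ≤ c := by
    rw [div_le_iff₀ hA0]
    rw [div_le_iff₀ hc0] at hAc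
    linarith
  have m1 : Real.exp (-(c * δ * τ * η)) ≤ o1 + o2 := by
    rcases min_choice e (δ / X ^ (A1 + 2)) with hm | hm
    · rw [hη, hm]
      have : Real.exp (-(c * δ * τ * e)) ≤ o1 := by
        apply Real.exp_le_exp.2
        rw [neg_le_neg_iff]
        calc τ * δ * e / A = (1 / A) * (τ * δ * e) := by ring
          _ ≤ c * (τ * δ * e) := by gcongr
          _ = c * δ * τ * e := by ring
      linarith
    · rw [hη, hm]
      have : Real.exp (-(c * δ * τ * (δ / X ^ (A1 + 2)))) ≤ o2 := by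
        apply Real.exp_le_exp.2
        rw [neg_le_neg_iff]
        have b1 : 0 < X ^ (A1 + 2) := by positivity
        have b2 : 1 / Z ^ A ≤ c / X ^ (A1 + 2) := by
          rw [div_le_div_iff₀ (by positivity) b1]
          rw [div_le_iff₀ hc0] at ab2
          linarith
        calc τ * δ ^ 2 / Z ^ A = (τ * δ ^ 2) * (1 / Z ^ A) := by ring
          _ ≤ (τ * δ ^ 2) * (c / X ^ (A1 + 2)) := by gcongr
          _ = c * δ * τ * (δ / X ^ (A1 + 2)) := by ring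
      linarith
  have m3 : Real.exp (-(δ ^ 2 / (8 * e ^ 2))) ≤ o3 := by
    apply Real.exp_le_exp.2
    rw [neg_le_neg_iff]
    apply div_le_div_of_nonneg_left (by positivity) (by positivity)
    gcongr
  have m4 : Real.exp (-(qd ^ 2 / 2)) ≤ o4 := by
    apply Real.exp_le_exp.2
    rw [neg_le_neg_iff]
    apply div_le_div_of_nonneg_left (by positivity) (by positivity)
    linarith
  set Ω : ℝ := o1 + o2 + o3 + o4 with hΩ
  have hΩ0 : 0 < Ω := by positivity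
  have hη1' : η ≤ 1 := by linarith
  have hbr : 4 * Y * (2 * Real.exp (-(δ ^ 2 / (8 * e ^ 2)))) +
        2 * (Y * (4 * Real.exp (-(c * δ * τ * η))) +
          η * (5 * Real.exp (-(δ ^ 2 / (8 * e ^ 2))) + 4 * Real.exp (-(qd ^ 2 / 2)))) ≤
      34 * Y * Ω := by
    have b1 : Real.exp (-(δ ^ 2 / (8 * e ^ 2))) ≤ Ω := by linarith
    have b2 : Real.exp (-(c * δ * τ * η)) ≤ Ω := by linarith
    have b3 : Real.exp (-(qd ^ 2 / 2)) ≤ Ω := by linarith
    have b4 : 5 * Real.exp (-(δ ^ 2 / (8 * e ^ 2))) + 4 * Real.exp (-(qd ^ 2 / 2)) ≤ 9 * Ω := by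
      linarith
    have b5 : η * (5 * Real.exp (-(δ ^ 2 / (8 * e ^ 2))) + 4 * Real.exp (-(qd ^ 2 / 2))) ≤
        1 * (9 * Ω) := by
      apply mul_le_mul hη1' b4 _ (by norm_num)
      positivity
    have b6 : 4 * Y * (2 * Real.exp (-(δ ^ 2 / (8 * e ^ 2)))) ≤ 4 * Y * (2 * Ω) := by gcongr
    have b7 : Y * (4 * Real.exp (-(c * δ * τ * η))) ≤ Y * (4 * Ω) := by gcongr
    have b8 : Ω ≤ Y * Ω := le_mul_of_one_le_left hΩ0.le hY1
    linarith
  have hSz : Sz N Q ρ M τ r0 (X ^ A0) Bw ≤ 176 * ((N + 1) * Bw * V * Q) * τ * M := by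
    have e1 : Sz N Q ρ M τ r0 (X ^ A0) Bw =
      (N + 1) * Bw * (8 * (τ + 21 * Q) * M * V) := rfl
    have e2 : τ + 21 * Q ≤ 22 * Q * τ := by nlinarith only [hQ1, hτ]
    rw [e1]
    calc (N + 1) * Bw * (8 * (τ + 21 * Q) * M * V) ≤ (N + 1) * Bw * (8 * (22 * Q * τ) * M * V) := by
          gcongr
      _ = 176 * ((N + 1) * Bw * V * Q) * τ * M := by ring
  have hSz0 : 0 ≤ Sz N Q ρ M τ r0 (X ^ A0) Bw := by
    unfold Sz
    positivity
  have hG0 : 0 ≤ (N + 1) * Bw * V * Q := by positivity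
  have t1 : 2 * Y * ((N + 1) * Bw * ((τ + 1) * κ * V)) ≤
      5984 * Y * ((N + 1) * Bw * V * Q) * τ * κ := by
    have e1 : τ + 1 ≤ 2 * τ := by linarith
    calc 2 * Y * ((N + 1) * Bw * ((τ + 1) * κ * V)) ≤
        2 * Y * ((N + 1) * Bw * ((2 * τ) * κ * V)) := by gcongr
      _ = 4 * (Y * ((N + 1) * Bw * V) * τ * κ) * 1 := by ring
      _ ≤ 5984 * (Y * ((N + 1) * Bw * V) * τ * κ) * Q := by
          gcongr
          norm_num
      _ = 5984 * Y * ((N + 1) * Bw * V * Q) * τ * κ := by ring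
  calc _ ≤ 5984 * Y * ((N + 1) * Bw * V * Q) * τ * κ +
        (176 * ((N + 1) * Bw * V * Q) * τ * M) * (34 * Y * Ω) := by
        refine add_le_add t1 ?_
        exact mul_le_mul hSz hbr (by positivity) (by positivity)
    _ = (5984 * Y * (N + 1) * Bw * V * Q) * τ * (κ + M * Ω) := by ring
    _ ≤ (Z ^ (A * (N + 1)) * Real.exp (A * R)) * τ * (κ + M * Ω) := by
        gcongr
    _ = TN A N Q R M κ τ δ e qd := by
        rw [TN, hΩ]

end BE36C
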