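import Pool.Agent.LibBE36C.F1
import Pool.Agent.LibBE36C.F2

/-! BE36 C', row F3a: one line, the analytic part. -/

open MeasureTheory Set Filter Topology Metric
open scoped ContDiff

namespace BE36C

open BGS BR BE

theorem thE_neg (h e : ℝ) (z : ℂ) : thE h e (-z) = thE h e z := by
  rw [thE, thE]
  congr 1
  have h1 := intervalIntegral.integral_comp_neg (a := -h) (b := h)
    (fun u : ℝ => Complex.exp (-((z - u) / e) ^ 2))
  rw [neg_neg] at h1
  rw [← h1]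
  refine intervalIntegral.integral_congr fun u _ => ?_
  congr 1
  push_cast
  have : (-z - (u : ℂ)) / e = -((z - -(u : ℂ)) / e) := by ring
  rw [this, neg_sq]

theorem thR_neg (h e x : ℝ) : thR h e (-x) = thR h e x := by
  have h1 := thE_neg h e (x : ℂ)
  have h2 : (-(x : ℂ)) = ((-x : ℝ) : ℂ) := by push_cast; rfl
  rw [h2, thE_ofReal, thE_ofReal] at h1
  exact_mod_cast h1

theorem thR_cont {h e : ℝ} (he : 0 < e) : Continuous (thR h e) := by
  have h1 : Continuous fun x : ℝ => thE h e (x : ℂ) :=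
    (thE_diff he).continuous.comp Complex.continuous_ofReal
  have h2 : thR h e = fun x : ℝ => (thE h e (x : ℂ)).re := by
    funext x
    rw [thE_ofReal, Complex.ofReal_re]
  rw [h2]
  exact Complex.continuous_re.comp h1

theorem Nb_neg {Y r : ℝ} {z : ℂ} (hz : -z ∈ Nb (-Y) Y r) : z ∈ Nb (-Y) Y r := by
  obtain ⟨y, hy, hzy⟩ := hz
  refine ⟨-y, ⟨by linarith [hy.2], by linarith [hy.1]⟩, ?_⟩
  rw [mem_ball_iff_norm] at hzy ⊢
  have : z - ((-y : ℝ) : ℂ) = -(-z - y) := by push_cast; ring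
  rw [this, norm_neg]
  exact hzy

theorem Nb_mono {a b a' b' r : ℝ} (ha : a' ≤ a) (hb : b ≤ b') : Nb a b r ⊆ Nb a' b' r := by
  rintro z ⟨y, hy, hz⟩
  exact ⟨y, ⟨ha.trans hy.1, hy.2.trans hb⟩, hz⟩

/-- The integrand on the line. -/
noncomputable def kn (N : ℕ) (d : ℝ → ℝ) (w : ℕ → ℝ → ℝ) (f : ℝ → ℂ) (τ y : ℝ) : ℂ :=
  Complex.exp (-(Complex.I * τ * d y)) *
    ∑ j ∈ Finset.range (N + 1), (w j y : ℂ) * al j f τ (d y)

/-- The size of the integrand. -/
noncomputable def Sz (N : ℕ) (Q ρ M τ r0 B Bw : ℝ) : ℝ :=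
  (N + 1) * Bw * (8 * (τ + 21 * Q) * M * ((64 * (N + 1) * (1 + ρ + B)) ^ (2 * N + 1) / √r0))

theorem far_core {F : ℂ → ℂ} {f : ℝ → ℂ} {Q qd ρ R M M' κ τ δ e r0 r B Bw c η Y : ℝ} {N : ℕ}
    {d : ℝ → ℝ} {w : ℕ → ℝ → ℝ} {Dc : ℂ → ℂ} {W : ℕ → ℂ → ℂ}
    (hA : AH F f Q qd ρ R M M' κ) (hD : DH δ e) (hτ : 1 ≤ τ) (hY : 1 ≤ Y)
    (hr0 : 0 < r0) (hr1 : r0 ≤ 1) (hB : 0 ≤ B) (hBw : 0 ≤ Bw) (hc : 0 ≤ c)
    (hη : 0 ≤ η) (hηr : η < r) (hηe : η ≤ e)
    (hd0 : ∀ y, r0 ≤ d y) (hdB : ∀ y ∈ Icc (-Y) Y, d y ≤ B) (hdY : ∀ y, Y ≤ |y| → ρ + 3 < d y)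
    (hkf : Continuous (kn N d w f τ)) (hkF : Continuous (kn N d w (rs F) τ))
    (hDd : DifferentiableOn ℂ Dc (Nb (-Y) Y r))
    (hWd : ∀ j ≤ N, DifferentiableOn ℂ (W j) (Nb (-Y) Y r))
    (hDr : ∀ y ∈ Icc (-Y) Y, Dc y = d y) (hWr : ∀ j ≤ N, ∀ y ∈ Icc (-Y) Y, W j y = w j y)
    (hWb : ∀ j ≤ N, ∀ z ∈ Nb (-Y) Y r, ‖W j z‖ ≤ Bw)
    (hp : ∀ y ∈ Icc (δ / 2) Y, ∀ t ∈ Icc (0 : ℝ) η,
      (‖Dc (y - t * Complex.I)‖ ≤ B ∧ r0 ≤ (Dc (y - t * Complex.I)).re ∧
        |(Dc (y - t * Complex.I)).im| ≤ 1 / Q ∧ (Dc (y - t * Complex.I)).im ≤ -(c * t)) ∧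
      (‖Dc (-y + t * Complex.I)‖ ≤ B ∧ r0 ≤ (Dc (-y + t * Complex.I)).re ∧
        |(Dc (-y + t * Complex.I)).im| ≤ 1 / Q ∧ (Dc (-y + t * Complex.I)).im ≤ -(c * t)))
    (hend : ∀ t ∈ Icc (0 : ℝ) η, ρ + 1 ≤ (Dc (Y - t * Complex.I)).re ∧
      ρ + 1 ≤ (Dc (-Y + t * Complex.I)).re) :
    ‖(∫ y : ℝ, kn N d w f τ y) -
        ∫ y in (-(2 * δ))..(2 * δ), ((thR δ e y : ℝ) : ℂ) * kn N d w (rs F) τ y‖ ≤
      2 * Y * ((N + 1) * Bw * ((τ + 1) * κ *
        ((64 * (N + 1) * (1 + ρ + B)) ^ (2 * N + 1) / √r0))) +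
      Sz N Q ρ M τ r0 B Bw * (4 * Y * (2 * Real.exp (-(δ ^ 2 / (8 * e ^ 2)))) +
        2 * (Y * (4 * Real.exp (-(c * τ * η))) +
          η * (5 * Real.exp (-(δ ^ 2 / (8 * e ^ 2))) + 4 * Real.exp (-(qd ^ 2 / 2))))) := by
  have hδ := hD.dpos
  have hδ8 := hD.dle
  have he := hD.epos
  have hQ1 : 1 ≤ Q := hA.q1.trans hA.qQ
  have hM : 0 ≤ M := hA.ea.M_nonneg
  have hρ := hA.rho
  have hτ0 : (0 : ℝ) ≤ τ := by linarith
  set E1 : ℝ := Real.exp (-(δ ^ 2 / (8 * e ^ 2))) with hE1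
  set V : ℝ := (64 * (N + 1) * (1 + ρ + B)) ^ (2 * N + 1) / √r0 with hV
  have hsr : 0 < √r0 := Real.sqrt_pos.2 hr0
  have hV0 : 0 ≤ V := by positivity
  set S : ℝ := Sz N Q ρ M τ r0 B Bw with hS
  have hSe : S = (N + 1) * Bw * (8 * (τ + 21 * Q) * M * V) := rfl
  have hS0 : 0 ≤ S := by
    rw [hSe]
    positivity
  -- bounds of the real coefficients
  have hwb : ∀ y ∈ Icc (-Y) Y, ∀ j ≤ N, |w j y| ≤ Bw := by
    intro y hy j hj
    have h1 := hWb j hj (y : ℂ) ⟨y, hy, mem_ball_self (lt_of_le_of_lt hη hηr)⟩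
    rw [hWr j hj y hy, Complex.norm_real] at h1
    exact h1
  have hexp : ∀ y : ℝ, ‖Complex.exp (-(Complex.I * τ * d y))‖ = 1 := by
    intro y
    rw [Complex.norm_exp]
    simp [Complex.mul_re, Complex.mul_im]
  have hFb : ∀ y ∈ Icc (-Y) Y, ‖kn N d w (rs F) τ y‖ ≤ S := by
    intro y hy
    have h1 := (sum_al_le (w := fun j => w j y) (N := N) hA hτ hr0 hr1 (hd0 y) (hdB y hy)
      (fun j hj => hwb y hy j hj)).1
    rw [kn, norm_mul, hexp, one_mul]
    refine h1.trans ?_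
    rw [hSe]
    have : (τ + 21 * Q) * M * V ≤ 8 * (τ + 21 * Q) * M * V := by
      have : 0 ≤ (τ + 21 * Q) * M * V := by positivity
      linarith
    have h2 : 0 ≤ ((N : ℝ) + 1) * Bw := by positivity
    exact mul_le_mul_of_nonneg_left this h2
  have hdf : ∀ y ∈ Icc (-Y) Y, ‖kn N d w f τ y - kn N d w (rs F) τ y‖ ≤
      (N + 1) * Bw * ((τ + 1) * κ * V) := by
    intro y hy
    have h1 := (sum_al_le (w := fun j => w j y) (N := N) hA hτ hr0 hr1 (hd0 y) (hdB y hy)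
      (fun j hj => hwb y hy j hj)).2
    have h2 : kn N d w f τ y - kn N d w (rs F) τ y = Complex.exp (-(Complex.I * τ * d y)) *
        ∑ j ∈ Finset.range (N + 1), (w j y : ℂ) * (al j f τ (d y) - al j (rs F) τ (d y)) := by
      rw [kn, kn, ← mul_sub, ← Finset.sum_sub_distrib]
      congr 1
      refine Finset.sum_congr rfl fun j _ => ?_
      ring
    rw [h2, norm_mul, hexp, one_mul]
    exact h1
  -- the integral over the line
  have hz : ∀ y : ℝ, Y ≤ |y| → kn N d w f τ y = 0 := by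
    intro y hy
    rw [kn]
    have : ∑ j ∈ Finset.range (N + 1), (w j y : ℂ) * al j f τ (d y) = 0 := by
      refine Finset.sum_eq_zero fun j _ => ?_
      rw [al_zero (by linarith) hA.amp j τ (hdY y hy), mul_zero]
    rw [this, mul_zero]
  have hfull : ∫ y : ℝ, kn N d w f τ y = ∫ y in (-Y)..Y, kn N d w f τ y := by
    rw [intervalIntegral.integral_of_le (by linarith)]
    symm
    apply setIntegral_eq_integral_of_forall_compl_eq_zero
    intro y hy
    apply hz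
    by_contra hcon
    push Not at hcon
    exact hy ⟨(abs_lt.1 hcon).1, (abs_lt.1 hcon).2.le⟩
  set kF := kn N d w (rs F) τ with hkFd
  set kf := kn N d w f τ with hkfd
  have hθc : Continuous fun y : ℝ => ((thR δ e y : ℝ) : ℂ) :=
    Complex.continuous_ofReal.comp (thR_cont he)
  have iF : ∀ u v : ℝ, IntervalIntegrable kF volume u v := fun u v => hkF.intervalIntegrable u v
  have iθ : ∀ u v : ℝ, IntervalIntegrable (fun y : ℝ => ((thR δ e y : ℝ) : ℂ) * kF y) volume u v :=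
    fun u v => (hθc.mul hkF).intervalIntegrable u v
  have i1 : ∀ u v : ℝ, IntervalIntegrable (fun y : ℝ => (1 - ((thR δ e y : ℝ) : ℂ)) * kF y)
      volume u v := fun u v => ((continuous_const.sub hθc).mul hkF).intervalIntegrable u v
  -- decomposition
  have hdec : (∫ y in (-Y)..Y, kf y) - ∫ y in (-(2 * δ))..(2 * δ),
      ((thR δ e y : ℝ) : ℂ) * kF y =
      (∫ y in (-Y)..Y, (kf y - kF y)) +
      ((∫ y in (-Y)..(-(2 * δ)), ((thR δ e y : ℝ) : ℂ) * kF y) +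
        ∫ y in (2 * δ)..Y, ((thR δ e y : ℝ) : ℂ) * kF y) +
      ((∫ y in (-Y)..(-(δ / 2)), (1 - ((thR δ e y : ℝ) : ℂ)) * kF y) +
        (∫ y in (-(δ / 2))..(δ / 2), (1 - ((thR δ e y : ℝ) : ℂ)) * kF y) +
        ∫ y in (δ / 2)..Y, (1 - ((thR δ e y : ℝ) : ℂ)) * kF y) := by
    have e1 : ∫ y in (-Y)..Y, (kf y - kF y) = (∫ y in (-Y)..Y, kf y) - ∫ y in (-Y)..Y, kF y :=
      intervalIntegral.integral_sub (hkf.intervalIntegrable _ _) (iF _ _)
    have e2 : ∫ y in (-Y)..Y, kF y = (∫ y in (-Y)..Y, ((thR δ e y : ℝ) : ℂ) * kF y) +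
        ∫ y in (-Y)..Y, (1 - ((thR δ e y : ℝ) : ℂ)) * kF y := by
      rw [← intervalIntegral.integral_add (iθ _ _) (i1 _ _)]
      refine intervalIntegral.integral_congr fun y _ => ?_
      ring
    have e3 : ∫ y in (-Y)..Y, ((thR δ e y : ℝ) : ℂ) * kF y =
        ((∫ y in (-Y)..(-(2 * δ)), ((thR δ e y : ℝ) : ℂ) * kF y) +
          ∫ y in (-(2 * δ))..(2 * δ), ((thR δ e y : ℝ) : ℂ) * kF y) +
        ∫ y in (2 * δ)..Y, ((thR δ e y : ℝ) : ℂ) * kF y := by
      rw [intervalIntegral.integral_add_adjacent_intervals (iθ _ _) (iθ _ _),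
        intervalIntegral.integral_add_adjacent_intervals (iθ _ _) (iθ _ _)]
    have e4 : ∫ y in (-Y)..Y, (1 - ((thR δ e y : ℝ) : ℂ)) * kF y =
        ((∫ y in (-Y)..(-(δ / 2)), (1 - ((thR δ e y : ℝ) : ℂ)) * kF y) +
        (∫ y in (-(δ / 2))..(δ / 2), (1 - ((thR δ e y : ℝ) : ℂ)) * kF y)) +
        ∫ y in (δ / 2)..Y, (1 - ((thR δ e y : ℝ) : ℂ)) * kF y := by
      rw [intervalIntegral.integral_add_adjacent_intervals (i1 _ _) (i1 _ _),
        intervalIntegral.integral_add_adjacent_intervals (i1 _ _) (i1 _ _)]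
    rw [e1, e2, e3, e4]
    ring
  -- the pieces
  have hs2 : √2 ≤ (2 : ℝ) := by
    rw [Real.sqrt_le_left (by norm_num)]
    norm_num
  have p1 : ‖∫ y in (-Y)..Y, (kf y - kF y)‖ ≤ 2 * Y * ((N + 1) * Bw * ((τ + 1) * κ * V)) := by
    have h1 := intervalIntegral.norm_integral_le_of_norm_le_const (a := -Y) (b := Y)
      (f := fun y => kf y - kF y) (C := (N + 1) * Bw * ((τ + 1) * κ * V)) (by
        intro y hy
        rw [uIoc_of_le (by linarith)] at hy
        exact hdf y ⟨hy.1.le, hy.2⟩)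
    rw [abs_of_nonneg (by linarith)] at h1
    calc _ ≤ _ := h1
      _ = _ := by ring
  have hout : ∀ y : ℝ, 2 * δ ≤ |y| → |thR δ e y| ≤ 2 * E1 := by
    intro y hy
    have h1 := thR_out hδ.le he hδ.le (x := y) (by linarith : δ + δ ≤ |y|)
    refine h1.trans ?_
    have h2 : Real.exp (-(δ ^ 2 / (2 * e ^ 2))) ≤ E1 := by
      apply Real.exp_le_exp.2
      rw [neg_le_neg_iff]
      apply div_le_div_of_nonneg_left (by positivity) (by positivity)
      nlinarith [sq_nonneg e]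
    gcongr
  have hin : ∀ y : ℝ, |y| ≤ δ / 2 → |1 - thR δ e y| ≤ 2 * E1 := by
    intro y hy
    have h1 := thR_in hδ.le he (by positivity : (0 : ℝ) ≤ δ / 2) (x := y) (by linarith)
    refine h1.trans ?_
    have h2 : Real.exp (-((δ / 2) ^ 2 / (2 * e ^ 2))) = E1 := by
      rw [hE1]
      congr 2
      field_simp
      ring
    rw [h2]
    gcongr
  have p2 : ∀ u v : ℝ, u ≤ v → -Y ≤ u → v ≤ Y → (∀ y, u ≤ y → y ≤ v → 2 * δ ≤ |y|) →
      ‖∫ y in u..v, ((thR δ e y : ℝ) : ℂ) * kF y‖ ≤ 2 * E1 * S * (v - u) := by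
    intro u v huv hu hv hy2
    have h1 := intervalIntegral.norm_integral_le_of_norm_le_const (a := u) (b := v)
      (f := fun y => ((thR δ e y : ℝ) : ℂ) * kF y) (C := 2 * E1 * S) (by
        intro y hy
        rw [uIoc_of_le huv] at hy
        rw [norm_mul, Complex.norm_real]
        exact mul_le_mul (hout y (hy2 y hy.1.le hy.2)) (hFb y ⟨by linarith [hy.1], by
          linarith [hy.2]⟩) (norm_nonneg _) (by positivity))
    rwa [abs_of_nonneg (by linarith)] at h1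
  have p3 : ‖∫ y in (-(δ / 2))..(δ / 2), (1 - ((thR δ e y : ℝ) : ℂ)) * kF y‖ ≤
      2 * E1 * S * δ := by
    have h1 := intervalIntegral.norm_integral_le_of_norm_le_const (a := -(δ / 2)) (b := δ / 2)
      (f := fun y => (1 - ((thR δ e y : ℝ) : ℂ)) * kF y) (C := 2 * E1 * S) (by
        intro y hy
        rw [uIoc_of_le (by linarith)] at hy
        have e1 : (1 : ℂ) - ((thR δ e y : ℝ) : ℂ) = ((1 - thR δ e y : ℝ) : ℂ) := by push_cast; ring
        rw [norm_mul, e1, Complex.norm_real]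
        exact mul_le_mul (hin y (abs_le.2 ⟨hy.1.le, hy.2⟩)) (hFb y ⟨by linarith [hy.1], by
          linarith [hy.2]⟩) (norm_nonneg _) (by positivity))
    rw [abs_of_nonneg (by linarith)] at h1
    calc _ ≤ _ := h1
      _ = _ := by ring
  -- the contour shifts
  have hbd : (Y - δ / 2) * (4 * Real.exp (-(c * τ * η))) +
      η * (5 * Real.exp (-((δ / 2) ^ 2 / (2 * e ^ 2))) + 4 * Real.exp (-(qd ^ 2 / 2))) ≤
      Y * (4 * Real.exp (-(c * τ * η))) + η * (5 * E1 + 4 * Real.exp (-(qd ^ 2 / 2))) := by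
    have h2 : Real.exp (-((δ / 2) ^ 2 / (2 * e ^ 2))) = E1 := by
      rw [hE1]
      congr 2
      field_simp
      ring
    rw [h2]
    have h3 := Real.exp_pos (-(c * τ * η))
    nlinarith
  have p4 : ‖∫ y in (δ / 2)..Y, (1 - ((thR δ e y : ℝ) : ℂ)) * kF y‖ ≤
      S * (Y * (4 * Real.exp (-(c * τ * η))) +
        η * (5 * E1 + 4 * Real.exp (-(qd ^ 2 / 2)))) := by
    have h1 := far_abs (F := F) (Q := Q) (qd := qd) (ρ := ρ) (M := M) (τ := τ) (h := δ) (e := e)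
      (d := δ / 2) (r0 := r0) (r := r) (B := B) (Bw := Bw) (c := c) (η := η) (a := δ / 2) (b := Y)
      (N := N) (D := Dc) (W := W) hA.ea hρ hA.q1 hA.qQ hτ0 (by positivity) (by linarith) hη hηr he
      hηe hδ.le (by positivity) (by linarith) hr0 hr1 hc hB hBw
      (hDd.mono (Nb_mono (by linarith) le_rfl))
      (fun j hj => (hWd j hj).mono (Nb_mono (by linarith) le_rfl))
      (fun x hx t ht => (hp x hx t ht).1)
      (fun j hj x hx t ht => hWb j hj _ (Nb_mono (by linarith) le_rfl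
        (mem_Nb hx (by rw [abs_of_nonneg ht.1]; linarith [ht.2]))))
      (fun t ht => (hend t ht).1)
    have e1 : ∫ y in (δ / 2)..Y, (1 - ((thR δ e y : ℝ) : ℂ)) * kF y =
        ∫ x in (δ / 2)..Y, (1 - thE δ e x) *
          (∑ j ∈ Finset.range (N + 1), W j x * alE j F τ (Dc x)) *
          Complex.exp (-(Complex.I * τ * Dc x)) := by
      refine intervalIntegral.integral_congr fun x hx => ?_
      rw [uIcc_of_le (by linarith)] at hx
      have hx' : x ∈ Icc (-Y) Y := ⟨by linarith [hx.1], hx.2⟩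
      have h3 : ∑ j ∈ Finset.range (N + 1), W j x * alE j F τ (Dc x) =
          ∑ j ∈ Finset.range (N + 1), (w j x : ℂ) * al j (rs F) τ (d x) := by
        refine Finset.sum_congr rfl fun j hj => ?_
        rw [hWr j (by simpa [Nat.lt_succ_iff] using hj) x hx', hDr x hx',
          alE_real hA.ea.diff j τ (lt_of_lt_of_le hr0 (hd0 x))]
        rfl
      rw [thE_ofReal, h3, hDr x hx', hkFd, kn]
      ring
    rw [e1]
    refine h1.trans ?_
    rw [hSe]
    exact mul_le_mul_of_nonneg_left hbd (by rw [hSe] at hS0; exact hS0)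
  have p5 : ‖∫ y in (-Y)..(-(δ / 2)), (1 - ((thR δ e y : ℝ) : ℂ)) * kF y‖ ≤
      S * (Y * (4 * Real.exp (-(c * τ * η))) +
        η * (5 * E1 + 4 * Real.exp (-(qd ^ 2 / 2)))) := by
    have hsub : ∀ z : ℂ, z ∈ Nb (δ / 2) Y r → -z ∈ Nb (-Y) Y r := fun z hz =>
      Nb_neg (by rw [neg_neg]; exact Nb_mono (by linarith) le_rfl hz)
    have hneg : Differentiable ℂ fun z : ℂ => -z := differentiable_neg
    have e0 : ∀ x t : ℝ, -((x : ℂ) - t * Complex.I) = -(x : ℂ) + t * Complex.I := by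
      intro x t
      ring
    have h1 := far_abs (F := F) (Q := Q) (qd := qd) (ρ := ρ) (M := M) (τ := τ) (h := δ) (e := e)
      (d := δ / 2) (r0 := r0) (r := r) (B := B) (Bw := Bw) (c := c) (η := η) (a := δ / 2) (b := Y)
      (N := N) (D := fun z => Dc (-z)) (W := fun j z => W j (-z)) hA.ea hρ hA.q1 hA.qQ hτ0
      (by positivity) (by linarith) hη hηr he
      hηe hδ.le (by positivity) (by linarith) hr0 hr1 hc hB hBw
      (hDd.comp hneg.differentiableOn fun z hz => hsub z hz)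
      (fun j hj => (hWd j hj).comp hneg.differentiableOn fun z hz => hsub z hz)
      (fun x hx t ht => by
        simp only [e0]
        exact (hp x hx t ht).2)
      (fun j hj x hx t ht => hWb j hj _ (hsub _
        (mem_Nb hx (by rw [abs_of_nonneg ht.1]; linarith [ht.2]))))
      (fun t ht => by
        simp only [e0]
        exact (hend t ht).2)
    have e1 : ∫ y in (-Y)..(-(δ / 2)), (1 - ((thR δ e y : ℝ) : ℂ)) * kF y =
        ∫ x in (δ / 2)..Y, (1 - thE δ e x) *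
          (∑ j ∈ Finset.range (N + 1), W j (-x) * alE j F τ (Dc (-x))) *
          Complex.exp (-(Complex.I * τ * Dc (-x))) := by
      rw [← intervalIntegral.integral_comp_neg]
      refine intervalIntegral.integral_congr fun x hx => ?_
      rw [uIcc_of_le (by linarith)] at hx
      have hx' : -x ∈ Icc (-Y) Y := ⟨by linarith [hx.2], by linarith [hx.1]⟩
      have hc1 : (-(x : ℂ)) = ((-x : ℝ) : ℂ) := by push_cast; rfl
      have h3 : ∑ j ∈ Finset.range (N + 1), W j (-(x : ℂ)) * alE j F τ (Dc (-(x : ℂ))) =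
          ∑ j ∈ Finset.range (N + 1), (w j (-x) : ℂ) * al j (rs F) τ (d (-x)) := by
        refine Finset.sum_congr rfl fun j hj => ?_
        rw [hc1, hWr j (by simpa [Nat.lt_succ_iff] using hj) (-x) hx', hDr (-x) hx',
          alE_real hA.ea.diff j τ (lt_of_lt_of_le hr0 (hd0 (-x)))]
        rfl
      rw [thE_ofReal, h3, hc1, hDr (-x) hx', thR_neg, hkFd, kn]
      ring
    rw [e1]
    refine h1.trans ?_
    rw [hSe]
    exact mul_le_mul_of_nonneg_left hbd (by rw [hSe] at hS0; exact hS0)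
  -- conclusion
  have q1 := p2 (-Y) (-(2 * δ)) (by linarith) le_rfl (by linarith) (fun y h1 h2 => by
    rw [abs_of_nonpos (by linarith)]
    linarith)
  have q2 := p2 (2 * δ) Y (by linarith) (by linarith) le_rfl (fun y h1 h2 => by
    rw [abs_of_nonneg (by linarith)]
    exact h1)
  rw [hfull, hdec]
  have hE10 : 0 < E1 := Real.exp_pos _
  have hES : 0 ≤ E1 * S := by positivity
  calc _ ≤ ‖∫ y in (-Y)..Y, (kf y - kF y)‖ +
        (‖∫ y in (-Y)..(-(2 * δ)), ((thR δ e y : ℝ) : ℂ) * kF y‖ +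
          ‖∫ y in (2 * δ)..Y, ((thR δ e y : ℝ) : ℂ) * kF y‖) +
        (‖∫ y in (-Y)..(-(δ / 2)), (1 - ((thR δ e y : ℝ) : ℂ)) * kF y‖ +
          ‖∫ y in (-(δ / 2))..(δ / 2), (1 - ((thR δ e y : ℝ) : ℂ)) * kF y‖ +
          ‖∫ y in (δ / 2)..Y, (1 - ((thR δ e y : ℝ) : ℂ)) * kF y‖) := by
        refine (norm_add_le _ _).trans (add_le_add ((norm_add_le _ _).trans (add_le_add le_rfl
          (norm_add_le _ _))) ((norm_add_le _ _).trans (add_le_add (norm_add_le _ _) le_rfl)))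
    _ ≤ _ := by nlinarith

end BE36C
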