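import Pool.Agent.LibBE36C.F3
import Pool.Agent.LibBE36C.U5

/-! BE36 C', row F4: the strip, and the class (part C1').

MEDIUM. ZF_ZT: template `loc_ZF` in LibBE99/N4.lean. For every t the line of `Ax_line` (LibBE99/S3) with
`dens_eq` turns the inner integrals into those of `far_one` (row F3); the inner integral of ZF is a
continuous function of t (`ZF_intg` and `N4_int`), the one of ZT too (`ZT_cont`, row U5,
intervalIntegral continuity in a parameter), so the difference of the outer integrals is the integral of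
the difference, bounded by l0 * TN (`intervalIntegral.norm_integral_le_of_norm_le_const`).
`Cls.axis0.pos` : 0 < l0. class_ZT: `class_ZF` (LibBE99/U4) with ρ + 3 in place of ρ, and |re z| ≤ ‖z‖. -/

open MeasureTheory Set Filter Topology Metric
open scoped ContDiff

namespace BE36C

open BGS BR BE

variable {Γ : Type} [Group Γ] [MulAction Γ Pl] {D : Set Pl}
variable {ι P : Type} [NormedAddCommGroup P] [NormedSpace ℝ P] [FiniteDimensional ℝ P]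
  {m : Pl → Co} {a b : ℝ} {s : ι → P × Pl → ℝ}

private theorem F4_in (h : CF Γ D m a b s) {Qs : ι → ℝ} {A N : ℕ}
    (hfar : ∀ (q : Ln ι P Γ) (v : Pl) (l : ℝ) (F : ℂ → ℂ) (f : ℝ → ℂ)
      (qd ρ R M M' κ τ δ e : ℝ), q.Ax m s v l → l ≤ R → AH F f (Qs q.i) qd ρ R M M' κ →
      DH δ e → 1 ≤ τ → XN N (Qs q.i) R ^ A * ‖q.p1 - q.p0‖ ≤ δ →
      ‖(∫ y : ℝ, KE (mm m (s q.i) q.p1) N f τ q.g (q.X m s y) * ((q.w m s y : ℝ) : ℂ)) -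
        ∫ y in (-(2 * δ))..(2 * δ), ((thR δ e y : ℝ) : ℂ) *
          KE (mm m (s q.i) q.p1) N (rs F) τ q.g (q.X m s y) * ((q.w m s y : ℝ) : ℂ)‖ ≤
        TN A N (Qs q.i) R M κ τ δ e qd)
    (i : ι) {p0 p1 : P} (h0 : ‖p0‖ ≤ 1) (h1 : ‖p1‖ ≤ 1) {g : Γ} {x0 v0 : Pl} {l : ℝ}
    (hA : Axis (mm m (s i) p0) g x0 v0 l) {F : ℂ → ℂ} {f : ℝ → ℂ}
    {qd ρ R M M' κ τ δ e : ℝ} (hl : l ≤ R) (hAH : AH F f (Qs i) qd ρ R M M' κ)
    (hDH : DH δ e) (hτ : 1 ≤ τ) (hcond : XN N (Qs i) R ^ A * ‖p1 - p0‖ ≤ δ) (t : ℝ) :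
    ‖(∫ y : ℝ, KE (mm m (s i) p1) N f τ g (Fm (mm m (s i) p0) x0 v0 (t, y)) *
      ((√(dt (mm m (s i) p1 (Fm (mm m (s i) p0) x0 v0 (t, y)))) *
        |(fderiv ℝ (Fm (mm m (s i) p0) x0 v0) (t, y)).det| : ℝ) : ℂ)) -
      ∫ y in (-(2 * δ))..(2 * δ), ((thR δ e y : ℝ) : ℂ) *
        KE (mm m (s i) p1) N (rs F) τ g (Fm (mm m (s i) p0) x0 v0 (t, y)) *
        ((√(dt (mm m (s i) p1 (Fm (mm m (s i) p0) x0 v0 (t, y)))) *
        |(fderiv ℝ (Fm (mm m (s i) p0) x0 v0) (t, y)).det| : ℝ) : ℂ)‖ ≤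
      TN A N (Qs i) R M κ τ δ e qd := by
  obtain ⟨q, hi, hp0, hp1, hg, hx, hu, hax, hXq⟩ := Ax_line h i h0 h1 hA t
  have e0 := dens_eq h i p0 p1 (x0 := x0) hA.unit t
  have key := hfar q _ l F f qd ρ R M M' κ τ δ e hax hl (by rw [hi]; exact hAH) hDH hτ
    (by rw [hi, hp1, hp0]; exact hcond)
  have e2 : ∀ y : ℝ, q.w m s y = √(dt (mm m (s i) p1 (Fm (mm m (s i) p0) x0 v0 (t, y)))) *
      |(fderiv ℝ (Fm (mm m (s i) p0) x0 v0) (t, y)).det| := by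
    intro y
    rw [e0 y]
    unfold Ln.w
    rw [hXq y, hi, hp0, hp1, hx, hu]
  have e3 : (∫ y : ℝ, KE (mm m (s i) p1) N f τ g (Fm (mm m (s i) p0) x0 v0 (t, y)) *
      ((√(dt (mm m (s i) p1 (Fm (mm m (s i) p0) x0 v0 (t, y)))) *
        |(fderiv ℝ (Fm (mm m (s i) p0) x0 v0) (t, y)).det| : ℝ) : ℂ)) =
      ∫ y : ℝ, KE (mm m (s q.i) q.p1) N f τ q.g (q.X m s y) * ((q.w m s y : ℝ) : ℂ) := by
    apply integral_congr_ae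
    filter_upwards with y
    rw [e2 y, hXq y, hi, hp1, hg]
  have e4 : (∫ y in (-(2 * δ))..(2 * δ), ((thR δ e y : ℝ) : ℂ) *
        KE (mm m (s i) p1) N (rs F) τ g (Fm (mm m (s i) p0) x0 v0 (t, y)) *
        ((√(dt (mm m (s i) p1 (Fm (mm m (s i) p0) x0 v0 (t, y)))) *
        |(fderiv ℝ (Fm (mm m (s i) p0) x0 v0) (t, y)).det| : ℝ) : ℂ)) =
      ∫ y in (-(2 * δ))..(2 * δ), ((thR δ e y : ℝ) : ℂ) *
          KE (mm m (s q.i) q.p1) N (rs F) τ q.g (q.X m s y) * ((q.w m s y : ℝ) : ℂ) := by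
    congr 1
    funext y
    rw [e2 y, hXq y, hi, hp1, hg]
  rw [e3, e4]
  rw [hi] at key ⊢
  exact key

theorem ZF_ZT (h : CF Γ D m a b s) {Qs : ι → ℝ} (hG : GI Γ D m s Qs) : ∃ A : ℕ, 1 ≤ A ∧
    ∀ (N : ℕ) (i : ι) (p0 p1 : P), ‖p0‖ ≤ 1 → ‖p1‖ ≤ 1 → ∀ (g g0 : Γ) (x0 v0 : Pl) (l l0 : ℝ),
      Cls (mm m (s i) p0) g g0 x0 v0 l l0 → ∀ (F : ℂ → ℂ) (f : ℝ → ℂ)
      (qd ρ R M M' κ τ δ e : ℝ), l ≤ R → AH F f (Qs i) qd ρ R M M' κ →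
      DH δ e → 1 ≤ τ → XN N (Qs i) R ^ A * ‖p1 - p0‖ ≤ δ →
      ‖ZF (mm m (s i) p0) (mm m (s i) p1) N f τ g x0 v0 l0 -
        ZT (mm m (s i) p0) (mm m (s i) p1) δ e N (rs F) τ g x0 v0 l0‖ ≤
        l0 * TN A N (Qs i) R M κ τ δ e qd := by
  obtain ⟨A, hA1, hfar0⟩ := far_one h hG
  refine ⟨A, hA1, ?_⟩
  intro N i p0 p1 h0 h1 g g0 x0 v0 l l0 hc F f qd ρ R M M' κ τ δ e hl hAH hDH hτ hcond
  have hm0 : HM Γ (mm m (s i) p0) := hm_mm h i p0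
  obtain ⟨hl0, hl0l⟩ := Cls_len h.hX h.hO hm0 hc
  have hρ : 0 ≤ ρ + 3 := by linarith [hAH.rho]
  obtain ⟨hGc, R', hR'⟩ := ZF_intg h i h0 h1 N hc.axis hρ hAH.amp τ
  have hGc2 := ZT_cont h i h0 h1 N hAH.ea hAH.rho hAH.q1 hAH.qQ (by linarith : (0 : ℝ) ≤ τ) hDH
    hc.axis
  set K : ℝ × ℝ → ℂ := fun p => KE (mm m (s i) p1) N f τ g (Fm (mm m (s i) p0) x0 v0 p) *
    ((√(dt (mm m (s i) p1 (Fm (mm m (s i) p0) x0 v0 p))) *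
      |(fderiv ℝ (Fm (mm m (s i) p0) x0 v0) p).det| : ℝ) : ℂ) with hK
  set K2 : ℝ × ℝ → ℂ := fun p => ((thR δ e p.2 : ℝ) : ℂ) *
      KE (mm m (s i) p1) N (rs F) τ g (Fm (mm m (s i) p0) x0 v0 p) *
      ((√(dt (mm m (s i) p1 (Fm (mm m (s i) p0) x0 v0 p))) *
        |(fderiv ℝ (Fm (mm m (s i) p0) x0 v0) p).det| : ℝ) : ℂ) with hK2
  have hK0 : ∀ t y : ℝ, R' < |y| → K (t, y) = 0 := by
    intro t y hy
    show KE (mm m (s i) p1) N f τ g (Fm (mm m (s i) p0) x0 v0 (t, y)) * _ = 0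
    rw [hR' t y hy, zero_mul]
  obtain ⟨hc1, _⟩ := N4_int hGc hK0
  have hc2 : Continuous (fun t => ∫ y in (-(2 * δ))..(2 * δ), K2 (t, y)) :=
    intervalIntegral.continuous_parametric_intervalIntegral_of_continuous'
      (f := fun t y => K2 (t, y)) hGc2 _ _
  have e1 : ZF (mm m (s i) p0) (mm m (s i) p1) N f τ g x0 v0 l0 -
      ZT (mm m (s i) p0) (mm m (s i) p1) δ e N (rs F) τ g x0 v0 l0 =
      ∫ t in (0 : ℝ)..l0, ((∫ y : ℝ, K (t, y)) - ∫ y in (-(2 * δ))..(2 * δ), K2 (t, y)) := by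
    rw [intervalIntegral.integral_sub (hc1.intervalIntegrable _ _)
      (hc2.intervalIntegrable _ _)]
    rfl
  rw [e1]
  have hb : ∀ t ∈ Set.uIoc (0 : ℝ) l0,
      ‖(∫ y : ℝ, K (t, y)) - ∫ y in (-(2 * δ))..(2 * δ), K2 (t, y)‖ ≤
      TN A N (Qs i) R M κ τ δ e qd := by
    intro t _
    exact F4_in h (hfar0 N) i h0 h1 hc.axis hl hAH hDH hτ hcond t
  refine (intervalIntegral.norm_integral_le_of_norm_le_const hb).trans ?_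
  rw [sub_zero, abs_of_pos hl0, mul_comm]

open Classical in
/-- Part C1': localisation at the axis of the metric `p0`. -/
theorem class_ZT (h : CF Γ D m a b s) {Qs : ι → ℝ} (hG : GI Γ D m s Qs) : ∃ A : ℕ, 1 ≤ A ∧
    ∀ (N : ℕ) (i : ι) (p0 p1 : P), ‖p0‖ ≤ 1 → ‖p1‖ ≤ 1 → ∀ (g g0 : Γ) (x0 v0 : Pl) (l l0 : ℝ),
      Cls (mm m (s i) p0) g g0 x0 v0 l l0 → ∀ (F : ℂ → ℂ) (f : ℝ → ℂ)
      (qd ρ R M M' κ τ δ e : ℝ), l ≤ R → AH F f (Qs i) qd ρ R M M' κ →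
      DH δ e → 1 ≤ τ → XN N (Qs i) R ^ A * ‖p1 - p0‖ ≤ δ → ∀ S : Finset Γ,
      (∀ γ : Γ, γ ≠ 1 → (∃ x ∈ closure D, ds (mm m (s i) p1) x (γ • x) ≤ ρ + 3) → γ ∈ S) →
      |(∑ γ ∈ S.filter (IsConj g), IKN D (mm m (s i) p1) N (osc f τ) γ) -
        (ZT (mm m (s i) p0) (mm m (s i) p1) δ e N (rs F) τ g x0 v0 l0).re| ≤
        l0 * TN A N (Qs i) R M κ τ δ e qd := by
  obtain ⟨A, hA1, hloc⟩ := ZF_ZT h hG
  refine ⟨A, hA1, ?_⟩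
  intro N i p0 p1 h0 h1 g g0 x0 v0 l l0 hc F f qd ρ R M M' κ τ δ e hl hAH hDH hτ hcond S hS
  rw [class_ZF h i h0 h1 N hc (by linarith [hAH.rho] : 0 ≤ ρ + 3) hAH.amp τ hS, ← Complex.sub_re]
  exact (Complex.abs_re_le_norm _).trans
    (hloc N i p0 p1 h0 h1 g g0 x0 v0 l l0 hc F f qd ρ R M M' κ τ δ e hl hAH hDH hτ hcond)

end BE36C
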