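import Pool.Agent.LibBE36C.Defs
import Pool.Agent.LibBE36C.AL4
import Pool.Agent.LibBE36T.T2
import Pool.Agent.LibBE36T.T10
import Pool.Agent.LibBE36T.T11
import Pool.Agent.LibBE36T.T12

/-! BE36 C', row IF1: the amplitudes of the blocks satisfy the hypotheses of part C'. -/

open MeasureTheory Set Filter Topology Metric
open scoped ContDiff

namespace BE36C

open BGS BR BE

/-- The bound of four derivatives of the cut amplitude. -/
noncomputable def Mc (M H : ℝ) (n : ℕ) : ℝ := 2 * M * (2 * H * n + 16 * n) ^ 4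

/-- The difference of the cut and the entire amplitude. -/
noncomputable def Kc (M H h : ℝ) (n : ℕ) : ℝ :=
  2 * M * (2 * H * n + 16 * n) * Real.exp (-(h ^ 2 / 2))

theorem IF1_amp {a : ℂ → ℂ} {ρ M H h : ℝ} {n : ℕ} {χ : ℝ → ℝ} (ha : B36.EA a ρ M H h)
    (hh : 2 ≤ h) (hH : h ≤ H) (hn : 4 ≤ n) (hχ : B36.CutN n (ρ + 2) χ) :
    BE73.AmpN 4 (B36.cta χ a) (ρ + 3) (Mc M H n) := by
  have hH1 : 1 ≤ H := by linarith
  have h1 := B36.cta_amp ha hH1 (by linarith) hχ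
  have hn1 : (1 : ℝ) ≤ n := by exact_mod_cast (by omega : 1 ≤ n)
  have h2 : 1 ≤ 2 * H * n + 16 * n := by nlinarith
  have h3 := B36.AmpH.amp hn h2 h1
  exact ⟨h3, fun k hk t => h3.bound k hk t⟩

theorem AH_of {a : ℂ → ℂ} {ρ M H h R : ℝ} {n : ℕ} {χ : ℝ → ℝ} (ha : B36.EA a ρ M H h)
    (hρ : 0 ≤ ρ) (hh : 2 ≤ h) (hH : h ≤ H) (hn : 4 ≤ n) (hχ : B36.CutN n (ρ + 2) χ)
    (hR : ρ + 4 ≤ R) :
    AH a (B36.cta χ a) H (h / 2) ρ R M (Mc M H n) (Kc M H h n) := by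
  have hH1 : 1 ≤ H := by linarith
  have hE := EA_of ha
  have hM := hE.M_nonneg
  have hn1 : (1 : ℝ) ≤ n := by exact_mod_cast (by omega : 1 ≤ n)
  have hB : 1 ≤ 2 * H * n + 16 * n := by nlinarith
  have hK : 0 ≤ Kc M H h n := by
    unfold Kc
    positivity
  have hgau : ∀ t : ℝ, ρ + 2 < t → Real.exp (-(h * max 0 (|t| - (ρ + 1))) ^ 2) ≤
      Real.exp (-(h ^ 2 / 2)) * Real.exp (-((h / 2) ^ 2 / 2 * (max 0 (t - ρ)) ^ 2)) := by
    intro t ht
    have ht0 : 0 < t := by linarith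
    rw [← Real.exp_add]
    apply Real.exp_le_exp.2
    rw [abs_of_pos ht0, max_eq_right (by linarith : 0 ≤ t - (ρ + 1)),
      max_eq_right (by linarith : 0 ≤ t - ρ)]
    have e1 : (t - (ρ + 1)) ^ 2 ≥ (t - ρ) ^ 2 / 8 + 1 / 2 := by nlinarith
    have e2 : h ^ 2 * ((t - ρ) ^ 2 / 8 + 1 / 2) ≤ h ^ 2 * (t - (ρ + 1)) ^ 2 :=
      mul_le_mul_of_nonneg_left e1 (by positivity)
    nlinarith
  have hsm := B36.rst_smooth ha.diff
  have hcs : ContDiff ℝ ∞ (B36.cta χ a) := (B36.cta_amp ha hH1 (by linarith) hχ).smooth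
  have hd : ∀ t : ℝ, deriv (B36.rst a) t = deriv a t := fun t =>
    (ha.diff (t : ℂ)).hasDerivAt.comp_ofReal.deriv
  refine ⟨⟨ha.diff, fun z => ?_⟩, (IF1_amp ha hh hH hn hχ).amp, ⟨hK, ?_, ?_⟩, hρ, by linarith,
    by linarith, hR⟩
  · refine (hE.bd z).trans (mul_le_mul_of_nonneg_left (Real.exp_le_exp.2 ?_) hM)
    have h1 : (h / 2) ^ 2 * (max 0 (|z.re| - ρ)) ^ 2 ≤ h ^ 2 * (max 0 (|z.re| - ρ)) ^ 2 :=
      mul_le_mul_of_nonneg_right (by nlinarith) (by positivity)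
    linarith
  · intro t ht
    obtain ⟨h1, h2⟩ := B36.cta_tiny (k := 0) ha hρ hH1 (by linarith) hχ (Nat.zero_le _) t
    simp only [iteratedDeriv_zero, pow_zero, mul_one] at h1 h2
    have e0 : ‖B36.cta χ a t - a t‖ = ‖B36.rst a t - B36.cta χ a t‖ := by
      rw [norm_sub_rev]; rfl
    rw [e0]
    rcases le_or_gt t (ρ + 2) with h3 | h3
    · rw [h1 (by rwa [abs_of_nonneg ht]), norm_zero]
      positivity
    · refine h2.trans ?_
      calc 2 * M * Real.exp (-(h * max 0 (|t| - (ρ + 1))) ^ 2) ≤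
          2 * M * (Real.exp (-(h ^ 2 / 2)) *
            Real.exp (-((h / 2) ^ 2 / 2 * (max 0 (t - ρ)) ^ 2))) :=
            mul_le_mul_of_nonneg_left (hgau t h3) (by positivity)
        _ = 2 * M * 1 * Real.exp (-(h ^ 2 / 2)) *
            Real.exp (-((h / 2) ^ 2 / 2 * (max 0 (t - ρ)) ^ 2)) := by ring
        _ ≤ Kc M H h n * Real.exp (-((h / 2) ^ 2 / 2 * (max 0 (t - ρ)) ^ 2)) := by
            unfold Kc
            gcongr
  · intro t ht
    obtain ⟨h1, h2⟩ := B36.cta_tiny (k := 1) ha hρ hH1 (by linarith) hχ (by omega : 1 ≤ n) t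
    have e1 : iteratedDeriv 1 (fun s : ℝ => B36.rst a s - B36.cta χ a s) t =
        deriv a t - deriv (B36.cta χ a) t := by
      rw [iteratedDeriv_one, ← hd t]
      exact deriv_fun_sub (hsm.differentiable (by simp) t) (hcs.differentiable (by simp) t)
    rw [e1] at h1 h2
    rw [pow_one] at h2
    rw [norm_sub_rev]
    rcases le_or_gt t (ρ + 2) with h3 | h3
    · rw [h1 (by rwa [abs_of_nonneg ht]), norm_zero]
      positivity
    · refine h2.trans ?_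
      calc 2 * M * (2 * H * n + 16 * n) * Real.exp (-(h * max 0 (|t| - (ρ + 1))) ^ 2) ≤
          2 * M * (2 * H * n + 16 * n) * (Real.exp (-(h ^ 2 / 2)) *
            Real.exp (-((h / 2) ^ 2 / 2 * (max 0 (t - ρ)) ^ 2))) :=
            mul_le_mul_of_nonneg_left (hgau t h3) (by positivity)
        _ = Kc M H h n * Real.exp (-((h / 2) ^ 2 / 2 * (max 0 (t - ρ)) ^ 2)) := by
            unfold Kc
            ring

/-- The symbols. -/
theorem al_cta {a : ℂ → ℂ} {ρ M H h R r1 τ K : ℝ} {n N : ℕ} {χ : ℝ → ℝ} (ha : B36.EA a ρ M H h)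
    (hρ : 0 ≤ ρ) (hh : 2 ≤ h) (hH : h ≤ H) (hn : 4 ≤ n) (hNn : N ≤ n)
    (hχ : B36.CutN n (ρ + 2) χ) (hR : ρ + 4 ≤ R) (hr0 : 0 < r1) (hr1 : r1 ≤ 1)
    (hτ : 4 * H ≤ τ) (hK : 9 / √r1 * (2 * R + 3) ≤ K)
    (ht : 3 * τ * Real.exp (-(τ / (4 * H))) + 2 * (τ + 2 * H * n + 16 * n) *
      Real.exp (-(h ^ 2 / 2)) ≤ √r1 / ((8 * (2 * R + n + 3)) ^ (2 * n + 2) * τ ^ n)) :
    ∀ j, 3 ≤ j → j ≤ N → ∀ r, r1 ≤ r → r ≤ R + 1 →
        ‖al j (B36.cta χ a) τ r‖ ≤ K ^ (j + 1) * M * τ ^ (1 / 2 - j : ℝ) := by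
  intro j hj hjN r hr hrR
  have hE := EA_of ha
  have hM := hE.M_nonneg
  have hH1 : 1 ≤ H := by linarith
  have hτ1 : 1 ≤ τ := by linarith
  have hτ0 : 0 < τ := by linarith
  have hs : 0 < √r1 := Real.sqrt_pos.2 hr0
  have hs1 : √r1 ≤ 1 := Real.sqrt_le_one.2 hr1
  have hr00 : 0 < r := by linarith
  have hn1 : (4 : ℝ) ≤ n := by exact_mod_cast hn
  have hjn : (j : ℝ) ≤ n := by exact_mod_cast hjN.trans hNn
  have a1 := B36.al_ray ha hρ hH1 (by linarith) hr0 hr1 hτ j hr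
  have a2 := B36.al_cut ha hρ hH1 (by linarith) hr0 hr1 hτ1 (by omega : 1 ≤ n) hχ j hr
  have a3 : ‖al j (B36.cta χ a) τ r‖ ≤ ‖B35.al j (B36.cta χ a) τ r - B35.al j (B36.rst a) τ r‖ +
      ‖B35.al j (B36.rst a) τ r‖ := by
    have : al j (B36.cta χ a) τ r = (B35.al j (B36.cta χ a) τ r - B35.al j (B36.rst a) τ r) +
      B35.al j (B36.rst a) τ r := by
      rw [sub_add_cancel]; rfl
    rw [this]
    exact norm_add_le _ _
  have hK9 : 9 * (2 * R + 3) ≤ K := by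
    refine le_trans ?_ hK
    apply mul_le_mul_of_nonneg_right _ (by linarith)
    rw [le_div_iff₀ hs]
    nlinarith
  have hK1 : 1 ≤ K := by linarith
  have hR0 : 0 ≤ R := by linarith
  set T : ℝ := τ ^ (1 / 2 - j : ℝ) with hT
  have hT0 : 0 < T := Real.rpow_pos_of_pos hτ0 _
  -- the main part
  have b1 : 3 * M / √r1 * (2 * r + 1) ^ j * T ≤ K ^ (j + 1) * M * T / 3 := by
    have c1 : 2 * r + 1 ≤ 2 * R + 3 := by linarith
    have c2 : (2 * r + 1) ^ j ≤ K ^ j := pow_le_pow_left₀ (by linarith) (by linarith) j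
    have c3 : 9 / √r1 ≤ K := by
      refine le_trans ?_ hK
      have : 0 ≤ 9 / √r1 := by positivity
      nlinarith
    calc 3 * M / √r1 * (2 * r + 1) ^ j * T = (9 / √r1) * (2 * r + 1) ^ j * M * T / 3 := by ring
      _ ≤ K * K ^ j * M * T / 3 := by gcongr
      _ = K ^ (j + 1) * M * T / 3 := by rw [pow_succ]; ring
  -- the tiny parts
  have b2 : (8 * (r + ρ + j + 2)) ^ (2 * j + 2) ≤ (8 * (2 * R + n + 3)) ^ (2 * n + 2) := by
    have c1 : 8 * (r + ρ + j + 2) ≤ 8 * (2 * R + n + 3) := by linarith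
    have c2 : (1 : ℝ) ≤ 8 * (2 * R + n + 3) := by linarith
    have c3 : (0 : ℝ) ≤ j := Nat.cast_nonneg j
    calc (8 * (r + ρ + j + 2)) ^ (2 * j + 2) ≤ (8 * (2 * R + n + 3)) ^ (2 * j + 2) :=
          pow_le_pow_left₀ (by linarith) c1 _
      _ ≤ (8 * (2 * R + n + 3)) ^ (2 * n + 2) := pow_le_pow_right₀ c2 (by omega)
  set G : ℝ := (8 * (2 * R + n + 3)) ^ (2 * n + 2) with hG
  have hG0 : 0 < G := by
    have : (0 : ℝ) < 8 * (2 * R + n + 3) := by linarith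
    positivity
  have b3 : 1 / τ ^ n ≤ T := by
    rw [hT, one_div, ← Real.rpow_natCast, ← Real.rpow_neg hτ0.le]
    apply Real.rpow_le_rpow_of_exponent_le hτ1
    linarith
  have b4 : 1 ≤ K ^ (j + 1) / 3 := by
    have c1 : K ^ 1 ≤ K ^ (j + 1) := pow_le_pow_right₀ hK1 (by omega)
    rw [pow_one] at c1
    linarith
  have b5 : 3 * M * τ / √r1 * (8 * (r + ρ + j + 2)) ^ (2 * j + 2) * Real.exp (-(τ / (4 * H))) +
      2 * M * (τ + 2 * H * n + 16 * n) / √r1 * (8 * (r + ρ + j + 2)) ^ (2 * j + 2) *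
        Real.exp (-(h ^ 2 / 2)) ≤ M * T := by
    calc 3 * M * τ / √r1 * (8 * (r + ρ + j + 2)) ^ (2 * j + 2) * Real.exp (-(τ / (4 * H))) +
        2 * M * (τ + 2 * H * n + 16 * n) / √r1 * (8 * (r + ρ + j + 2)) ^ (2 * j + 2) *
          Real.exp (-(h ^ 2 / 2)) ≤ 3 * M * τ / √r1 * G * Real.exp (-(τ / (4 * H))) +
        2 * M * (τ + 2 * H * n + 16 * n) / √r1 * G * Real.exp (-(h ^ 2 / 2)) := by gcongr
      _ = M / √r1 * G * (3 * τ * Real.exp (-(τ / (4 * H))) + 2 * (τ + 2 * H * n + 16 * n) *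
          Real.exp (-(h ^ 2 / 2))) := by ring
      _ ≤ M / √r1 * G * (√r1 / (G * τ ^ n)) := by gcongr
      _ = M * (1 / τ ^ n) := by field_simp
      _ ≤ M * T := by gcongr
  have b6 : M * T ≤ K ^ (j + 1) * M * T / 3 := by
    have : 0 ≤ M * T := by positivity
    nlinarith
  have hMT : 0 ≤ K ^ (j + 1) * M * T := by positivity
  calc ‖al j (B36.cta χ a) τ r‖ ≤ _ := a3
    _ ≤ 2 * M * (τ + 2 * H * n + 16 * n) / √r1 * (8 * (r + ρ + j + 2)) ^ (2 * j + 2) *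
        Real.exp (-(h ^ 2 / 2)) + (3 * M / √r1 * (2 * r + 1) ^ j * T +
        3 * M * τ / √r1 * (8 * (r + ρ + j + 2)) ^ (2 * j + 2) * Real.exp (-(τ / (4 * H)))) :=
        add_le_add a2 a1
    _ ≤ K ^ (j + 1) * M * T := by linarith

end BE36C
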