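import Pool.Agent.LibBE36C.Defs

/-! BE36 C', row L1: the class `E1`.

SHORT/MEDIUM, only Mathlib (and FC.lean of this folder).
Everything is about the witness `g`. mono: restrict the ball. congr: `g x = f x = f' x`. real: `g y = f y`
(`x = y`, |0| < r) and `mem_ball_self`. add, sub, mul, smul: sums and products of the two witnesses.
exp: take `exp ∘ g` on the ball of radius `r / (8 B) ≤ r`; by `cau_lip` (FC.lean, V = g, R = r, M = B)
`‖g z - g y‖ ≤ 4 B / r * ‖z - y‖ ≤ 1/2` (z and y are in the ball of radius r/2), so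
`‖exp (g z)‖ = exp (re (g z)) ≤ exp (f y + 1/2) ≤ 3 exp (f y)`. -/

open MeasureTheory Set Filter Topology Metric

namespace BE36C

theorem E1.mono {f : ℝ → ℝ} {y r r' B B' : ℝ} (h : E1 f y r B) (hr : r' ≤ r) (hB : B ≤ B') :
    E1 f y r' B' := by
  obtain ⟨g, h1, h2, h3⟩ := h
  have hs : ball (y : ℂ) r' ⊆ ball (y : ℂ) r := ball_subset_ball hr
  exact ⟨g, h1.mono hs, fun z hz => (h2 z (hs hz)).trans hB, fun x hx => h3 x (hx.trans_le hr)⟩

theorem E1.congr {f f' : ℝ → ℝ} {y r B : ℝ} (h : E1 f y r B) (he : ∀ x, |x - y| < r → f x = f' x) :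
    E1 f' y r B := by
  obtain ⟨g, h1, h2, h3⟩ := h
  exact ⟨g, h1, h2, fun x hx => by rw [h3 x hx, he x hx]⟩

theorem E1.real {f : ℝ → ℝ} {y r B : ℝ} (h : E1 f y r B) (hr : 0 < r) : |f y| ≤ B := by
  obtain ⟨g, h1, h2, h3⟩ := h
  have h4 := h2 (y : ℂ) (mem_ball_self hr)
  rw [h3 y (by rw [sub_self, abs_zero]; exact hr), Complex.norm_real, Real.norm_eq_abs] at h4
  exact h4

theorem E1.add {f f' : ℝ → ℝ} {y r B B' : ℝ} (h : E1 f y r B) (h' : E1 f' y r B') :
    E1 (fun x => f x + f' x) y r (B + B') := by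
  obtain ⟨g, h1, h2, h3⟩ := h
  obtain ⟨g', h1', h2', h3'⟩ := h'
  refine ⟨fun z => g z + g' z, h1.add h1', fun z hz => ?_, fun x hx => ?_⟩
  · exact (norm_add_le _ _).trans (add_le_add (h2 z hz) (h2' z hz))
  · show g x + g' x = ((f x + f' x : ℝ) : ℂ)
    rw [h3 x hx, h3' x hx, Complex.ofReal_add]

theorem E1.sub {f f' : ℝ → ℝ} {y r B B' : ℝ} (h : E1 f y r B) (h' : E1 f' y r B') :
    E1 (fun x => f x - f' x) y r (B + B') := by
  obtain ⟨g, h1, h2, h3⟩ := h
  obtain ⟨g', h1', h2', h3'⟩ := h'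
  refine ⟨fun z => g z - g' z, h1.sub h1', fun z hz => ?_, fun x hx => ?_⟩
  · exact (norm_sub_le _ _).trans (add_le_add (h2 z hz) (h2' z hz))
  · show g x - g' x = ((f x - f' x : ℝ) : ℂ)
    rw [h3 x hx, h3' x hx, Complex.ofReal_sub]

theorem E1.mul {f f' : ℝ → ℝ} {y r B B' : ℝ} (hB : 0 ≤ B) (h : E1 f y r B) (h' : E1 f' y r B') :
    E1 (fun x => f x * f' x) y r (B * B') := by
  obtain ⟨g, h1, h2, h3⟩ := h
  obtain ⟨g', h1', h2', h3'⟩ := h'
  refine ⟨fun z => g z * g' z, h1.mul h1', fun z hz => ?_, fun x hx => ?_⟩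
  · show ‖g z * g' z‖ ≤ B * B'
    rw [norm_mul]
    exact mul_le_mul (h2 z hz) (h2' z hz) (norm_nonneg _) hB
  · show g x * g' x = ((f x * f' x : ℝ) : ℂ)
    rw [h3 x hx, h3' x hx, Complex.ofReal_mul]

theorem E1.smul {f : ℝ → ℝ} {y r B : ℝ} (h : E1 f y r B) (c : ℝ) :
    E1 (fun x => c * f x) y r (|c| * B) := by
  obtain ⟨g, h1, h2, h3⟩ := h
  refine ⟨fun z => (c : ℂ) * g z, (differentiableOn_const _).mul h1, fun z hz => ?_,
    fun x hx => ?_⟩
  · show ‖(c : ℂ) * g z‖ ≤ |c| * B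
    rw [norm_mul, Complex.norm_real, Real.norm_eq_abs]
    exact mul_le_mul_of_nonneg_left (h2 z hz) (abs_nonneg c)
  · show (c : ℂ) * g x = ((c * f x : ℝ) : ℂ)
    rw [h3 x hx, Complex.ofReal_mul]

/-- On a ball of radius `r / (8 B)` the extension differs from the value at `y` by at most `1/2`
(`cau_lip` of FC), so the bound of the exponential is the one at the real point `y`. -/
theorem E1.exp {f : ℝ → ℝ} {y r B : ℝ} (h : E1 f y r B) (hr : 0 < r) (hB : 1 ≤ B) :
    E1 (fun x => Real.exp (f x)) y (r / (8 * B)) (3 * Real.exp (f y)) := by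
  obtain ⟨g, h1, h2, h3⟩ := h
  have hB0 : 0 < B := by linarith
  have hle : r / (8 * B) ≤ r / 2 := div_le_div_of_nonneg_left hr.le (by norm_num) (by linarith)
  have hle' : r / (8 * B) ≤ r := by linarith
  have hsub : ball (y : ℂ) (r / (8 * B)) ⊆ ball (y : ℂ) r := ball_subset_ball hle'
  refine ⟨fun z => Complex.exp (g z), (h1.mono hsub).cexp, fun z hz => ?_, fun x hx => ?_⟩
  · show ‖Complex.exp (g z)‖ ≤ 3 * Real.exp (f y)
    have hy : (y : ℂ) ∈ ball (y : ℂ) (r / 2) := mem_ball_self (by linarith)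
    have h4 := cau_lip hr h1 h2 (ball_subset_ball hle hz) hy
    have hzy : ‖z - y‖ ≤ r / (8 * B) := by
      rw [← dist_eq_norm]
      exact (mem_ball.1 hz).le
    have h5 : 4 * B / r * ‖z - y‖ ≤ 1 / 2 := by
      have h6 : 4 * B / r * ‖z - y‖ ≤ 4 * B / r * (r / (8 * B)) :=
        mul_le_mul_of_nonneg_left hzy (by positivity)
      have h7 : 4 * B / r * (r / (8 * B)) = 1 / 2 := by
        field_simp
        norm_num
      linarith
    have h8 : g y = (f y : ℂ) := h3 y (by rw [sub_self, abs_zero]; exact hr)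
    have h9 : (g z).re ≤ f y + 1 / 2 := by
      have h10 : (g z - g y).re ≤ ‖g z - g y‖ := Complex.re_le_norm _
      rw [Complex.sub_re, h8, Complex.ofReal_re] at h10
      rw [h8] at h4
      linarith
    rw [Complex.norm_exp]
    calc Real.exp (g z).re ≤ Real.exp (f y + 1 / 2) := Real.exp_le_exp.2 h9
      _ = Real.exp (1 / 2) * Real.exp (f y) := by rw [Real.exp_add, mul_comm]
      _ ≤ 3 * Real.exp (f y) := by
        refine mul_le_mul_of_nonneg_right ?_ (Real.exp_pos _).le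
        have h11 : Real.exp (1 / 2) ≤ Real.exp 1 := Real.exp_le_exp.2 (by norm_num)
        have h12 := Real.exp_one_lt_d9
        linarith
  · show Complex.exp (g x) = ((Real.exp (f x) : ℝ) : ℂ)
    rw [h3 x (hx.trans_le hle'), Complex.ofReal_exp]

end BE36C
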