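import Pool.Agent.LibBE36C.Defs

/-! BE36 C', row L2: real solutions of `f'' = κ f` have holomorphic extensions.

MEDIUM, only Mathlib (and FC.lean of this folder).
Put `n0 = |f y| + |f' y|`. If `n0 = 0`: f = 0 near y (ODE uniqueness), g = 0. Otherwise take
`E = ℂ × ℂ × ℂ`, the vector field `V (z, J, J') = (1, J', κc z * J)` where κc is the witness of `hκ`, the
centre `x = (y, f y / n0, f' y / n0)`, R = r, so on the ball `‖J‖, ‖J'‖ ≤ 2`, `‖V‖ ≤ 2 B =: M`
(`1 ≤ B`). `flow_ex` gives `c` on `ball 0 (r / (16 B))`, `‖c z - x‖ ≤ M ‖z‖ ≤ r / 8`, first component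
`y + z` (its derivative is 1: constant difference on a ball, or `Convex.is_const_of_fderivWithin_eq_zero`).
The witness is `g w = n0 * (c (w - y)).2.1`, bounded by `2 n0 ≤ 4 n0`. On the real line
`t ↦ ((c t).2.1, (c t).2.2)` and `t ↦ (f (y + t) / n0, f' (y + t) / n0)` (real numbers embedded) both
solve `(a, b)' = (b, κc (y + t) a)`, for |t| < r the coefficient is `κ (y + t)`, |κ| ≤ B there: use
`ODE_solution_unique_of_mem_Ioo` with `v t (a, b) = (b, κc (y + t) * a)`, Lipschitz constant `B`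
(`1 ≤ B`), s = univ. Real derivative of `c` along the real line: as in `flow_real` (FC.lean), via
`HasDerivAt.scomp` with `Complex.ofRealCLM.hasDerivAt`. -/

open MeasureTheory Set Filter Topology Metric

namespace BE36C

private theorem un {k : ℝ → ℂ} {B ρ : ℝ} (hB : 1 ≤ B) (hρ : 0 < ρ)
    (hk : ∀ t ∈ Ioo (-ρ) ρ, ‖k t‖ ≤ B) {u v : ℝ → ℂ × ℂ}
    (hu : ∀ t ∈ Ioo (-ρ) ρ, HasDerivAt u ((u t).2, k t * (u t).1) t)
    (hv : ∀ t ∈ Ioo (-ρ) ρ, HasDerivAt v ((v t).2, k t * (v t).1) t) (h0 : u 0 = v 0) :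
    ∀ t ∈ Ioo (-ρ) ρ, u t = v t := by
  have hlip : ∀ t ∈ Ioo (-ρ) ρ, LipschitzOnWith (Real.toNNReal B)
      (fun p : ℂ × ℂ => (p.2, k t * p.1)) ((fun _ : ℝ => (univ : Set (ℂ × ℂ))) t) := by
    intro t ht
    refine LipschitzOnWith.of_dist_le_mul fun p _ q _ => ?_
    rw [Real.coe_toNNReal B (by linarith), dist_eq_norm, dist_eq_norm]
    have e : ((p.2, k t * p.1) : ℂ × ℂ) - (q.2, k t * q.1) = ((p - q).2, k t * (p - q).1) := by
      simp [mul_sub]
    rw [e, Prod.norm_mk]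
    refine max_le ?_ ?_
    · calc ‖(p - q).2‖ ≤ ‖p - q‖ := norm_snd_le _
        _ ≤ B * ‖p - q‖ := le_mul_of_one_le_left (norm_nonneg _) hB
    · rw [norm_mul]
      exact mul_le_mul (hk t ht) (norm_fst_le _) (norm_nonneg _) (by linarith)
  intro t ht
  exact ODE_solution_unique_of_mem_Ioo (v := fun t p => (p.2, k t * p.1))
    (s := fun _ => univ) hlip (t₀ := 0) ⟨by linarith, hρ⟩
    (fun t ht => ⟨hu t ht, mem_univ _⟩) (fun t ht => ⟨hv t ht, mem_univ _⟩) h0 ht

theorem E1_ode {κ f f' : ℝ → ℝ} {y r B : ℝ} (hκ : E1 κ y r B) (hr : 0 < r) (hr1 : r ≤ 1)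
    (hB : 1 ≤ B) (hf : ∀ t, HasDerivAt f (f' t) t) (hf' : ∀ t, HasDerivAt f' (κ t * f t) t) :
    E1 f y (r / (16 * B)) (4 * (|f y| + |f' y|)) := by
  obtain ⟨κc, hd, hb, hre⟩ := hκ
  set n0 : ℝ := |f y| + |f' y| with hn0
  set ρ : ℝ := r / (16 * B) with hρ
  have hB0 : 0 < B := by linarith
  have hρ0 : 0 < ρ := by positivity
  have hρr : ρ ≤ r := by
    rw [hρ]
    exact div_le_self hr.le (by linarith)
  have hBρ : 2 * B * ρ = r / 8 := by rw [hρ]; field_simp; norm_num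
  -- the real solution, embedded, divided by `n`
  have hreal : ∀ n : ℝ, ∀ t ∈ Ioo (-ρ) ρ,
      HasDerivAt (fun t : ℝ => (((f (y + t) / n : ℝ) : ℂ), ((f' (y + t) / n : ℝ) : ℂ)))
        (((f' (y + t) / n : ℝ) : ℂ), κc ((y + t : ℝ) : ℂ) * ((f (y + t) / n : ℝ) : ℂ)) t := by
    intro n t ht
    have h1 : HasDerivAt (fun t : ℝ => f (y + t) / n) (f' (y + t) / n) t := by
      have h2 := (hf (y + t)).comp_const_add y t
      exact h2.div_const n
    have h3 : HasDerivAt (fun t : ℝ => f' (y + t) / n) (κ (y + t) * f (y + t) / n) t := by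
      have h2 := (hf' (y + t)).comp_const_add y t
      exact h2.div_const n
    have h4 : κc ((y + t : ℝ) : ℂ) * ((f (y + t) / n : ℝ) : ℂ) =
        ((κ (y + t) * f (y + t) / n : ℝ) : ℂ) := by
      rw [hre (y + t) (by rw [add_sub_cancel_left]; exact (abs_lt.2 ht).trans_le hρr)]
      push_cast
      ring
    rw [h4]
    exact h1.ofReal_comp.prodMk h3.ofReal_comp
  have hkb : ∀ t ∈ Ioo (-ρ) ρ, ‖(fun t : ℝ => κc ((y + t : ℝ) : ℂ)) t‖ ≤ B := by
    intro t ht
    refine hb _ ?_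
    rw [mem_ball_iff_norm]
    have : ((y + t : ℝ) : ℂ) - (y : ℂ) = ((t : ℝ) : ℂ) := by push_cast; ring
    rw [this, Complex.norm_real, Real.norm_eq_abs]
    exact (abs_lt.2 ht).trans_le hρr
  have hn0' : 0 ≤ n0 := by positivity
  rcases eq_or_lt_of_le hn0' with h0 | h0
  · -- the zero solution
    have hfy : f y = 0 := by
      have := abs_nonneg (f y)
      have := abs_nonneg (f' y)
      exact abs_eq_zero.1 (by linarith)
    have hfy' : f' y = 0 := by
      have := abs_nonneg (f y)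
      have := abs_nonneg (f' y)
      exact abs_eq_zero.1 (by linarith)
    refine ⟨fun _ => 0, differentiableOn_const _, fun z _ => by
      rw [norm_zero]; positivity, fun x hx => ?_⟩
    have h1 := un (k := fun t : ℝ => κc ((y + t : ℝ) : ℂ)) hB hρ0 hkb (hreal 1)
      (v := fun _ => (0, 0)) (fun t ht => by
        have h5 : HasDerivAt (fun _ : ℝ => ((0, 0) : ℂ × ℂ)) (0 : ℂ × ℂ) t :=
          hasDerivAt_const t _
        have h6 : ((0 : ℂ), κc ((y + t : ℝ) : ℂ) * (0 : ℂ)) = (0 : ℂ × ℂ) := by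
          rw [mul_zero]; rfl
        show HasDerivAt (fun _ : ℝ => ((0, 0) : ℂ × ℂ)) ((0 : ℂ), κc ((y + t : ℝ) : ℂ) * (0 : ℂ)) t
        rw [h6]
        exact h5) (by simp [hfy, hfy']) (x - y)
      (abs_lt.1 hx)
    have h2 := congrArg Prod.fst h1
    simp only [add_sub_cancel, div_one] at h2
    exact h2.symm
  -- the general case
  have ha : ‖((f y / n0 : ℝ) : ℂ)‖ ≤ 1 := by
    rw [Complex.norm_real, Real.norm_eq_abs, abs_div, abs_of_pos h0, div_le_one h0]
    have := abs_nonneg (f' y)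
    linarith
  have hb' : ‖((f' y / n0 : ℝ) : ℂ)‖ ≤ 1 := by
    rw [Complex.norm_real, Real.norm_eq_abs, abs_div, abs_of_pos h0, div_le_one h0]
    have := abs_nonneg (f y)
    linarith
  set x : ℂ × ℂ × ℂ := ((y : ℂ), ((f y / n0 : ℝ) : ℂ), ((f' y / n0 : ℝ) : ℂ)) with hx
  let V : ℂ × ℂ × ℂ → ℂ × ℂ × ℂ := fun e => (1, e.2.2, κc e.1 * e.2.1)
  have hball : ∀ e ∈ ball x r, e.1 ∈ ball (y : ℂ) r ∧ ‖e.2.1‖ ≤ 2 ∧ ‖e.2.2‖ ≤ 2 := by
    intro e he
    rw [mem_ball_iff_norm] at he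
    have h1 : ‖(e - x).1‖ ≤ ‖e - x‖ := norm_fst_le _
    have h2 : ‖(e - x).2‖ ≤ ‖e - x‖ := norm_snd_le _
    have h3 : ‖(e - x).2.1‖ ≤ ‖(e - x).2‖ := norm_fst_le _
    have h4 : ‖(e - x).2.2‖ ≤ ‖(e - x).2‖ := norm_snd_le _
    refine ⟨?_, ?_, ?_⟩
    · rw [mem_ball_iff_norm]
      exact h1.trans_lt he
    · have h5 : e.2.1 = (e - x).2.1 + ((f y / n0 : ℝ) : ℂ) := by simp [hx]
      rw [h5]
      exact (norm_add_le _ _).trans (by linarith)
    · have h5 : e.2.2 = (e - x).2.2 + ((f' y / n0 : ℝ) : ℂ) := by simp [hx]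
      rw [h5]
      exact (norm_add_le _ _).trans (by linarith)
  have hVd : DifferentiableOn ℂ V (ball x r) := by
    intro e he
    have h1 : DifferentiableAt ℂ κc e.1 :=
      (hd _ (hball e he).1).differentiableAt (isOpen_ball.mem_nhds (hball e he).1)
    have h2 : DifferentiableAt ℂ (fun e : ℂ × ℂ × ℂ => κc e.1) e :=
      h1.comp e differentiableAt_fst
    have h3 : DifferentiableAt ℂ (fun e : ℂ × ℂ × ℂ => e.2.1) e := by fun_prop
    have h4 : DifferentiableAt ℂ (fun e : ℂ × ℂ × ℂ => e.2.2) e := by fun_prop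
    exact ((differentiableAt_const _).prodMk (h4.prodMk (h2.mul h3))).differentiableWithinAt
  have hVb : ∀ e ∈ ball x r, ‖V e‖ ≤ 2 * B := by
    intro e he
    obtain ⟨h1, h2, h3⟩ := hball e he
    simp only [V, Prod.norm_mk, norm_one, norm_mul]
    refine max_le (by linarith) (max_le (by linarith) ?_)
    calc ‖κc e.1‖ * ‖e.2.1‖ ≤ B * 2 := mul_le_mul (hb _ h1) h2 (norm_nonneg _) hB0.le
      _ = 2 * B := by ring
  obtain ⟨c, hc0, hc⟩ := flow_ex (V := V) (x := x) hr (M := 2 * B) (by positivity) hVd hVb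
  have hρ' : r / (8 * (2 * B)) = ρ := by rw [hρ]; ring_nf
  rw [hρ'] at hc
  have hcx : ∀ z ∈ ball (0 : ℂ) ρ, c z ∈ ball x r := by
    intro z hz
    rw [mem_ball_iff_norm]
    have h1 := (hc z hz).2
    have h2 := (mem_ball_zero_iff.1 hz).le
    calc ‖c z - x‖ ≤ 2 * B * ‖z‖ := h1
      _ ≤ 2 * B * ρ := by gcongr
      _ = r / 8 := hBρ
      _ < r := by linarith
  -- first component
  have hfst : ∀ z ∈ ball (0 : ℂ) ρ, (c z).1 = y + z := by
    intro z hz
    have h1 := Convex.norm_image_sub_le_of_norm_hasDerivWithin_le (𝕜 := ℂ)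
      (f := fun z => (c z).1 - z) (f' := fun z => (1 : ℂ) - 1) (C := 0)
      (s := ball (0 : ℂ) ρ) (fun w hw => by
        have h2 : HasDerivAt (fun z => (c z).1) (1 : ℂ) w := by
          have h3 := (hc w hw).1.hasFDerivAt.fst.hasDerivAt
          simpa [V] using h3
        exact (h2.sub (hasDerivAt_id w)).hasDerivWithinAt) (fun w hw => by simp)
      (convex_ball _ _) (mem_ball_self hρ0) hz
    rw [zero_mul, hc0] at h1
    have h2 := sub_eq_zero.1 (norm_le_zero_iff.1 h1)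
    simp only [hx, sub_zero] at h2
    rw [← h2]
    ring
  have hsnd : ∀ z ∈ ball (0 : ℂ) ρ,
      HasDerivAt (fun z => (c z).2) ((c z).2.2, κc (y + z) * (c z).2.1) z := by
    intro z hz
    have h3 := (hc z hz).1.hasFDerivAt.snd.hasDerivAt
    have h4 := hfst z hz
    rw [← h4]
    simpa [V] using h3
  have hcr : ∀ t ∈ Ioo (-ρ) ρ, ((t : ℝ) : ℂ) ∈ ball (0 : ℂ) ρ := by
    intro t ht
    rw [mem_ball_zero_iff, Complex.norm_real, Real.norm_eq_abs]
    exact abs_lt.2 ht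
  have hre2 : ∀ t ∈ Ioo (-ρ) ρ, HasDerivAt (fun t : ℝ => (c t).2)
      ((c t).2.2, κc ((y + t : ℝ) : ℂ) * (c t).2.1) t := by
    intro t ht
    have a3 := (hsnd t (hcr t ht)).scomp t (Complex.ofRealCLM.hasDerivAt (x := t))
    simp only [Complex.ofRealCLM_apply, Complex.ofReal_one, one_smul] at a3
    rw [Complex.ofReal_add]
    exact a3
  have heq := un (k := fun t : ℝ => κc ((y + t : ℝ) : ℂ)) hB hρ0 hkb hre2 (hreal n0)
    (by simp [hc0, hx])
  refine ⟨fun w => n0 * (c (w - y)).2.1, ?_, ?_, ?_⟩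
  · intro w hw
    have hw' : w - y ∈ ball (0 : ℂ) ρ := by
      rw [mem_ball_zero_iff, ← mem_ball_iff_norm]
      exact hw
    have h1 : DifferentiableAt ℂ c (w - y) := (hc _ hw').1.differentiableAt
    have h2 : DifferentiableAt ℂ (fun w : ℂ => w - (y : ℂ)) w := by fun_prop
    have h3 : DifferentiableAt ℂ (fun w : ℂ => c (w - y)) w := h1.comp w h2
    exact ((h3.snd.fst).const_mul (n0 : ℂ)).differentiableWithinAt
  · intro w hw
    have hw' : w - y ∈ ball (0 : ℂ) ρ := by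
      rw [mem_ball_zero_iff, ← mem_ball_iff_norm]
      exact hw
    rw [norm_mul, Complex.norm_real, Real.norm_eq_abs, abs_of_pos h0]
    have h1 := (hball _ (hcx _ hw')).2.1
    nlinarith
  · intro t ht
    have h1 := heq (t - y) (abs_lt.1 ht)
    have h2 := congrArg Prod.fst h1
    simp only [add_sub_cancel] at h2
    have h3 : ((t - y : ℝ) : ℂ) = (t : ℂ) - y := by push_cast; ring
    rw [h3] at h2
    show (n0 : ℂ) * (c ((t : ℂ) - y)).2.1 = f t
    rw [h2]
    push_cast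
    have : (n0 : ℂ) ≠ 0 := by exact_mod_cast h0.ne'
    field_simp

end BE36C
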