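import Pool.Agent.LibBE36C.Defs

/-! BE36 C', row L3: geodesics at complex times.

MEDIUM. `flow_ex` (FC.lean) for the witness `V` of `hV` at the point `x = (cx z.1, cx z.2)`, radius R, M = B.
For the real times use `flow_real` with `u t = (cx (gfl m0 t z).1, cx (gfl m0 t z).2)`: `gfl_isFlow hX hm`
(LibBR70/H1e; structure `IsFlow` in FL_Defs) gives `u' = (cx (gf ..).1, cx (gf ..).2)` (the embedding is a
real continuous linear map) and this equals `V (u t)` as long as `u t ∈ ball x R`. That `u t` stays in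
`ball x (R/2)` for `|t| < R / (8 B)`: `image_norm_le_of_norm_deriv_right_lt_deriv_boundary'` with the
boundary `2 B t` (when `‖u t - x‖ = 2 B t < R` then `‖u' t‖ = ‖V (u t)‖ ≤ B < 2 B`), for the positive
times and, for the reversed curve `t ↦ u (-t)`, for the negative ones. -/

open MeasureTheory Set Filter Topology Metric

namespace BE36C

open BGS BR BE

variable {Γ : Type} [Group Γ] [MulAction Γ Pl] {D : Set Pl}

private theorem L3_bound {E : Type} [NormedAddCommGroup E] [NormedSpace ℝ E] {f f' : ℝ → E}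
    {B b : ℝ} (hB : 0 < B) (hf : ∀ t, HasDerivAt f (f' t) t) (h0 : f 0 = 0)
    (hbd : ∀ t, 0 ≤ t → t < b → ‖f t‖ = 2 * B * t → ‖f' t‖ ≤ B) :
    ∀ t, 0 ≤ t → t < b → ‖f t‖ ≤ 2 * B * t := by
  intro t ht htb
  refine image_norm_le_of_norm_deriv_right_lt_deriv_boundary' (a := 0) (b := t)
    (f := f) (f' := f') (B := fun s => 2 * B * s) (B' := fun _ => 2 * B)
    (fun s _ => (hf s).continuousAt.continuousWithinAt) (fun s _ => (hf s).hasDerivWithinAt)
    (by rw [h0, norm_zero]; simp) (by fun_prop) (fun s _ => ?_) (fun s hs hs2 => ?_)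
    ⟨ht, le_refl t⟩
  · have h1 := ((hasDerivAt_id s).const_mul (2 * B)).hasDerivWithinAt (s := Ici s)
    simpa using h1
  · have h1 := hbd s hs.1 (hs.2.trans htb) hs2
    show ‖f' s‖ < 2 * B
    linarith

/-- The embedding. -/
private noncomputable def L3_J : Pl × Pl →L[ℝ] (ℂ × ℂ) × (ℂ × ℂ) :=
  (Complex.ofRealCLM.prodMap Complex.ofRealCLM).prodMap
    (Complex.ofRealCLM.prodMap Complex.ofRealCLM)

private theorem L3_J_apply (y : Pl × Pl) : L3_J y = (cx y.1, cx y.2) := rfl

theorem geo_flow (hX : Surface Γ D) {m0 : Pl → Co} (hm : HM Γ m0) {z : Pl × Pl} {R B : ℝ}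
    (hR : 0 < R) (hB : 0 < B) (hV : EV (gf m0) z R B) :
    ∃ c : ℂ → (ℂ × ℂ) × (ℂ × ℂ), DifferentiableOn ℂ c (ball 0 (R / (8 * B))) ∧
      (∀ w ∈ ball (0 : ℂ) (R / (8 * B)), ‖c w - (cx z.1, cx z.2)‖ ≤ B * ‖w‖) ∧
      ∀ t : ℝ, |t| < R / (8 * B) → c t = (cx (gfl m0 t z).1, cx (gfl m0 t z).2) := by
  obtain ⟨V, hVd, hVb, hVr⟩ := hV
  obtain ⟨c, hc0, hc⟩ := flow_ex hR hB hVd hVb
  have hfl := gfl_isFlow hX hm
  have hJ : ∀ t : ℝ, HasDerivAt (fun t => L3_J (gfl m0 t z)) (L3_J (gf m0 (gfl m0 t z))) t :=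
    fun t => L3_J.hasFDerivAt.comp_hasDerivAt t (hfl.deriv z t)
  have hr0 : 0 < R / (8 * B) := by positivity
  have hBr : 2 * B * (R / (8 * B)) = R / 4 := by
    field_simp
    norm_num
  have hu0 : L3_J (gfl m0 0 z) = (cx z.1, cx z.2) := by
    rw [hfl.zero]
    rfl
  have hin : ∀ t : ℝ, |t| < R / (8 * B) →
      L3_J (gfl m0 t z) ∈ ball ((cx z.1, cx z.2) : (ℂ × ℂ) × (ℂ × ℂ)) (R / 2) := by
    have key : ∀ t : ℝ, 0 ≤ t → t < R / (8 * B) → 2 * B * t < R / 2 := by
      intro t _ ht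
      have h1 : 2 * B * t < 2 * B * (R / (8 * B)) := by
        apply mul_lt_mul_of_pos_left ht (by positivity)
      linarith
    have hV' : ∀ t : ℝ, ‖L3_J (gfl m0 t z) - (cx z.1, cx z.2)‖ < R / 2 →
        ‖L3_J (gf m0 (gfl m0 t z))‖ ≤ B := by
      intro t ht
      have h1 : L3_J (gfl m0 t z) ∈ ball ((cx z.1, cx z.2) : (ℂ × ℂ) × (ℂ × ℂ)) R := by
        rw [mem_ball_iff_norm]
        linarith
      have h2 := hVr (gfl m0 t z) h1
      have h3 := hVb _ h1
      rw [L3_J_apply, ← h2]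
      exact h3
    intro t ht
    rw [mem_ball_iff_norm]
    rcases le_or_gt 0 t with h0 | h0
    · rw [abs_of_nonneg h0] at ht
      have h1 := L3_bound (b := R / (8 * B)) hB
        (f := fun t => L3_J (gfl m0 t z) - (cx z.1, cx z.2))
        (f' := fun t => L3_J (gf m0 (gfl m0 t z))) (fun t => (hJ t).sub_const _)
        (by rw [hu0, sub_self]) (fun s hs hsb hs2 => hV' s (by
          have h2 := key s hs hsb
          rw [hs2]
          exact h2)) t h0 ht
      exact h1.trans_lt (key t h0 ht)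
    · rw [abs_of_neg h0] at ht
      have h1 := L3_bound (b := R / (8 * B)) hB
        (f := fun t => L3_J (gfl m0 (-t) z) - (cx z.1, cx z.2))
        (f' := fun t => -L3_J (gf m0 (gfl m0 (-t) z))) (fun t => by
          have h2 := (hJ (-t)).scomp t (hasDerivAt_neg t)
          rw [neg_smul, one_smul] at h2
          exact h2.sub_const _)
        (by rw [neg_zero, hu0, sub_self]) (fun s hs hsb hs2 => by
          rw [norm_neg]
          refine hV' (-s) ?_
          have h2 := key s hs hsb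
          rw [hs2]
          exact h2) (-t) (by linarith) ht
      rw [neg_neg] at h1
      exact h1.trans_lt (key (-t) (by linarith) ht)
  refine ⟨c, fun w hw => (hc w hw).1.differentiableAt.differentiableWithinAt,
    fun w hw => (hc w hw).2, fun t ht => ?_⟩
  refine flow_real hR hB hVd hVb hc0 hc (u := fun t => L3_J (gfl m0 t z)) hu0 (fun t ht => ?_) ht
  refine ⟨?_, hin t ht⟩
  have h1 : L3_J (gfl m0 t z) ∈ ball ((cx z.1, cx z.2) : (ℂ × ℂ) × (ℂ × ℂ)) R :=
    ball_subset_ball (by linarith) (hin t ht)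
  have h2 := hVr (gfl m0 t z) h1
  have h3 := hJ t
  rw [L3_J_apply (gf m0 (gfl m0 t z)), ← h2] at h3
  exact h3

end BE36C
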