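import Pool.Agent.LibBE36C.L1
import Pool.Agent.LibBE36C.L3

/-! BE36 C', row L4: functions along the lines. -/

open MeasureTheory Set Filter Topology Metric
open scoped ContDiff

namespace BE36C

open BGS BR BE

variable {Γ : Type} [Group Γ] [MulAction Γ Pl] {D : Set Pl}
variable {ι P : Type} [NormedAddCommGroup P] [NormedSpace ℝ P] [FiniteDimensional ℝ P]
  {m : Pl → Co} {a b : ℝ} {s : ι → P × Pl → ℝ}

theorem E1_along (h : CF Γ D m a b s) {Qs : ι → ℝ} (hG : GI Γ D m s Qs) : ∃ A : ℕ,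
    ∀ (G : Γ → Pl → ℝ), (∀ (g β : Γ) (x : Pl), G (β * g * β⁻¹) (β • x) = G g x) →
    ∀ (q : Ln ι P Γ) (y R B : ℝ), 0 < R → R ≤ 1 →
      (∀ (g' : Γ) (x' : Pl), g' ≠ 1 → x' ∈ closure D →
        ds (mm m (s q.i) q.p1) x' (g' • x') = q.d m s y → EX (G g') x' R B) →
      E1 (fun t => G q.g (q.X m s t)) y (R / (2 * Qs q.i) ^ A) B := by
  obtain ⟨A0, hA0⟩ := hG.vec
  refine ⟨2 * A0 + 3, fun G hGc q y R B hR hR1 hE => ?_⟩
  have hm0 := hm_mm h q.i q.p0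
  have hm1 := hm_mm h q.i q.p1
  set m0 := mm m (s q.i) q.p0 with hm0d
  set β : Γ := (shf h.hX (q.X m s y))⁻¹ with hβ
  have hg' : β * q.g * β⁻¹ ≠ 1 := by
    intro h1
    apply q.hg
    have h2 : q.g = β⁻¹ * (β * q.g * β⁻¹) * β := by group
    rw [h2, h1]
    group
  set z : Pl × Pl := (β • q.x, Rg m0 β q.x q.u) with hz
  have hdk : ∀ y', gfl m0 y' z = (β • (gfl m0 y' (q.x, q.u)).1,
      Rg m0 β (gfl m0 y' (q.x, q.u)).1 (gfl m0 y' (q.x, q.u)).2) := fun y' =>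
    gfl_deck h.hX h.hO hm0 β y' q.x q.u
  have hX' : ∀ y', (gfl m0 y' z).1 = β • q.X m s y' := by
    intro y'
    rw [hdk]
    rfl
  have hx1 : (gfl m0 y z).1 ∈ closure D := by
    rw [hX']
    exact shf_mem' h.hX _
  have hu1 : eu (gfl m0 y z).2 = 1 := by
    rw [gfl_eu h.hX hm0]
    change eu (Rg m0 β q.x q.u) = 1
    rw [AN3_eu_Rg h.hX hm0, q.hu]
  have hd1 : ds (mm m (s q.i) q.p1) (gfl m0 y z).1 ((β * q.g * β⁻¹) • (gfl m0 y z).1) =
      q.d m s y := by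
    rw [hX', show (β * q.g * β⁻¹) • β • q.X m s y = β • q.g • q.X m s y by
      rw [smul_smul, smul_smul]; congr 1; group]
    exact (ds_deck h.hX h.hO hm1 β _ _).1
  obtain ⟨Gc, hGd, hGb, hGr⟩ := hE (β * q.g * β⁻¹) _ hg' hx1 hd1
  have hQ : 1 ≤ Qs q.i := hG.one q.i
  set X : ℝ := 2 * Qs q.i with hXd
  have hX2 : 2 ≤ X := by linarith
  have hX0 : 0 < X := by linarith
  have hX1 : 1 ≤ X := by linarith
  have hXA : 0 < X ^ A0 := pow_pos hX0 _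
  have hXA1 : 1 ≤ X ^ A0 := one_le_pow₀ hX1
  have hV : EV (gf m0) (gfl m0 y z) (X ^ A0)⁻¹ (X ^ A0) :=
    hA0 q.i q.p0 q.h0 _ hx1 _ hu1
  obtain ⟨c, hcd, hcb, hcr⟩ := geo_flow h.hX hm0 (inv_pos.2 hXA) hXA hV
  have h8 : (8 : ℝ) ≤ X ^ 3 := by
    calc (8 : ℝ) = 2 ^ 3 := by norm_num
      _ ≤ X ^ 3 := pow_le_pow_left₀ (by norm_num) hX2 3
  have hpow : X ^ (2 * A0 + 3) = X ^ A0 * X ^ A0 * X ^ 3 := by
    rw [pow_add, two_mul, pow_add]
  have hρ1 : R / X ^ (2 * A0 + 3) ≤ (X ^ A0)⁻¹ / (8 * X ^ A0) := by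
    rw [hpow, div_le_div_iff₀ (by positivity) (by positivity), inv_mul_eq_div,
      le_div_iff₀ hXA]
    calc R * (8 * X ^ A0) * X ^ A0 = R * (8 * (X ^ A0 * X ^ A0)) := by ring
      _ ≤ 1 * (X ^ 3 * (X ^ A0 * X ^ A0)) := by gcongr
      _ = X ^ A0 * X ^ A0 * X ^ 3 := by ring
  have hρ2 : X ^ A0 * (R / X ^ (2 * A0 + 3)) ≤ R := by
    rw [hpow, mul_div_assoc', div_le_iff₀ (by positivity)]
    calc X ^ A0 * R = R * (X ^ A0 * 1 * 1) := by ring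
      _ ≤ R * (X ^ A0 * X ^ A0 * X ^ 3) := by
          gcongr
          exact one_le_pow₀ hX1
  have hin : ∀ w : ℂ, ‖w‖ < R / X ^ (2 * A0 + 3) →
      w ∈ ball (0 : ℂ) ((X ^ A0)⁻¹ / (8 * X ^ A0)) ∧ (c w).1 ∈ ball (cx (gfl m0 y z).1) R := by
    intro w hw
    have h1 : w ∈ ball (0 : ℂ) ((X ^ A0)⁻¹ / (8 * X ^ A0)) := by
      rw [mem_ball_zero_iff]
      exact hw.trans_le hρ1
    refine ⟨h1, ?_⟩
    rw [mem_ball_iff_norm]
    calc ‖(c w).1 - cx (gfl m0 y z).1‖ ≤ ‖c w - (cx (gfl m0 y z).1, cx (gfl m0 y z).2)‖ :=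
          norm_fst_le (c w - (cx (gfl m0 y z).1, cx (gfl m0 y z).2))
      _ ≤ X ^ A0 * ‖w‖ := hcb w h1
      _ < X ^ A0 * (R / X ^ (2 * A0 + 3)) := mul_lt_mul_of_pos_left hw hXA
      _ ≤ R := hρ2
  refine ⟨fun w => Gc (c (w - y)).1, ?_, ?_, ?_⟩
  · have h1 : DifferentiableOn ℂ (fun w : ℂ => c (w - y)) (ball (y : ℂ) (R / X ^ (2 * A0 + 3))) :=
      hcd.comp (differentiableOn_id.sub_const _) fun w hw => by
        rw [mem_ball_iff_norm] at hw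
        exact (hin (w - y) hw).1
    exact hGd.comp (differentiable_fst.comp_differentiableOn h1) fun w hw => by
      rw [mem_ball_iff_norm] at hw
      exact (hin (w - y) hw).2
  · intro w hw
    rw [mem_ball_iff_norm] at hw
    exact hGb _ (hin (w - y) hw).2
  · intro x hx
    have hw : ‖((x : ℂ) - y)‖ < R / X ^ (2 * A0 + 3) := by
      rw [← Complex.ofReal_sub, Complex.norm_real, Real.norm_eq_abs]
      exact hx
    obtain ⟨h1, h2⟩ := hin _ hw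
    have h3 : c ((x : ℂ) - y) = (cx (gfl m0 (x - y) (gfl m0 y z)).1,
        cx (gfl m0 (x - y) (gfl m0 y z)).2) := by
      have := hcr (x - y) (lt_of_lt_of_le hx hρ1)
      rwa [Complex.ofReal_sub] at this
    have h4 : gfl m0 (x - y) (gfl m0 y z) = gfl m0 x z := by
      rw [← gfl_add h.hX hm0]
      congr 1
      ring
    rw [h4] at h3
    change Gc (c ((x : ℂ) - y)).1 = ((G q.g (q.X m s x) : ℝ) : ℂ)
    rw [h3] at h2 ⊢
    change Gc (cx (gfl m0 x z).1) = _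
    rw [hGr _ h2, hX', hGc]

end BE36C
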