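import Pool.Agent.LibBE36C.L2
import Pool.Agent.LibBE36C.L4

/-! BE36 C', row L5: the Jacobian along the lines. -/

open MeasureTheory Set Filter Topology Metric
open scoped ContDiff

namespace BE36C

open BGS BR BE

variable {Γ : Type} [Group Γ] [MulAction Γ Pl] {D : Set Pl}
variable {ι P : Type} [NormedAddCommGroup P] [NormedSpace ℝ P] [FiniteDimensional ℝ P]
  {m : Pl → Co} {a b : ℝ} {s : ι → P × Pl → ℝ}

theorem E1_JA (h : CF Γ D m a b s) {Qs : ι → ℝ} (hG : GI Γ D m s Qs) : ∃ A : ℕ,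
    ∀ (q : Ln ι P Γ) (y : ℝ), E1 (fun t => JA (mm m (s q.i) q.p0) q.x q.u t) y
      ((2 * Qs q.i) ^ A)⁻¹ ((2 * Qs q.i) ^ A * Real.exp (A * |y|)) := by
  obtain ⟨A1, h1⟩ := E1_along h hG
  obtain ⟨A2, h2⟩ := hG.cur
  obtain ⟨C, c0, hC0, hc0, hJ⟩ := JA_grow (P := P) h
  refine ⟨A1 + 2 * A2 + 7 + ⌈C⌉₊ + ⌈c0⌉₊, fun q y => ?_⟩
  have hm0 := hm_mm h q.i q.p0
  have hQ : 1 ≤ Qs q.i := hG.one q.i
  set X : ℝ := 2 * Qs q.i with hXd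
  have hX2 : 2 ≤ X := by linarith
  have hX0 : 0 < X := by linarith
  have hX1 : 1 ≤ X := by linarith
  have hXA : 0 < X ^ A2 := pow_pos hX0 _
  have hXA1 : 1 ≤ X ^ A2 := one_le_pow₀ hX1
  have e1 : E1 (fun t => curv (mm m (s q.i) q.p0) (q.X m s t)) y ((X ^ A2)⁻¹ / X ^ A1) (X ^ A2) :=
    h1 (fun _ x => curv (mm m (s q.i) q.p0) x)
      (fun _ β x => curv_deck h.hX hm0 β x) q y (X ^ A2)⁻¹ (X ^ A2) (inv_pos.2 hXA)
      (inv_le_one_of_one_le₀ hXA1) fun _ x' _ hx' _ => h2 q.i q.p0 q.h0 x' hx'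
  have e2 : E1 (fun t => -curv (mm m (s q.i) q.p0) (q.X m s t)) y ((X ^ A2)⁻¹ / X ^ A1)
      (X ^ A2) := by
    have := e1.smul (-1)
    simp only [neg_one_mul, abs_neg, abs_one, one_mul] at this
    exact this
  have hr0 : 0 < (X ^ A2)⁻¹ / X ^ A1 := by positivity
  have hr1 : (X ^ A2)⁻¹ / X ^ A1 ≤ 1 := by
    rw [div_le_one (pow_pos hX0 _)]
    exact (inv_le_one_of_one_le₀ hXA1).trans (one_le_pow₀ hX1)
  have e3 := E1_ode (f := JA (mm m (s q.i) q.p0) q.x q.u)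
    (f' := deriv (JA (mm m (s q.i) q.p0) q.x q.u)) e2 hr0 hr1 hXA1
    (fun t => (JA_ode h.hX hm0 q.hu t).1) (fun t => (JA_ode h.hX hm0 q.hu t).2)
  refine e3.mono ?_ ?_
  · have h16 : (16 : ℝ) ≤ X ^ 4 := by
      calc (16 : ℝ) = 2 ^ 4 := by norm_num
        _ ≤ X ^ 4 := pow_le_pow_left₀ (by norm_num) hX2 4
    have e4 : (X ^ A2)⁻¹ / X ^ A1 / (16 * X ^ A2) = (16 * X ^ (A1 + 2 * A2))⁻¹ := by
      rw [pow_add, two_mul, pow_add]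
      field_simp
    rw [e4]
    apply inv_anti₀ (by positivity)
    calc 16 * X ^ (A1 + 2 * A2) ≤ X ^ 4 * X ^ (A1 + 2 * A2) := by gcongr
      _ = X ^ (4 + (A1 + 2 * A2)) := by rw [← pow_add]
      _ ≤ X ^ (A1 + 2 * A2 + 7 + ⌈C⌉₊ + ⌈c0⌉₊) := pow_le_pow_right₀ hX1 (by omega)
  · obtain ⟨j1, j2, _⟩ := hJ q.i q.p0 q.x q.u q.hu y
    have hE : 0 < Real.exp (c0 * |y|) := Real.exp_pos _
    have c1 : Real.exp (c0 * |y|) ≤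
        Real.exp (((A1 + 2 * A2 + 7 + ⌈C⌉₊ + ⌈c0⌉₊ : ℕ) : ℝ) * |y|) := by
      apply Real.exp_le_exp.2
      apply mul_le_mul_of_nonneg_right _ (abs_nonneg y)
      refine (Nat.le_ceil c0).trans ?_
      exact_mod_cast (by omega : ⌈c0⌉₊ ≤ A1 + 2 * A2 + 7 + ⌈C⌉₊ + ⌈c0⌉₊)
    have c2 : 8 * C ≤ X ^ (A1 + 2 * A2 + 7 + ⌈C⌉₊ + ⌈c0⌉₊) := by
      have d1 : C ≤ 2 ^ ⌈C⌉₊ := by
        refine (Nat.le_ceil C).trans ?_
        exact_mod_cast (Nat.lt_two_pow_self (n := ⌈C⌉₊)).le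
      calc 8 * C ≤ 2 ^ 3 * 2 ^ ⌈C⌉₊ := by norm_num; linarith
        _ = 2 ^ (3 + ⌈C⌉₊) := by rw [← pow_add]
        _ ≤ X ^ (3 + ⌈C⌉₊) := pow_le_pow_left₀ (by norm_num) hX2 _
        _ ≤ X ^ (A1 + 2 * A2 + 7 + ⌈C⌉₊ + ⌈c0⌉₊) := pow_le_pow_right₀ hX1 (by omega)
    calc 4 * (|JA (mm m (s q.i) q.p0) q.x q.u y| + |deriv (JA (mm m (s q.i) q.p0) q.x q.u) y|) ≤
        4 * (C * Real.exp (c0 * |y|) + C * Real.exp (c0 * |y|)) := by gcongr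
      _ = 8 * C * Real.exp (c0 * |y|) := by ring
      _ ≤ _ := by gcongr

end BE36C
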