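import Pool.Agent.LibBE36C.F2

/-! BE36 C', row N1: the terms `j ≥ 3` near the axis.

MEDIUM. r1: lower bound of the displacement (`Ax_growth`/`Fd_growthU`: 1 ≤ C q.l ≤ C Fd). For |y| ≤ 2δ ≤ q.r c n:
cut (y / q.r c n) = 1, so hb.eq: B0 (q.X y) (g q.X y) * q.J y = B0(axis) * bq c n q y, |bq| ≤ n' (2 + l + 1)^n'
(hb.lq and `LQ_iff`, k = 0), and `B0_le` (LibBE99/Q4): B0(axis) ≤ n (2 + l)^n / √(trM - 2). UU_j = B0 * uu_j
(`Q6_UU`, private in LibBE99/Q6: copy), |uu_j| ≤ X^(A(j+1)) from hG.u at the real point (move the point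
q.X y to closure D by a deck transformation, `uu_deck`, as in L4; X = (N+2) Qs (2 + d), d ≤ l + 2|y| ≤ R+1,
`Fd_growthU`), al_j by the hypothesis at r = d ∈ [r1, R + 1]. So the integrand is at most
n'' (2+R)^n'' / √(trM-2) * Σ_{j=3}^N (Z K)^(j+1) M τ^(1/2 - j) with Z = XN^A', and Z K ≤ τ/2 gives
Σ ≤ 2 (Z K)^4 M τ^(1/2 - 3) ≤ 2 Z^4 K^4 M / √τ. The length of the interval is 4δ ≤ 1; |thR| ≤ 1
(`thR_le_one`, `thR_nonneg`). -/

open MeasureTheory Set Filter Topology Metric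
open scoped ContDiff

namespace BE36C

open BGS BR BE

variable {Γ : Type} [Group Γ] [MulAction Γ Pl] {D : Set Pl}
variable {ι P : Type} [NormedAddCommGroup P] [NormedSpace ℝ P] [FiniteDimensional ℝ P]
  {m : Pl → Co} {a b : ℝ} {s : ι → P × Pl → ℝ}

private theorem N1_ne (h : CF Γ D m a b s) (q : AxU Γ ι P m s) : q.g ≠ 1 :=
  (Axis_ne h.hX h.hO (hm_mm h q.i q.p) q.ax).1

private theorem N1_uu (h : CF Γ D m a b s) {Qs : ι → ℝ} (hG : GI Γ D m s Qs) : ∃ A0 : ℕ,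
    ∀ (N : ℕ) (q : AxU Γ ι P m s) (y : ℝ), ∀ j ≤ N,
      |uu m (s q.i) j (q.p, q.X y, q.g • q.X y)| ≤
        (((N : ℝ) + 2) * Qs q.i * (2 + Fd (mm m (s q.i) q.p) q.g q.x q.v y)) ^ (A0 * (j + 1)) := by
  obtain ⟨A0, hA0⟩ := hG.u
  obtain ⟨C, hC0, hC⟩ := Fd_growthU (ι := ι) (P := P) h
  refine ⟨A0, ?_⟩
  intro N q y j hj
  set β : Γ := (shf h.hX (q.X y))⁻¹ with hβ
  have hg' : β * q.g * β⁻¹ ≠ 1 := by
    intro h1
    apply N1_ne h q
    have h2 : q.g = β⁻¹ * (β * q.g * β⁻¹) * β := by group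
    rw [h2, h1]
    group
  have hmem : β • q.X y ∈ closure D := shf_mem' h.hX _
  have hgx : (β * q.g * β⁻¹) • (β • q.X y) = β • (q.g • q.X y) := by
    rw [smul_smul, smul_smul]
    congr 1
    group
  have hex := hA0 N ⟨q.i, q.p, β * q.g * β⁻¹, β • q.X y, q.hp, hg', hmem⟩ j hj
  have hd : (⟨q.i, q.p, β * q.g * β⁻¹, β • q.X y, q.hp, hg', hmem⟩ :
      Jx ι P Γ (closure D)).d m s = Fd (mm m (s q.i) q.p) q.g q.x q.v y := by
    show ds (mm m (s q.i) q.p) (β • q.X y) ((β * q.g * β⁻¹) • (β • q.X y)) = _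
    rw [hgx, (ds_deck h.hX h.hO (hm_mm h q.i q.p) β (q.X y) (q.g • q.X y)).1]
    rfl
  rw [hd] at hex
  obtain ⟨G, -, hGb, hGr⟩ := hex
  have hFd : 0 < Fd (mm m (s q.i) q.p) q.g q.x q.v y :=
    lt_of_lt_of_le q.ax.pos ((hC q).2.2 y).2.1
  have hQ := hG.one q.i
  have hpos : 0 < (((N : ℝ) + 2) * Qs q.i * (2 + Fd (mm m (s q.i) q.p) q.g q.x q.v y)) := by
    positivity
  have hball : cx (β • q.X y) ∈ ball (cx (β • q.X y))
      ((((N : ℝ) + 2) * Qs q.i * (2 + Fd (mm m (s q.i) q.p) q.g q.x q.v y)) ^ A0)⁻¹ :=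
    mem_ball_self (by positivity)
  have h1 := hGb _ hball
  rw [hGr _ hball] at h1
  have h2 : uu m (s q.i) j (q.p, β • q.X y, (β * q.g * β⁻¹) • (β • q.X y)) =
      uu m (s q.i) j (q.p, q.X y, q.g • q.X y) := by
    rw [hgx]
    exact uu_deck h j q.i q.p β (q.X y) (q.g • q.X y)
  rw [← h2]
  simpa using h1

private theorem N1_UU (h : CF Γ D m a b s) (j : ℕ) (q : AxU Γ ι P m s) (y : ℝ) :
    UU (Gx (mm m (s q.i) q.p) (q.X y)) j (Vx (mm m (s q.i) q.p) (q.X y) (q.g • q.X y)) =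
      B0 (mm m (s q.i) q.p) (q.X y) (q.g • q.X y) *
        uu m (s q.i) j (q.p, q.X y, q.g • q.X y) := by
  have h1 := uu_UU h q.i j (q.p, q.X y, q.g • q.X y)
  have h2 := uu_UU h q.i 0 (q.p, q.X y, q.g • q.X y)
  rw [uu_zero h, mul_one] at h2
  have h3 : B0 (mm m (s q.i) q.p) (q.X y) (q.g • q.X y) =
      Real.exp (-(ff m (s q.i) (q.p, q.X y, q.g • q.X y) / 2)) := h2
  rw [h3]
  exact h1

private theorem N1_B0_nonneg (h : CF Γ D m a b s) (q : AxU Γ ι P m s) :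
    0 ≤ B0 (mm m (s q.i) q.p) q.x (q.g • q.x) := by
  have h2 := uu_UU h q.i 0 (q.p, q.x, q.g • q.x)
  rw [uu_zero h, mul_one] at h2
  have h3 : B0 (mm m (s q.i) q.p) q.x (q.g • q.x) =
      Real.exp (-(ff m (s q.i) (q.p, q.x, q.g • q.x) / 2)) := h2
  rw [h3]
  positivity

private theorem N1_bq (h : CF Γ D m a b s) {c : ℝ} {n : ℕ} (hb : BQ Γ ι P m s c n) : ∃ n' : ℕ,
    ∀ (q : AxU Γ ι P m s) (y : ℝ), |y| ≤ q.r c n → |y| ≤ 1 →
      |B0 (mm m (s q.i) q.p) (q.X y) (q.g • q.X y) * q.J y| ≤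
        n' * (3 + q.l) ^ n' / √(trM (mm m (s q.i) q.p) q.x q.v q.l - 2) := by
  obtain ⟨n1, hn1⟩ := ((LQ_iff (fun q : AxU Γ ι P m s => q.ax.pos.le)).1 hb.lq).2 0
  obtain ⟨n2, hn2⟩ := B0_le (ι := ι) (P := P) h
  refine ⟨n1 * n2 + n1 + n2, ?_⟩
  intro q y hy hy1
  have hl := q.ax.pos
  have hr : 0 < q.r c n := by
    have := hb.c_pos
    unfold AxU.r
    positivity
  have hcut : (cut (y / q.r c n) : ℝ) = 1 := by
    apply cut.one_of_mem_closedBall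
    rw [mem_closedBall, dist_zero_right, Real.norm_eq_abs, abs_div, abs_of_pos hr, div_le_iff₀ hr]
    show |y| ≤ 1 * q.r c n
    linarith
  have he := hb.eq q y
  rw [hcut, one_mul] at he
  rw [he, abs_mul, abs_of_nonneg (N1_B0_nonneg h q)]
  have h1 := hn1 q y
  rw [iteratedDeriv_zero] at h1
  have h2 := hn2 q
  set S := √(trM (mm m (s q.i) q.p) q.x q.v q.l - 2)
  have hS : 0 ≤ S := Real.sqrt_nonneg _
  have h3 : (n1 : ℝ) * (2 + q.l + |y|) ^ n1 ≤ n1 * (3 + q.l) ^ n1 := by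
    apply mul_le_mul_of_nonneg_left _ (Nat.cast_nonneg _)
    apply pow_le_pow_left₀ (by positivity)
    linarith
  have h4 : (n2 : ℝ) * (2 + q.l) ^ n2 ≤ n2 * (3 + q.l) ^ n2 := by
    apply mul_le_mul_of_nonneg_left _ (Nat.cast_nonneg _)
    apply pow_le_pow_left₀ (by positivity)
    linarith
  have h5 : (1 : ℝ) ≤ 3 + q.l := by linarith
  calc B0 (mm m (s q.i) q.p) q.x (q.g • q.x) * |bq c n q y|
      ≤ (n2 * (3 + q.l) ^ n2 / S) * (n1 * (3 + q.l) ^ n1) := by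
        apply mul_le_mul _ (h1.trans h3) (abs_nonneg _) (by positivity)
        exact h2.trans (div_le_div_of_nonneg_right h4 hS)
    _ = ((n1 * n2 : ℕ) : ℝ) * (3 + q.l) ^ (n1 + n2) / S := by
        push_cast
        rw [pow_add]
        ring
    _ ≤ ((n1 * n2 + n1 + n2 : ℕ) : ℝ) * (3 + q.l) ^ (n1 * n2 + n1 + n2) / S := by
        apply div_le_div_of_nonneg_right _ hS
        apply mul_le_mul
        · exact_mod_cast (by omega : n1 * n2 ≤ n1 * n2 + n1 + n2)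
        · exact pow_le_pow_right₀ h5 (by omega)
        · positivity
        · positivity

/-- the geometric sum -/
private theorem N1_geom {Z K τ M : ℝ} (hZ : 0 ≤ Z) (hK : 0 ≤ K) (hτ : 1 ≤ τ) (hM : 0 ≤ M)
    (hZK : Z * K ≤ τ / 2) (N : ℕ) :
    ∑ j ∈ Finset.Icc 3 N, Z ^ (j + 1) * (K ^ (j + 1) * M * τ ^ (1 / 2 - j : ℝ)) ≤
      2 * Z ^ 4 * K ^ 4 * (M / √τ) := by
  have hτ0 : 0 < τ := by linarith
  have hterm : ∀ j ∈ Finset.Icc 3 N, Z ^ (j + 1) * (K ^ (j + 1) * M * τ ^ (1 / 2 - j : ℝ)) ≤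
      Z ^ 4 * K ^ 4 * (M / √τ) * (1 / 2) ^ (j - 3) := by
    intro j hj
    obtain ⟨hj3, -⟩ := Finset.mem_Icc.1 hj
    obtain ⟨k, rfl⟩ := Nat.exists_eq_add_of_le hj3
    have e1 : (τ : ℝ) ^ (1 / 2 - ((3 + k : ℕ) : ℝ) : ℝ) = (1 / √τ) * (1 / τ) ^ 2 * (1 / τ) ^ k := by
      have a1 : (1 / 2 - ((3 + k : ℕ) : ℝ) : ℝ) = -(1 / 2) + -(((2 + k : ℕ) : ℝ)) := by
        push_cast
        ring
      rw [a1, Real.rpow_add hτ0, Real.rpow_neg hτ0.le, Real.rpow_neg hτ0.le, Real.rpow_natCast,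
        ← Real.sqrt_eq_rpow, pow_add, one_div, one_div, inv_pow, inv_pow, mul_inv, mul_assoc]
    have e2 : (1 / τ) ^ 2 ≤ 1 := pow_le_one₀ (by positivity) (by rw [div_le_one hτ0]; exact hτ)
    have e3 : Z * K * (1 / τ) ≤ 1 / 2 := by
      rw [mul_one_div, div_le_iff₀ hτ0]
      linarith
    have e4 : (Z * K * (1 / τ)) ^ k ≤ (1 / 2) ^ k := pow_le_pow_left₀ (by positivity) e3 k
    rw [e1, Nat.add_sub_cancel_left]
    calc Z ^ (3 + k + 1) * (K ^ (3 + k + 1) * M * (1 / √τ * (1 / τ) ^ 2 * (1 / τ) ^ k))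
        = Z ^ 4 * K ^ 4 * (M * (1 / √τ)) * ((1 / τ) ^ 2 * (Z * K * (1 / τ)) ^ k) := by ring
      _ ≤ Z ^ 4 * K ^ 4 * (M * (1 / √τ)) * (1 * (1 / 2) ^ k) := by
          apply mul_le_mul_of_nonneg_left _ (by positivity)
          exact mul_le_mul e2 e4 (by positivity) (by norm_num)
      _ = Z ^ 4 * K ^ 4 * (M / √τ) * (1 / 2) ^ k := by ring
  have hsum : ∑ j ∈ Finset.Icc 3 N, (1 / 2 : ℝ) ^ (j - 3) ≤ 2 := by
    have h1 : ∑ j ∈ Finset.Icc 3 N, (1 / 2 : ℝ) ^ (j - 3) ≤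
        ∑ k ∈ Finset.range (N + 1), (1 / 2 : ℝ) ^ k := by
      rw [← Finset.sum_image (f := fun k => (1 / 2 : ℝ) ^ k) (g := fun j => j - 3)
        (s := Finset.Icc 3 N)]
      · apply Finset.sum_le_sum_of_subset_of_nonneg
        · intro k hk
          obtain ⟨j, hj, rfl⟩ := Finset.mem_image.1 hk
          obtain ⟨-, hj2⟩ := Finset.mem_Icc.1 hj
          rw [Finset.mem_range]
          omega
        · intro k _ _
          positivity
      · intro x hx y hy hxy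
        obtain ⟨hx1, -⟩ := Finset.mem_Icc.1 (Finset.mem_coe.1 hx)
        obtain ⟨hy1, -⟩ := Finset.mem_Icc.1 (Finset.mem_coe.1 hy)
        have hxy' : x - 3 = y - 3 := hxy
        omega
    refine h1.trans ?_
    have h2 : Summable fun k : ℕ => (1 / 2 : ℝ) ^ k :=
      summable_geometric_of_lt_one (by norm_num) (by norm_num)
    have h3 := h2.sum_le_tsum (Finset.range (N + 1)) (fun k _ => by positivity)
    rw [tsum_geometric_of_lt_one (by norm_num) (by norm_num)] at h3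
    norm_num at h3 ⊢
    exact h3
  calc ∑ j ∈ Finset.Icc 3 N, Z ^ (j + 1) * (K ^ (j + 1) * M * τ ^ (1 / 2 - j : ℝ))
      ≤ ∑ j ∈ Finset.Icc 3 N, Z ^ 4 * K ^ 4 * (M / √τ) * (1 / 2) ^ (j - 3) :=
        Finset.sum_le_sum hterm
    _ = Z ^ 4 * K ^ 4 * (M / √τ) * ∑ j ∈ Finset.Icc 3 N, (1 / 2 : ℝ) ^ (j - 3) := by
        rw [Finset.mul_sum]
    _ ≤ Z ^ 4 * K ^ 4 * (M / √τ) * 2 := mul_le_mul_of_nonneg_left hsum (by positivity)
    _ = 2 * Z ^ 4 * K ^ 4 * (M / √τ) := by ring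

theorem near_high (h : CF Γ D m a b s) {Qs : ι → ℝ} (hG : GI Γ D m s Qs) {c : ℝ} {n : ℕ}
    (hb : BQ Γ ι P m s c n) : ∃ (A : ℕ) (r1 : ℝ), 1 ≤ A ∧ 0 < r1 ∧ r1 ≤ 1 ∧
    ∀ (N : ℕ) (q : AxU Γ ι P m s) (f : ℝ → ℂ) (R M K τ δ e : ℝ), 0 ≤ R → q.l ≤ R →
      DH δ e → 2 * δ ≤ q.r c n → 1 ≤ τ → 1 ≤ K → 0 ≤ M → XN N (Qs q.i) R ^ A * K ≤ τ / 2 →
      (∀ j, 3 ≤ j → j ≤ N → ∀ r, r1 ≤ r → r ≤ R + 1 →
        ‖al j f τ r‖ ≤ K ^ (j + 1) * M * τ ^ (1 / 2 - j : ℝ)) →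
      ‖∫ y in (-(2 * δ))..(2 * δ), ((thR δ e y : ℝ) : ℂ) *
        (Complex.exp (-(Complex.I * τ * ds (mm m (s q.i) q.p) (q.X y) (q.g • q.X y))) *
          ∑ j ∈ Finset.Icc 3 N, ((UU (Gx (mm m (s q.i) q.p) (q.X y)) j
            (Vx (mm m (s q.i) q.p) (q.X y) (q.g • q.X y)) : ℝ) : ℂ) *
              al j f τ (ds (mm m (s q.i) q.p) (q.X y) (q.g • q.X y))) * ((q.J y : ℝ) : ℂ)‖ ≤
        XN N (Qs q.i) R ^ A * K ^ 4 * (M / √τ) /
          √(trM (mm m (s q.i) q.p) q.x q.v q.l - 2) := by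
  obtain ⟨C, hC0, hC⟩ := Fd_growthU (ι := ι) (P := P) h
  obtain ⟨A0, hA0⟩ := N1_uu h hG
  obtain ⟨n', hn'⟩ := N1_bq h hb
  refine ⟨2 * n' + n' + 8 * A0 + 1, 1 / (C + 1), by omega, by positivity, ?_, ?_⟩
  · rw [div_le_one (by positivity)]
    linarith
  intro N q f R M K τ δ e hR hlR hDH hδ hτ hK hM hXK hal
  set Q := Qs q.i with hQd
  have hQ1 : 1 ≤ Q := hG.one q.i
  set X := XN N Q R with hX
  have hXdef : X = ((N : ℝ) + 2) * Q * (2 + R) := rfl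
  have hN0 : (0 : ℝ) ≤ N := Nat.cast_nonneg _
  have hNQ : 2 ≤ ((N : ℝ) + 2) * Q := by nlinarith
  have hX4 : 4 ≤ X := by
    rw [hXdef]
    nlinarith
  have hX3 : 3 + R ≤ X := by
    rw [hXdef]
    nlinarith
  have hX1 : 1 ≤ X := by linarith
  set Z := X ^ (2 * A0) with hZd
  have hZ0 : 0 ≤ Z := by positivity
  have hZK : Z * K ≤ τ / 2 := by
    refine le_trans ?_ hXK
    apply mul_le_mul_of_nonneg_right _ (by linarith)
    exact pow_le_pow_right₀ hX1 (by omega)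
  have hl := q.ax.pos
  obtain ⟨htr, hCl, hFd⟩ := hC q
  set S := √(trM (mm m (s q.i) q.p) q.x q.v q.l - 2) with hSd
  have hS : 0 < S := Real.sqrt_pos.2 (by linarith)
  have hdp := hDH.dpos
  have hd8 := hDH.dle
  have hcn : ((n' : ℝ) * (3 + R) ^ n') * (2 * Z ^ 4) ≤ X ^ (2 * n' + n' + 8 * A0 + 1) := by
    have b1 : (3 + R) ^ n' ≤ X ^ n' := pow_le_pow_left₀ (by linarith) hX3 _
    have b2 : (n' : ℝ) ≤ X ^ (2 * n') := by
      have c1 : (n' : ℝ) ≤ 2 ^ n' := by exact_mod_cast (Nat.lt_two_pow_self (n := n')).le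
      refine c1.trans ?_
      calc (2 : ℝ) ^ n' ≤ X ^ n' := pow_le_pow_left₀ (by norm_num) (by linarith) _
        _ ≤ X ^ (2 * n') := pow_le_pow_right₀ hX1 (by omega)
    have b3 : (2 : ℝ) * Z ^ 4 ≤ X ^ 1 * X ^ (8 * A0) := by
      rw [hZd, ← pow_mul, pow_one, show 2 * A0 * 4 = 8 * A0 by ring]
      exact mul_le_mul_of_nonneg_right (by linarith) (by positivity)
    calc ((n' : ℝ) * (3 + R) ^ n') * (2 * Z ^ 4)
        ≤ (X ^ (2 * n') * X ^ n') * (X ^ 1 * X ^ (8 * A0)) := by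
          apply mul_le_mul _ b3 (by positivity) (by positivity)
          exact mul_le_mul b2 b1 (by positivity) (by positivity)
      _ = X ^ (2 * n' + n' + 8 * A0 + 1) := by
          rw [← pow_add, ← pow_add, ← pow_add]
          congr 1
          ring
  have hpt : ∀ y ∈ Set.uIoc (-(2 * δ)) (2 * δ), ‖((thR δ e y : ℝ) : ℂ) *
        (Complex.exp (-(Complex.I * τ * ds (mm m (s q.i) q.p) (q.X y) (q.g • q.X y))) *
          ∑ j ∈ Finset.Icc 3 N, ((UU (Gx (mm m (s q.i) q.p) (q.X y)) j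
            (Vx (mm m (s q.i) q.p) (q.X y) (q.g • q.X y)) : ℝ) : ℂ) *
              al j f τ (ds (mm m (s q.i) q.p) (q.X y) (q.g • q.X y))) * ((q.J y : ℝ) : ℂ)‖ ≤
      (n' * (3 + R) ^ n' / S) * (2 * Z ^ 4 * K ^ 4 * (M / √τ)) := by
    intro y hy
    rw [Set.uIoc_of_le (by linarith)] at hy
    have hy1 : |y| ≤ 2 * δ := abs_le.2 ⟨hy.1.le, hy.2⟩
    have hy2 : |y| ≤ 1 := by linarith
    have hy3 : |y| ≤ q.r c n := hy1.trans hδ
    obtain ⟨-, hF1, hF2⟩ := hFd y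
    set d := Fd (mm m (s q.i) q.p) q.g q.x q.v y with hd
    have hdd : ds (mm m (s q.i) q.p) (q.X y) (q.g • q.X y) = d := rfl
    rw [hdd]
    have hdR : d ≤ R + 1 := by linarith
    have hdr : 1 / (C + 1) ≤ d := by
      rw [div_le_iff₀ (by positivity)]
      nlinarith
    have hth : ‖((thR δ e y : ℝ) : ℂ)‖ ≤ 1 := by
      rw [Complex.norm_real, Real.norm_eq_abs, abs_of_nonneg (thR_nonneg hdp.le hDH.epos y)]
      exact thR_le_one hdp.le hDH.epos y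
    have hex : ‖Complex.exp (-(Complex.I * τ * d))‖ = 1 := by
      rw [Complex.norm_exp]
      simp
    have hsumJ : (∑ j ∈ Finset.Icc 3 N, ((UU (Gx (mm m (s q.i) q.p) (q.X y)) j
            (Vx (mm m (s q.i) q.p) (q.X y) (q.g • q.X y)) : ℝ) : ℂ) * al j f τ d) *
          ((q.J y : ℝ) : ℂ) =
        ((B0 (mm m (s q.i) q.p) (q.X y) (q.g • q.X y) * q.J y : ℝ) : ℂ) *
          ∑ j ∈ Finset.Icc 3 N, ((uu m (s q.i) j (q.p, q.X y, q.g • q.X y) : ℝ) : ℂ) *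
            al j f τ d := by
      rw [Finset.sum_mul, Finset.mul_sum]
      refine Finset.sum_congr rfl fun j _ => ?_
      rw [N1_UU h j q y]
      push_cast
      ring
    have hsum : ‖∑ j ∈ Finset.Icc 3 N, ((uu m (s q.i) j (q.p, q.X y, q.g • q.X y) : ℝ) : ℂ) *
            al j f τ d‖ ≤ 2 * Z ^ 4 * K ^ 4 * (M / √τ) := by
      refine (norm_sum_le _ _).trans ((Finset.sum_le_sum ?_).trans
        (N1_geom hZ0 (by linarith) hτ hM hZK N))
      intro j hj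
      obtain ⟨hj3, hjN⟩ := Finset.mem_Icc.1 hj
      rw [norm_mul, Complex.norm_real, Real.norm_eq_abs]
      apply mul_le_mul _ (hal j hj3 hjN d hdr hdR) (norm_nonneg _) (by positivity)
      refine (hA0 N q y j hjN).trans ?_
      have c1 : ((N : ℝ) + 2) * Qs q.i * (2 + Fd (mm m (s q.i) q.p) q.g q.x q.v y) ≤ X ^ 2 := by
        have c2 : ((N : ℝ) + 2) * Q * (2 + d) ≤ ((N : ℝ) + 2) * Q * (2 * (2 + R)) := by
          apply mul_le_mul_of_nonneg_left _ (by linarith)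
          linarith
        have c3 : ((N : ℝ) + 2) * Q * (2 * (2 + R)) = 2 * X := by
          rw [hXdef]
          ring
        have c4 : 2 * X ≤ X ^ 2 := by nlinarith
        exact (c2.trans_eq c3).trans c4
      have hd0 : 0 < d := by linarith
      calc (((N : ℝ) + 2) * Qs q.i * (2 + Fd (mm m (s q.i) q.p) q.g q.x q.v y)) ^ (A0 * (j + 1))
          ≤ (X ^ 2) ^ (A0 * (j + 1)) := pow_le_pow_left₀ (by positivity) c1 _
        _ = Z ^ (j + 1) := by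
            rw [hZd, ← pow_mul, ← pow_mul]
            congr 1
            ring
    have hB := hn' q y hy3 hy2
    have hB' : |B0 (mm m (s q.i) q.p) (q.X y) (q.g • q.X y) * q.J y| ≤ n' * (3 + R) ^ n' / S := by
      refine hB.trans (div_le_div_of_nonneg_right ?_ hS.le)
      apply mul_le_mul_of_nonneg_left _ (Nat.cast_nonneg _)
      apply pow_le_pow_left₀ (by positivity)
      linarith
    have hre : ((thR δ e y : ℝ) : ℂ) * (Complex.exp (-(Complex.I * τ * d)) *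
          ∑ j ∈ Finset.Icc 3 N, ((UU (Gx (mm m (s q.i) q.p) (q.X y)) j
            (Vx (mm m (s q.i) q.p) (q.X y) (q.g • q.X y)) : ℝ) : ℂ) * al j f τ d) *
          ((q.J y : ℝ) : ℂ) =
        ((thR δ e y : ℝ) : ℂ) * (Complex.exp (-(Complex.I * τ * d)) *
          (((B0 (mm m (s q.i) q.p) (q.X y) (q.g • q.X y) * q.J y : ℝ) : ℂ) *
          ∑ j ∈ Finset.Icc 3 N, ((uu m (s q.i) j (q.p, q.X y, q.g • q.X y) : ℝ) : ℂ) *
            al j f τ d)) := by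
      rw [← hsumJ]
      ring
    rw [hre, norm_mul, norm_mul, norm_mul, hex, one_mul, Complex.norm_real, Complex.norm_real,
      Real.norm_eq_abs, Real.norm_eq_abs]
    rw [Complex.norm_real, Real.norm_eq_abs] at hth
    calc |thR δ e y| * (|B0 (mm m (s q.i) q.p) (q.X y) (q.g • q.X y) * q.J y| *
          ‖∑ j ∈ Finset.Icc 3 N, ((uu m (s q.i) j (q.p, q.X y, q.g • q.X y) : ℝ) : ℂ) *
            al j f τ d‖)
        ≤ 1 * ((n' * (3 + R) ^ n' / S) * (2 * Z ^ 4 * K ^ 4 * (M / √τ))) := by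
          apply mul_le_mul hth _ (by positivity) (by norm_num)
          exact mul_le_mul hB' hsum (norm_nonneg _) (by positivity)
      _ = _ := one_mul _
  have hint := intervalIntegral.norm_integral_le_of_norm_le_const hpt
  refine hint.trans ?_
  have hlen : |2 * δ - -(2 * δ)| ≤ 1 := by
    rw [abs_of_nonneg (by linarith)]
    linarith
  have hc0 : 0 ≤ (n' * (3 + R) ^ n' / S) * (2 * Z ^ 4 * K ^ 4 * (M / √τ)) := by positivity
  calc (n' * (3 + R) ^ n' / S) * (2 * Z ^ 4 * K ^ 4 * (M / √τ)) * |2 * δ - -(2 * δ)|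
      ≤ (n' * (3 + R) ^ n' / S) * (2 * Z ^ 4 * K ^ 4 * (M / √τ)) * 1 :=
        mul_le_mul_of_nonneg_left hlen hc0
    _ = (((n' : ℝ) * (3 + R) ^ n') * (2 * Z ^ 4)) * (K ^ 4 * (M / √τ) / S) := by ring
    _ ≤ X ^ (2 * n' + n' + 8 * A0 + 1) * (K ^ 4 * (M / √τ) / S) :=
        mul_le_mul_of_nonneg_right hcn (by positivity)
    _ = X ^ (2 * n' + n' + 8 * A0 + 1) * K ^ 4 * (M / √τ) / S := by ring

end BE36C
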