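import Pool.Agent.LibBE36C.Defs

/-! BE36 C', row N2: between the two cut-off functions there are no stationary points.

MEDIUM/STRONG. `nsp` (LibBE99/N1) with n = 3, φ y = Fd (mm ..) q.g q.x q.v y (= ds (q.X y) (g q.X y)),
G y = (1 - cut (4y/δ)) (1 - thR δ e y) bq(y) Σ_{j ≤ 2} uu_j(y) alc r0 j f τ (d y), R = 1/2 (support in
|y| ≤ 2 q.r c n ≤ 1/2, hb.zero, hb.c_le), H = n0 (2+R)^n0 / e (δ ≥ e, H ≥ 1, |deriv φ| ≥ min (c|y|) 1 ≥ c e/4 on the
support, `Fd_lowU`), A = C (2+R)^C M τ. Identity: by hb.eq, UU_j = B0 uu_j and `alc_eq` the integrand is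
B0(axis) * exp(-i τ φ) * G (template: Q6_eq in LibBE99/Q6, where the same product is split). Derivatives up to
order 3 (order 4 for φ): bq: hb.lq; uu_j: `LQ_u`; d: `LQ_F` and d = √.. or `LP_d` pulled back (Q4_pull); alc:
`alc_bound` (needs AmpN 4) composed with d; cut (4y/δ): bounded derivatives times (4/δ)^k ≤ (4/e)^k;
thR: `thE_deriv` (TH.lean): |D^k θ| ≤ k! e^1 / e^k (thE at real points = thR, iteratedDeriv of the
restriction). Conclusion: C A R (H⁴/τ)³ B0(axis) and `B0_le`.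
If A M' form is easier: every factor is in EBn 3 with the scale log (2 + (1+R)/e) as in LibBE99/N2.lean. -/

open MeasureTheory Set Filter Topology Metric
open scoped ContDiff

namespace BE36C

open BGS BR BE

variable {Γ : Type} [Group Γ] [MulAction Γ Pl] {D : Set Pl}
variable {ι P : Type} [NormedAddCommGroup P] [NormedSpace ℝ P] [FiniteDimensional ℝ P]
  {m : Pl → Co} {a b : ℝ} {s : ι → P × Pl → ℝ}

private theorem N2x_low (h : CF Γ D m a b s) : ∃ r0 : ℝ, 0 < r0 ∧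
    ∀ (q : AxU Γ ι P m s) (y : ℝ), r0 ≤ Fd (mm m (s q.i) q.p) q.g q.x q.v y := by
  obtain ⟨C, hC0, hC⟩ := Fd_growthU (ι := ι) (P := P) h
  refine ⟨(max C 1)⁻¹, by positivity, fun q y => ?_⟩
  obtain ⟨-, h1, h2⟩ := hC q
  obtain ⟨-, h3, -⟩ := h2 y
  have hlpos : 0 < q.l := q.ax.pos
  have hM : 0 < max C 1 := lt_of_lt_of_le one_pos (le_max_right _ _)
  rw [inv_le_iff_one_le_mul₀ hM]
  have h4 : C * q.l ≤ max C 1 * q.l := mul_le_mul_of_nonneg_right (le_max_left _ _) hlpos.le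
  nlinarith

private theorem N2x_nn (q : AxU Γ ι P m s × ℝ) : 0 ≤ Real.log (2 + q.1.l + |q.2|) := by
  apply Real.log_nonneg
  have := q.1.ax.pos
  have := abs_nonneg q.2
  linarith

/-- The displacement along the perpendicular geodesic. -/
private theorem N2x_LQd (h : CF Γ D m a b s) : LQ (fun q : AxU Γ ι P m s => q.l)
    (fun q y => Fd (mm m (s q.i) q.p) q.g q.x q.v y) := by
  obtain ⟨r0, hr0, hlow⟩ := N2x_low (ι := ι) (P := P) h
  have hF := LQ_F (ι := ι) (P := P) h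
  unfold LQ at hF ⊢
  have h1 := EB_sqrt (C := (r0 ^ 2)⁻¹) (N2x_nn (m := m) (s := s)) hF
    (fun p y => pow_pos (hr0.trans_le (hlow p.1 y)) 2)
    (fun p => by
      have h2 := hlow p.1 p.2
      have h3 : (Fd (mm m (s p.1.i) p.1.p) p.1.g p.1.x p.1.v p.2 ^ 2)⁻¹ ≤ (r0 ^ 2)⁻¹ :=
        inv_anti₀ (by positivity) (pow_le_pow_left₀ hr0.le h2 2)
      refine h3.trans (le_mul_of_one_le_right (by positivity) (Real.one_le_exp ?_))
      exact mul_nonneg (by positivity) (N2x_nn p))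
  have h2 : (fun (p : AxU Γ ι P m s × ℝ) (y : ℝ) =>
      √(Fd (mm m (s p.1.i) p.1.p) p.1.g p.1.x p.1.v y ^ 2)) =
      fun p y => Fd (mm m (s p.1.i) p.1.p) p.1.g p.1.x p.1.v y := by
    funext p y
    rw [Real.sqrt_sq (hr0.le.trans (hlow p.1 y))]
  rw [← h2]
  exact h1

/-- The restriction of an entire function to the line. -/
private theorem N2x_ofReal {F : ℂ → ℂ} (hF : Differentiable ℂ F) (k : ℕ) :
    iteratedDeriv k (fun x : ℝ => F x) = fun x : ℝ => iteratedDeriv k F x := by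
  induction k with
  | zero => simp only [iteratedDeriv_zero]
  | succ k ih =>
    funext x
    rw [iteratedDeriv_succ, iteratedDeriv_succ, ih]
    have h0 : ContDiff ℂ ∞ F := hF.contDiff
    have h1 : Differentiable ℂ (iteratedDeriv k F) :=
      h0.differentiable_iteratedDeriv k (by exact_mod_cast WithTop.coe_lt_top k)
    exact ((h1 x).hasDerivAt.comp_ofReal).deriv

private theorem N2x_thE_smooth {δ e : ℝ} (he : 0 < e) :
    ContDiff ℝ ∞ (fun x : ℝ => thE δ e x) := by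
  have h0 : ContDiff ℂ ∞ (thE δ e) := (thE_diff he).contDiff
  exact (h0.restrict_scalars ℝ).comp Complex.ofRealCLM.contDiff

/-- The data. -/
private structure NI (Γ : Type) [Group Γ] [MulAction Γ Pl] (ι P : Type) [NormedAddCommGroup P]
    (m : Pl → Co) (s : ι → P × Pl → ℝ) where
  q : AxU Γ ι P m s
  f : ℝ → ℂ
  ρ : ℝ
  R : ℝ
  M : ℝ
  τ : ℝ
  δ : ℝ
  e : ℝ
  y : ℝ
  hρ : 0 ≤ ρ
  hR : ρ ≤ R
  hf : BE73.AmpN 4 f ρ M
  hτ : 1 ≤ τ
  hd : DH δ e
  hl : q.l ≤ R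
  hy : |y| ≤ 1

/-- The scale. -/
private noncomputable def NI.L (i : NI Γ ι P m s) : ℝ := Real.log (3 + i.R)

private theorem NI_R (i : NI Γ ι P m s) : 0 ≤ i.R := i.hρ.trans i.hR

private theorem NI_exp (i : NI Γ ι P m s) : Real.exp i.L = 3 + i.R := by
  unfold NI.L
  rw [Real.exp_log]
  have := NI_R i
  linarith

private theorem NI_L0 (i : NI Γ ι P m s) : 0 ≤ i.L := by
  have := NI_R i
  exact Real.log_nonneg (by linarith)

private theorem NI_lin (n : ℕ) : EBn n (fun i : NI Γ ι P m s => i.L)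
    (fun i t => i.e * t) (fun i => i.y / i.e) := by
  refine N2_of (fun i => contDiff_const.mul contDiff_id) fun k _ => ⟨1, fun i => ?_⟩
  have h1 : (1 : ℝ) ≤ Real.exp (1 * i.L) := Real.one_le_exp (by rw [one_mul]; exact NI_L0 i)
  have he := i.hd.epos
  have he1 : i.e ≤ 1 := by
    have := i.hd.ele
    have := i.hd.dle
    linarith
  rw [one_mul]
  refine le_trans ?_ h1
  rcases k with _ | k
  · rw [iteratedDeriv_zero, Real.norm_eq_abs, mul_div_cancel₀ _ he.ne']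
    exact i.hy
  · rw [iteratedDeriv_succ']
    have h2 : deriv (fun t : ℝ => i.e * t) = fun _ => i.e := by
      funext t
      rw [deriv_const_mul _ differentiableAt_id, deriv_id'', mul_one]
    rw [h2, iteratedDeriv_const]
    split_ifs
    · rw [Real.norm_of_nonneg he.le]
      exact he1
    · rw [norm_zero]
      exact zero_le_one

private theorem NI_LQ {G : AxU Γ ι P m s → ℝ → ℝ}
    (hG : LQ (fun q : AxU Γ ι P m s => q.l) G) (n : ℕ) :
    EBn n (fun i : NI Γ ι P m s => i.L) (fun i t => G i.q (i.e * t)) (fun i => i.y / i.e) := by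
  have h1 : EBn n (fun i : NI Γ ι P m s => i.L) (fun i => G i.q)
      (fun i => i.e * (i.y / i.e)) := by
    have h2 := EBn_pull (EBn_iff.1 hG n) (fun i : NI Γ ι P m s => (i.q, i.y))
    have h3 : EBn n (fun i : NI Γ ι P m s => i.L) (fun i => G i.q) (fun i => i.y) := by
      refine N2_mono (fun i => N2x_nn (m := m) (s := s) (i.q, i.y)) (fun i => ?_) h2
      have h4 := i.q.ax.pos
      have h5 := i.hl
      have h6 := i.hy
      have h7 := abs_nonneg i.y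
      unfold NI.L
      exact Real.log_le_log (by positivity) (by
        show 2 + i.q.l + |i.y| ≤ 3 + i.R
        linarith)
    have e1 : (fun i : NI Γ ι P m s => i.e * (i.y / i.e)) = fun i => i.y :=
      funext fun i => mul_div_cancel₀ _ i.hd.epos.ne'
    rw [e1]
    exact h3
  exact EBn_comp (g := fun (i : NI Γ ι P m s) (y : ℝ) => G i.q y)
    (f := fun (i : NI Γ ι P m s) (t : ℝ) => i.e * t) (fun i => NI_L0 i) h1 (NI_lin n)

private theorem NI_one (n : ℕ) : EBn n (fun i : NI Γ ι P m s => i.L)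
    (fun _ _ => (1 : ℂ)) (fun i => i.y / i.e) := by
  refine N2_of (fun i => contDiff_const) (fun k _ => ⟨1, fun i => ?_⟩)
  have h2 : (1 : ℝ) ≤ Real.exp (1 * i.L) := Real.one_le_exp (by rw [one_mul]; exact NI_L0 i)
  rw [one_mul]
  refine le_trans ?_ h2
  rw [iteratedDeriv_const]
  split_ifs
  · rw [norm_one]
  · rw [norm_zero]
    exact zero_le_one

/-- The outer cut-off. -/
private theorem NI_T1 (n : ℕ) : EBn n (fun i : NI Γ ι P m s => i.L)
    (fun i t => 1 - ((cut (4 * (i.e * t) / i.δ) : ℝ) : ℂ)) (fun i => i.y / i.e) := by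
  refine EBn_sub (fun i => NI_L0 i) (NI_one n) (N2_real (fun i => NI_L0 i) ?_)
  have hs : ∀ i : NI Γ ι P m s, (fun t : ℝ => (cut (4 * (i.e * t) / i.δ) : ℝ)) =
      fun t => (fun y : ℝ => cut y) (4 * i.e / i.δ * t) := by
    intro i
    funext t
    show cut (4 * (i.e * t) / i.δ) = cut (4 * i.e / i.δ * t)
    congr 1
    ring
  refine N2_of (fun i => ?_) (fun k _ => ?_)
  · rw [hs i]
    exact cut.contDiff.comp (contDiff_const.mul contDiff_id)
  · obtain ⟨C, hC⟩ := N2_cut k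
    have hC0 : 0 ≤ C := (norm_nonneg _).trans (hC 0)
    refine ⟨4 ^ k * C, fun i => ?_⟩
    have hd := i.hd.dpos
    have he := i.hd.epos
    have hed := i.hd.ele
    have h4 : 4 * i.e / i.δ ≤ 4 := by
      rw [div_le_iff₀ hd]
      linarith
    have h40 : 0 ≤ 4 * i.e / i.δ := by positivity
    rw [hs i, iteratedDeriv_comp_const_mul (f := fun y : ℝ => (cut y : ℝ)) cut.contDiff]
    show ‖(4 * i.e / i.δ) ^ k * iteratedDeriv k (fun y : ℝ => (cut y : ℝ)) _‖ ≤ _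
    rw [norm_mul, norm_pow, Real.norm_of_nonneg h40]
    refine (mul_le_mul (pow_le_pow_left₀ h40 h4 k) (hC _) (norm_nonneg _) (by positivity)).trans ?_
    exact le_mul_of_one_le_right (by positivity)
      (Real.one_le_exp (mul_nonneg (by positivity) (NI_L0 i)))

/-- The inner cut-off. -/
private theorem NI_T2 (n : ℕ) : EBn n (fun i : NI Γ ι P m s => i.L)
    (fun i t => 1 - thE i.δ i.e ((i.e * t : ℝ) : ℂ)) (fun i => i.y / i.e) := by
  refine EBn_sub (fun i => NI_L0 i) (NI_one n) ?_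
  refine N2_of (fun i => ?_) (fun k _ => ?_)
  · exact (N2x_thE_smooth i.hd.epos).comp (contDiff_const.mul contDiff_id)
  · refine ⟨k.factorial * Real.exp 1, fun i => ?_⟩
    have hd := i.hd.dpos
    have he := i.hd.epos
    have h1 := iteratedDeriv_comp_const_smul (n := k) (f := fun x : ℝ => thE i.δ i.e x)
      ((N2x_thE_smooth (δ := i.δ) he).of_le (by exact_mod_cast le_top)) i.e
    have h2 : (fun t : ℝ => thE i.δ i.e ((i.e * t : ℝ) : ℂ)) =
      fun t : ℝ => (fun x : ℝ => thE i.δ i.e x) (i.e * t) := rfl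
    rw [h2, h1, N2x_ofReal (thE_diff he) k]
    have h3 := thE_deriv hd.le he k ((i.e * (i.y / i.e) : ℝ) : ℂ) (Complex.ofReal_im _)
    show ‖(i.e ^ k) • iteratedDeriv k (thE i.δ i.e) ((i.e * (i.y / i.e) : ℝ) : ℂ)‖ ≤ _
    rw [norm_smul, norm_pow, Real.norm_of_nonneg he.le]
    have h4 : i.e ^ k * ‖iteratedDeriv k (thE i.δ i.e) ((i.e * (i.y / i.e) : ℝ) : ℂ)‖ ≤
        k.factorial * Real.exp 1 := by
      calc i.e ^ k * ‖iteratedDeriv k (thE i.δ i.e) ((i.e * (i.y / i.e) : ℝ) : ℂ)‖ ≤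
          i.e ^ k * (k.factorial * Real.exp 1 / i.e ^ k) :=
            mul_le_mul_of_nonneg_left h3 (by positivity)
        _ = k.factorial * Real.exp 1 := by field_simp
    refine h4.trans (le_mul_of_one_le_right (by positivity) (Real.one_le_exp ?_))
    exact mul_nonneg (by positivity) (NI_L0 i)

/-- The symbols. -/
private theorem NI_T4 (h : CF Γ D m a b s) {r0 : ℝ} (hr0 : 0 < r0) (j : ℕ) :
    EBn 3 (fun i : NI Γ ι P m s => i.L)
    (fun i t => (1 / (i.M * i.τ)) • alc r0 j i.f i.τ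
      (Fd (mm m (s i.q.i) i.q.p) i.q.g i.q.x i.q.v (i.e * t))) (fun i => i.y / i.e) := by
  obtain ⟨C, hC⟩ := alc_bound hr0 j 3
  have h1 : EBn 3 (fun i : NI Γ ι P m s => i.L)
      (fun i r => (1 / (i.M * i.τ)) • alc r0 j i.f i.τ r)
      (fun i => Fd (mm m (s i.q.i) i.q.p) i.q.g i.q.x i.q.v (i.e * (i.y / i.e))) := by
    refine N2_of (fun i => (hC i.f i.ρ i.M i.τ i.hρ i.hf i.hτ).1.const_smul (1 / (i.M * i.τ)))
      (fun k hk => ⟨C, fun i => ?_⟩)
    obtain ⟨h2, h3⟩ := hC i.f i.ρ i.M i.τ i.hρ i.hf i.hτ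
    have hM0 : 0 ≤ i.M := (norm_nonneg _).trans (i.hf.bound 0 (Nat.zero_le _) 0)
    have hMτ : 0 ≤ i.M * i.τ := mul_nonneg hM0 (by linarith [i.hτ])
    rw [← norm_iteratedFDeriv_eq_norm_iteratedDeriv]
    rw [iteratedFDeriv_const_smul_apply' (h2.contDiffAt.of_le (by exact_mod_cast le_top)),
      norm_smul, norm_iteratedFDeriv_eq_norm_iteratedDeriv,
      Real.norm_of_nonneg (one_div_nonneg.2 hMτ)]
    have h4 : ‖iteratedDeriv k (alc r0 j i.f i.τ)
        (Fd (mm m (s i.q.i) i.q.p) i.q.g i.q.x i.q.v (i.e * (i.y / i.e)))‖ ≤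
        C * Real.exp ((C : ℝ) * i.L) * (i.M * i.τ) := by
      refine (h3 k hk _).trans (mul_le_mul_of_nonneg_right ?_ hMτ)
      refine mul_le_mul_of_nonneg_left ?_ (Nat.cast_nonneg _)
      rw [Real.exp_nat_mul, NI_exp]
      have h5 := i.hρ
      have h6 := i.hR
      exact pow_le_pow_left₀ (by linarith) (by linarith) C
    have h7 := mul_le_mul_of_nonneg_left h4 (one_div_nonneg.2 hMτ)
    refine h7.trans ?_
    rcases hMτ.eq_or_lt with h8 | h8
    · rw [← h8, mul_zero, mul_zero]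
      positivity
    · have h9 : 1 / (i.M * i.τ) * (C * Real.exp ((C : ℝ) * i.L) * (i.M * i.τ)) =
        C * Real.exp ((C : ℝ) * i.L) := by
        rw [mul_comm (1 / (i.M * i.τ)), mul_assoc, mul_one_div_cancel h8.ne', mul_one]
      rw [h9]
  exact EBn_comp (g := fun (i : NI Γ ι P m s) (r : ℝ) =>
      (1 / (i.M * i.τ)) • alc r0 j i.f i.τ r)
    (f := fun (i : NI Γ ι P m s) (t : ℝ) =>
      Fd (mm m (s i.q.i) i.q.p) i.q.g i.q.x i.q.v (i.e * t)) (fun i => NI_L0 i) h1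
    (NI_LQ (N2x_LQd h) 3)

/-- The amplitude, normalised and rescaled. -/
private noncomputable def NI.T (r0 c : ℝ) (n : ℕ) (i : NI Γ ι P m s) (t : ℝ) : ℂ :=
  (1 - ((cut (4 * (i.e * t) / i.δ) : ℝ) : ℂ)) * (1 - thE i.δ i.e ((i.e * t : ℝ) : ℂ)) *
    (((bq c n i.q (i.e * t) : ℝ) : ℂ) * ∑ j ∈ Finset.range (2 + 1),
      ((uu m (s i.q.i) j (i.q.p, i.q.X (i.e * t), i.q.g • i.q.X (i.e * t)) : ℝ) : ℂ) *
        ((1 / (i.M * i.τ)) • alc r0 j i.f i.τ
          (Fd (mm m (s i.q.i) i.q.p) i.q.g i.q.x i.q.v (i.e * t))))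

private theorem NI_T (h : CF Γ D m a b s) {r0 : ℝ} (hr0 : 0 < r0) {c : ℝ} {n : ℕ}
    (hb : BQ Γ ι P m s c n) :
    EBn 3 (fun i : NI Γ ι P m s => i.L) (fun i => i.T r0 c n) (fun i => i.y / i.e) := by
  have hL : ∀ i : NI Γ ι P m s, 0 ≤ i.L := fun i => NI_L0 i
  unfold NI.T
  refine N2_mul hL (N2_mul hL (NI_T1 3) (NI_T2 3)) (N2_mul hL (N2_real hL (NI_LQ hb.lq 3)) ?_)
  refine EBn_sum hL _ (fun j _ => ?_)
  exact N2_mul hL (N2_real hL (NI_LQ (LQ_u h j) 3)) (NI_T4 h hr0 j)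

private theorem NI_bd (h : CF Γ D m a b s) {r0 : ℝ} (hr0 : 0 < r0) {c : ℝ} {n : ℕ}
    (hb : BQ Γ ι P m s c n) : ∃ N : ℕ, ∀ k ≤ 3, ∀ i : NI Γ ι P m s,
      ‖iteratedDeriv k (i.T r0 c n) (i.y / i.e)‖ ≤ N * (3 + i.R) ^ N := by
  refine N2_fin (fun k C C' hCC' hQ i => ?_) (fun k hk => ?_)
  · refine (hQ i).trans ?_
    have h1 := NI_R i
    exact mul_le_mul (by exact_mod_cast hCC') (pow_le_pow_right₀ (by linarith) hCC')
      (pow_nonneg (by linarith) _) (Nat.cast_nonneg _)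
  · obtain ⟨C, hC⟩ := (NI_T h hr0 hb).bound k hk
    obtain ⟨N, hN⟩ := exists_nat_ge |C|
    refine ⟨N, fun i => ?_⟩
    have h1 := hC i
    rw [norm_iteratedFDeriv_eq_norm_iteratedDeriv] at h1
    refine h1.trans ?_
    have h2 := N2_exp_mono (C := C) (NI_L0 i) le_rfl
    refine h2.trans ?_
    refine mul_le_mul hN ?_ (Real.exp_pos _).le (Nat.cast_nonneg _)
    rw [← NI_exp i, ← Real.exp_nat_mul]
    exact Real.exp_le_exp.2 (mul_le_mul_of_nonneg_right hN (NI_L0 i))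

/-! ### The amplitude and the integrand -/

private noncomputable def N2x_G (m : Pl → Co) (s : ι → P × Pl → ℝ) (r0 c : ℝ) (n : ℕ)
    (q : AxU Γ ι P m s) (f : ℝ → ℂ) (τ δ e : ℝ) (y : ℝ) : ℂ :=
  (1 - ((cut (4 * y / δ) : ℝ) : ℂ)) * (1 - thE δ e y) *
    (((bq c n q y : ℝ) : ℂ) * ∑ j ∈ Finset.range (2 + 1),
      ((uu m (s q.i) j (q.p, q.X y, q.g • q.X y) : ℝ) : ℂ) *
        alc r0 j f τ (Fd (mm m (s q.i) q.p) q.g q.x q.v y))

private theorem N2x_cut_one {y : ℝ} (hy : |y| ≤ 1) : cut y = 1 := by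
  apply cut.one_of_mem_closedBall
  rw [Metric.mem_closedBall, Real.dist_eq, sub_zero]
  exact hy

private theorem N2x_UU (h : CF Γ D m a b s) (j : ℕ) (q : AxU Γ ι P m s) (y : ℝ) :
    UU (Gx (mm m (s q.i) q.p) (q.X y)) j (Vx (mm m (s q.i) q.p) (q.X y) (q.g • q.X y)) =
      B0 (mm m (s q.i) q.p) (q.X y) (q.g • q.X y) *
        uu m (s q.i) j (q.p, q.X y, q.g • q.X y) := by
  have h1 := uu_UU h q.i j (q.p, q.X y, q.g • q.X y)
  have h2 := uu_UU h q.i 0 (q.p, q.X y, q.g • q.X y)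
  rw [uu_zero h, mul_one] at h2
  have h3 : B0 (mm m (s q.i) q.p) (q.X y) (q.g • q.X y) =
      Real.exp (-(ff m (s q.i) (q.p, q.X y, q.g • q.X y) / 2)) := h2
  rw [h3]
  exact h1

private theorem N2x_eq (h : CF Γ D m a b s) {r0 : ℝ} (hr0 : 0 < r0)
    (hlow : ∀ (q : AxU Γ ι P m s) (y : ℝ), r0 ≤ Fd (mm m (s q.i) q.p) q.g q.x q.v y)
    {c : ℝ} {n : ℕ} (hb : BQ Γ ι P m s c n)
    (q : AxU Γ ι P m s) (f : ℝ → ℂ) (τ δ e y : ℝ) :
    (((1 - cut (4 * y / δ)) * (1 - thR δ e y) * cut (y / q.r c n) : ℝ) : ℂ) *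
        KE (mm m (s q.i) q.p) 2 f τ q.g (q.X y) * ((q.J y : ℝ) : ℂ) =
      ((B0 (mm m (s q.i) q.p) q.x (q.g • q.x) : ℝ) : ℂ) *
        (Complex.exp (-(Complex.I * τ * Fd (mm m (s q.i) q.p) q.g q.x q.v y)) *
          N2x_G m s r0 c n q f τ δ e y) := by
  have h0 := congrArg (fun r : ℝ => (r : ℂ)) (hb.eq q y)
  simp only [Complex.ofReal_mul] at h0
  have hd : ds (mm m (s q.i) q.p) (q.X y) (q.g • q.X y) =
    Fd (mm m (s q.i) q.p) q.g q.x q.v y := rfl
  have h1 : KC (mm m (s q.i) q.p) 2 f τ (q.X y) (q.g • q.X y) =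
      ((B0 (mm m (s q.i) q.p) (q.X y) (q.g • q.X y) : ℝ) : ℂ) * ∑ j ∈ Finset.range (2 + 1),
      ((uu m (s q.i) j (q.p, q.X y, q.g • q.X y) : ℝ) : ℂ) *
        alc r0 j f τ (Fd (mm m (s q.i) q.p) q.g q.x q.v y) := by
    unfold KC
    rw [Finset.mul_sum]
    refine Finset.sum_congr rfl fun j _ => ?_
    rw [N2x_UU h j q y, hd, alc_eq hr0 j f τ (r := Fd (mm m (s q.i) q.p) q.g q.x q.v y)
      (by linarith [hlow q y])]
    push_cast
    ring
  unfold KE N2x_G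
  rw [h1, hd, thE_ofReal]
  generalize (∑ j ∈ Finset.range (2 + 1),
      ((uu m (s q.i) j (q.p, q.X y, q.g • q.X y) : ℝ) : ℂ) *
        alc r0 j f τ (Fd (mm m (s q.i) q.p) q.g q.x q.v y)) = S
  push_cast
  linear_combination ((1 - ((cut (4 * y / δ) : ℝ) : ℂ)) * (1 - ((thR δ e y : ℝ) : ℂ)) * S *
    (Complex.exp (-(Complex.I * τ * Fd (mm m (s q.i) q.p) q.g q.x q.v y)))) * h0

private theorem N2x_GT (r0 c : ℝ) (n : ℕ) (hr0 : 0 < r0) (i : NI Γ ι P m s) :
    N2x_G m s r0 c n i.q i.f i.τ i.δ i.e =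
      fun y => ((i.M * i.τ : ℝ) : ℂ) * i.T r0 c n (i.e⁻¹ * y) := by
  funext y
  have he : i.e * (i.e⁻¹ * y) = y := by
    rw [← mul_assoc, mul_inv_cancel₀ i.hd.epos.ne', one_mul]
  have hM0 : 0 ≤ i.M := (norm_nonneg _).trans (i.hf.bound 0 (Nat.zero_le _) 0)
  have hMτ : 0 ≤ i.M * i.τ := mul_nonneg hM0 (by linarith [i.hτ])
  have h1 : ∀ (j : ℕ) (r : ℝ), alc r0 j i.f i.τ r =
      ((i.M * i.τ : ℝ) : ℂ) * ((1 / (i.M * i.τ)) • alc r0 j i.f i.τ r) := by
    intro j r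
    rcases hMτ.eq_or_lt with h8 | h8
    · obtain ⟨C, hC⟩ := alc_bound hr0 j 3
      have h2 := (hC i.f i.ρ i.M i.τ i.hρ i.hf i.hτ).2 0 (Nat.zero_le _) r
      rw [iteratedDeriv_zero, ← h8, mul_zero] at h2
      rw [norm_le_zero_iff.1 h2, smul_zero, mul_zero]
    · rw [Complex.real_smul, ← mul_assoc, ← Complex.ofReal_mul, mul_one_div_cancel h8.ne',
        Complex.ofReal_one, one_mul]
  unfold N2x_G NI.T
  rw [he]
  have h2 : (∑ j ∈ Finset.range (2 + 1),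
      ((uu m (s i.q.i) j (i.q.p, i.q.X y, i.q.g • i.q.X y) : ℝ) : ℂ) *
        alc r0 j i.f i.τ (Fd (mm m (s i.q.i) i.q.p) i.q.g i.q.x i.q.v y)) =
      ((i.M * i.τ : ℝ) : ℂ) * ∑ j ∈ Finset.range (2 + 1),
      ((uu m (s i.q.i) j (i.q.p, i.q.X y, i.q.g • i.q.X y) : ℝ) : ℂ) *
        ((1 / (i.M * i.τ)) • alc r0 j i.f i.τ
          (Fd (mm m (s i.q.i) i.q.p) i.q.g i.q.x i.q.v y)) := by
    rw [Finset.mul_sum]
    refine Finset.sum_congr rfl fun j _ => ?_
    refine Eq.trans (congrArg (fun w : ℂ => ((uu m (s i.q.i) j (i.q.p, i.q.X y,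
      i.q.g • i.q.X y) : ℝ) : ℂ) * w) (h1 j (Fd (mm m (s i.q.i) i.q.p) i.q.g i.q.x i.q.v y))) ?_
    ring
  rw [h2]
  ring

/-- The final arithmetic. -/
private theorem N2x_arith (Cn : ℝ) (hCn : 0 ≤ Cn) (n1 N K : ℕ) : ∃ A : ℕ, 1 ≤ A ∧
    ∀ R M τ e T : ℝ, 0 ≤ R → 0 ≤ M → 1 ≤ τ → 0 < e → 0 ≤ T →
      (n1 * (3 + R) ^ n1 / T) * (Cn * (M * τ * (N * (3 + R) ^ N)) * (1 / 2) *
        ((K * (3 + R) ^ K / e) ^ 4 / τ) ^ 3) ≤
      A * (2 + R) ^ A * (M * τ / (e ^ 12 * τ ^ 3)) / T := by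
  obtain ⟨A0, hA0⟩ := exists_nat_ge (n1 * Cn * N * (1 / 2) * (K : ℝ) ^ 12)
  refine ⟨max 1 (max A0 (2 * (n1 + N + 12 * K))), le_max_left _ _, ?_⟩
  intro R M τ e T hR hM hτ he hT
  set A := max 1 (max A0 (2 * (n1 + N + 12 * K))) with hA
  have h1 : (3 + R) ^ (n1 + N + 12 * K) ≤ (2 + R) ^ A := by
    have h2 : 3 + R ≤ (2 + R) ^ 2 := by nlinarith
    calc (3 + R) ^ (n1 + N + 12 * K) ≤ ((2 + R) ^ 2) ^ (n1 + N + 12 * K) :=
          pow_le_pow_left₀ (by linarith) h2 _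
      _ = (2 + R) ^ (2 * (n1 + N + 12 * K)) := by rw [← pow_mul]
      _ ≤ (2 + R) ^ A := pow_le_pow_right₀ (by linarith)
          ((le_max_right _ _).trans (le_max_right _ _))
  have h3 : n1 * Cn * N * (1 / 2) * (K : ℝ) ^ 12 ≤ A :=
    hA0.trans (by exact_mod_cast (le_max_left _ _).trans (le_max_right _ _))
  have hτ0 : 0 < τ := by linarith
  have h4 : (n1 * (3 + R) ^ n1 / T) * (Cn * (M * τ * (N * (3 + R) ^ N)) * (1 / 2) *
        ((K * (3 + R) ^ K / e) ^ 4 / τ) ^ 3) =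
      (n1 * Cn * N * (1 / 2) * (K : ℝ) ^ 12) * (3 + R) ^ (n1 + N + 12 * K) *
        (M * τ / (e ^ 12 * τ ^ 3)) / T := by
    have h5 : ((K * (3 + R) ^ K / e) ^ 4 / τ) ^ 3 =
        (K : ℝ) ^ 12 * (3 + R) ^ (12 * K) / (e ^ 12 * τ ^ 3) := by
      have h6 : (K * (3 + R) ^ K / e) ^ 4 / τ = (K : ℝ) ^ 4 * (3 + R) ^ (4 * K) / (e ^ 4 * τ) := by
        rw [div_pow, mul_pow, ← pow_mul, div_div, mul_comm K 4]
      have h7 : (3 + R) ^ (12 * K) = ((3 + R) ^ (4 * K)) ^ 3 := by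
        rw [← pow_mul]
        congr 1
        ring
      rw [h6, h7]
      ring
    rw [h5, pow_add, pow_add]
    ring
  rw [h4]
  refine div_le_div_of_nonneg_right ?_ hT
  refine mul_le_mul_of_nonneg_right ?_ (by positivity)
  exact mul_le_mul h3 h1 (by positivity) (Nat.cast_nonneg _)

theorem near_ibp (h : CF Γ D m a b s) {c : ℝ} {n : ℕ} (hb : BQ Γ ι P m s c n) :
    ∃ A : ℕ, 1 ≤ A ∧ ∀ (q : AxU Γ ι P m s) (f : ℝ → ℂ) (ρ R M τ δ e : ℝ), 0 ≤ ρ →
      ρ ≤ R → BE73.AmpN 4 f ρ M → 1 ≤ τ → DH δ e → 2 * δ ≤ q.r c n → q.l ≤ R →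
      ‖∫ y : ℝ, (((1 - cut (4 * y / δ)) * (1 - thR δ e y) * cut (y / q.r c n) : ℝ) : ℂ) *
        KE (mm m (s q.i) q.p) 2 f τ q.g (q.X y) * ((q.J y : ℝ) : ℂ)‖ ≤
      A * (2 + R) ^ A * (M * τ / (e ^ 12 * τ ^ 3)) /
        √(trM (mm m (s q.i) q.p) q.x q.v q.l - 2) := by
  obtain ⟨r0, hr0, hlow⟩ := N2x_low (ι := ι) (P := P) h
  obtain ⟨n1, hn1⟩ := B0_le (ι := ι) (P := P) h
  obtain ⟨N, hN⟩ := NI_bd (ι := ι) (P := P) h hr0 hb
  obtain ⟨Cn, hCn, hnsp⟩ := nsp 3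
  obtain ⟨c1, hc1, hlowU⟩ := Fd_lowU (ι := ι) (P := P) h
  have hl0 : ∀ q : AxU Γ ι P m s, 0 ≤ q.l := fun q => q.ax.pos.le
  obtain ⟨hds, hdb⟩ := (LQ_iff hl0).1 (N2x_LQd (ι := ι) (P := P) h)
  -- one constant for the derivatives of the displacement
  obtain ⟨K0, hK0⟩ : ∃ K0 : ℕ, ∀ k ≤ 4, ∀ (q : AxU Γ ι P m s) (y R : ℝ), |y| ≤ 1 → q.l ≤ R →
      |iteratedDeriv k (fun y => Fd (mm m (s q.i) q.p) q.g q.x q.v y) y| ≤
        K0 * (3 + R) ^ K0 := by
    refine N2_fin (fun k C C' hCC' hQ q y R hy hR => ?_) (fun k _ => ?_)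
    · refine (hQ q y R hy hR).trans ?_
      have h1 := hl0 q
      exact mul_le_mul (by exact_mod_cast hCC') (pow_le_pow_right₀ (by linarith) hCC')
        (pow_nonneg (by linarith) _) (Nat.cast_nonneg _)
    · obtain ⟨C, hC⟩ := hdb k
      refine ⟨C, fun q y R hy hR => (hC q y).trans ?_⟩
      have h1 := hl0 q
      have h2 := abs_nonneg y
      exact mul_le_mul_of_nonneg_left (pow_le_pow_left₀ (by linarith) (by linarith) _)
        (Nat.cast_nonneg _)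
  obtain ⟨K1, hK1⟩ := exists_nat_ge (4 / min c1 1)
  obtain ⟨A, hA1, hA⟩ := N2x_arith Cn hCn n1 N (max 1 (max K0 K1))
  refine ⟨A, hA1, ?_⟩
  intro q f ρ R M τ δ e hρ hρR hf hτ hd hδr hlR
  set K := max 1 (max K0 K1) with hK
  have hR0 : 0 ≤ R := hρ.trans hρR
  have hM0 : 0 ≤ M := (norm_nonneg _).trans (hf.bound 0 (Nat.zero_le _) 0)
  have hτ0 : 0 < τ := by linarith
  have he := hd.epos
  have hδ := hd.dpos
  have he1 : e ≤ 1 := by
    have := hd.ele
    have := hd.dle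
    linarith
  set T := √(trM (mm m (s q.i) q.p) q.x q.v q.l - 2) with hT
  have hT0 : 0 ≤ T := Real.sqrt_nonneg _
  set G := N2x_G m s r0 c n q f τ δ e with hG
  -- the index of a point
  have hI : ∀ y : ℝ, |y| ≤ 1 → ∃ i : NI Γ ι P m s, i.q = q ∧ i.f = f ∧ i.ρ = ρ ∧ i.R = R ∧
      i.M = M ∧ i.τ = τ ∧ i.δ = δ ∧ i.e = e ∧ i.y = y := fun y hy =>
    ⟨⟨q, f, ρ, R, M, τ, δ, e, y, hρ, hρR, hf, hτ, hd, hlR, hy⟩, rfl, rfl, rfl, rfl, rfl, rfl,
      rfl, rfl, rfl⟩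
  -- the scale
  have hX1 : 1 ≤ (K : ℝ) * (3 + R) ^ K := by
    have h1 : (1 : ℝ) ≤ K := by exact_mod_cast le_max_left _ _
    have h2 : (1 : ℝ) ≤ (3 + R) ^ K := one_le_pow₀ (by linarith)
    nlinarith
  set H := (K : ℝ) * (3 + R) ^ K / e with hH
  have hHe : 1 / e ≤ H := div_le_div_of_nonneg_right hX1 he.le
  have hH1 : 1 ≤ H := by
    refine le_trans ?_ hHe
    rw [le_div_iff₀ he]
    linarith
  have hHX : (K : ℝ) * (3 + R) ^ K ≤ H := by
    rw [hH, le_div_iff₀ he]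
    nlinarith
  -- the support
  have hsup : ∀ y, G y ≠ 0 → δ / 4 ≤ |y| ∧ |y| ≤ 1 / 2 := by
    intro y hy
    constructor
    · by_contra h1
      push Not at h1
      apply hy
      have h2 : cut (4 * y / δ) = 1 := by
        apply N2x_cut_one
        rw [abs_div, abs_mul, abs_of_pos hδ, div_le_one hδ, abs_of_pos (by norm_num : (0 : ℝ) < 4)]
        linarith
      rw [hG]
      unfold N2x_G
      rw [h2, Complex.ofReal_one, sub_self, zero_mul, zero_mul]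
    · by_contra h1
      push Not at h1
      apply hy
      have h2 : (1 : ℝ) ≤ (2 + q.l) ^ n := one_le_pow₀ (by linarith [hl0 q])
      have h3 : q.r c n ≤ c := by
        unfold AxU.r
        exact div_le_self hb.c_pos.le h2
      have h4 : bq c n q y = 0 := hb.zero q y (by linarith [hb.c_le])
      rw [hG]
      unfold N2x_G
      rw [h4, Complex.ofReal_zero, zero_mul, mul_zero]
  have hts : ∀ y ∈ tsupport G, δ / 4 ≤ |y| ∧ |y| ≤ 1 / 2 := by
    have h1 : tsupport G ⊆ {y : ℝ | δ / 4 ≤ |y|} ∩ {y : ℝ | |y| ≤ 1 / 2} := by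
      refine closure_minimal (fun y hy => hsup y hy) ?_
      exact (isClosed_le continuous_const continuous_abs).inter
        (isClosed_le continuous_abs continuous_const)
    exact fun y hy => h1 hy
  -- smoothness of the amplitude
  have hGT : ∀ i : NI Γ ι P m s, i.q = q → i.f = f → i.M = M → i.τ = τ → i.δ = δ → i.e = e →
      G = fun y => ((M * τ : ℝ) : ℂ) * i.T r0 c n (e⁻¹ * y) := by
    intro i e1 e2 e3 e4 e5 e6
    have h1 := N2x_GT r0 c n hr0 i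
    rw [e1, e2, e3, e4, e5, e6] at h1
    exact h1
  have hGs : ContDiff ℝ ∞ G := by
    obtain ⟨i, e1, e2, -, -, e3, e4, e5, e6, -⟩ := hI 0 (by rw [abs_zero]; exact zero_le_one)
    rw [hGT i e1 e2 e3 e4 e5 e6]
    exact contDiff_const.mul (((NI_T h hr0 hb).smooth i).comp (contDiff_const.mul contDiff_id))
  have hGb : ∀ k ≤ 3, ∀ y, ‖iteratedDeriv k G y‖ ≤
      (M * τ * (N * (3 + R) ^ N)) * H ^ (3 * k) := by
    intro k hk y
    have hpos : 0 ≤ (M * τ * (N * (3 + R) ^ N)) * H ^ (3 * k) := by positivity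
    rcases lt_or_ge (1 : ℝ) |y| with hy | hy
    · have h1 : G =ᶠ[𝓝 y] fun _ => (0 : ℂ) := by
        have h2 : ∀ᶠ z in 𝓝 y, 1 < |z| := continuous_abs.continuousAt.eventually (lt_mem_nhds hy)
        filter_upwards [h2] with z hz
        by_contra h3
        have := (hsup z h3).2
        linarith
      rw [h1.iteratedDeriv_eq k, iteratedDeriv_const]
      split_ifs <;> rw [norm_zero] <;> exact hpos
    · obtain ⟨i, e1, e2, -, e7, e3, e4, e5, e6, e8⟩ := hI y hy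
      have h1 := hN k hk i
      rw [e7, e6, e8] at h1
      have h2 : ContDiff ℝ k (i.T r0 c n) := ((NI_T h hr0 hb).smooth i).of_le
        (by exact_mod_cast le_top)
      have h3 : iteratedDeriv k G y =
          ((M * τ : ℝ) : ℂ) * ((e⁻¹ ^ k) • iteratedDeriv k (i.T r0 c n) (e⁻¹ * y)) := by
        rw [hGT i e1 e2 e3 e4 e5 e6]
        have h4 : ContDiff ℝ k (fun y => i.T r0 c n (e⁻¹ * y)) :=
          h2.comp (contDiff_const.mul contDiff_id)
        rw [iteratedDeriv_const_mul (f := fun y => i.T r0 c n (e⁻¹ * y)) _ h4.contDiffAt,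
          iteratedDeriv_comp_const_smul h2 e⁻¹]
      have h5 : e⁻¹ * y = y / e := by rw [div_eq_mul_inv, mul_comm]
      rw [h3, norm_mul, Complex.norm_real, Real.norm_of_nonneg (by positivity), norm_smul,
        norm_pow, Real.norm_of_nonneg (by positivity), h5]
      have h6 : e⁻¹ ^ k ≤ H ^ (3 * k) := by
        rw [one_div] at hHe
        calc e⁻¹ ^ k ≤ H ^ k := pow_le_pow_left₀ (by positivity) hHe k
          _ ≤ H ^ (3 * k) := pow_le_pow_right₀ hH1 (by omega)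
      calc M * τ * (e⁻¹ ^ k * ‖iteratedDeriv k (i.T r0 c n) (y / e)‖) ≤
          M * τ * (H ^ (3 * k) * (N * (3 + R) ^ N)) :=
            mul_le_mul_of_nonneg_left (mul_le_mul h6 h1 (norm_nonneg _) (by positivity))
              (by positivity)
        _ = (M * τ * (N * (3 + R) ^ N)) * H ^ (3 * k) := by ring
  -- the phase
  have hφd : ∀ y, deriv (fun y => Fd (mm m (s q.i) q.p) q.g q.x q.v y) y =
      Fd1 (mm m (s q.i) q.p) q.g q.x q.v y := fun y =>
    (Fd_deriv h.hX h.hO (hm_mm h q.i q.p) q.ax y).deriv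
  have hφ1 : ∀ y ∈ tsupport G,
      1 ≤ H * |deriv (fun y => Fd (mm m (s q.i) q.p) q.g q.x q.v y) y| := by
    intro y hy
    obtain ⟨h1, h2⟩ := hts y hy
    rw [hφd]
    have hm0 : 0 < min c1 1 := lt_min hc1 one_pos
    have h3 : min c1 1 * (e / 4) ≤ |Fd1 (mm m (s q.i) q.p) q.g q.x q.v y| := by
      have h4 : e / 4 ≤ |y| := by
        have := hd.ele
        linarith
      have h5 : min c1 1 * |y| ≤ min (c1 * |y|) 1 := by
        refine le_min (mul_le_mul_of_nonneg_right (min_le_left _ _) (abs_nonneg _)) ?_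
        have h6 : min c1 1 ≤ 1 := min_le_right _ _
        have h7 := abs_nonneg y
        nlinarith
      have h8 : min c1 1 * (e / 4) ≤ min (c1 * |y|) 1 :=
        (mul_le_mul_of_nonneg_left h4 hm0.le).trans h5
      refine h8.trans ?_
      rcases le_total 0 y with hy0 | hy0
      · rw [abs_of_nonneg hy0]
        exact ((hlowU q y).1 hy0).trans (le_abs_self _)
      · rw [abs_of_nonpos hy0]
        have := (hlowU q y).2 hy0
        exact (by linarith : min (c1 * -y) 1 ≤ -Fd1 (mm m (s q.i) q.p) q.g q.x q.v y).trans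
          (neg_le_abs _)
    have h4 : 4 / min c1 1 ≤ (K : ℝ) * (3 + R) ^ K := by
      refine hK1.trans ?_
      have h5 : (K1 : ℝ) ≤ K := by
        exact_mod_cast (le_max_right _ _).trans (le_max_right _ _)
      have h6 : (1 : ℝ) ≤ (3 + R) ^ K := one_le_pow₀ (by linarith)
      exact h5.trans (le_mul_of_one_le_right (Nat.cast_nonneg _) h6)
    have h5 : 4 / min c1 1 / e ≤ H := div_le_div_of_nonneg_right h4 he.le
    calc (1 : ℝ) = (4 / min c1 1 / e) * (min c1 1 * (e / 4)) := by field_simp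
      _ ≤ H * |Fd1 (mm m (s q.i) q.p) q.g q.x q.v y| :=
          mul_le_mul h5 h3 (by positivity) (by linarith)
  have hφk : ∀ k ≤ 3, ∀ y ∈ tsupport G,
      |iteratedDeriv (k + 1) (fun y => Fd (mm m (s q.i) q.p) q.g q.x q.v y) y| ≤
        H ^ (k + 1) := by
    intro k hk y hy
    obtain ⟨-, h2⟩ := hts y hy
    refine (hK0 (k + 1) (by omega) q y R (by linarith) hlR).trans ?_
    have h3 : (K0 : ℝ) * (3 + R) ^ K0 ≤ K * (3 + R) ^ K := by
      have h4 : K0 ≤ K := (le_max_left _ _).trans (le_max_right _ _)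
      exact mul_le_mul (by exact_mod_cast h4) (pow_le_pow_right₀ (by linarith) h4)
        (by positivity) (Nat.cast_nonneg _)
    refine h3.trans (hHX.trans ?_)
    exact le_self_pow₀ hH1 (Nat.succ_ne_zero k)
  have hmain := hnsp (fun y => Fd (mm m (s q.i) q.p) q.g q.x q.v y) G H
    (M * τ * (N * (3 + R) ^ N)) (1 / 2) τ (hds q) hGs hH1 hτ0 (by norm_num)
    (fun y hy => by
      by_contra h1
      have := (hsup y h1).2
      linarith) hφ1 hφk hGb
  have hint : ∫ y : ℝ, (((1 - cut (4 * y / δ)) * (1 - thR δ e y) * cut (y / q.r c n) : ℝ) : ℂ) *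
        KE (mm m (s q.i) q.p) 2 f τ q.g (q.X y) * ((q.J y : ℝ) : ℂ) =
      ((B0 (mm m (s q.i) q.p) q.x (q.g • q.x) : ℝ) : ℂ) * ∫ y : ℝ,
        Complex.exp (-(Complex.I * τ * Fd (mm m (s q.i) q.p) q.g q.x q.v y)) * G y := by
    rw [← integral_const_mul]
    exact integral_congr_ae (ae_of_all _ fun y => N2x_eq h hr0 hlow hb q f τ δ e y)
  have hB00 : 0 ≤ B0 (mm m (s q.i) q.p) q.x (q.g • q.x) :=
    Real.rpow_nonneg (Real.sqrt_nonneg _) _
  rw [hint, norm_mul, Complex.norm_real, Real.norm_of_nonneg hB00]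
  have hB : B0 (mm m (s q.i) q.p) q.x (q.g • q.x) ≤ n1 * (3 + R) ^ n1 / T := by
    refine (hn1 q).trans (div_le_div_of_nonneg_right ?_ hT0)
    have h1 := hl0 q
    exact mul_le_mul_of_nonneg_left (pow_le_pow_left₀ (by linarith) (by linarith) _)
      (Nat.cast_nonneg _)
  refine (mul_le_mul hB hmain (norm_nonneg _) (by positivity)).trans ?_
  exact hA R M τ e T hR0 hM0 hτ he hT0

end BE36C
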