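import Pool.Agent.LibBE36C.N1
import Pool.Agent.LibBE36C.N2
import Pool.Agent.LibBE36C.U5
import Pool.Agent.LibBE99.A2

/-! BE36 C', row N3: one perpendicular line of the own axis.

MEDIUM. ∃ c n, BQ (`exBQ`); (2+R)^A δ ≤ 1 gives 2δ ≤ q.r c n = c/(2+l)^n. Write θ = thR δ e, K_N[f] = KE (own) N f.
∫_{|y|≤2δ} θ K_N[rs F] J = (a) exchange rs F → f (`sum_al_le` second part on |y| ≤ 2δ, coefficients
UU_j J; bounds of UU_j J as in N1: TN-term with κ) + (b) ∫ θ Σ_{j≥3} (row N1) + (c) ∫_{|y|≤2δ} θ K_2[f] J, and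
(c) = ∫_ℝ cut (y/r) K_2[f] J [`near_line` (LibBE99/Q6) with N = 2, Amp f (ρ+3) M': leading term + error
C(1+R)^C M'/√τ/√(trM-2)] - ∫ (1 - cut (4y/δ))(1-θ) cut (y/r) K_2[f] J [row N2: ≤ A(2+R)^A M' τ^(-2) e^(-12)
≤ .. M'/√τ by the hypothesis on e] - ∫ cut (4y/δ) (1-θ) cut (y/r) K_2[f] J [|y| ≤ δ/2: tiny, `thR_in`] -
∫_{|y|>2δ} θ cut (y/r) K_2[f] J [tiny, `thR_out`]. For the two tiny terms bound K_2[f] J by
(2+R)^C M' τ (al_j: `al_small`, and `A2`/`alc_bound` k = 0; or `sum_al_le`-like bound) - it enters TN with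
M + M'. For l > ρ+3 everything is fine (f l = 0). -/

open MeasureTheory Set Filter Topology Metric
open scoped ContDiff

namespace BE36C

open BGS BR BE

variable {Γ : Type} [Group Γ] [MulAction Γ Pl] {D : Set Pl}
variable {ι P : Type} [NormedAddCommGroup P] [NormedSpace ℝ P] [FiniteDimensional ℝ P]
  {m : Pl → Co} {a b : ℝ} {s : ι → P × Pl → ℝ}

private theorem N3_ne (h : CF Γ D m a b s) (q : AxU Γ ι P m s) : q.g ≠ 1 :=
  (Axis_ne h.hX h.hO (hm_mm h q.i q.p) q.ax).1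

private theorem N3_uu (h : CF Γ D m a b s) {Qs : ι → ℝ} (hG : GI Γ D m s Qs) : ∃ A0 : ℕ,
    ∀ (N : ℕ) (q : AxU Γ ι P m s) (y : ℝ), ∀ j ≤ N,
      |uu m (s q.i) j (q.p, q.X y, q.g • q.X y)| ≤
        (((N : ℝ) + 2) * Qs q.i * (2 + Fd (mm m (s q.i) q.p) q.g q.x q.v y)) ^ (A0 * (j + 1)) := by
  obtain ⟨A0, hA0⟩ := hG.u
  obtain ⟨C, hC0, hC⟩ := Fd_growthU (ι := ι) (P := P) h
  refine ⟨A0, ?_⟩
  intro N q y j hj
  set β : Γ := (shf h.hX (q.X y))⁻¹ with hβ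
  have hg' : β * q.g * β⁻¹ ≠ 1 := by
    intro h1
    apply N3_ne h q
    have h2 : q.g = β⁻¹ * (β * q.g * β⁻¹) * β := by group
    rw [h2, h1]
    group
  have hmem : β • q.X y ∈ closure D := shf_mem' h.hX _
  have hgx : (β * q.g * β⁻¹) • (β • q.X y) = β • (q.g • q.X y) := by
    rw [smul_smul, smul_smul]
    congr 1
    group
  have hex := hA0 N ⟨q.i, q.p, β * q.g * β⁻¹, β • q.X y, q.hp, hg', hmem⟩ j hj
  have hd : (⟨q.i, q.p, β * q.g * β⁻¹, β • q.X y, q.hp, hg', hmem⟩ :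
      Jx ι P Γ (closure D)).d m s = Fd (mm m (s q.i) q.p) q.g q.x q.v y := by
    show ds (mm m (s q.i) q.p) (β • q.X y) ((β * q.g * β⁻¹) • (β • q.X y)) = _
    rw [hgx, (ds_deck h.hX h.hO (hm_mm h q.i q.p) β (q.X y) (q.g • q.X y)).1]
    rfl
  rw [hd] at hex
  obtain ⟨G, -, hGb, hGr⟩ := hex
  have hFd : 0 < Fd (mm m (s q.i) q.p) q.g q.x q.v y :=
    lt_of_lt_of_le q.ax.pos ((hC q).2.2 y).2.1
  have hQ := hG.one q.i
  have hpos : 0 < (((N : ℝ) + 2) * Qs q.i * (2 + Fd (mm m (s q.i) q.p) q.g q.x q.v y)) := by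
    positivity
  have hball : cx (β • q.X y) ∈ ball (cx (β • q.X y))
      ((((N : ℝ) + 2) * Qs q.i * (2 + Fd (mm m (s q.i) q.p) q.g q.x q.v y)) ^ A0)⁻¹ :=
    mem_ball_self (by positivity)
  have h1 := hGb _ hball
  rw [hGr _ hball] at h1
  have h2 : uu m (s q.i) j (q.p, β • q.X y, (β * q.g * β⁻¹) • (β • q.X y)) =
      uu m (s q.i) j (q.p, q.X y, q.g • q.X y) := by
    rw [hgx]
    exact uu_deck h j q.i q.p β (q.X y) (q.g • q.X y)
  rw [← h2]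
  simpa using h1

private theorem N3_UU (h : CF Γ D m a b s) (j : ℕ) (q : AxU Γ ι P m s) (y : ℝ) :
    UU (Gx (mm m (s q.i) q.p) (q.X y)) j (Vx (mm m (s q.i) q.p) (q.X y) (q.g • q.X y)) =
      B0 (mm m (s q.i) q.p) (q.X y) (q.g • q.X y) *
        uu m (s q.i) j (q.p, q.X y, q.g • q.X y) := by
  have h1 := uu_UU h q.i j (q.p, q.X y, q.g • q.X y)
  have h2 := uu_UU h q.i 0 (q.p, q.X y, q.g • q.X y)
  rw [uu_zero h, mul_one] at h2
  have h3 : B0 (mm m (s q.i) q.p) (q.X y) (q.g • q.X y) =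
      Real.exp (-(ff m (s q.i) (q.p, q.X y, q.g • q.X y) / 2)) := h2
  rw [h3]
  exact h1

private theorem N3_B0_nonneg (h : CF Γ D m a b s) (q : AxU Γ ι P m s) :
    0 ≤ B0 (mm m (s q.i) q.p) q.x (q.g • q.x) := by
  have h2 := uu_UU h q.i 0 (q.p, q.x, q.g • q.x)
  rw [uu_zero h, mul_one] at h2
  have h3 : B0 (mm m (s q.i) q.p) q.x (q.g • q.x) =
      Real.exp (-(ff m (s q.i) (q.p, q.x, q.g • q.x) / 2)) := h2
  rw [h3]
  positivity


private theorem N3_bq (h : CF Γ D m a b s) {c : ℝ} {n : ℕ} (hb : BQ Γ ι P m s c n) : ∃ n' : ℕ,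
    ∀ (q : AxU Γ ι P m s) (y : ℝ), |y| ≤ 1 →
      |cut (y / q.r c n) * (B0 (mm m (s q.i) q.p) (q.X y) (q.g • q.X y) * q.J y)| ≤
        n' * (3 + q.l) ^ n' / √(trM (mm m (s q.i) q.p) q.x q.v q.l - 2) := by
  obtain ⟨n1, hn1⟩ := ((LQ_iff (fun q : AxU Γ ι P m s => q.ax.pos.le)).1 hb.lq).2 0
  obtain ⟨n2, hn2⟩ := B0_le (ι := ι) (P := P) h
  refine ⟨n1 * n2 + n1 + n2, ?_⟩
  intro q y hy1
  have hl := q.ax.pos
  have he := hb.eq q y
  rw [he, abs_mul, abs_of_nonneg (N3_B0_nonneg h q)]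
  have h1 := hn1 q y
  rw [iteratedDeriv_zero] at h1
  have h2 := hn2 q
  set S := √(trM (mm m (s q.i) q.p) q.x q.v q.l - 2)
  have hS : 0 ≤ S := Real.sqrt_nonneg _
  have h3 : (n1 : ℝ) * (2 + q.l + |y|) ^ n1 ≤ n1 * (3 + q.l) ^ n1 := by
    apply mul_le_mul_of_nonneg_left _ (Nat.cast_nonneg _)
    apply pow_le_pow_left₀ (by positivity)
    linarith
  have h4 : (n2 : ℝ) * (2 + q.l) ^ n2 ≤ n2 * (3 + q.l) ^ n2 := by
    apply mul_le_mul_of_nonneg_left _ (Nat.cast_nonneg _)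
    apply pow_le_pow_left₀ (by positivity)
    linarith
  have h5 : (1 : ℝ) ≤ 3 + q.l := by linarith
  calc B0 (mm m (s q.i) q.p) q.x (q.g • q.x) * |bq c n q y|
      ≤ (n2 * (3 + q.l) ^ n2 / S) * (n1 * (3 + q.l) ^ n1) := by
        apply mul_le_mul _ (h1.trans h3) (abs_nonneg _) (by positivity)
        exact h2.trans (div_le_div_of_nonneg_right h4 hS)
    _ = ((n1 * n2 : ℕ) : ℝ) * (3 + q.l) ^ (n1 + n2) / S := by
        push_cast
        rw [pow_add]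
        ring
    _ ≤ ((n1 * n2 + n1 + n2 : ℕ) : ℝ) * (3 + q.l) ^ (n1 * n2 + n1 + n2) / S := by
        apply div_le_div_of_nonneg_right _ hS
        apply mul_le_mul
        · exact_mod_cast (by omega : n1 * n2 ≤ n1 * n2 + n1 + n2)
        · exact pow_le_pow_right₀ h5 (by omega)
        · positivity
        · positivity

private theorem N3_tr (h : CF Γ D m a b s) : ∃ c : ℝ, 0 < c ∧ ∀ q : AxU Γ ι P m s,
    c ≤ √(trM (mm m (s q.i) q.p) q.x q.v q.l - 2) := by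
  obtain ⟨c0, hc0, hd⟩ := ds_low h
  obtain ⟨c1, hc1, hJ⟩ := JlowU h hc0
  refine ⟨√(2 * c1 * c0), by positivity, fun q => Real.sqrt_le_sqrt ?_⟩
  have hm := hm_mm h q.i q.p
  have hl : c0 ≤ q.l := by
    have h1 := (AN3_at0 h.hX h.hO hm q.ax rfl rfl).1
    rw [← h1]
    exact hd q.i q.p q.hp _ q.g (Axis_ne h.hX h.hO hm q.ax).1
  have h1 := hJ q.i q.p q.x q.v q.ax.unit q.l hl
  have h2 := (JB_ge h.hX hm (x := q.x) q.ax.unit q.ax.pos.le).1
  rw [trM]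
  have h3 : c1 * c0 ≤ c1 * JB (mm m (s q.i) q.p) q.x q.v q.l :=
    mul_le_mul_of_nonneg_left (hl.trans h2) hc1.le
  linarith [h1.1, h1.2]

private theorem N3_al {r0 : ℝ} (hr0 : 0 < r0) : ∃ C : ℕ, ∀ (f : ℝ → ℂ) (ρ M τ : ℝ), 0 ≤ ρ →
    BE73.AmpN 4 f ρ M → 1 ≤ τ → ∀ j ≤ 2, ∀ r : ℝ, r0 ≤ r →
      ‖al j f τ r‖ ≤ C * (1 + ρ) ^ C * (M * τ) := by
  have hh : ∀ j : ℕ, ∃ C : ℕ, ∀ (f : ℝ → ℂ) (ρ M τ : ℝ), 0 ≤ ρ →
    BE73.AmpN 4 f ρ M → 1 ≤ τ → ∀ r : ℝ, r0 ≤ r →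
      ‖al j f τ r‖ ≤ C * (1 + ρ) ^ C * (M * τ) := by
    intro j
    obtain ⟨C, hC⟩ := alc_bound hr0 j 3
    refine ⟨C, fun f ρ M τ hρ hf hτ r hr => ?_⟩
    have h1 := (hC f ρ M τ hρ hf hτ).2 0 (by omega) r
    rw [iteratedDeriv_zero, alc_eq hr0 j f τ (by linarith)] at h1
    exact h1
  choose C hC using hh
  refine ⟨C 0 + C 1 + C 2, fun f ρ M τ hρ hf hτ j hj r hr => (hC j f ρ M τ hρ hf hτ r hr).trans ?_⟩
  have hM : 0 ≤ M := (norm_nonneg _).trans (hf.amp.bound 0 (by norm_num) 0)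
  have h1 : C j ≤ C 0 + C 1 + C 2 := by
    interval_cases j <;> omega
  have h2 : (1 : ℝ) ≤ 1 + ρ := by linarith
  apply mul_le_mul_of_nonneg_right _ (by positivity)
  apply mul_le_mul
  · exact_mod_cast h1
  · exact pow_le_pow_right₀ h2 h1
  · positivity
  · positivity

private theorem N3_nb {w : ℝ → ℂ} {B : ℝ} (h0 : ∀ y, y ∉ Icc (-(1 / 2) : ℝ) (1 / 2) → w y = 0)
    (hB : ∀ y, ‖w y‖ ≤ B) : ‖∫ y, w y‖ ≤ B := by
  rw [← setIntegral_eq_integral_of_forall_compl_eq_zero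
    (s := Icc (-(1 / 2) : ℝ) (1 / 2)) fun y hy => h0 y hy]
  refine (norm_setIntegral_le_of_norm_le_const (by simp [Real.volume_Icc])
    (fun y _ => hB y)).trans (le_of_eq ?_)
  have hv : (volume : Measure ℝ).real (Icc (-(1 / 2) : ℝ) (1 / 2)) = 1 := by
    rw [Real.volume_real_Icc_of_le (by norm_num)]
    norm_num
  rw [hv, mul_one]

private theorem N3_core {θ c4 χ : ℝ → ℝ} {u : ℝ → ℂ} {δ B ε : ℝ} (hθ : Continuous θ)
    (hc4 : Continuous c4) (hχ : Continuous χ) (hu : Continuous u) (hδ : 0 < δ)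
    (χ1 : ∀ y, |y| ≤ 2 * δ → χ y = 1) (χ0 : ∀ y, 1 / 2 ≤ |y| → χ y = 0)
    (hB : ∀ y, ‖(χ y : ℂ) * u y‖ ≤ B) (c40 : ∀ y, 0 ≤ c4 y) (c41 : ∀ y, c4 y ≤ 1) (hε : 0 ≤ ε)
    (hin : ∀ y, c4 y ≠ 0 → |1 - θ y| ≤ ε) (hout : ∀ y, 2 * δ ≤ |y| → |θ y| ≤ ε) :
    ‖(∫ y in (-(2 * δ))..(2 * δ), (θ y : ℂ) * u y) - ∫ y, (χ y : ℂ) * u y‖ ≤
      ‖∫ y, (((1 - c4 y) * (1 - θ y) * χ y : ℝ) : ℂ) * u y‖ + 2 * (ε * B) := by
  have hB0 : 0 ≤ B := (norm_nonneg _).trans (hB 0)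
  have hz : ∀ y, y ∉ Icc (-(1 / 2) : ℝ) (1 / 2) → χ y = 0 := by
    intro y hy
    apply χ0
    rw [le_abs]
    rw [mem_Icc, not_and_or] at hy
    rcases hy with hy | hy
    · right; linarith
    · left; linarith
  have hint : ∀ w : ℝ → ℝ, Continuous w → Integrable (fun y => ((w y * χ y : ℝ) : ℂ) * u y) := by
    intro w hw
    have hc : Continuous (fun y => ((w y * χ y : ℝ) : ℂ) * u y) :=
      (Complex.continuous_ofReal.comp (hw.mul hχ)).mul hu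
    refine hc.integrable_of_hasCompactSupport
      (HasCompactSupport.intro (isCompact_Icc (a := (-(1 / 2) : ℝ)) (b := 1 / 2)) fun y hy => ?_)
    rw [hz y hy]
    simp
  have i1 := hint (fun _ => 1) continuous_const
  have i2 := hint (fun y => (1 - c4 y) * (1 - θ y)) (by fun_prop)
  have i3 := hint (fun y => c4 y * (1 - θ y)) (by fun_prop)
  have i4 := hint θ hθ
  have e1 : (∫ y, ((θ y * χ y : ℝ) : ℂ) * u y) = (∫ y, (χ y : ℂ) * u y) -
      (∫ y, (((1 - c4 y) * (1 - θ y) * χ y : ℝ) : ℂ) * u y) -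
      ∫ y, ((c4 y * (1 - θ y) * χ y : ℝ) : ℂ) * u y := by
    have e0 : (∫ y, (χ y : ℂ) * u y) = ∫ y, (((1 : ℝ) * χ y : ℝ) : ℂ) * u y := by
      simp only [one_mul]
    have i12 : Integrable (fun y => (((1 : ℝ) * χ y : ℝ) : ℂ) * u y -
        (((1 - c4 y) * (1 - θ y) * χ y : ℝ) : ℂ) * u y) := i1.sub i2
    rw [e0, ← integral_sub i1 i2, ← integral_sub i12 i3]
    refine integral_congr_ae (ae_of_all _ fun y => ?_)
    push_cast
    ring
  have e2 := integral_add_compl (measurableSet_Ioc (a := -(2 * δ)) (b := 2 * δ)) i4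
  have e3 : (∫ y in (-(2 * δ))..(2 * δ), (θ y : ℂ) * u y) =
      ∫ y in Ioc (-(2 * δ)) (2 * δ), ((θ y * χ y : ℝ) : ℂ) * u y := by
    rw [intervalIntegral.integral_of_le (by linarith)]
    refine setIntegral_congr_fun measurableSet_Ioc fun y hy => ?_
    have h1 : χ y = 1 := χ1 y (abs_le.2 ⟨hy.1.le, hy.2⟩)
    simp only [h1, mul_one]
  have b3 : ‖∫ y, ((c4 y * (1 - θ y) * χ y : ℝ) : ℂ) * u y‖ ≤ ε * B := by
    refine N3_nb (fun y hy => ?_) fun y => ?_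
    · rw [hz y hy]
      simp
    · have e4 : ((c4 y * (1 - θ y) * χ y : ℝ) : ℂ) * u y =
          ((c4 y * (1 - θ y) : ℝ) : ℂ) * ((χ y : ℂ) * u y) := by
        push_cast
        ring
      rw [e4, norm_mul, Complex.norm_real, Real.norm_eq_abs, abs_mul, abs_of_nonneg (c40 y)]
      refine mul_le_mul ?_ (hB y) (norm_nonneg _) hε
      by_cases hc : c4 y = 0
      · rw [hc, zero_mul]
        exact hε
      · calc c4 y * |1 - θ y| ≤ 1 * ε :=
            mul_le_mul (c41 y) (hin y hc) (abs_nonneg _) (by norm_num)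
          _ = ε := one_mul _
  have b4 : ‖∫ y in (Ioc (-(2 * δ)) (2 * δ))ᶜ, ((θ y * χ y : ℝ) : ℂ) * u y‖ ≤ ε * B := by
    rw [← integral_indicator measurableSet_Ioc.compl]
    refine N3_nb (fun y hy => ?_) fun y => ?_
    · by_cases hm : y ∈ (Ioc (-(2 * δ)) (2 * δ))ᶜ
      · rw [indicator_of_mem hm, hz y hy]
        simp
      · rw [indicator_of_notMem hm]
    · by_cases hm : y ∈ (Ioc (-(2 * δ)) (2 * δ))ᶜ
      · rw [indicator_of_mem hm]
        have e4 : ((θ y * χ y : ℝ) : ℂ) * u y = ((θ y : ℝ) : ℂ) * ((χ y : ℂ) * u y) := by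
          push_cast
          ring
        rw [e4, norm_mul, Complex.norm_real, Real.norm_eq_abs]
        refine mul_le_mul (hout y ?_) (hB y) (norm_nonneg _) hε
        rw [mem_compl_iff, mem_Ioc, not_and_or] at hm
        rw [le_abs]
        rcases hm with hm | hm
        · right; linarith
        · left; linarith
      · rw [indicator_of_notMem hm, norm_zero]
        positivity
  have e5 : (∫ y in (-(2 * δ))..(2 * δ), (θ y : ℂ) * u y) - ∫ y, (χ y : ℂ) * u y =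
      -(∫ y, (((1 - c4 y) * (1 - θ y) * χ y : ℝ) : ℂ) * u y) -
      (∫ y, ((c4 y * (1 - θ y) * χ y : ℝ) : ℂ) * u y) -
      ∫ y in (Ioc (-(2 * δ)) (2 * δ))ᶜ, ((θ y * χ y : ℝ) : ℂ) * u y := by
    rw [e3]
    linear_combination e2 + e1
  rw [e5]
  refine (norm_sub_le _ _).trans ?_
  have h1 := norm_sub_le (-(∫ y, (((1 - c4 y) * (1 - θ y) * χ y : ℝ) : ℂ) * u y))
    (∫ y, ((c4 y * (1 - θ y) * χ y : ℝ) : ℂ) * u y)
  rw [norm_neg] at h1
  linarith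

private theorem N3_Xc (h : CF Γ D m a b s) (q : AxU Γ ι P m s) : Continuous q.X := by
  have h1 := (Ex_smooth h.hX (hm_mm h q.i q.p)).continuous
  have h2 : Continuous fun y : ℝ => ((q.x, y • rot q.v) : Pl × Pl) := by fun_prop
  exact h1.comp h2

private theorem N3_Jc (h : CF Γ D m a b s) (q : AxU Γ ι P m s) : Continuous q.J := by
  rw [continuous_iff_continuousAt]
  intro t
  have hu : eu (rot q.v) = 1 := by
    rw [AN3_eu_rot]
    exact q.ax.unit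
  exact (JA_ode h.hX (hm_mm h q.i q.p) (x := q.x) hu t).1.continuousAt

private theorem N3_cut_one {y r : ℝ} (hr : 0 < r) (hy : |y| ≤ r) : cut (y / r) = 1 := by
  apply cut.one_of_mem_closedBall
  rw [mem_closedBall, dist_zero_right, Real.norm_eq_abs, abs_div, abs_of_pos hr, div_le_iff₀ hr]
  show |y| ≤ 1 * r
  linarith

private theorem N3_cut_zero {y : ℝ} (hy : 2 ≤ |y|) : cut y = 0 := by
  apply cut.zero_of_le_dist
  rw [Real.dist_eq, sub_zero]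
  exact hy

private theorem N3_en (τ u : ℝ) : ‖Complex.exp (-(Complex.I * τ * u))‖ = 1 := by
  rw [Complex.norm_exp]
  simp

/-- exchange of the amplitudes -/
private theorem N3_kap (h : CF Γ D m a b s) {Qs : ι → ℝ} {c : ℝ} {n A0 n' : ℕ} {r1 : ℝ}
    (hA0 : ∀ (N : ℕ) (q : AxU Γ ι P m s) (y : ℝ), ∀ j ≤ N,
      |uu m (s q.i) j (q.p, q.X y, q.g • q.X y)| ≤
        (((N : ℝ) + 2) * Qs q.i * (2 + Fd (mm m (s q.i) q.p) q.g q.x q.v y)) ^ (A0 * (j + 1)))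
    (hn' : ∀ (q : AxU Γ ι P m s) (y : ℝ), |y| ≤ 1 →
      |cut (y / q.r c n) * (B0 (mm m (s q.i) q.p) (q.X y) (q.g • q.X y) * q.J y)| ≤
        n' * (3 + q.l) ^ n' / √(trM (mm m (s q.i) q.p) q.x q.v q.l - 2))
    (hr1 : 0 < r1) (hr1' : r1 ≤ 1) (N : ℕ) (q : AxU Γ ι P m s) {F : ℂ → ℂ} {f : ℝ → ℂ}
    {qd ρ R M M' κ τ : ℝ} (hQ1 : 1 ≤ Qs q.i) (hl : q.l ≤ R)
    (hA : AH F f (Qs q.i) qd ρ R M M' κ) (hτ : 1 ≤ τ) {y : ℝ} (hy : |y| ≤ 1 / 4)
    (hcut : cut (y / q.r c n) = 1)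
    (hd1 : r1 ≤ Fd (mm m (s q.i) q.p) q.g q.x q.v y)
    (hd2 : Fd (mm m (s q.i) q.p) q.g q.x q.v y ≤ R + 1) :
    ‖(KE (mm m (s q.i) q.p) N (rs F) τ q.g (q.X y) - KE (mm m (s q.i) q.p) N f τ q.g (q.X y)) *
      ((q.J y : ℝ) : ℂ)‖ ≤
      (N + 1) * (n' * (3 + R) ^ n' / √(trM (mm m (s q.i) q.p) q.x q.v q.l - 2) *
        XN N (Qs q.i) R ^ (2 * A0 * (N + 1))) *
        ((τ + 1) * κ * ((64 * (N + 1) * (1 + ρ + (R + 1))) ^ (2 * N + 1) / √r1)) := by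
  have hl0 := q.ax.pos
  have hρ := hA.rho
  have hrR := hA.rR
  have hR0 : 0 ≤ R := by linarith
  have hB := hn' q y (by linarith)
  rw [hcut, one_mul] at hB
  set S := √(trM (mm m (s q.i) q.p) q.x q.v q.l - 2) with hS
  have hS0 : 0 ≤ S := Real.sqrt_nonneg _
  set d := Fd (mm m (s q.i) q.p) q.g q.x q.v y with hd
  have hdd : ds (mm m (s q.i) q.p) (q.X y) (q.g • q.X y) = d := rfl
  have hN0 : (0 : ℝ) ≤ N := Nat.cast_nonneg _
  have hXdef : XN N (Qs q.i) R = ((N : ℝ) + 2) * Qs q.i * (2 + R) := rfl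
  have hNQ : 2 ≤ ((N : ℝ) + 2) * Qs q.i := by nlinarith
  have hX2 : 2 ≤ XN N (Qs q.i) R := by
    rw [hXdef]
    nlinarith
  have hw : ∀ j ≤ N, |UU (Gx (mm m (s q.i) q.p) (q.X y)) j
      (Vx (mm m (s q.i) q.p) (q.X y) (q.g • q.X y)) * q.J y| ≤
      n' * (3 + R) ^ n' / S * XN N (Qs q.i) R ^ (2 * A0 * (N + 1)) := by
    intro j hj
    have e1 : UU (Gx (mm m (s q.i) q.p) (q.X y)) j
      (Vx (mm m (s q.i) q.p) (q.X y) (q.g • q.X y)) * q.J y =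
      (B0 (mm m (s q.i) q.p) (q.X y) (q.g • q.X y) * q.J y) *
        uu m (s q.i) j (q.p, q.X y, q.g • q.X y) := by
      rw [N3_UU h j q y]
      ring
    rw [e1, abs_mul]
    apply mul_le_mul _ _ (abs_nonneg _) (by positivity)
    · refine hB.trans (div_le_div_of_nonneg_right ?_ hS0)
      apply mul_le_mul_of_nonneg_left _ (Nat.cast_nonneg _)
      exact pow_le_pow_left₀ (by linarith) (by linarith) _
    · refine (hA0 N q y j hj).trans ?_
      have c1 : ((N : ℝ) + 2) * Qs q.i * (2 + d) ≤ XN N (Qs q.i) R ^ 2 := by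
        have c2 : ((N : ℝ) + 2) * Qs q.i * (2 + d) ≤
            ((N : ℝ) + 2) * Qs q.i * (2 * (2 + R)) := by
          apply mul_le_mul_of_nonneg_left _ (by linarith)
          linarith
        have c3 : ((N : ℝ) + 2) * Qs q.i * (2 * (2 + R)) = 2 * XN N (Qs q.i) R := by
          rw [hXdef]
          ring
        have c4 : 2 * XN N (Qs q.i) R ≤ XN N (Qs q.i) R ^ 2 := by nlinarith
        exact (c2.trans_eq c3).trans c4
      calc (((N : ℝ) + 2) * Qs q.i * (2 + d)) ^ (A0 * (j + 1))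
          ≤ (XN N (Qs q.i) R ^ 2) ^ (A0 * (j + 1)) :=
            pow_le_pow_left₀ (by
              have : 0 ≤ 2 + d := by linarith
              positivity) c1 _
        _ = XN N (Qs q.i) R ^ (2 * A0 * (j + 1)) := by
            rw [← pow_mul]
            congr 1
            ring
        _ ≤ XN N (Qs q.i) R ^ (2 * A0 * (N + 1)) :=
            pow_le_pow_right₀ (by linarith) (Nat.mul_le_mul_left _ (by omega))
  have key := (sum_al_le hA hτ hr1 hr1' hd1 hd2 hw).2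
  refine le_trans (le_of_eq ?_) key
  have e2 : (KE (mm m (s q.i) q.p) N (rs F) τ q.g (q.X y) -
      KE (mm m (s q.i) q.p) N f τ q.g (q.X y)) * ((q.J y : ℝ) : ℂ) =
      -(Complex.exp (-(Complex.I * τ * d)) * ∑ j ∈ Finset.range (N + 1),
        ((UU (Gx (mm m (s q.i) q.p) (q.X y)) j
      (Vx (mm m (s q.i) q.p) (q.X y) (q.g • q.X y)) * q.J y : ℝ) : ℂ) *
        (al j f τ d - al j (rs F) τ d)) := by
    have hs : (∑ j ∈ Finset.range (N + 1), ((UU (Gx (mm m (s q.i) q.p) (q.X y)) j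
        (Vx (mm m (s q.i) q.p) (q.X y) (q.g • q.X y)) * q.J y : ℝ) : ℂ) *
        (al j f τ d - al j (rs F) τ d)) =
        ((∑ j ∈ Finset.range (N + 1), ((UU (Gx (mm m (s q.i) q.p) (q.X y)) j
        (Vx (mm m (s q.i) q.p) (q.X y) (q.g • q.X y)) : ℝ) : ℂ) * al j f τ d) -
        ∑ j ∈ Finset.range (N + 1), ((UU (Gx (mm m (s q.i) q.p) (q.X y)) j
        (Vx (mm m (s q.i) q.p) (q.X y) (q.g • q.X y)) : ℝ) : ℂ) * al j (rs F) τ d) *
        ((q.J y : ℝ) : ℂ) := by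
      rw [← Finset.sum_sub_distrib, Finset.sum_mul]
      refine Finset.sum_congr rfl fun j _ => ?_
      push_cast
      ring
    rw [hs]
    unfold KE KC
    rw [hdd]
    ring
  rw [e2, norm_neg, norm_mul, N3_en, one_mul]

/-- the bound of the leading terms -/
private theorem N3_two (h : CF Γ D m a b s) {Qs : ι → ℝ} {c : ℝ} {n A0 n' C4 : ℕ} {r1 : ℝ}
    (hA0 : ∀ (N : ℕ) (q : AxU Γ ι P m s) (y : ℝ), ∀ j ≤ N,
      |uu m (s q.i) j (q.p, q.X y, q.g • q.X y)| ≤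
        (((N : ℝ) + 2) * Qs q.i * (2 + Fd (mm m (s q.i) q.p) q.g q.x q.v y)) ^ (A0 * (j + 1)))
    (hn' : ∀ (q : AxU Γ ι P m s) (y : ℝ), |y| ≤ 1 →
      |cut (y / q.r c n) * (B0 (mm m (s q.i) q.p) (q.X y) (q.g • q.X y) * q.J y)| ≤
        n' * (3 + q.l) ^ n' / √(trM (mm m (s q.i) q.p) q.x q.v q.l - 2))
    (hal : ∀ (f : ℝ → ℂ) (ρ M τ : ℝ), 0 ≤ ρ →
    BE73.AmpN 4 f ρ M → 1 ≤ τ → ∀ j ≤ 2, ∀ r : ℝ, r1 ≤ r →
      ‖al j f τ r‖ ≤ C4 * (1 + ρ) ^ C4 * (M * τ))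
    {N : ℕ} (hN : 2 ≤ N) (q : AxU Γ ι P m s) {f : ℝ → ℂ}
    {ρ R M' τ : ℝ} (hQ1 : 1 ≤ Qs q.i) (hl : q.l ≤ R) (hρ : 0 ≤ ρ) (hM' : 0 ≤ M')
    (hA : BE73.AmpN 4 f ρ M') (hτ : 1 ≤ τ) {y : ℝ} (hy : |y| ≤ 1 / 2)
    (hd0 : 0 ≤ Fd (mm m (s q.i) q.p) q.g q.x q.v y)
    (hd1 : r1 ≤ Fd (mm m (s q.i) q.p) q.g q.x q.v y)
    (hd2 : Fd (mm m (s q.i) q.p) q.g q.x q.v y ≤ R + 1) :
    ‖((cut (y / q.r c n) : ℝ) : ℂ) * (KE (mm m (s q.i) q.p) 2 f τ q.g (q.X y) *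
      ((q.J y : ℝ) : ℂ))‖ ≤
      (n' * (3 + R) ^ n' / √(trM (mm m (s q.i) q.p) q.x q.v q.l - 2)) *
        (3 * (XN N (Qs q.i) R ^ (6 * A0) * (C4 * (1 + ρ) ^ C4 * (M' * τ)))) := by
  have hl0 := q.ax.pos
  have hB := hn' q y (by linarith)
  set S := √(trM (mm m (s q.i) q.p) q.x q.v q.l - 2) with hS
  have hS0 : 0 ≤ S := Real.sqrt_nonneg _
  set d := Fd (mm m (s q.i) q.p) q.g q.x q.v y with hd
  have hdd : ds (mm m (s q.i) q.p) (q.X y) (q.g • q.X y) = d := rfl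
  have hN0 : (0 : ℝ) ≤ N := Nat.cast_nonneg _
  have hR0 : 0 ≤ R := by linarith
  have hXdef : XN N (Qs q.i) R = ((N : ℝ) + 2) * Qs q.i * (2 + R) := rfl
  have hNQ : 2 ≤ ((N : ℝ) + 2) * Qs q.i := by nlinarith
  have hX2 : 2 ≤ XN N (Qs q.i) R := by
    rw [hXdef]
    nlinarith
  have e1 : ((cut (y / q.r c n) : ℝ) : ℂ) * (KE (mm m (s q.i) q.p) 2 f τ q.g (q.X y) *
      ((q.J y : ℝ) : ℂ)) =
      ((cut (y / q.r c n) * (B0 (mm m (s q.i) q.p) (q.X y) (q.g • q.X y) * q.J y) : ℝ) : ℂ) *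
        (Complex.exp (-(Complex.I * τ * d)) * ∑ j ∈ Finset.range (2 + 1),
        ((uu m (s q.i) j (q.p, q.X y, q.g • q.X y) : ℝ) : ℂ) * al j f τ d) := by
    unfold KE KC
    rw [hdd]
    have e3 : (∑ j ∈ Finset.range (2 + 1), ((UU (Gx (mm m (s q.i) q.p) (q.X y)) j
        (Vx (mm m (s q.i) q.p) (q.X y) (q.g • q.X y)) : ℝ) : ℂ) * al j f τ d) =
        ((B0 (mm m (s q.i) q.p) (q.X y) (q.g • q.X y) : ℝ) : ℂ) *
          ∑ j ∈ Finset.range (2 + 1),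
        ((uu m (s q.i) j (q.p, q.X y, q.g • q.X y) : ℝ) : ℂ) * al j f τ d := by
      rw [Finset.mul_sum]
      refine Finset.sum_congr rfl fun j _ => ?_
      rw [N3_UU h j q y]
      push_cast
      ring
    rw [e3]
    push_cast
    ring
  rw [e1, norm_mul, norm_mul, N3_en, one_mul, Complex.norm_real, Real.norm_eq_abs]
  apply mul_le_mul _ _ (norm_nonneg _) (by positivity)
  · refine hB.trans (div_le_div_of_nonneg_right ?_ hS0)
    apply mul_le_mul_of_nonneg_left _ (Nat.cast_nonneg _)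
    exact pow_le_pow_left₀ (by linarith) (by linarith) _
  · have hterm : ∀ j ∈ Finset.range (2 + 1),
        ‖((uu m (s q.i) j (q.p, q.X y, q.g • q.X y) : ℝ) : ℂ) * al j f τ d‖ ≤
        XN N (Qs q.i) R ^ (6 * A0) * (C4 * (1 + ρ) ^ C4 * (M' * τ)) := by
      intro j hj
      have hj2 : j ≤ 2 := by
        rw [Finset.mem_range] at hj
        omega
      rw [norm_mul, Complex.norm_real, Real.norm_eq_abs]
      apply mul_le_mul _ (hal f ρ M' τ hρ hA hτ j hj2 d hd1) (norm_nonneg _) (by positivity)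
      refine (hA0 N q y j (by omega)).trans ?_
      have c1 : ((N : ℝ) + 2) * Qs q.i * (2 + d) ≤ XN N (Qs q.i) R ^ 2 := by
        have c2 : ((N : ℝ) + 2) * Qs q.i * (2 + d) ≤
            ((N : ℝ) + 2) * Qs q.i * (2 * (2 + R)) := by
          apply mul_le_mul_of_nonneg_left _ (by linarith)
          linarith
        have c3 : ((N : ℝ) + 2) * Qs q.i * (2 * (2 + R)) = 2 * XN N (Qs q.i) R := by
          rw [hXdef]
          ring
        have c4 : 2 * XN N (Qs q.i) R ≤ XN N (Qs q.i) R ^ 2 := by nlinarith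
        exact (c2.trans_eq c3).trans c4
      calc (((N : ℝ) + 2) * Qs q.i * (2 + d)) ^ (A0 * (j + 1))
          ≤ (XN N (Qs q.i) R ^ 2) ^ (A0 * (j + 1)) :=
            pow_le_pow_left₀ (by
              have : 0 ≤ 2 + d := by linarith
              positivity) c1 _
        _ = XN N (Qs q.i) R ^ (2 * A0 * (j + 1)) := by
            rw [← pow_mul]
            congr 1
            ring
        _ ≤ XN N (Qs q.i) R ^ (6 * A0) := by
            apply pow_le_pow_right₀ (by linarith)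
            calc 2 * A0 * (j + 1) ≤ 2 * A0 * 3 := Nat.mul_le_mul_left _ (by omega)
              _ = 6 * A0 := by ring
    refine (norm_sum_le _ _).trans ((Finset.sum_le_sum hterm).trans (le_of_eq ?_))
    rw [Finset.sum_const, Finset.card_range, nsmul_eq_mul]
    norm_num


private theorem N3_nat {X : ℝ} (hX : 2 ≤ X) (k : ℕ) : (k : ℝ) ≤ X ^ k :=
  (by exact_mod_cast (Nat.lt_two_pow_self (n := k)).le : (k : ℝ) ≤ 2 ^ k).trans
    (pow_le_pow_left₀ (by norm_num) hX k)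

/-- the absorption of the constants -/
private theorem N3_fin {A0 n' k5 k6 C4 A1 A2 C3 n k7 N : ℕ} {X R ρ τ δ e M M' κ K S ct r1 : ℝ}
    (hX1 : 4 * (2 + R) ≤ X) (hXN : (N : ℝ) + 2 ≤ X) (hR0 : 0 ≤ R) (hρ : 0 ≤ ρ) (hrR : ρ + 4 ≤ R)
    (hN : 2 ≤ N) (hτ : 1 ≤ τ) (hδ : 0 < δ) (he : 0 < e) (hM : 0 ≤ M) (hM' : 0 ≤ M') (hκ : 0 ≤ κ)
    (hK : 1 ≤ K) (hct : 0 < ct) (hr1 : 0 < r1) (hS : ct ≤ S) (hk5 : 1 / (ct * √r1) ≤ k5)
    (hk6 : 1 / ct ≤ k6) (he12 : 1 ≤ e ^ 12 * τ ^ (3 / 2 : ℝ))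
    (hXb : ((N : ℝ) + 2) * (2 + R) ≤ X) {A : ℕ}
    (hAd : A = A1 + 2 * A2 + 2 * C3 + 1 + (2 * n' + 2 * A0 + 12 + k5) +
      (10 + 2 * n' + k6 + 6 * A0 + 2 * C4) + (n + k7)) :
    X ^ A1 * K ^ 4 * (M / √τ) / S + A2 * (2 + R) ^ A2 * (M' * τ / (e ^ 12 * τ ^ 3)) / S +
      C3 * (1 + (ρ + 3)) ^ C3 * (M' / √τ) / S ≤ X ^ A * ((M' + K ^ 4 * M) / √τ) / S ∧
    (N + 1) * (n' * (3 + R) ^ n' / S * X ^ (2 * A0 * (N + 1))) *
        ((τ + 1) * κ * ((64 * (N + 1) * (1 + ρ + (R + 1))) ^ (2 * N + 1) / √r1)) ≤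
      X ^ (A * (N + 1)) * Real.exp (A * R) * τ * κ ∧
    2 * (√2 * Real.exp (-(δ ^ 2 / (8 * e ^ 2))) * (n' * (3 + R) ^ n' / S *
        (3 * (X ^ (6 * A0) * (C4 * (1 + (ρ + 3)) ^ C4 * (M' * τ)))))) ≤
      X ^ (A * (N + 1)) * Real.exp (A * R) * τ * ((M + M') * Real.exp (-(δ ^ 2 / (A * e ^ 2)))) := by
  have hX4 : 4 ≤ X := by linarith
  have hX0 : 1 ≤ X := by linarith
  have hX2 : 2 ≤ X := by linarith
  have hτ0 : 0 < τ := by linarith
  have hsτ : 0 < √τ := Real.sqrt_pos.2 hτ0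
  have hS0 : 0 < S := lt_of_lt_of_le hct hS
  have hsr : 0 < √r1 := Real.sqrt_pos.2 hr1
  have hexpA : 1 ≤ Real.exp (A * R) := Real.one_le_exp (by positivity)
  have hR3 : (3 + R) ^ n' ≤ X ^ n' := pow_le_pow_left₀ (by linarith) (by linarith) _
  have hρX : 1 + (ρ + 3) ≤ X := by linarith
  have hn := N3_nat hX2 n'
  refine ⟨?_, ?_, ?_⟩
  · have e1 : M' * τ / (e ^ 12 * τ ^ 3) ≤ M' / √τ := by
      have h1 : τ ^ (3 / 2 : ℝ) = τ * √τ := by
        rw [show (3 / 2 : ℝ) = 1 + 1 / 2 by norm_num, Real.rpow_add hτ0, Real.rpow_one,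
          ← Real.sqrt_eq_rpow]
      rw [h1] at he12
      have h2 : √τ * √τ = τ := Real.mul_self_sqrt hτ0.le
      rw [div_le_div_iff₀ (by positivity) hsτ]
      have h3 : τ ^ 3 = (τ * √τ) * (τ * √τ) := by
        calc τ ^ 3 = τ * τ * τ := by ring
          _ = τ * τ * (√τ * √τ) := by rw [h2]
          _ = _ := by ring
      rw [h3]
      calc M' * τ * √τ = M' * (1 * (τ * √τ)) := by ring
        _ ≤ M' * ((e ^ 12 * (τ * √τ)) * (τ * √τ)) := by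
            apply mul_le_mul_of_nonneg_left _ hM'
            exact mul_le_mul_of_nonneg_right he12 (by positivity)
        _ = _ := by ring
    have b1 : (A2 : ℝ) * (2 + R) ^ A2 ≤ X ^ (2 * A2) := by
      have h1 := N3_nat hX2 A2
      have h2 : (2 + R) ^ A2 ≤ X ^ A2 := pow_le_pow_left₀ (by linarith) (by linarith) _
      calc (A2 : ℝ) * (2 + R) ^ A2 ≤ X ^ A2 * X ^ A2 :=
            mul_le_mul h1 h2 (by positivity) (by positivity)
        _ = X ^ (2 * A2) := by rw [← pow_add]; congr 1; ring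
    have b2 : (C3 : ℝ) * (1 + (ρ + 3)) ^ C3 ≤ X ^ (2 * C3) := by
      have h1 := N3_nat hX2 C3
      have h2 : (1 + (ρ + 3)) ^ C3 ≤ X ^ C3 := pow_le_pow_left₀ (by linarith) hρX _
      calc (C3 : ℝ) * (1 + (ρ + 3)) ^ C3 ≤ X ^ C3 * X ^ C3 :=
            mul_le_mul h1 h2 (by positivity) (by positivity)
        _ = X ^ (2 * C3) := by rw [← pow_add]; congr 1; ring
    have b3 : X ^ (2 * A2) + X ^ (2 * C3) ≤ X ^ A := by
      have h1 : X ^ (2 * A2) ≤ X ^ (2 * A2 + 2 * C3) := pow_le_pow_right₀ hX0 (by omega)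
      have h2 : X ^ (2 * C3) ≤ X ^ (2 * A2 + 2 * C3) := pow_le_pow_right₀ hX0 (by omega)
      have h3 : 0 ≤ X ^ (2 * A2 + 2 * C3) := by positivity
      calc X ^ (2 * A2) + X ^ (2 * C3) ≤ X ^ (2 * A2 + 2 * C3) * X := by nlinarith
        _ = X ^ (2 * A2 + 2 * C3 + 1) := (pow_succ _ _).symm
        _ ≤ X ^ A := pow_le_pow_right₀ hX0 (by omega)
    have b4 : X ^ A1 ≤ X ^ A := pow_le_pow_right₀ hX0 (by omega)
    have e2 : (A2 : ℝ) * (2 + R) ^ A2 * (M' * τ / (e ^ 12 * τ ^ 3)) ≤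
        X ^ (2 * A2) * (M' / √τ) := mul_le_mul b1 e1 (by positivity) (by positivity)
    have e3 : (C3 : ℝ) * (1 + (ρ + 3)) ^ C3 * (M' / √τ) ≤ X ^ (2 * C3) * (M' / √τ) :=
      mul_le_mul_of_nonneg_right b2 (by positivity)
    have e4 : X ^ A1 * K ^ 4 * (M / √τ) ≤ X ^ A * (K ^ 4 * (M / √τ)) := by
      rw [mul_assoc]
      exact mul_le_mul_of_nonneg_right b4 (by positivity)
    have e5 : (X ^ (2 * A2) + X ^ (2 * C3)) * (M' / √τ) ≤ X ^ A * (M' / √τ) :=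
      mul_le_mul_of_nonneg_right b3 (by positivity)
    rw [← add_div, ← add_div]
    apply div_le_div_of_nonneg_right _ hS0.le
    have e6 : X ^ A * ((M' + K ^ 4 * M) / √τ) =
        X ^ A * (K ^ 4 * (M / √τ)) + X ^ A * (M' / √τ) := by ring
    rw [e6]
    linarith
  · have b1 : ((N : ℝ) + 1) ≤ X := by linarith
    have b2 : (64 * ((N : ℝ) + 1) * (1 + ρ + (R + 1))) ≤ X ^ 5 := by
      have h1 : ((N : ℝ) + 1) * (1 + ρ + (R + 1)) ≤ 2 * X := by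
        have h0 : (0 : ℝ) ≤ N := Nat.cast_nonneg _
        nlinarith
      have h2 : (256 : ℝ) ≤ X ^ 4 := by
        calc (256 : ℝ) = 4 ^ 4 := by norm_num
          _ ≤ X ^ 4 := pow_le_pow_left₀ (by norm_num) hX4 _
      calc (64 * ((N : ℝ) + 1) * (1 + ρ + (R + 1))) = 64 * (((N : ℝ) + 1) * (1 + ρ + (R + 1))) := by
            ring
        _ ≤ 64 * (2 * X) := by linarith
        _ ≤ X ^ 4 * X := by nlinarith
        _ = X ^ 5 := by ring
    have b3 : (64 * ((N : ℝ) + 1) * (1 + ρ + (R + 1))) ^ (2 * N + 1) ≤ X ^ (5 * (2 * N + 1)) := by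
      rw [pow_mul]
      exact pow_le_pow_left₀ (by positivity) b2 _
    have b4 : 1 / S / √r1 ≤ X ^ k5 := by
      refine le_trans ?_ (hk5.trans (N3_nat hX2 k5))
      rw [div_div]
      apply div_le_div_of_nonneg_left (by norm_num) (by positivity)
      exact mul_le_mul_of_nonneg_right hS hsr.le
    have b5 : τ + 1 ≤ X * τ := by nlinarith
    calc ((N : ℝ) + 1) * (n' * (3 + R) ^ n' / S * X ^ (2 * A0 * (N + 1))) *
        ((τ + 1) * κ * ((64 * (N + 1) * (1 + ρ + (R + 1))) ^ (2 * N + 1) / √r1))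
        = (((N : ℝ) + 1) * (n' * (3 + R) ^ n') * (1 / S / √r1) * X ^ (2 * A0 * (N + 1))) *
          ((τ + 1) * (64 * (N + 1) * (1 + ρ + (R + 1))) ^ (2 * N + 1)) * κ := by
          field_simp
      _ ≤ (X * (X ^ n' * X ^ n') * X ^ k5 * X ^ (2 * A0 * (N + 1))) *
          ((X * τ) * X ^ (5 * (2 * N + 1))) * κ := by
          gcongr
      _ = X ^ (1 + (n' + n') + k5 + 2 * A0 * (N + 1) + 1 + 5 * (2 * N + 1)) * τ * κ := by
          simp only [pow_add, pow_one]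
          ring
      _ ≤ X ^ (A * (N + 1)) * τ * κ := by
          apply mul_le_mul_of_nonneg_right _ hκ
          apply mul_le_mul_of_nonneg_right _ hτ0.le
          apply pow_le_pow_right₀ hX0
          have h1 : 2 * n' + k5 ≤ (2 * n' + k5) * (N + 1) := Nat.le_mul_of_pos_right _ (by omega)
          have h2 : A * (N + 1) = (2 * n' + k5) * (N + 1) + 2 * A0 * (N + 1) + 12 * (N + 1) +
              (A1 + 2 * A2 + 2 * C3 + 1 + (10 + 2 * n' + k6 + 6 * A0 + 2 * C4) + (n + k7)) *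
                (N + 1) := by
            rw [hAd]
            ring
          rw [h2]
          omega
      _ ≤ X ^ (A * (N + 1)) * Real.exp (A * R) * τ * κ := by
          apply mul_le_mul_of_nonneg_right _ hκ
          apply mul_le_mul_of_nonneg_right _ hτ0.le
          exact le_mul_of_one_le_right (by positivity) hexpA
  · have hA8 : (8 : ℝ) ≤ A := by exact_mod_cast (by omega : 8 ≤ A)
    have b0 : Real.exp (-(δ ^ 2 / (8 * e ^ 2))) ≤ Real.exp (-(δ ^ 2 / (A * e ^ 2))) := by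
      apply Real.exp_le_exp.2
      apply neg_le_neg
      apply div_le_div_of_nonneg_left (by positivity) (by positivity)
      exact mul_le_mul_of_nonneg_right hA8 (by positivity)
    have b1 : √2 ≤ 2 := by
      rw [Real.sqrt_le_left (by norm_num)]
      norm_num
    have b2 : 1 / S ≤ X ^ k6 := by
      refine le_trans ?_ (hk6.trans (N3_nat hX2 k6))
      exact div_le_div_of_nonneg_left (by norm_num) hct hS
    have b3 : (C4 : ℝ) * (1 + (ρ + 3)) ^ C4 ≤ X ^ (2 * C4) := by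
      have h1 := N3_nat hX2 C4
      have h2 : (1 + (ρ + 3)) ^ C4 ≤ X ^ C4 := pow_le_pow_left₀ (by linarith) hρX _
      calc (C4 : ℝ) * (1 + (ρ + 3)) ^ C4 ≤ X ^ C4 * X ^ C4 :=
            mul_le_mul h1 h2 (by positivity) (by positivity)
        _ = X ^ (2 * C4) := by rw [← pow_add]; congr 1; ring
    have b4 : (12 : ℝ) ≤ X ^ 2 := by nlinarith
    calc 2 * (√2 * Real.exp (-(δ ^ 2 / (8 * e ^ 2))) * (n' * (3 + R) ^ n' / S *
        (3 * (X ^ (6 * A0) * (C4 * (1 + (ρ + 3)) ^ C4 * (M' * τ))))))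
        = 6 * √2 * Real.exp (-(δ ^ 2 / (8 * e ^ 2))) * ((n' * (3 + R) ^ n') * (1 / S)) *
          (X ^ (6 * A0) * ((C4 * (1 + (ρ + 3)) ^ C4) * (M' * τ))) := by
          ring
      _ ≤ 6 * 2 * Real.exp (-(δ ^ 2 / (A * e ^ 2))) * ((X ^ n' * X ^ n') * X ^ k6) *
          (X ^ (6 * A0) * (X ^ (2 * C4) * (M' * τ))) := by
          gcongr
      _ = 12 * (X ^ (n' + n' + k6 + 6 * A0 + 2 * C4)) *
          (τ * (M' * Real.exp (-(δ ^ 2 / (A * e ^ 2))))) := by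
          simp only [pow_add]
          ring
      _ ≤ X ^ 2 * (X ^ (n' + n' + k6 + 6 * A0 + 2 * C4)) *
          (τ * ((M + M') * Real.exp (-(δ ^ 2 / (A * e ^ 2))))) := by
          have : M' ≤ M + M' := by linarith
          gcongr
      _ = X ^ (2 + (n' + n' + k6 + 6 * A0 + 2 * C4)) *
          (τ * ((M + M') * Real.exp (-(δ ^ 2 / (A * e ^ 2))))) := by
          rw [pow_add X 2]
      _ ≤ X ^ (A * (N + 1)) * (τ * ((M + M') * Real.exp (-(δ ^ 2 / (A * e ^ 2))))) := by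
          apply mul_le_mul_of_nonneg_right _ (by positivity)
          apply pow_le_pow_right₀ hX0
          have h1 : A ≤ A * (N + 1) := Nat.le_mul_of_pos_right _ (by omega)
          omega
      _ ≤ X ^ (A * (N + 1)) * Real.exp (A * R) *
          (τ * ((M + M') * Real.exp (-(δ ^ 2 / (A * e ^ 2))))) := by
          apply mul_le_mul_of_nonneg_right _ (by positivity)
          exact le_mul_of_one_le_right (by positivity) hexpA
      _ = _ := by ring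

theorem near_all (h : CF Γ D m a b s) {Qs : ι → ℝ} (hG : GI Γ D m s Qs) :
    ∃ (A : ℕ) (r1 : ℝ), 1 ≤ A ∧ 0 < r1 ∧ r1 ≤ 1 ∧
    ∀ (N : ℕ) (q : AxU Γ ι P m s) (F : ℂ → ℂ) (f : ℝ → ℂ) (qd ρ R M M' κ K τ δ e : ℝ), 2 ≤ N →
      q.l ≤ R → AH F f (Qs q.i) qd ρ R M M' κ → BE73.AmpN 4 f (ρ + 3) M' → DH δ e →
      (2 + R) ^ A * δ ≤ 1 → 1 ≤ τ → 1 ≤ K → XN N (Qs q.i) R ^ A * K ≤ τ / 2 →
      1 ≤ e ^ 12 * τ ^ (3 / 2 : ℝ) →
      (∀ j, 3 ≤ j → j ≤ N → ∀ r, r1 ≤ r → r ≤ R + 1 →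
        ‖al j f τ r‖ ≤ K ^ (j + 1) * M * τ ^ (1 / 2 - j : ℝ)) →
      ‖(∫ y in (-(2 * δ))..(2 * δ), ((thR δ e y : ℝ) : ℂ) *
        KE (mm m (s q.i) q.p) N (rs F) τ q.g (q.X y) * ((q.J y : ℝ) : ℂ)) -
        f q.l * Complex.exp (-(Complex.I * τ * q.l)) /
          ((√(trM (mm m (s q.i) q.p) q.x q.v q.l - 2) : ℝ) : ℂ)‖ ≤
        XN N (Qs q.i) R ^ A * ((M' + K ^ 4 * M) / √τ) /
          √(trM (mm m (s q.i) q.p) q.x q.v q.l - 2) + TN A N (Qs q.i) R (M + M') κ τ δ e qd := by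
  obtain ⟨c, n, hb⟩ := exBQ (ι := ι) (P := P) h
  obtain ⟨A1, r1', hA1, hr1', hr1'', hhigh⟩ := near_high h hG hb
  obtain ⟨A2, hA2, hibp⟩ := near_ibp h hb
  obtain ⟨C3, hline⟩ := near_line h hb 2
  obtain ⟨C, hC0, hC⟩ := Fd_growthU (ι := ι) (P := P) h
  obtain ⟨A0, hA0⟩ := N3_uu h hG
  obtain ⟨n', hn'⟩ := N3_bq h hb
  obtain ⟨ct, hct, htr⟩ := N3_tr (ι := ι) (P := P) h
  obtain ⟨r1, hr1d⟩ : ∃ r : ℝ, r = min r1' (1 / (C + 1)) := ⟨_, rfl⟩
  have hr1 : 0 < r1 := by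
    rw [hr1d]
    exact lt_min hr1' (by positivity)
  have hr1a : r1 ≤ r1' := by rw [hr1d]; exact min_le_left _ _
  have hr1b : r1 ≤ 1 / (C + 1) := by rw [hr1d]; exact min_le_right _ _
  have hr1c : r1 ≤ 1 := hr1a.trans hr1''
  obtain ⟨C4, hal4⟩ := N3_al hr1
  obtain ⟨k5, hk5⟩ := exists_nat_ge (1 / (ct * √r1))
  obtain ⟨k6, hk6⟩ := exists_nat_ge (1 / ct)
  obtain ⟨k7, hk7⟩ := exists_nat_ge (2 / c)
  refine ⟨A1 + 2 * A2 + 2 * C3 + 1 + (2 * n' + 2 * A0 + 12 + k5) +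
    (10 + 2 * n' + k6 + 6 * A0 + 2 * C4) + (n + k7), r1, by omega, hr1, hr1c, ?_⟩
  obtain ⟨A, hAd⟩ : ∃ A : ℕ, A = A1 + 2 * A2 + 2 * C3 + 1 + (2 * n' + 2 * A0 + 12 + k5) +
    (10 + 2 * n' + k6 + 6 * A0 + 2 * C4) + (n + k7) := ⟨_, rfl⟩
  rw [← hAd]
  intro N q F f qd ρ R M M' κ K τ δ e hN hlR hAH hAmp hDH hδR hτ hK hXK he12 hal
  have hρ := hAH.rho
  have hrR := hAH.rR
  have hR0 : 0 ≤ R := by linarith
  have hQ1 : 1 ≤ Qs q.i := hG.one q.i
  have hM : 0 ≤ M := hAH.ea.M_nonneg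
  have hM' : 0 ≤ M' := (norm_nonneg _).trans (hAmp.amp.bound 0 (by norm_num) 0)
  have hκ := hAH.cut.nonneg
  have hl0 := q.ax.pos
  have hdp := hDH.dpos
  have hd8 := hDH.dle
  have hep := hDH.epos
  have hτ0 : 0 < τ := by linarith
  have hsτ : 0 < √τ := Real.sqrt_pos.2 hτ0
  have hN0 : (0 : ℝ) ≤ N := Nat.cast_nonneg _
  have hN2 : (2 : ℝ) ≤ N := by exact_mod_cast hN
  have hXdef : XN N (Qs q.i) R = ((N : ℝ) + 2) * Qs q.i * (2 + R) := rfl
  obtain ⟨X, hX⟩ : ∃ X : ℝ, X = XN N (Qs q.i) R := ⟨_, rfl⟩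
  have hNQ : (N : ℝ) + 2 ≤ ((N : ℝ) + 2) * Qs q.i := by nlinarith
  have hXb : ((N : ℝ) + 2) * (2 + R) ≤ X := by
    rw [hX, hXdef]
    exact mul_le_mul_of_nonneg_right hNQ (by linarith)
  have hX1 : 4 * (2 + R) ≤ X := by
    refine le_trans ?_ hXb
    apply mul_le_mul_of_nonneg_right _ (by linarith)
    linarith
  have hX4 : 4 ≤ X := by linarith
  have hX0 : 1 ≤ X := by linarith
  have hXN : (N : ℝ) + 2 ≤ X := by nlinarith
  obtain ⟨htr2, hCl, hFd⟩ := hC q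
  have hS := htr q
  have hSpos : 0 < √(trM (mm m (s q.i) q.p) q.x q.v q.l - 2) := lt_of_lt_of_le hct hS
  have hδr : 2 * δ ≤ q.r c n := by
    unfold AxU.r
    rw [le_div_iff₀ (by positivity)]
    have h1 : (2 + q.l) ^ n ≤ (2 + R) ^ n := pow_le_pow_left₀ (by positivity) (by linarith) _
    have h2 : (2 : ℝ) / c ≤ 2 ^ k7 := hk7.trans (by exact_mod_cast (Nat.lt_two_pow_self (n := k7)).le)
    have h3 : (2 : ℝ) ^ k7 ≤ (2 + R) ^ k7 := pow_le_pow_left₀ (by norm_num) (by linarith) _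
    have h4 : (2 + R) ^ (n + k7) ≤ (2 + R) ^ A := pow_le_pow_right₀ (by linarith) (by omega)
    rw [pow_add] at h4
    have h5 : (2 : ℝ) ≤ (2 + R) ^ k7 * c := by
      have := h2.trans h3
      rwa [div_le_iff₀ hb.c_pos] at this
    have h6 : 0 < (2 + R) ^ n := by positivity
    have hc0 := hb.c_pos
    calc 2 * δ * (2 + q.l) ^ n ≤ ((2 + R) ^ k7 * c) * δ * (2 + R) ^ n := by
          apply mul_le_mul _ h1 (by positivity) (by positivity)
          exact mul_le_mul_of_nonneg_right h5 hdp.le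
      _ = c * (((2 + R) ^ n * (2 + R) ^ k7) * δ) := by ring
      _ ≤ c * ((2 + R) ^ A * δ) := by
          apply mul_le_mul_of_nonneg_left _ hc0.le
          exact mul_le_mul_of_nonneg_right h4 hdp.le
      _ ≤ c * 1 := mul_le_mul_of_nonneg_left hδR hc0.le
      _ = c := mul_one _
  have hg1 : q.g ≠ 1 := N3_ne h q
  have hXc := N3_Xc h q
  have hJc := N3_Jc h q
  have hrpos : 0 < q.r c n := by linarith
  have hρ3 : 0 ≤ ρ + 3 := by linarith
  have cE : Continuous fun y => KE (mm m (s q.i) q.p) N (rs F) τ q.g (q.X y) :=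
    (KE_contE h q.i q.p N hAH.ea hρ hAH.q1 hAH.qQ hτ0.le hg1).comp hXc
  have cf : ∀ N' : ℕ, Continuous fun y => KE (mm m (s q.i) q.p) N' f τ q.g (q.X y) :=
    fun N' => (KE_cont h q.i q.p N' hρ3 hAH.amp τ hg1).comp hXc
  have cJ : Continuous fun y => ((q.J y : ℝ) : ℂ) := Complex.continuous_ofReal.comp hJc
  have cθ : Continuous fun y => thR δ e y := by
    have h1 : Continuous fun y : ℝ => (thE δ e (y : ℂ)).re :=
      Complex.continuous_re.comp ((thE_diff hep).continuous.comp Complex.continuous_ofReal)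
    have h2 : (fun y : ℝ => (thE δ e (y : ℂ)).re) = fun y => thR δ e y := by
      funext y
      rw [thE_ofReal, Complex.ofReal_re]
    rwa [h2] at h1
  have cθc : Continuous fun y => ((thR δ e y : ℝ) : ℂ) := Complex.continuous_ofReal.comp cθ
  have hdlow : ∀ y, r1 ≤ Fd (mm m (s q.i) q.p) q.g q.x q.v y := by
    intro y
    refine (hr1b.trans ?_).trans (hFd y).2.1
    rw [div_le_iff₀ (by positivity)]
    nlinarith
  have hdup : ∀ y, |y| ≤ 1 / 2 → Fd (mm m (s q.i) q.p) q.g q.x q.v y ≤ R + 1 := by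
    intro y hy
    have := (hFd y).2.2
    linarith
  -- the exchange
  obtain ⟨Bκ, hBκ⟩ : ∃ B : ℝ, B = (N + 1) * (n' * (3 + R) ^ n' / √(trM (mm m (s q.i) q.p) q.x q.v q.l - 2) *
        XN N (Qs q.i) R ^ (2 * A0 * (N + 1))) *
        ((τ + 1) * κ * ((64 * (N + 1) * (1 + ρ + (R + 1))) ^ (2 * N + 1) / √r1)) := ⟨_, rfl⟩
  have s1 : ‖(∫ y in (-(2 * δ))..(2 * δ), ((thR δ e y : ℝ) : ℂ) *
        KE (mm m (s q.i) q.p) N (rs F) τ q.g (q.X y) * ((q.J y : ℝ) : ℂ)) -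
      ∫ y in (-(2 * δ))..(2 * δ), ((thR δ e y : ℝ) : ℂ) *
        KE (mm m (s q.i) q.p) N f τ q.g (q.X y) * ((q.J y : ℝ) : ℂ)‖ ≤ Bκ := by
    have c1 : Continuous fun y => ((thR δ e y : ℝ) : ℂ) *
        KE (mm m (s q.i) q.p) N (rs F) τ q.g (q.X y) * ((q.J y : ℝ) : ℂ) := (cθc.mul cE).mul cJ
    have c2 : Continuous fun y => ((thR δ e y : ℝ) : ℂ) *
        KE (mm m (s q.i) q.p) N f τ q.g (q.X y) * ((q.J y : ℝ) : ℂ) := (cθc.mul (cf N)).mul cJ
    rw [← intervalIntegral.integral_sub (c1.intervalIntegrable _ _)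
      (c2.intervalIntegrable _ _)]
    have hb : ∀ y ∈ Set.uIoc (-(2 * δ)) (2 * δ), ‖((thR δ e y : ℝ) : ℂ) *
        KE (mm m (s q.i) q.p) N (rs F) τ q.g (q.X y) * ((q.J y : ℝ) : ℂ) -
        ((thR δ e y : ℝ) : ℂ) *
        KE (mm m (s q.i) q.p) N f τ q.g (q.X y) * ((q.J y : ℝ) : ℂ)‖ ≤ Bκ := by
      intro y hy
      rw [Set.uIoc_of_le (by linarith)] at hy
      have hy1 : |y| ≤ 2 * δ := abs_le.2 ⟨hy.1.le, hy.2⟩
      have h1 := N3_kap h (τ := τ) (κ := κ) (ρ := ρ) (R := R) hA0 hn' hr1 hr1c N q hQ1 hlR hAH hτ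
        (by linarith : |y| ≤ 1 / 4) (N3_cut_one hrpos (hy1.trans hδr)) (hdlow y)
        (hdup y (by linarith))
      rw [← hBκ] at h1
      have e1 : ((thR δ e y : ℝ) : ℂ) *
        KE (mm m (s q.i) q.p) N (rs F) τ q.g (q.X y) * ((q.J y : ℝ) : ℂ) -
        ((thR δ e y : ℝ) : ℂ) *
        KE (mm m (s q.i) q.p) N f τ q.g (q.X y) * ((q.J y : ℝ) : ℂ) =
        ((thR δ e y : ℝ) : ℂ) * ((KE (mm m (s q.i) q.p) N (rs F) τ q.g (q.X y) -
          KE (mm m (s q.i) q.p) N f τ q.g (q.X y)) * ((q.J y : ℝ) : ℂ)) := by ring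
      rw [e1, norm_mul, Complex.norm_real, Real.norm_eq_abs,
        abs_of_nonneg (thR_nonneg hdp.le hep y)]
      calc thR δ e y * _ ≤ 1 * Bκ := mul_le_mul (thR_le_one hdp.le hep y) h1 (norm_nonneg _)
            (by norm_num)
        _ = Bκ := one_mul _
    have hBκ0 : 0 ≤ Bκ := (norm_nonneg _).trans (hb (2 * δ) (by
      rw [Set.uIoc_of_le (by linarith)]
      exact ⟨by linarith, le_rfl⟩))
    refine (intervalIntegral.norm_integral_le_of_norm_le_const hb).trans ?_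
    have h2 : |2 * δ - -(2 * δ)| ≤ 1 := by
      rw [abs_of_nonneg (by linarith)]
      linarith
    calc Bκ * |2 * δ - -(2 * δ)| ≤ Bκ * 1 := mul_le_mul_of_nonneg_left h2 hBκ0
      _ = Bκ := mul_one _
  -- the high terms
  have s2 := hhigh N q f R M K τ δ e hR0 hlR hDH hδr hτ hK hM
    (le_trans (mul_le_mul_of_nonneg_right
      (pow_le_pow_right₀ (by rw [← hX]; exact hX0) (by omega : A1 ≤ A)) (by linarith)) hXK)
    (fun j hj hjN r hr hrR' => hal j hj hjN r (hr1a.trans hr) hrR')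
  have e2 : (∫ y in (-(2 * δ))..(2 * δ), ((thR δ e y : ℝ) : ℂ) *
        KE (mm m (s q.i) q.p) N f τ q.g (q.X y) * ((q.J y : ℝ) : ℂ)) =
      (∫ y in (-(2 * δ))..(2 * δ), ((thR δ e y : ℝ) : ℂ) *
        (KE (mm m (s q.i) q.p) 2 f τ q.g (q.X y) * ((q.J y : ℝ) : ℂ))) +
      ∫ y in (-(2 * δ))..(2 * δ), ((thR δ e y : ℝ) : ℂ) *
        (Complex.exp (-(Complex.I * τ * ds (mm m (s q.i) q.p) (q.X y) (q.g • q.X y))) *
          ∑ j ∈ Finset.Icc 3 N, ((UU (Gx (mm m (s q.i) q.p) (q.X y)) j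
            (Vx (mm m (s q.i) q.p) (q.X y) (q.g • q.X y)) : ℝ) : ℂ) *
              al j f τ (ds (mm m (s q.i) q.p) (q.X y) (q.g • q.X y))) * ((q.J y : ℝ) : ℂ) := by
    have hK2 : ∀ y, Complex.exp (-(Complex.I * τ * ds (mm m (s q.i) q.p) (q.X y) (q.g • q.X y))) *
          ∑ j ∈ Finset.Icc 3 N, ((UU (Gx (mm m (s q.i) q.p) (q.X y)) j
            (Vx (mm m (s q.i) q.p) (q.X y) (q.g • q.X y)) : ℝ) : ℂ) *
              al j f τ (ds (mm m (s q.i) q.p) (q.X y) (q.g • q.X y)) =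
        KE (mm m (s q.i) q.p) N f τ q.g (q.X y) - KE (mm m (s q.i) q.p) 2 f τ q.g (q.X y) := by
      intro y
      unfold KE KC
      have h1 : Finset.range (N + 1) = Finset.range (2 + 1) ∪ Finset.Icc 3 N := by
        ext j
        simp only [Finset.mem_union, Finset.mem_range, Finset.mem_Icc]
        omega
      have h2 : Disjoint (Finset.range (2 + 1)) (Finset.Icc 3 N) := by
        rw [Finset.disjoint_left]
        intro j hj
        simp only [Finset.mem_range, Finset.mem_Icc] at hj ⊢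
        omega
      rw [h1, Finset.sum_union h2]
      ring
    have hc2 : Continuous fun y => ((thR δ e y : ℝ) : ℂ) *
        (KE (mm m (s q.i) q.p) 2 f τ q.g (q.X y) * ((q.J y : ℝ) : ℂ)) := cθc.mul ((cf 2).mul cJ)
    have hc3 : Continuous fun y => ((thR δ e y : ℝ) : ℂ) *
        (KE (mm m (s q.i) q.p) N f τ q.g (q.X y) -
          KE (mm m (s q.i) q.p) 2 f τ q.g (q.X y)) * ((q.J y : ℝ) : ℂ) :=
      (cθc.mul ((cf N).sub (cf 2))).mul cJ
    simp only [hK2]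
    rw [← intervalIntegral.integral_add (hc2.intervalIntegrable _ _) (hc3.intervalIntegrable _ _)]
    congr 1
    funext y
    ring
  -- the leading terms
  obtain ⟨ε, hεd⟩ : ∃ ε : ℝ, ε = √2 * Real.exp (-(δ ^ 2 / (8 * e ^ 2))) := ⟨_, rfl⟩
  obtain ⟨B2, hB2⟩ : ∃ B : ℝ, B = (n' * (3 + R) ^ n' /
      √(trM (mm m (s q.i) q.p) q.x q.v q.l - 2)) *
        (3 * (XN N (Qs q.i) R ^ (6 * A0) * (C4 * (1 + (ρ + 3)) ^ C4 * (M' * τ)))) := ⟨_, rfl⟩
  have hX0' : 0 ≤ XN N (Qs q.i) R := by rw [← hX]; linarith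
  have hB20 : 0 ≤ B2 := by
    rw [hB2]
    positivity
  have hε0 : 0 ≤ ε := by
    rw [hεd]
    positivity
  have hχ0 : ∀ y, 1 / 2 ≤ |y| → cut (y / q.r c n) = 0 := by
    intro y hy
    apply N3_cut_zero
    have h1 : (1 : ℝ) ≤ (2 + q.l) ^ n := one_le_pow₀ (by linarith)
    have h2 : q.r c n ≤ c := by
      unfold AxU.r
      exact div_le_self hb.c_pos.le h1
    have h3 := hb.c_le
    rw [abs_div, abs_of_pos hrpos, le_div_iff₀ hrpos]
    linarith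
  have s3 := N3_core (θ := fun y => thR δ e y) (c4 := fun y => cut (4 * y / δ))
    (χ := fun y => cut (y / q.r c n)) (u := fun y => KE (mm m (s q.i) q.p) 2 f τ q.g (q.X y) *
      ((q.J y : ℝ) : ℂ)) (δ := δ) (B := B2) (ε := ε) cθ
    (cut.continuous.comp (by fun_prop)) (cut.continuous.comp (by fun_prop)) ((cf 2).mul cJ) hdp
    (fun y hy => N3_cut_one hrpos (hy.trans hδr)) hχ0
    (fun y => by
      rcases le_or_gt (1 / 2) |y| with hy | hy
      · rw [hχ0 y hy]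
        simpa using hB20
      · rw [hB2]
        exact N3_two h hA0 hn' hal4 hN q hQ1 hlR hρ3 hM' hAmp hτ hy.le
          (hl0.le.trans (hFd y).2.1) (hdlow y) (hdup y hy.le))
    (fun y => cut.nonneg) (fun y => cut.le_one) hε0
    (fun y hy => by
      have h1 : |y| + δ / 2 ≤ δ := by
        by_contra hcon
        push Not at hcon
        apply hy
        apply N3_cut_zero
        rw [abs_div, abs_of_pos hdp, le_div_iff₀ hdp, abs_mul, abs_of_nonneg (by norm_num : (0 : ℝ) ≤ 4)]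
        linarith
      refine (thR_in hdp.le hep (by linarith : 0 ≤ δ / 2) h1).trans (le_of_eq ?_)
      rw [hεd]
      congr 2
      field_simp
      ring)
    (fun y hy => by
      have h1 : δ + δ ≤ |y| := by linarith
      refine (thR_out hdp.le hep hdp.le h1).trans ?_
      rw [hεd]
      apply mul_le_mul_of_nonneg_left _ (Real.sqrt_nonneg _)
      apply Real.exp_le_exp.2
      apply neg_le_neg
      apply div_le_div_of_nonneg_left (by positivity) (by positivity)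
      nlinarith [sq_nonneg e])
  have s4 := hibp q f (ρ + 3) R M' τ δ e hρ3 (by linarith) hAmp hτ hDH hδr hlR
  have s5 := hline q f (ρ + 3) M' τ hρ3 hAmp.amp hτ
  obtain ⟨S, hSd⟩ : ∃ S : ℝ, S = √(trM (mm m (s q.i) q.p) q.x q.v q.l - 2) := ⟨_, rfl⟩
  have e3 : (∫ y, ((cut (y / q.r c n) : ℝ) : ℂ) * (KE (mm m (s q.i) q.p) 2 f τ q.g (q.X y) *
      ((q.J y : ℝ) : ℂ))) = ∫ y, ((cut (y / q.r c n) : ℝ) : ℂ) *
        KE (mm m (s q.i) q.p) 2 f τ q.g (q.X y) * ((q.J y : ℝ) : ℂ) := by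
    congr 1
    funext y
    ring
  have e4 : (∫ y, (((1 - cut (4 * y / δ)) * (1 - thR δ e y) * cut (y / q.r c n) : ℝ) : ℂ) *
      (KE (mm m (s q.i) q.p) 2 f τ q.g (q.X y) * ((q.J y : ℝ) : ℂ))) =
      ∫ y, (((1 - cut (4 * y / δ)) * (1 - thR δ e y) * cut (y / q.r c n) : ℝ) : ℂ) *
        KE (mm m (s q.i) q.p) 2 f τ q.g (q.X y) * ((q.J y : ℝ) : ℂ) := by
    congr 1
    funext y
    ring
  simp only [e3, e4] at s3
  rw [← hSd] at s2 s4 s5 hS hSpos hBκ hB2 ⊢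
  rw [← hX] at s2 hBκ hB2 hXK ⊢
  obtain ⟨f1, f2, f3⟩ := N3_fin (A0 := A0) (n' := n') (k5 := k5) (k6 := k6) (C4 := C4)
    (A1 := A1) (A2 := A2)
    (C3 := C3) (n := n) (k7 := k7) hX1 hXN hR0 hρ hrR hN hτ hdp hep hM hM' hκ hK hct hr1 hS hk5 hk6
    he12 hXb hAd
  rw [← hBκ] at f2
  have hTN : TN A N (Qs q.i) R (M + M') κ τ δ e qd = X ^ (A * (N + 1)) * Real.exp (A * R) * τ *
      (κ + (M + M') * (Real.exp (-(τ * δ * e / A)) + Real.exp (-(τ * δ ^ 2 / X ^ A)) +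
      Real.exp (-(δ ^ 2 / (A * e ^ 2))) + Real.exp (-(qd ^ 2 / A)))) := by
    rw [TN, ← hX]
  rw [hTN]
  rw [← hεd, ← hB2] at f3
  have t0 : 0 ≤ X ^ (A * (N + 1)) * Real.exp (A * R) * τ := by positivity
  have t1 : X ^ (A * (N + 1)) * Real.exp (A * R) * τ * κ +
      X ^ (A * (N + 1)) * Real.exp (A * R) * τ * ((M + M') * Real.exp (-(δ ^ 2 / (A * e ^ 2)))) ≤
      X ^ (A * (N + 1)) * Real.exp (A * R) * τ *
      (κ + (M + M') * (Real.exp (-(τ * δ * e / A)) + Real.exp (-(τ * δ ^ 2 / X ^ A)) +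
      Real.exp (-(δ ^ 2 / (A * e ^ 2))) + Real.exp (-(qd ^ 2 / A)))) := by
    rw [← mul_add]
    apply mul_le_mul_of_nonneg_left _ t0
    apply add_le_add le_rfl
    apply mul_le_mul_of_nonneg_left _ (by linarith)
    have := Real.exp_pos (-(τ * δ * e / A))
    have := Real.exp_pos (-(τ * δ ^ 2 / X ^ A))
    have := Real.exp_pos (-(qd ^ 2 / A))
    linarith
  refine le_trans ?_ (add_le_add f1 (t1.trans' (add_le_add f2 f3)))
  rw [e2] at s1
  generalize (∫ y in (-(2 * δ))..(2 * δ), ((thR δ e y : ℝ) : ℂ) *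
        KE (mm m (s q.i) q.p) N (rs F) τ q.g (q.X y) * ((q.J y : ℝ) : ℂ)) = I0 at s1 ⊢
  generalize (∫ y in (-(2 * δ))..(2 * δ), ((thR δ e y : ℝ) : ℂ) *
        (KE (mm m (s q.i) q.p) 2 f τ q.g (q.X y) * ((q.J y : ℝ) : ℂ))) = I2 at s1 s3
  generalize (∫ y in (-(2 * δ))..(2 * δ), ((thR δ e y : ℝ) : ℂ) *
        (Complex.exp (-(Complex.I * τ * ds (mm m (s q.i) q.p) (q.X y) (q.g • q.X y))) *
          ∑ j ∈ Finset.Icc 3 N, ((UU (Gx (mm m (s q.i) q.p) (q.X y)) j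
            (Vx (mm m (s q.i) q.p) (q.X y) (q.g • q.X y)) : ℝ) : ℂ) *
              al j f τ (ds (mm m (s q.i) q.p) (q.X y) (q.g • q.X y))) * ((q.J y : ℝ) : ℂ)) = IH
    at s1 s2
  generalize (∫ y, ((cut (y / q.r c n) : ℝ) : ℂ) *
        KE (mm m (s q.i) q.p) 2 f τ q.g (q.X y) * ((q.J y : ℝ) : ℂ)) = Iχ at s3 s5
  generalize f q.l * Complex.exp (-(Complex.I * τ * q.l)) / ((S : ℝ) : ℂ) = L at s5 ⊢
  have e5 : I0 - L = (I0 - (I2 + IH)) + IH + (I2 - Iχ) + (Iχ - L) := by ring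
  rw [e5]
  have n1 := norm_add_le ((I0 - (I2 + IH)) + IH + (I2 - Iχ)) (Iχ - L)
  have n2 := norm_add_le ((I0 - (I2 + IH)) + IH) (I2 - Iχ)
  have n3 := norm_add_le (I0 - (I2 + IH)) IH
  linarith

end BE36C
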