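import Pool.Agent.LibBE36C.N3
import Pool.Agent.LibBE36C.F4

/-! BE36 C', row N4: the leading term (part C2').

MEDIUM. lead_own: template `lead` in LibBE99/Q7 (lines of the axis as `AxU`, `Q7_dens`, trM does not depend on the
base point of the axis): integrate row N3 over t ∈ [0, l0]; continuity of the inner integral from `ZT_cont`
(row U5). lead_two: ZT(p0, p1) ≈ ZF(p0, p1) (`ZF_ZT`, row F4) = ZF(p1, p1) (`ZF_swap`, LibBE99/U4, with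
ρ + 3) ≈ ZT(p1, p1) (`ZF_ZT` with p0 = p1, ‖p1 - p1‖ = 0) ≈ leading term (`lead_own` with g, g1: `ZF_swap`
is for the same g). Take the maximum of the constants A (TN and XN^A are increasing in A: XN ≥ 4; one
private monotonicity lemma; r1 is the one of N3). -/

open MeasureTheory Set Filter Topology Metric
open scoped ContDiff

namespace BE36C

open BGS BR BE

variable {Γ : Type} [Group Γ] [MulAction Γ Pl] {D : Set Pl}
variable {ι P : Type} [NormedAddCommGroup P] [NormedSpace ℝ P] [FiniteDimensional ℝ P]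
  {m : Pl → Co} {a b : ℝ} {s : ι → P × Pl → ℝ}

private theorem N4_X {N : ℕ} {Q R : ℝ} (hQ : 1 ≤ Q) (hR : 4 ≤ R) : 2 ≤ XN N Q R := by
  unfold XN
  have h1 : (2 : ℝ) ≤ (N : ℝ) + 2 := by
    have : (0 : ℝ) ≤ N := Nat.cast_nonneg N
    linarith
  have h2 : (1 : ℝ) ≤ 2 + R := by linarith
  calc (2 : ℝ) = 2 * 1 * 1 := by norm_num
    _ ≤ ((N : ℝ) + 2) * Q * (2 + R) := by gcongr

private theorem N4_TN {A' A N : ℕ} {Q R M M2 κ τ δ e q : ℝ} (hA : A' + 1 ≤ A) (hA' : 1 ≤ A')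
    (hX : 2 ≤ XN N Q R) (hR : 0 ≤ R) (hM : 0 ≤ M) (hM2 : M ≤ M2) (hκ : 0 ≤ κ) (hτ : 0 ≤ τ)
    (hδ : 0 < δ) (he : 0 < e) :
    2 * TN A' N Q R M κ τ δ e q ≤ TN A N Q R M2 κ τ δ e q := by
  unfold TN
  set X := XN N Q R with hXd
  have hX1 : 1 ≤ X := by linarith
  have hX0 : 0 < X := by linarith
  have hAA : (A' : ℝ) ≤ A := by exact_mod_cast (by omega : A' ≤ A)
  have hA0 : (0 : ℝ) < A' := by exact_mod_cast hA'
  have hA1 : (0 : ℝ) < A := by linarith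
  have h1 : 2 * X ^ (A' * (N + 1)) ≤ X ^ (A * (N + 1)) := by
    have h2 : A' * (N + 1) + 1 ≤ A * (N + 1) := by
      calc A' * (N + 1) + 1 ≤ (A' + 1) * (N + 1) := by nlinarith
        _ ≤ A * (N + 1) := Nat.mul_le_mul_right _ hA
    calc 2 * X ^ (A' * (N + 1)) ≤ X * X ^ (A' * (N + 1)) := by gcongr
      _ = X ^ (A' * (N + 1) + 1) := by rw [pow_succ, mul_comm]
      _ ≤ X ^ (A * (N + 1)) := pow_le_pow_right₀ hX1 h2
  have h2 : Real.exp (A' * R) ≤ Real.exp (A * R) :=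
    Real.exp_le_exp.2 (mul_le_mul_of_nonneg_right hAA hR)
  have h3 : Real.exp (-(τ * δ * e / A')) ≤ Real.exp (-(τ * δ * e / A)) := by
    apply Real.exp_le_exp.2
    have : τ * δ * e / A ≤ τ * δ * e / A' :=
      div_le_div_of_nonneg_left (by positivity) hA0 hAA
    linarith
  have h4 : Real.exp (-(τ * δ ^ 2 / X ^ A')) ≤ Real.exp (-(τ * δ ^ 2 / X ^ A)) := by
    apply Real.exp_le_exp.2
    have : τ * δ ^ 2 / X ^ A ≤ τ * δ ^ 2 / X ^ A' :=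
      div_le_div_of_nonneg_left (by positivity) (by positivity)
        (pow_le_pow_right₀ hX1 (by omega))
    linarith
  have h5 : Real.exp (-(δ ^ 2 / (A' * e ^ 2))) ≤ Real.exp (-(δ ^ 2 / (A * e ^ 2))) := by
    apply Real.exp_le_exp.2
    have : δ ^ 2 / (A * e ^ 2) ≤ δ ^ 2 / (A' * e ^ 2) :=
      div_le_div_of_nonneg_left (by positivity) (by positivity)
        (mul_le_mul_of_nonneg_right hAA (by positivity))
    linarith
  have h6 : Real.exp (-(q ^ 2 / A')) ≤ Real.exp (-(q ^ 2 / A)) := by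
    apply Real.exp_le_exp.2
    have : q ^ 2 / A ≤ q ^ 2 / A' := div_le_div_of_nonneg_left (by positivity) hA0 hAA
    linarith
  have hM20 : 0 ≤ M2 := hM.trans hM2
  calc 2 * (X ^ (A' * (N + 1)) * Real.exp (A' * R) * τ * (κ + M * (Real.exp (-(τ * δ * e / A')) +
        Real.exp (-(τ * δ ^ 2 / X ^ A')) + Real.exp (-(δ ^ 2 / (A' * e ^ 2))) +
        Real.exp (-(q ^ 2 / A'))))) =
      (2 * X ^ (A' * (N + 1))) * Real.exp (A' * R) * τ * (κ + M * (Real.exp (-(τ * δ * e / A')) +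
        Real.exp (-(τ * δ ^ 2 / X ^ A')) + Real.exp (-(δ ^ 2 / (A' * e ^ 2))) +
        Real.exp (-(q ^ 2 / A')))) := by ring
    _ ≤ _ := by gcongr

private theorem N4_TN0 {A N : ℕ} {Q R M κ τ δ e q : ℝ} (hX : 2 ≤ XN N Q R) (hM : 0 ≤ M)
    (hκ : 0 ≤ κ) (hτ : 0 ≤ τ) : 0 ≤ TN A N Q R M κ τ δ e q := by
  unfold TN
  have hX0 : 0 < XN N Q R := by linarith
  positivity

theorem lead_own (h : CF Γ D m a b s) {Qs : ι → ℝ} (hG : GI Γ D m s Qs) :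
    ∃ (A : ℕ) (r1 : ℝ), 1 ≤ A ∧ 0 < r1 ∧ r1 ≤ 1 ∧
    ∀ (N : ℕ) (i : ι) (p : P), ‖p‖ ≤ 1 → ∀ (g g0 : Γ) (x0 v0 : Pl) (l l0 : ℝ),
      Cls (mm m (s i) p) g g0 x0 v0 l l0 → ∀ (F : ℂ → ℂ) (f : ℝ → ℂ)
      (qd ρ R M M' κ K τ δ e : ℝ), 2 ≤ N →
      l ≤ R → AH F f (Qs i) qd ρ R M M' κ → BE73.AmpN 4 f (ρ + 3) M' → DH δ e →
      (2 + R) ^ A * δ ≤ 1 → 1 ≤ τ → 1 ≤ K → XN N (Qs i) R ^ A * K ≤ τ / 2 →
      1 ≤ e ^ 12 * τ ^ (3 / 2 : ℝ) →
      (∀ j, 3 ≤ j → j ≤ N → ∀ r, r1 ≤ r → r ≤ R + 1 →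
        ‖al j f τ r‖ ≤ K ^ (j + 1) * M * τ ^ (1 / 2 - j : ℝ)) →
      ‖ZT (mm m (s i) p) (mm m (s i) p) δ e N (rs F) τ g x0 v0 l0 -
        l0 * (f l * Complex.exp (-(Complex.I * τ * l)) /
          ((√(trM (mm m (s i) p) x0 v0 l - 2) : ℝ) : ℂ))‖ ≤
        XN N (Qs i) R ^ A * ((M' + K ^ 4 * M) / √τ) *
          (l0 / √(trM (mm m (s i) p) x0 v0 l - 2)) +
          l0 * TN A N (Qs i) R (M + M') κ τ δ e qd := by
  obtain ⟨A, r1, hA, hr1, hr1', hnear⟩ := near_all (Γ := Γ) h hG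
  refine ⟨A, r1, hA, hr1, hr1', ?_⟩
  intro N i p hp g g0 x0 v0 l l0 hc F f qd ρ R M M' κ K τ δ e hN hlR hAH hf hD hδ hτ hK hKτ he hal
  have hm0 : HM Γ (mm m (s i) p) := hm_mm h i p
  obtain ⟨hl0, _⟩ := Cls_len h.hX h.hO hm0 hc
  set main : ℂ := f l * Complex.exp (-(Complex.I * τ * l)) /
    ((√(trM (mm m (s i) p) x0 v0 l - 2) : ℝ) : ℂ) with hmain
  have hGc := ZT_cont h i hp hp N hAH.ea hAH.rho hAH.q1 hAH.qQ (by linarith : 0 ≤ τ) hD hc.axis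
  have hcont : Continuous fun t : ℝ => ∫ y in (-(2 * δ))..(2 * δ), ((thR δ e y : ℝ) : ℂ) *
      KE (mm m (s i) p) N (rs F) τ g (Fm (mm m (s i) p) x0 v0 (t, y)) *
      ((√(dt (mm m (s i) p (Fm (mm m (s i) p) x0 v0 (t, y)))) *
        |(fderiv ℝ (Fm (mm m (s i) p) x0 v0) (t, y)).det| : ℝ) : ℂ) :=
    intervalIntegral.continuous_parametric_intervalIntegral_of_continuous'
      (f := fun t y : ℝ => ((thR δ e y : ℝ) : ℂ) *
      KE (mm m (s i) p) N (rs F) τ g (Fm (mm m (s i) p) x0 v0 (t, y)) *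
      ((√(dt (mm m (s i) p (Fm (mm m (s i) p) x0 v0 (t, y)))) *
        |(fderiv ℝ (Fm (mm m (s i) p) x0 v0) (t, y)).det| : ℝ) : ℂ)) hGc _ _
  have e1 : ZT (mm m (s i) p) (mm m (s i) p) δ e N (rs F) τ g x0 v0 l0 - l0 * main =
      ∫ t in (0 : ℝ)..l0, ((∫ y in (-(2 * δ))..(2 * δ), ((thR δ e y : ℝ) : ℂ) *
        KE (mm m (s i) p) N (rs F) τ g (Fm (mm m (s i) p) x0 v0 (t, y)) *
        ((√(dt (mm m (s i) p (Fm (mm m (s i) p) x0 v0 (t, y)))) *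
          |(fderiv ℝ (Fm (mm m (s i) p) x0 v0) (t, y)).det| : ℝ) : ℂ)) - main) := by
    rw [intervalIntegral.integral_sub (hcont.intervalIntegrable _ _)
      (intervalIntegrable_const), intervalIntegral.integral_const, sub_zero]
    rfl
  rw [e1]
  have hb : ∀ t ∈ Set.uIoc (0 : ℝ) l0, ‖(∫ y in (-(2 * δ))..(2 * δ), ((thR δ e y : ℝ) : ℂ) *
        KE (mm m (s i) p) N (rs F) τ g (Fm (mm m (s i) p) x0 v0 (t, y)) *
        ((√(dt (mm m (s i) p (Fm (mm m (s i) p) x0 v0 (t, y)))) *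
          |(fderiv ℝ (Fm (mm m (s i) p) x0 v0) (t, y)).det| : ℝ) : ℂ)) - main‖ ≤
      XN N (Qs i) R ^ A * ((M' + K ^ 4 * M) / √τ) / √(trM (mm m (s i) p) x0 v0 l - 2) +
        TN A N (Qs i) R (M + M') κ τ δ e qd := by
    intro t _
    set q : AxU Γ ι P m s := ⟨i, p, g, (gfl (mm m (s i) p) t (x0, v0)).1,
      (gfl (mm m (s i) p) t (x0, v0)).2, l, hp, Axis_along h.hX h.hO hm0 hc.axis t⟩ with hq
    have key := hnear N q F f qd ρ R M M' κ K τ δ e hN hlR hAH hf hD hδ hτ hK hKτ he hal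
    have htr : trM (mm m (s q.i) q.p) q.x q.v q.l = trM (mm m (s i) p) x0 v0 l :=
      trM_along h.hX h.hO hm0 hc.axis t
    rw [htr] at key
    have e2 : (∫ y in (-(2 * δ))..(2 * δ), ((thR δ e y : ℝ) : ℂ) *
        KE (mm m (s i) p) N (rs F) τ g (Fm (mm m (s i) p) x0 v0 (t, y)) *
        ((√(dt (mm m (s i) p (Fm (mm m (s i) p) x0 v0 (t, y)))) *
          |(fderiv ℝ (Fm (mm m (s i) p) x0 v0) (t, y)).det| : ℝ) : ℂ)) =
        ∫ y in (-(2 * δ))..(2 * δ), ((thR δ e y : ℝ) : ℂ) *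
          KE (mm m (s q.i) q.p) N (rs F) τ q.g (q.X y) * ((q.J y : ℝ) : ℂ) := by
      congr 1
      funext y
      rw [Q7_dens h i p hc.axis.unit t y]
      rfl
    rw [e2]
    exact key
  refine (intervalIntegral.norm_integral_le_of_norm_le_const hb).trans (le_of_eq ?_)
  rw [sub_zero, abs_of_pos hl0]
  ring

/-- Part C2': the leading term for two metrics. -/
theorem lead_two (h : CF Γ D m a b s) {Qs : ι → ℝ} (hG : GI Γ D m s Qs) :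
    ∃ (A : ℕ) (r1 : ℝ), 1 ≤ A ∧ 0 < r1 ∧ r1 ≤ 1 ∧
    ∀ (N : ℕ) (i : ι) (p0 p1 : P), ‖p0‖ ≤ 1 → ‖p1‖ ≤ 1 → ∀ (g g0 g1 : Γ) (x0 v0 x1 v1 : Pl)
      (l l0 l1 l01 : ℝ), Cls (mm m (s i) p0) g g0 x0 v0 l l0 →
      Cls (mm m (s i) p1) g g1 x1 v1 l1 l01 → ∀ (F : ℂ → ℂ) (f : ℝ → ℂ)
      (qd ρ R M M' κ K τ δ e : ℝ), 2 ≤ N →
      l ≤ R → l1 ≤ R → AH F f (Qs i) qd ρ R M M' κ → BE73.AmpN 4 f (ρ + 3) M' → DH δ e →
      (2 + R) ^ A * δ ≤ 1 → 1 ≤ τ → 1 ≤ K → XN N (Qs i) R ^ A * K ≤ τ / 2 →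
      1 ≤ e ^ 12 * τ ^ (3 / 2 : ℝ) → XN N (Qs i) R ^ A * ‖p1 - p0‖ ≤ δ →
      (∀ j, 3 ≤ j → j ≤ N → ∀ r, r1 ≤ r → r ≤ R + 1 →
        ‖al j f τ r‖ ≤ K ^ (j + 1) * M * τ ^ (1 / 2 - j : ℝ)) →
      ‖ZT (mm m (s i) p0) (mm m (s i) p1) δ e N (rs F) τ g x0 v0 l0 -
        l01 * (f l1 * Complex.exp (-(Complex.I * τ * l1)) /
          ((√(trM (mm m (s i) p1) x1 v1 l1 - 2) : ℝ) : ℂ))‖ ≤
        XN N (Qs i) R ^ A * ((M' + K ^ 4 * M) / √τ) *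
          (l01 / √(trM (mm m (s i) p1) x1 v1 l1 - 2)) +
          (l0 + l01) * TN A N (Qs i) R (M + M') κ τ δ e qd := by
  obtain ⟨A1, hA1, hZ⟩ := ZF_ZT (Γ := Γ) h hG
  obtain ⟨A2, r1, hA2, hr1, hr1', hlead⟩ := lead_own (Γ := Γ) h hG
  refine ⟨A1 + A2, r1, by omega, hr1, hr1', ?_⟩
  intro N i p0 p1 hp0 hp1 g g0 g1 x0 v0 x1 v1 l l0 l1 l01 hc hc1 F f qd ρ R M M' κ K τ δ e hN hlR
    hl1R hAH hf hD hδ hτ hK hKτ he hp hal
  have hm0 : HM Γ (mm m (s i) p0) := hm_mm h i p0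
  have hm1 : HM Γ (mm m (s i) p1) := hm_mm h i p1
  obtain ⟨hl0, _⟩ := Cls_len h.hX h.hO hm0 hc
  obtain ⟨hl01, _⟩ := Cls_len h.hX h.hO hm1 hc1
  have hM : 0 ≤ M := hAH.ea.M_nonneg
  have hM' : 0 ≤ M' := (norm_nonneg _).trans (hAH.amp.bound 0 (by norm_num) 0)
  have hκ : 0 ≤ κ := hAH.cut.nonneg
  have hR4 : 4 ≤ R := by
    have := hAH.rR
    have := hAH.rho
    linarith
  have hτ0 : 0 < τ := by linarith
  have hX : 2 ≤ XN N (Qs i) R := N4_X (hG.one i) hR4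
  have hX1 : 1 ≤ XN N (Qs i) R := by linarith
  have hX0 : 0 < XN N (Qs i) R := by linarith
  have e1 : XN N (Qs i) R ^ A1 ≤ XN N (Qs i) R ^ (A1 + A2) := pow_le_pow_right₀ hX1 (by omega)
  have e2 : XN N (Qs i) R ^ A2 ≤ XN N (Qs i) R ^ (A1 + A2) := pow_le_pow_right₀ hX1 (by omega)
  have e3 : (2 + R) ^ A2 ≤ (2 + R) ^ (A1 + A2) := pow_le_pow_right₀ (by linarith) (by omega)
  have hδ0 : 0 < δ := hD.dpos
  have he0 : 0 < e := hD.epos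
  have k1 := hZ N i p0 p1 hp0 hp1 g g0 x0 v0 l l0 hc F f qd ρ R M M' κ τ δ e hlR hAH hD hτ
    ((mul_le_mul_of_nonneg_right e1 (norm_nonneg _)).trans hp)
  have k2 := hZ N i p1 p1 hp1 hp1 g g1 x1 v1 l1 l01 hc1 F f qd ρ R M M' κ τ δ e hl1R hAH hD hτ
    (by
      rw [sub_self, norm_zero, mul_zero]
      exact hδ0.le)
  have k3 := hlead N i p1 hp1 g g1 x1 v1 l1 l01 hc1 F f qd ρ R M M' κ K τ δ e hN hl1R hAH hf hD
    ((mul_le_mul_of_nonneg_right e3 hδ0.le).trans hδ) hτ hK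
    ((mul_le_mul_of_nonneg_right e2 (by linarith)).trans hKτ) he hal
  have k4 := ZF_swap h i hp0 hp1 N hc hc1 (f := f) (ρ := ρ + 3) (M := M')
    (by have := hAH.rho; linarith) hAH.amp τ
  rw [k4, norm_sub_rev] at k1
  have hT1 := N4_TN (A' := A1) (A := A1 + A2) (N := N) (Q := Qs i) (R := R) (M := M)
    (M2 := M + M') (κ := κ) (τ := τ) (δ := δ) (e := e) (q := qd) (by omega) hA1 hX (by linarith) hM
    (by linarith) hκ hτ0.le hδ0 he0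
  have hT2 := N4_TN (A' := A2) (A := A1 + A2) (N := N) (Q := Qs i) (R := R) (M := M + M')
    (M2 := M + M') (κ := κ) (τ := τ) (δ := δ) (e := e) (q := qd) (by omega) hA2 hX (by linarith)
    (by linarith) le_rfl hκ hτ0.le hδ0 he0
  have hT10 := N4_TN0 (A := A1) (N := N) (Q := Qs i) (R := R) (M := M) (κ := κ) (τ := τ)
    (δ := δ) (e := e) (q := qd) hX hM hκ hτ0.le
  have hS : 0 ≤ l01 / √(trM (mm m (s i) p1) x1 v1 l1 - 2) :=
    div_nonneg hl01.le (Real.sqrt_nonneg _)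
  have hY : 0 ≤ (M' + K ^ 4 * M) / √τ := by
    have : 0 ≤ K := by linarith
    positivity
  have k5 := (norm_add_le _ _).trans (add_le_add ((norm_add_le _ _).trans (add_le_add k1 k2)) k3)
  refine le_trans (le_of_eq ?_) (k5.trans ?_)
  · congr 1
    ring
  · have b1 : XN N (Qs i) R ^ A2 * ((M' + K ^ 4 * M) / √τ) *
        (l01 / √(trM (mm m (s i) p1) x1 v1 l1 - 2)) ≤
        XN N (Qs i) R ^ (A1 + A2) * ((M' + K ^ 4 * M) / √τ) *
        (l01 / √(trM (mm m (s i) p1) x1 v1 l1 - 2)) := by gcongr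
    set T := TN (A1 + A2) N (Qs i) R (M + M') κ τ δ e qd with hTd
    set T1 := TN A1 N (Qs i) R M κ τ δ e qd with hT1d
    set T2 := TN A2 N (Qs i) R (M + M') κ τ δ e qd with hT2d
    have b2 : l0 * T1 ≤ l0 * T := mul_le_mul_of_nonneg_left (by linarith) hl0.le
    have b3 : l01 * T1 + l01 * T2 ≤ l01 * T := by
      rw [← mul_add]
      exact mul_le_mul_of_nonneg_left (by linarith) hl01.le
    have b4 : (l0 + l01) * T = l0 * T + l01 * T := by ring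
    rw [b4]
    linarith

end BE36C
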