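import Pool.Agent.LibBE36C.Defs

/-! BE36 C', row P1: the imaginary part of a phase below the real line.

SHORT/MEDIUM, only Mathlib (and FC.lean). Let M1 = 4 B / r. For w in ball y (r/2): ball w (r/2) ⊆ ball y r, so
`‖deriv f w‖ ≤ 2 B / (r/2) = M1` (`Complex.norm_deriv_le_of_forall_mem_sphere_norm_le`, or `cau_fderiv`).
deriv f is holomorphic on ball y (r/2) and `cau_lip` for it (R = r/2, M = M1) gives
`‖deriv f w - deriv f y‖ ≤ 32 B / r² * ‖w - y‖` on ball y (r/4). The function
`f w - deriv f y * w` has there a derivative of norm ≤ 32 B t / r² on the ball of radius t (closed), so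
`‖f (y - t i) - f y + i t deriv f y‖ ≤ 32 B t² / r² ≤ a t / 2` (segment, mean value), and
`im (f y - i t deriv f y) = - t re (deriv f y) ≤ - a t`. The second claim is the mean value inequality
with M1. (t = 0 is trivial.) -/

open MeasureTheory Set Filter Topology Metric

namespace BE36C

theorem phase_im {f : ℂ → ℂ} {y r B a t : ℝ} (hr : 0 < r) (hB : 0 < B)
    (hf : DifferentiableOn ℂ f (ball (y : ℂ) r)) (hb : ∀ z ∈ ball (y : ℂ) r, ‖f z‖ ≤ B)
    (h0 : (f y).im = 0) (hi : (deriv f y).im = 0) (ha : a ≤ (deriv f y).re) (ha0 : 0 < a)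
    (ht0 : 0 ≤ t) (ht : t ≤ r / 8) (ht' : 64 * B * t ≤ a * r ^ 2) :
    (f (y - t * Complex.I)).im ≤ -(a / 2 * t) ∧
      ‖f (y - t * Complex.I) - f y‖ ≤ 4 * B / r * t := by
  have hM1 : ∀ w ∈ ball (y : ℂ) (r / 2), ‖deriv f w‖ ≤ 4 * B / r := by
    intro w hw
    have hsub : ball w (r / 2) ⊆ ball (y : ℂ) r := by
      apply ball_subset_ball'
      rw [mem_ball] at hw
      linarith
    have h1 := cau_fderiv (V := f) (x := w) (r := r / 2) (M := B) (by positivity)
      (hf.mono hsub) fun e he => hb e (hsub he)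
    rw [norm_deriv_eq_norm_fderiv]
    refine h1.trans (le_of_eq ?_)
    field_simp
    norm_num
  have hdd : DifferentiableOn ℂ (deriv f) (ball (y : ℂ) (r / 2)) :=
    (hf.mono (ball_subset_ball (by linarith))).deriv isOpen_ball
  have hlip : ∀ w ∈ ball (y : ℂ) (r / 4), ‖deriv f w - deriv f y‖ ≤ 32 * B / r ^ 2 * ‖w - y‖ := by
    intro w hw
    have h4 : ball (y : ℂ) (r / 2 / 2) = ball (y : ℂ) (r / 4) := by
      congr 1
      ring
    have h1 := cau_lip (V := deriv f) (x := (y : ℂ)) (R := r / 2) (M := 4 * B / r)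
      (by positivity) hdd hM1 (e := w) (e' := (y : ℂ)) (by rw [h4]; exact hw)
      (mem_ball_self (by positivity))
    refine h1.trans (le_of_eq ?_)
    have h5 : 4 * (4 * B / r) / (r / 2) = 32 * B / r ^ 2 := by
      field_simp
      norm_num
    rw [h5]
  have hcl : ∀ w ∈ closedBall (y : ℂ) t, w ∈ ball (y : ℂ) (r / 4) := by
    intro w hw
    rw [mem_closedBall] at hw
    rw [mem_ball]
    linarith
  have hcl2 : ∀ w ∈ closedBall (y : ℂ) t, w ∈ ball (y : ℂ) (r / 2) := by
    intro w hw
    rw [mem_closedBall] at hw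
    rw [mem_ball]
    linarith
  have hdf : ∀ w ∈ closedBall (y : ℂ) t, DifferentiableAt ℂ f w := by
    intro w hw
    refine hf.differentiableAt (isOpen_ball.mem_nhds ?_)
    rw [mem_closedBall] at hw
    rw [mem_ball]
    linarith
  have hxs : (y : ℂ) ∈ closedBall (y : ℂ) t := mem_closedBall_self ht0
  have hn : ‖((y : ℂ) - t * Complex.I) - y‖ = t := by
    rw [show ((y : ℂ) - t * Complex.I) - y = -(t * Complex.I) by ring, norm_neg, norm_mul,
      Complex.norm_I, mul_one, Complex.norm_real, Real.norm_eq_abs, abs_of_nonneg ht0]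
  have hys : ((y : ℂ) - t * Complex.I) ∈ closedBall (y : ℂ) t := by
    rw [mem_closedBall, dist_eq_norm, hn]
  constructor
  · have h1 : ‖(f (y - t * Complex.I) - deriv f y * (y - t * Complex.I)) -
        (f y - deriv f y * y)‖ ≤ 32 * B / r ^ 2 * t * ‖((y : ℂ) - t * Complex.I) - y‖ := by
      refine Convex.norm_image_sub_le_of_norm_hasDerivWithin_le (𝕜 := ℂ)
        (f := fun w => f w - deriv f y * w) (f' := fun w => deriv f w - deriv f y)
        (s := closedBall (y : ℂ) t) (C := 32 * B / r ^ 2 * t) (fun w hw => ?_) (fun w hw => ?_)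
        (convex_closedBall _ _) hxs hys
      · have h2 := (hdf w hw).hasDerivAt.sub ((hasDerivAt_id w).const_mul (deriv f y))
        rw [mul_one] at h2
        exact h2.hasDerivWithinAt
      · refine (hlip w (hcl w hw)).trans ?_
        have h3 : ‖w - y‖ ≤ t := by
          rw [mem_closedBall, dist_eq_norm] at hw
          exact hw
        exact mul_le_mul_of_nonneg_left h3 (by positivity)
    rw [hn] at h1
    have h2 : 32 * B / r ^ 2 * t * t ≤ a / 2 * t := by
      refine mul_le_mul_of_nonneg_right ?_ ht0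
      rw [div_mul_eq_mul_div, div_le_iff₀ (by positivity)]
      linarith
    set E : ℂ := (f (y - t * Complex.I) - deriv f y * (y - t * Complex.I)) -
        (f y - deriv f y * y) with hE
    have h3 : f (y - t * Complex.I) = f y - t * Complex.I * deriv f y + E := by
      rw [hE]
      ring
    have h4 : E.im ≤ a / 2 * t := (le_abs_self _).trans ((Complex.abs_im_le_norm E).trans
      (h1.trans h2))
    have h5 : (f y - t * Complex.I * deriv f y + E).im = - t * (deriv f y).re + E.im := by
      simp only [Complex.add_im, Complex.sub_im, Complex.mul_im, Complex.mul_re,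
        Complex.ofReal_re, Complex.ofReal_im, Complex.I_re, Complex.I_im, h0, hi]
      ring
    rw [h3, h5]
    have h6 : a * t ≤ (deriv f y).re * t := mul_le_mul_of_nonneg_right ha ht0
    linarith
  · have h1 : ‖f (y - t * Complex.I) - f y‖ ≤ 4 * B / r * ‖((y : ℂ) - t * Complex.I) - y‖ :=
      Convex.norm_image_sub_le_of_norm_deriv_le (𝕜 := ℂ) (f := f) (s := closedBall (y : ℂ) t)
        (C := 4 * B / r) hdf (fun w hw => hM1 w (hcl2 w hw)) (convex_closedBall _ _) hxs hys
    rw [hn] at h1
    exact h1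

end BE36C
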